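import Pool.Agent.N64.AF.Ba

/-!
# Project AF (helper64), part Bb (helper8): ranks of idempotents

Lifting of idempotents modulo the radical of the trace form, the Schwarz inequality, the ranks of
the numerical idempotents, semisimplicity.
-/

set_option autoImplicit false

open CategoryTheory Limits MonoidalCategory Module
open Pool.Agent.Y112.SR Pool.Agent.Y112.KD
open Pool.Agent.Y116.MT (tr)

namespace Pool.Agent.N8.AFBb

open Polynomial Pool.Agent.Y129

section Fit

variable {K V : Type*} [Field K] [AddCommGroup V] [Module K V] [FiniteDimensional K V]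

/-- The Fitting projector of an operator is a polynomial multiple of the operator. -/
lemma exists_fit (y : Module.End K V) : ∃ q : K[X],
    (aeval y q * y) * (aeval y q * y) = aeval y q * y ∧ (aeval y q * y = 0 → IsNilpotent y) := by
  have h0 : minpoly K y ≠ 0 := minpoly.ne_zero (Algebra.IsIntegral.isIntegral y)
  obtain ⟨f, hf, hnd⟩ := exists_eq_pow_rootMultiplicity_mul_and_not_dvd (minpoly K y) h0 0
  set m := (minpoly K y).rootMultiplicity 0
  rw [map_zero, sub_zero] at hf hnd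
  have hirr : Irreducible (X : K[X]) := irreducible_X
  have hc : IsCoprime ((X : K[X]) ^ (m + 1)) f :=
    ((hirr.coprime_iff_not_dvd).2 hnd).pow_left
  obtain ⟨a, b, hab⟩ := hc
  have hmin : aeval y (X ^ m * f) = 0 := by rw [← hf]; exact minpoly.aeval K y
  have hq : aeval y (a * X ^ m) * y = aeval y (a * X ^ (m + 1)) := by
    have : a * X ^ (m + 1) = (a * X ^ m) * X := by ring
    rw [this, map_mul (aeval y) (a * X ^ m) X, aeval_X]
  refine ⟨a * X ^ m, ?_, ?_⟩
  · rw [hq, ← map_mul]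
    have h1 : a * X ^ (m + 1) * (a * X ^ (m + 1)) =
        a * X ^ (m + 1) - (a * b * X) * (X ^ m * f) := by
      have : a * X ^ (m + 1) = 1 - b * f := by rw [← hab]; ring
      calc a * X ^ (m + 1) * (a * X ^ (m + 1)) = a * X ^ (m + 1) * (1 - b * f) := by
            rw [← this]
        _ = _ := by ring
    rw [h1, map_sub, map_mul (aeval y) (a * b * X), hmin, mul_zero, sub_zero]
  · intro h
    rw [hq] at h
    refine ⟨m + 1, ?_⟩
    have h1 : aeval y (b * f) = 1 := by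
      have h2 := congrArg (aeval y) hab
      rw [map_add, h, zero_add, map_one] at h2
      exact h2
    have h3 : y ^ (m + 1) = aeval y ((X : K[X]) ^ (m + 1)) * aeval y (b * f) := by
      rw [h1, mul_one, map_pow, aeval_X]
    have h4 : (X : K[X]) ^ (m + 1) * (b * f) = (b * X) * (X ^ m * f) := by ring
    rw [h3, ← map_mul, h4, map_mul (aeval y) (b * X), hmin, mul_zero]

end Fit

section Cat

variable {K : Type*} [Field K] {Ob : Type*} {H : Ob → Type*} [∀ Y, AddCommGroup (H Y)]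
  [∀ Y, Module K (H Y)] {C : ∀ Y Z, Submodule K (H Y →ₗ[K] H Z)}

lemma perp_comp (hC : IsCat C) {X Y Z : Ob} {f : H X →ₗ[K] H Y} (hf : f ∈ perp C X Y)
    {g : H Y →ₗ[K] H Z} (hg : g ∈ C Y Z) : g ∘ₗ f ∈ perp C X Z := by
  intro h hh
  exact hf (h ∘ₗ g) (hC.comp_mem hh hg)

variable [∀ Y, Module.Finite K (H Y)]

lemma perp_comp' (hC : IsCat C) {X Y Z : Ob} {f : H Y →ₗ[K] H Z} (hf : f ∈ perp C Y Z)
    {e : H X →ₗ[K] H Y} (he : e ∈ C X Y) : f ∘ₗ e ∈ perp C X Z := by
  intro h hh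
  have h1 : h ∘ₗ f ∘ₗ e = (h ∘ₗ f) ∘ₗ e := rfl
  have h2 : e ∘ₗ (h ∘ₗ f) = (e ∘ₗ h) ∘ₗ f := rfl
  rw [h1, LinearMap.trace_comp_comm', h2]
  exact hf (e ∘ₗ h) (hC.comp_mem he hh)

/-- The algebra of the endomorphisms of an object. -/
def alg (hC : IsCat C) (Y : Ob) : Subalgebra K (Module.End K (H Y)) where
  carrier := C Y Y
  mul_mem' := fun ha hb => hC.comp_mem ha hb
  add_mem' := fun ha hb => Submodule.add_mem _ ha hb
  algebraMap_mem' := fun r => by
    have h1 : algebraMap K (Module.End K (H Y)) r = r • LinearMap.id := by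
      ext x
      rfl
    rw [h1]
    exact Submodule.smul_mem _ _ (hC.id_mem Y)

omit [∀ Y, Module.Finite K (H Y)] in
lemma mem_alg {hC : IsCat C} {Y : Ob} {x : Module.End K (H Y)} : x ∈ alg hC Y ↔ x ∈ C Y Y :=
  Iff.rfl

omit [∀ Y, Module.Finite K (H Y)] in
lemma aeval_mem (hC : IsCat C) {Y : Ob} {y : Module.End K (H Y)} (hy : y ∈ C Y Y) (q : K[X]) :
    aeval y q ∈ C Y Y := by
  have h1 : Algebra.adjoin K {y} ≤ alg hC Y := by
    rw [Algebra.adjoin_le_iff, Set.singleton_subset_iff]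
    exact hy
  exact h1 (aeval_mem_adjoin_singleton K y)

/-- Elements of the radical of the trace form are nilpotent. -/
lemma nil_of_perp [CharZero K] (hC : IsCat C) {Y : Ob} {y : Module.End K (H Y)} (hy : y ∈ C Y Y)
    (hp : y ∈ perp C Y Y) : IsNilpotent y := by
  obtain ⟨q, hq1, hq2⟩ := exists_fit y
  refine hq2 (LinearMap.IsIdempotentElem.eq_zero_of_trace_eq_zero hq1 ?_)
  have h1 : aeval y q ∘ₗ y ∈ perp C Y Y := perp_comp hC hp (aeval_mem hC hy q)
  exact h1 LinearMap.id (hC.id_mem Y)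

omit [∀ Y, Module.Finite K (H Y)] in
/-- Modulo the radical, the powers of an idempotent. -/
lemma pow_sub_perp (hC : IsCat C) {Y : Ob} {x : Module.End K (H Y)} (hx : x ∈ C Y Y)
    (h : x * x - x ∈ perp C Y Y) : ∀ n : ℕ, x ^ (n + 1) - x ∈ perp C Y Y := by
  intro n
  induction n with
  | zero =>
    rw [zero_add, pow_one, sub_self]
    exact Submodule.zero_mem _
  | succ n ih =>
    have h1 : x ^ (n + 1 + 1) - x = x * (x ^ (n + 1) - x) + (x * x - x) := by
      rw [pow_succ' x (n + 1)]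
      noncomm_ring
    rw [h1]
    exact Submodule.add_mem _ (perp_comp hC ih hx) h

/-- Lifting of idempotents modulo the radical. -/
lemma exists_lift [CharZero K] (hC : IsCat C) {Y : Ob} {x : Module.End K (H Y)} (hx : x ∈ C Y Y)
    (h : x * x - x ∈ perp C Y Y) : ∃ ε : Module.End K (H Y), ε ∈ C Y Y ∧ IsIdempotentElem ε ∧
      ε - x ∈ perp C Y Y := by
  have hA : ∀ a : Module.End K (H Y), a ∈ C Y Y → ∀ n : ℕ, a ^ n ∈ C Y Y :=
    fun a ha n => pow_mem (show a ∈ alg hC Y from ha) n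
  have h1 : (1 : Module.End K (H Y)) ∈ C Y Y := hC.id_mem Y
  have hx2 : x - x ^ 2 ∈ C Y Y := Submodule.sub_mem _ hx (hA x hx 2)
  have h2 : x - x ^ 2 ∈ perp C Y Y := by
    have : x - x ^ 2 = -(x * x - x) := by rw [sq]; abel
    rw [this]
    exact Submodule.neg_mem _ h
  obtain ⟨n, hn⟩ := nil_of_perp hC hx2 h2
  have hn1 : (x - x ^ 2) ^ (n + 1) = 0 := by rw [pow_succ, hn, zero_mul]
  refine ⟨1 - (1 - x ^ (n + 1)) ^ (n + 1), ?_,
    isIdempotentElem_one_sub_one_sub_pow_pow x (n + 1) hn1, ?_⟩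
  · exact Submodule.sub_mem _ h1 (hA _ (Submodule.sub_mem _ h1 (hA x hx _)) _)
  · obtain ⟨z, hz⟩ : ∃ z, z = 1 - x ^ (n + 1) := ⟨_, rfl⟩
    have hzC : z ∈ C Y Y := by rw [hz]; exact Submodule.sub_mem _ h1 (hA x hx _)
    have e1 := pow_sub_perp hC hx h n
    -- z is idempotent modulo the radical
    have e2 : z * z - z ∈ perp C Y Y := by
      have e3 : z * z - z = x ^ (n + 1) * (x ^ (n + 1) - x) + (x ^ (n + 1 + 1) - x) -
          (x ^ (n + 1) - x) := by
        rw [hz, pow_succ x (n + 1)]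
        noncomm_ring
      rw [e3]
      exact Submodule.sub_mem _ (Submodule.add_mem _ (perp_comp hC e1 (hA x hx _))
        (pow_sub_perp hC hx h (n + 1))) e1
    have e4 := pow_sub_perp hC hzC e2 n
    rw [← hz]
    have e5 : 1 - z ^ (n + 1) - x = -(z ^ (n + 1) - z) + (x ^ (n + 1) - x) := by
      rw [show x ^ (n + 1) = 1 - z by rw [hz]; abel]
      abel
    rw [e5]
    exact Submodule.add_mem _ (Submodule.neg_mem _ e4) e1

/-- Independence of the lifts. -/
lemma nd_congr (hC : IsCat C) {Y Z : Ob} {ε x : Module.End K (H Y)} {φ z : Module.End K (H Z)}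
    (hε : ε ∈ C Y Y) (hz : z ∈ C Z Z) (h1 : ε - x ∈ perp C Y Y) (h2 : φ - z ∈ perp C Z Z) :
    nd C Y Z (sand C Y Z φ ε) = nd C Y Z (sand C Y Z z x) := by
  have key : ∀ c ∈ C Y Z, (perp C Y Z).mkQ (φ ∘ₗ c ∘ₗ ε) = (perp C Y Z).mkQ (z ∘ₗ c ∘ₗ x) := by
    intro c hc
    rw [Submodule.mkQ_apply, Submodule.mkQ_apply, Submodule.Quotient.eq]
    have e : φ ∘ₗ c ∘ₗ ε - z ∘ₗ c ∘ₗ x = (φ - z) ∘ₗ (c ∘ₗ ε) + (z ∘ₗ c) ∘ₗ (ε - x) := by
      apply LinearMap.ext
      intro v
      simp only [LinearMap.sub_apply, LinearMap.comp_apply, LinearMap.add_apply, map_sub]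
      abel
    rw [e]
    exact Submodule.add_mem _ (perp_comp' hC h2 (hC.comp_mem hc hε))
      (perp_comp hC h1 (hC.comp_mem hz hc))
  have h3 : (sand C Y Z φ ε).map (perp C Y Z).mkQ = (sand C Y Z z x).map (perp C Y Z).mkQ := by
    apply le_antisymm
    · rintro _ ⟨_, ⟨c, hc, rfl⟩, rfl⟩
      exact ⟨_, ⟨c, hc, rfl⟩, (key c hc).symm⟩
    · rintro _ ⟨_, ⟨c, hc, rfl⟩, rfl⟩
      exact ⟨_, ⟨c, hc, rfl⟩, key c hc⟩
  rw [nd, nd, h3]

/-- The trivial bound. -/
lemma nd_le (C : ∀ Y Z, Submodule K (H Y →ₗ[K] H Z)) (Y Z : Ob) (ε : Module.End K (H Y))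
    (φ : Module.End K (H Z)) : nd C Y Z (sand C Y Z φ ε) ≤
      finrank K (LinearMap.range ε) * finrank K (LinearMap.range φ) := by
  have h1 : nd C Y Z (sand C Y Z φ ε) ≤ finrank K (sand C Y Z φ ε) :=
    Submodule.finrank_map_le _ _
  let Ψ : (LinearMap.range ε →ₗ[K] LinearMap.range φ) →ₗ[K] (H Y →ₗ[K] H Z) :=
    (LinearMap.llcomp K (H Y) (LinearMap.range φ) (H Z) (LinearMap.range φ).subtype) ∘ₗ
      (LinearMap.lcomp K (LinearMap.range φ) ε.rangeRestrict)
  have h2 : sand C Y Z φ ε ≤ LinearMap.range Ψ := by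
    rintro _ ⟨c, _, rfl⟩
    refine ⟨(φ.rangeRestrict ∘ₗ c) ∘ₗ (LinearMap.range ε).subtype, ?_⟩
    rfl
  have h3 : finrank K (sand C Y Z φ ε) ≤ finrank K (LinearMap.range Ψ) :=
    Submodule.finrank_mono h2
  have h4 : finrank K (LinearMap.range Ψ) ≤
      finrank K (LinearMap.range ε →ₗ[K] LinearMap.range φ) := LinearMap.finrank_range_le Ψ
  rw [Module.finrank_linearMap] at h4
  exact h1.trans (h3.trans h4)

end Cat

end Pool.Agent.N8.AFBb

namespace Pool.Agent.N64.AF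

universe v u w t

open Pool.Agent.N8.AFBb

variable {C : Type u} [Category.{v} C] [Preadditive C] [MonoidalCategory C]
  [MonoidalPreadditive C] [SymmetricCategory C] [RightRigidCategory C]
  {Λ : Type t} [Field Λ] [CharZero Λ] [Linear Λ C] [MonoidalLinear Λ C]
  {K : Type w} [Field K] [IsAlgClosed K] [Algebra Λ K] {R : SuperRealisation C K}

section Aux

omit [MonoidalPreadditive C] [RightRigidCategory C] [IsAlgClosed K] in
lemma _root_.Pool.Agent.N8.AFBb.mem_CK (R : SuperRealisation C K) {Y Z : C} (f : Y ⟶ Z) :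
    (R.H.map f).hom ∈ CK R Y Z := Submodule.subset_span ⟨f, rfl⟩

omit [MonoidalPreadditive C] [SymmetricCategory C] [RightRigidCategory C] in
lemma _root_.Pool.Agent.N8.AFBb.charZero_K (Λ : Type t) [Field Λ] [CharZero Λ] (K : Type w) [Field K]
    [Algebra Λ K] : CharZero K :=
  charZero_of_injective_algebraMap (algebraMap Λ K).injective

omit [IsAlgClosed K] in
/-- The lift of a numerical idempotent to an idempotent operator. -/
lemma _root_.Pool.Agent.N8.AFBb.lift (hR : IsReal Λ R) {Y : C} (hY : R.CPlus Y) {e : Y ⟶ Y}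
    (he : NumIdem e) : ∃ ε : Module.End K (R.H.obj Y), ε ∈ CK R Y Y ∧ IsIdempotentElem ε ∧
      ε - (R.H.map e).hom ∈ Pool.Agent.Y129.perp (H := fun Y : C => R.H.obj Y) (CK R) Y Y := by
  have hK : CharZero K := charZero_K Λ K
  have : ∀ Y : C, Module.Finite K (R.H.obj Y) := R.finite
  refine exists_lift (H := fun Y : C => R.H.obj Y) (isCat_CK R) (mem_CK R e) ?_
  have h1 := (mem_perp_iff hR hY (e ≫ e - e)).2 he
  rw [R.H.map_sub, R.H.map_comp] at h1
  exact h1

end Aux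

/-- B1: the Schwarz inequality. -/
theorem nr_sq_le (hR : IsReal Λ R) {Y Z : C} (hY : R.CPlus Y) (hZ : R.CPlus Z) {e : Y ⟶ Y}
    (he : NumIdem e) {f : Z ⟶ Z} (hf : NumIdem f) :
    nr Λ e f ^ 2 ≤ nr Λ e e * nr Λ f f := by
  have hK : CharZero K := charZero_K Λ K
  have : ∀ Y : C, Module.Finite K (R.H.obj Y) := R.finite
  obtain ⟨ε, hε, hε', hε''⟩ := lift hR hY he
  obtain ⟨φ, hφ, hφ', hφ''⟩ := lift hR hZ hf
  rw [nr_eq_nd hR hY e f, nr_eq_nd hR hY e e, nr_eq_nd hR hZ f f]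
  rw [← nd_congr (H := fun Y : C => R.H.obj Y) (isCat_CK R) hε (mem_CK R f) hε'' hφ'',
    ← nd_congr (H := fun Y : C => R.H.obj Y) (isCat_CK R) hε (mem_CK R e) hε'' hε'',
    ← nd_congr (H := fun Y : C => R.H.obj Y) (isCat_CK R) hφ (mem_CK R f) hφ'' hφ'']
  exact Pool.Agent.Y129.nd_sq_le (H := fun Y : C => R.H.obj Y) (isCat_CK R) Y Z hε hε' hφ hφ'

lemma _root_.Pool.Agent.N8.AFBb.trace_lift {Y : C} {e : Y ⟶ Y} {ε : Module.End K (R.H.obj Y)}
    (hε' : IsIdempotentElem ε)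
    (h : ε - (R.H.map e).hom ∈ Pool.Agent.Y129.perp (H := fun Y : C => R.H.obj Y) (CK R) Y Y) :
    LinearMap.trace K (R.H.obj Y) (R.H.map e).hom = (finrank K (LinearMap.range ε) : K) := by
  have : ∀ Y : C, Module.Finite K (R.H.obj Y) := R.finite
  have h1 := h LinearMap.id ((isCat_CK R).id_mem Y)
  rw [LinearMap.id_comp, map_sub, sub_eq_zero] at h1
  rw [← h1]
  exact (LinearMap.IsIdempotentElem.isProj_range ε hε').trace

/-- B2 -/
theorem nr_le_rk (hR : IsReal Λ R) {Y Z : C} (hY : R.CPlus Y) (hZ : R.CPlus Z) {e : Y ⟶ Y}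
    (he : NumIdem e) {f : Z ⟶ Z} (hf : NumIdem f) {r s : ℕ} (hr : IsRk R e r)
    (hs : IsRk R f s) : nr Λ e f ≤ r * s := by
  have hK : CharZero K := charZero_K Λ K
  have : ∀ Y : C, Module.Finite K (R.H.obj Y) := R.finite
  obtain ⟨ε, hε, hε', hε''⟩ := lift hR hY he
  obtain ⟨φ, hφ, hφ', hφ''⟩ := lift hR hZ hf
  have h1 : finrank K (LinearMap.range ε) = r := by
    have h2 := trace_lift hε' hε''
    rw [IsRk] at hr
    rw [hr] at h2
    exact_mod_cast h2.symm
  have h3 : finrank K (LinearMap.range φ) = s := by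
    have h2 := trace_lift hφ' hφ''
    rw [IsRk] at hs
    rw [hs] at h2
    exact_mod_cast h2.symm
  rw [nr_eq_nd hR hY e f,
    ← nd_congr (H := fun Y : C => R.H.obj Y) (isCat_CK R) hε (mem_CK R f) hε'' hφ'', ← h1, ← h3]
  exact nd_le (H := fun Y : C => R.H.obj Y) (CK R) Y Z ε φ

/-- B3 -/
theorem exists_rk (hR : IsReal Λ R) {Y : C} (hY : R.CPlus Y) {e : Y ⟶ Y} (he : NumIdem e) :
    ∃ r, IsRk R e r ∧ r ≤ bt R Y := by
  have : ∀ Y : C, Module.Finite K (R.H.obj Y) := R.finite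
  obtain ⟨ε, hε, hε', hε''⟩ := lift hR hY he
  exact ⟨finrank K (LinearMap.range ε), trace_lift hε' hε'', Submodule.finrank_le _⟩

/-- The realisation as a homomorphism of multiplicative monoids. -/
def _root_.Pool.Agent.N8.AFBb.rho (R : SuperRealisation C K) (Y : C) :
    End Y →* Module.End K (R.H.obj Y) where
  toFun a := (R.H.map a).hom
  map_one' := by
    change (R.H.map (𝟙 Y)).hom = _
    rw [R.H.map_id]
    rfl
  map_mul' a b := by
    change (R.H.map (b ≫ a)).hom = _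
    rw [R.H.map_comp]
    rfl

/-- B4 -/
theorem semisimple (hR : IsReal Λ R) {Y : C} (hY : R.CPlus Y) (I : Ideal (End Y))
    [I.IsTwoSided] (hI : ∀ x : End Y, x ∈ I ↔ NumTriv (Y := Y) (Z := Y) x) :
    IsSemisimpleRing (End Y ⧸ I) := by
  have hK : CharZero K := charZero_K Λ K
  have : ∀ Y : C, Module.Finite K (R.H.obj Y) := R.finite
  -- finiteness
  have hfin : Module.Finite Λ (End Y ⧸ I) := by
    have := finite_num hR Y Y
    let g : (Y ⟶ Y) →ₗ[Λ] (End Y ⧸ I) :=
      { toFun := fun x => Ideal.Quotient.mk I x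
        map_add' := fun a b => (Ideal.Quotient.mk I).map_add a b
        map_smul' := fun c a => rfl }
    have hg : numIdeal Λ Y Y ≤ LinearMap.ker g := by
      intro x hx
      rw [LinearMap.mem_ker]
      exact Ideal.Quotient.eq_zero_iff_mem.2 ((hI x).2 hx)
    refine Module.Finite.of_surjective ((numIdeal Λ Y Y).liftQ g hg) ?_
    intro y
    obtain ⟨x, rfl⟩ := Ideal.Quotient.mk_surjective y
    exact ⟨(numIdeal Λ Y Y).mkQ x, rfl⟩
  have hart : IsArtinianRing (End Y ⧸ I) := IsArtinianRing.of_finite Λ _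
  have hjac : Ring.jacobson (End Y ⧸ I) = ⊥ := by
    rw [eq_bot_iff]
    intro x' hx'
    rw [Submodule.mem_bot]
    obtain ⟨x, rfl⟩ := Ideal.Quotient.mk_surjective x'
    rw [Ideal.Quotient.eq_zero_iff_mem, hI]
    intro g
    -- nilpotency of the product
    obtain ⟨b, hb⟩ : ∃ b : End Y, b = g := ⟨g, rfl⟩
    have h4 : Ideal.Quotient.mk I (b * x) ∈ Ring.jacobson (End Y ⧸ I) := by
      rw [map_mul]
      exact Ideal.mul_mem_left _ _ hx'
    obtain ⟨n, hn⟩ : IsNilpotent (Ring.jacobson (End Y ⧸ I)) := IsSemiprimaryRing.isNilpotent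
    have h5 : Ideal.Quotient.mk I ((b * x) ^ n) = 0 := by
      have := Ideal.pow_mem_pow h4 n
      rw [hn] at this
      rw [map_pow]
      exact this
    rw [Ideal.Quotient.eq_zero_iff_mem, hI] at h5
    have h6 := (mem_perp_iff hR hY ((b * x) ^ n)).2 h5
    have h7 : IsNilpotent (rho R Y ((b * x) ^ n)) :=
      nil_of_perp (H := fun Y : C => R.H.obj Y) (isCat_CK R) (mem_CK R _) h6
    have h8 : IsNilpotent (rho R Y (b * x)) := by
      obtain ⟨m, hm⟩ := h7
      exact ⟨n * m, by rw [pow_mul, ← map_pow, hm]⟩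
    rw [tr_eq_zero_iff hR]
    have h9 : (R.H.map (x ≫ g) ≫ R.par Y).hom = (R.par Y).hom * rho R Y (b * x) := by
      rw [hb]
      rfl
    have h10 : Commute (R.par Y).hom (rho R Y (b * x)) := by
      have := congrArg ModuleCat.Hom.hom (R.par_natural (x ≫ g))
      rw [hb]
      exact this
    rw [h9]
    exact (LinearMap.isNilpotent_trace_of_isNilpotent (h10.isNilpotent_mul_left h8)).eq_zero
  exact IsArtinianRing.isSemisimpleRing_iff_jacobson.2 hjac

end Pool.Agent.N64.AF
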