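import Pool.Agent.N64.AF.Defs
import Pool.Agent.Y133.Half.Words
import Pool.Agent.Y133.Half.Cent

/-!
# Statement D1: permutations (helper833)
-/

set_option autoImplicit false
set_option linter.unusedSectionVars false
set_option backward.isDefEq.respectTransparency false
set_option backward.defeqAttrib.useBackward true

open CategoryTheory Limits MonoidalCategory Module
open Pool.Agent.Y112.SR Pool.Agent.Y112.KD
open Pool.Agent.Y116.MT (tr)

namespace Pool.Agent.N833.AF

universe v u w

open Functor.LaxMonoidal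

section elements

variable {C : Type u} [Category.{v} C] [Preadditive C] [MonoidalCategory C]
    [SymmetricCategory C] {K : Type w} [Field K] (R : SuperRealisation C K)

/-- the tensor product of two elements -/
noncomputable def mm {Q X : C} (x : R.H.obj Q) (y : R.H.obj X) : R.H.obj (Q ⊗ X) :=
  (μ R.H Q X).hom (x ⊗ₜ[K] y)

lemma mm_smul_left {Q X : C} (c : K) (x : R.H.obj Q) (y : R.H.obj X) :
    mm R (c • x) y = c • mm R x y := by
  unfold mm
  rw [← TensorProduct.smul_tmul', map_smul]

/-- whiskering on the right -/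
lemma map_right {Q Q' X : C} (s : Q ⟶ Q') (x : R.H.obj Q) (y : R.H.obj X) :
    (R.H.map (s ▷ X)).hom (mm R x y) = mm R ((R.H.map s).hom x) y := by
  have h := congrArg (fun f => f.hom (x ⊗ₜ[K] y)) (μ_natural_left (F := R.H) s X)
  exact h.symm

/-- whiskering on the left -/
lemma map_left {Q X X' : C} (s : X ⟶ X') (x : R.H.obj Q) (y : R.H.obj X) :
    (R.H.map (Q ◁ s)).hom (mm R x y) = mm R x ((R.H.map s).hom y) := by
  have h := congrArg (fun f => f.hom (x ⊗ₜ[K] y)) (μ_natural_right (F := R.H) Q s)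
  exact h.symm

/-- the associator -/
lemma map_assoc {X Y Z : C} (x : R.H.obj X) (y : R.H.obj Y) (z : R.H.obj Z) :
    (R.H.map (α_ X Y Z).hom).hom (mm R (mm R x y) z) = mm R x (mm R y z) := by
  have h := congrArg (fun f => f.hom ((x ⊗ₜ[K] y) ⊗ₜ[K] z)) (Functor.LaxMonoidal.associativity (F := R.H) X Y Z)
  exact h

lemma map_assoc_inv {X Y Z : C} (x : R.H.obj X) (y : R.H.obj Y) (z : R.H.obj Z) :
    (R.H.map (α_ X Y Z).inv).hom (mm R x (mm R y z)) = mm R (mm R x y) z := by
  rw [← map_assoc, ← LinearMap.comp_apply, ← ModuleCat.hom_comp, ← Functor.map_comp,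
    Iso.hom_inv_id, CategoryTheory.Functor.map_id]
  rfl

/-- the symmetry -/
lemma map_braid (h2 : (2 : K) ≠ 0) {X Y : C} (x : R.H.obj X) (y : R.H.obj Y) {a b : K}
    (ha : a = 1 ∨ a = -1) (hb : b = 1 ∨ b = -1) (hx : (R.par X).hom x = a • x)
    (hy : (R.par Y).hom y = b • y) : ∃ c : K, (c = 1 ∨ c = -1) ∧
      (R.H.map (β_ X Y).hom).hom (mm R x y) = c • mm R y x := by
  have h := congrArg (fun f => f.hom (x ⊗ₜ[K] y)) (R.symm X Y)
  have h1 : (2 : K) • (R.H.map (β_ X Y).hom).hom (mm R x y) =
      (1 + a + b - a * b) • mm R y x := by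
    have e1 : (((2 : K) • (μ R.H X Y ≫ R.H.map (β_ X Y).hom)).hom (x ⊗ₜ[K] y)) =
      (2 : K) • (R.H.map (β_ X Y).hom).hom (mm R x y) := rfl
    have e2 : ((((𝟙 _ + R.par X ▷ R.H.obj Y + R.H.obj X ◁ R.par Y - (R.par X ⊗ₘ R.par Y)) ≫
      (β_ (R.H.obj X) (R.H.obj Y)).hom ≫ μ R.H Y X)).hom (x ⊗ₜ[K] y)) =
      ((μ R.H Y X).hom ((β_ (R.H.obj X) (R.H.obj Y)).hom.hom
        (x ⊗ₜ[K] y + ((R.par X).hom x) ⊗ₜ[K] y + x ⊗ₜ[K] ((R.par Y).hom y) -
          ((R.par X).hom x) ⊗ₜ[K] ((R.par Y).hom y)))) := rfl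
    have h' := e1.symm.trans (h.trans e2)
    rw [h', hx, hy]
    have e3 : x ⊗ₜ[K] y + (a • x) ⊗ₜ[K] y + x ⊗ₜ[K] (b • y) - (a • x) ⊗ₜ[K] (b • y) =
        (1 + a + b - a * b) • (x ⊗ₜ[K] y) := by
      rw [TensorProduct.smul_tmul_smul, ← TensorProduct.smul_tmul', TensorProduct.tmul_smul,
        sub_smul, add_smul, add_smul, one_smul]
    rw [e3, map_smul, map_smul]
    rfl
  rcases ha with rfl | rfl
  · refine ⟨1, Or.inl rfl, ?_⟩
    have e : (1 : K) + 1 + b - 1 * b = 2 := by ring
    rw [e] at h1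
    rw [one_smul]
    exact smul_right_injective _ h2 h1
  · rcases hb with rfl | rfl
    · refine ⟨1, Or.inl rfl, ?_⟩
      have e : (1 : K) + -1 + 1 - -1 * 1 = 2 := by ring
      rw [e] at h1
      rw [one_smul]
      exact smul_right_injective _ h2 h1
    · refine ⟨-1, Or.inr rfl, ?_⟩
      have e : (1 : K) + -1 + -1 - -1 * -1 = 2 * (-1) := by ring
      rw [e, mul_smul] at h1
      exact smul_right_injective _ h2 h1

/-- the exchange of the last two factors -/
lemma map_sw (h2 : (2 : K) ≠ 0) {Q X : C} (q : R.H.obj Q) (x y : R.H.obj X) {a b : K}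
    (ha : a = 1 ∨ a = -1) (hb : b = 1 ∨ b = -1) (hx : (R.par X).hom x = a • x)
    (hy : (R.par X).hom y = b • y) : ∃ c : K, (c = 1 ∨ c = -1) ∧
      (R.H.map (sw Q X)).hom (mm R (mm R q x) y) = c • mm R (mm R q y) x := by
  obtain ⟨c, hc, h⟩ := map_braid R h2 x y ha hb hx hy
  refine ⟨c, hc, ?_⟩
  unfold sw
  rw [Functor.map_comp, Functor.map_comp, ModuleCat.hom_comp, ModuleCat.hom_comp,
    LinearMap.comp_apply, LinearMap.comp_apply, map_assoc, map_left, h]
  have e : mm R q (c • mm R y x) = c • mm R q (mm R y x) := by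
    unfold mm
    rw [TensorProduct.tmul_smul, map_smul]
  rw [e, map_smul, map_assoc_inv]

/-- the homogeneous bases -/
lemma exists_hbasis [CharZero K] (T : C) :
    ∃ e : Basis (Fin (Pool.Agent.N64.AF.bt R T)) K (R.H.obj T),
      ∀ j, ∃ a : K, (a = 1 ∨ a = -1) ∧ (R.par T).hom (e j) = a • e j := by
  have hfin := R.finite T
  have h2 : (2 : K) ≠ 0 := two_ne_zero
  set P : R.H.obj T →ₗ[K] R.H.obj T := (R.par T).hom with hP
  have hPP : ∀ x, P (P x) = x := by
    intro x
    have h := congrArg (fun f => f.hom x) (R.par_sq T)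
    exact h
  set p : Submodule K (R.H.obj T) := LinearMap.ker (P - LinearMap.id) with hp
  set q : Submodule K (R.H.obj T) := LinearMap.ker (P + LinearMap.id) with hq
  have hpm : ∀ x ∈ p, P x = x := by
    intro x hx
    rw [hp, LinearMap.mem_ker, LinearMap.sub_apply, LinearMap.id_apply, sub_eq_zero] at hx
    exact hx
  have hqm : ∀ x ∈ q, P x = -x := by
    intro x hx
    rw [hq, LinearMap.mem_ker, LinearMap.add_apply, LinearMap.id_apply] at hx
    exact eq_neg_of_add_eq_zero_left hx
  have hcompl : IsCompl p q := by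
    constructor
    · rw [Submodule.disjoint_def]
      intro x hx hx'
      have h1 := hpm x hx
      rw [hqm x hx'] at h1
      have h3 : (2 : K) • x = 0 := by
        rw [two_smul]
        nth_rewrite 1 [← h1]
        exact neg_add_cancel x
      exact (smul_eq_zero.1 h3).resolve_left h2
    · rw [codisjoint_iff, eq_top_iff]
      intro x _
      have e : x = (2 : K)⁻¹ • (x + P x) + (2 : K)⁻¹ • (x - P x) := by
        rw [← smul_add]
        have : x + P x + (x - P x) = (2 : K) • x := by
          rw [two_smul]; abel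
        rw [this, smul_smul, inv_mul_cancel₀ h2, one_smul]
      rw [e]
      refine Submodule.add_mem_sup (p.smul_mem _ ?_) (q.smul_mem _ ?_)
      · rw [hp, LinearMap.mem_ker, LinearMap.sub_apply, LinearMap.id_apply, map_add, hPP]
        abel
      · rw [hq, LinearMap.mem_ker, LinearMap.add_apply, LinearMap.id_apply, map_sub, hPP]
        abel
  let e₀ := ((Module.finBasis K p).prod (Module.finBasis K q)).map
    (Submodule.prodEquivOfIsCompl p q hcompl)
  have hcard : Fintype.card (Fin (finrank K p) ⊕ Fin (finrank K q)) =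
      Pool.Agent.N64.AF.bt R T := (Module.finrank_eq_card_basis e₀).symm
  refine ⟨e₀.reindex (Fintype.equivFinOfCardEq hcard), fun j => ?_⟩
  rw [Basis.reindex_apply]
  generalize (Fintype.equivFinOfCardEq hcard).symm j = i
  rcases i with i | i
  · refine ⟨1, Or.inl rfl, ?_⟩
    have h1 : e₀ (Sum.inl i) ∈ p := by
      have : e₀ (Sum.inl i) = (Module.finBasis K p i : R.H.obj T) := by
        simp [e₀]
      rw [this]
      exact (Module.finBasis K p i).2
    rw [one_smul]
    exact hpm _ h1
  · refine ⟨-1, Or.inr rfl, ?_⟩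
    have h1 : e₀ (Sum.inr i) ∈ q := by
      have : e₀ (Sum.inr i) = (Module.finBasis K q i : R.H.obj T) := by
        simp [e₀]
      rw [this]
      exact (Module.finBasis K q i).2
    rw [neg_smul, one_smul]
    exact hqm _ h1

/-- the isomorphism of the realisation of a tensor product -/
noncomputable def muE (Q X : C) :
    (TensorProduct K (R.H.obj Q) (R.H.obj X)) ≃ₗ[K] R.H.obj (Q ⊗ X) :=
  (Functor.Monoidal.μIso R.H Q X).toLinearEquiv

lemma muE_apply {Q X : C} (x : R.H.obj Q) (y : R.H.obj X) :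
    muE R Q X (x ⊗ₜ[K] y) = mm R x y := rfl

/-- the isomorphism of the realisation of the unit object -/
noncomputable def epE : K ≃ₗ[K] R.H.obj (𝟙_ C) :=
  (Functor.Monoidal.εIso R.H).toLinearEquiv

variable {R} in
/-- the basis given by words -/
noncomputable def wb {T : C} {ι : Type} (e : Basis ι K (R.H.obj T)) :
    ∀ n, Basis (Fin n → ι) K (R.H.obj (tp T n))
  | 0 => (Basis.singleton (Fin 0 → ι) K).map (epE R)
  | n + 1 => (((wb e n).tensorProduct e).map (muE R (tp T n) T)).reindex
      ((Equiv.prodComm _ _).trans (Fin.snocEquiv fun _ => ι))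

variable {R} in
lemma wb_succ {T : C} {ι : Type} (e : Basis ι K (R.H.obj T)) (n : ℕ) (w : Fin (n + 1) → ι) :
    wb e (n + 1) w = mm R (wb e n fun i => w i.castSucc) (e (w (Fin.last _))) := by
  rw [wb, Basis.reindex_apply]
  have : ((Equiv.prodComm (Fin n → ι) ι).trans (Fin.snocEquiv fun _ => ι)).symm w =
      (fun i => w i.castSucc, w (Fin.last _)) := rfl
  rw [this, Basis.map_apply, Basis.tensorProduct_apply, muE_apply]

end elements

section perms

variable {C : Type u} [Category.{v} C] [Preadditive C] [MonoidalCategory C]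
    [SymmetricCategory C] {K : Type w} [Field K] {R : SuperRealisation C K}

lemma sign_mul {a b : K} (ha : a = 1 ∨ a = -1) (hb : b = 1 ∨ b = -1) :
    a * b = 1 ∨ a * b = -1 := by
  rcases ha with rfl | rfl <;> rcases hb with rfl | rfl <;> simp

/-- adjacent transpositions are realised by morphisms -/
lemma exists_swap (h2 : (2 : K) ≠ 0) {T : C} {ι : Type} (e : Basis ι K (R.H.obj T))
    (he : ∀ j, ∃ a : K, (a = 1 ∨ a = -1) ∧ (R.par T).hom (e j) = a • e j) (n : ℕ) (i : Fin n) :
    ∃ s : tp T (n + 1) ⟶ tp T (n + 1), s ≫ s = 𝟙 _ ∧ ∀ w : Fin (n + 1) → ι,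
      ∃ a : K, (a = 1 ∨ a = -1) ∧
        (R.H.map s).hom (wb e (n + 1) (w ∘ Equiv.swap i.castSucc i.succ)) =
          a • wb e (n + 1) w := by
  induction n with
  | zero => exact i.elim0
  | succ n ih =>
    induction i using Fin.lastCases with
    | last =>
      refine ⟨sw (tp T n) T, sw_sw _ _, fun w => ?_⟩
      obtain ⟨a, ha, hx⟩ := he (w (Fin.last n).succ)
      obtain ⟨b, hb, hy⟩ := he (w (Fin.last n).castSucc)
      obtain ⟨c, hc, h⟩ := map_sw R h2 (Q := tp T n) (wb e n fun i => w i.castSucc.castSucc)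
        (e (w (Fin.last n).succ)) (e (w (Fin.last n).castSucc)) ha hb hx hy
      refine ⟨c, hc, ?_⟩
      have e1 : wb e (n + 2) (w ∘ Equiv.swap (Fin.last n).castSucc (Fin.last n).succ) =
          mm R (mm R (wb e n fun i => w i.castSucc.castSucc) (e (w (Fin.last n).succ)))
            (e (w (Fin.last n).castSucc)) := by
        rw [wb_succ, wb_succ]
        have a1 : (w ∘ Equiv.swap (Fin.last n).castSucc (Fin.last n).succ) (Fin.last (n + 1)) =
            w (Fin.last n).castSucc := by
          rw [Function.comp_apply, ← Fin.succ_last, Equiv.swap_apply_right]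
        have a2 : (w ∘ Equiv.swap (Fin.last n).castSucc (Fin.last n).succ)
            (Fin.last n).castSucc = w (Fin.last n).succ := by
          rw [Function.comp_apply, Equiv.swap_apply_left]
        have a3 : ∀ i : Fin n, (w ∘ Equiv.swap (Fin.last n).castSucc (Fin.last n).succ)
            i.castSucc.castSucc = w i.castSucc.castSucc := by
          intro i
          rw [Function.comp_apply, Equiv.swap_apply_of_ne_of_ne]
          · intro h
            have := congrArg Fin.val h
            simp at this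
            omega
          · intro h
            have := congrArg Fin.val h
            simp at this
            omega
        rw [a1]
        congr 1
        congr 1
        · congr 1
          funext i
          exact a3 i
        · congr 1
      have e2 : wb e (n + 2) w =
          mm R (mm R (wb e n fun i => w i.castSucc.castSucc) (e (w (Fin.last n).castSucc)))
            (e (w (Fin.last n).succ)) := by
        rw [wb_succ, wb_succ, ← Fin.succ_last]
      rw [e1, e2]
      exact h
    | cast i =>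
      obtain ⟨s, hs, h⟩ := ih i
      refine ⟨s ▷ T, ?_, fun w => ?_⟩
      · rw [← comp_whiskerRight, hs, id_whiskerRight]
      · obtain ⟨a, ha, h1⟩ := h (fun i => w i.castSucc)
        refine ⟨a, ha, ?_⟩
        rw [wb_succ e (n + 1) (w ∘ _), wb_succ e (n + 1) w]
        have a1 : (w ∘ Equiv.swap i.castSucc.castSucc i.castSucc.succ) (Fin.last (n + 1)) =
            w (Fin.last (n + 1)) := by
          rw [Function.comp_apply, Equiv.swap_apply_of_ne_of_ne]
          · intro h
            have := congrArg Fin.val h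
            simp at this
            omega
          · intro h
            have := congrArg Fin.val h
            simp at this
            omega
        have a2 : (fun k : Fin (n + 1) => (w ∘ Equiv.swap i.castSucc.castSucc i.castSucc.succ)
            k.castSucc) = (fun k : Fin (n + 1) => w k.castSucc) ∘ Equiv.swap i.castSucc i.succ := by
          funext k
          rw [Function.comp_apply, Function.comp_apply]
          congr 1
          exact (Fin.castSucc_injective (n + 1)).swap_apply i.castSucc i.succ k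
        rw [a1, a2, map_right, h1, mm_smul_left]

/-- realised signed permutations of the basis -/
def Gd {T : C} {ι : Type} (e : Basis ι K (R.H.obj T)) (n : ℕ)
    (u : (Module.End K (R.H.obj (tp T n)))ˣ) : Prop :=
  (∃ s : tp T n ⟶ tp T n, (R.H.map s).hom = (u : Module.End K (R.H.obj (tp T n)))) ∧
  (∃ s : tp T n ⟶ tp T n, (R.H.map s).hom = ((u⁻¹ : (Module.End K (R.H.obj (tp T n)))ˣ) :
    Module.End K (R.H.obj (tp T n)))) ∧
  ∃ σ : Equiv.Perm (Fin n), ∀ w : Fin n → ι, ∃ a : K, (a = 1 ∨ a = -1) ∧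
    (u : Module.End K (R.H.obj (tp T n))) (wb e n (w ∘ σ)) = a • wb e n w

/-- the group of the realised signed permutations of the basis -/
def GG {T : C} {ι : Type} (e : Basis ι K (R.H.obj T)) (n : ℕ) :
    Subgroup (Module.End K (R.H.obj (tp T n)))ˣ where
  carrier := {u | Gd e n u}
  one_mem' := by
    refine ⟨⟨𝟙 _, ?_⟩, ⟨𝟙 _, ?_⟩, 1, fun w => ⟨1, Or.inl rfl, ?_⟩⟩
    · rw [CategoryTheory.Functor.map_id]
      rfl
    · rw [CategoryTheory.Functor.map_id, inv_one]
      rfl
    · rw [one_smul]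
      rfl
  mul_mem' := by
    rintro u u' ⟨⟨s, hs⟩, ⟨t, ht⟩, σ, hσ⟩ ⟨⟨s', hs'⟩, ⟨t', ht'⟩, σ', hσ'⟩
    refine ⟨⟨s' ≫ s, ?_⟩, ⟨t ≫ t', ?_⟩, σ * σ', fun w => ?_⟩
    · rw [Functor.map_comp, ModuleCat.hom_comp, hs, hs', Units.val_mul]
      rfl
    · rw [Functor.map_comp, ModuleCat.hom_comp, ht, ht', mul_inv_rev, Units.val_mul]
      rfl
    · obtain ⟨a, ha, h1⟩ := hσ w
      obtain ⟨a', ha', h1'⟩ := hσ' (w ∘ σ)
      refine ⟨a' * a, sign_mul ha' ha, ?_⟩
      have e1 : w ∘ (σ * σ') = (w ∘ σ) ∘ σ' := rfl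
      rw [e1, Units.val_mul, Module.End.mul_apply, h1', map_smul, h1, smul_smul]
  inv_mem' := by
    rintro u ⟨⟨s, hs⟩, ⟨t, ht⟩, σ, hσ⟩
    refine ⟨⟨t, ht⟩, ⟨s, by rw [inv_inv]; exact hs⟩, σ⁻¹, fun w => ?_⟩
    obtain ⟨a, ha, h1⟩ := hσ (w ∘ ⇑σ⁻¹)
    refine ⟨a, ha, ?_⟩
    have e1 : (w ∘ ⇑σ⁻¹) ∘ σ = w := by
      funext i
      simp
    rw [e1] at h1
    have h2 := congrArg (fun y => ((u⁻¹ : (Module.End K (R.H.obj (tp T n)))ˣ) :
      Module.End K (R.H.obj (tp T n))) y) h1
    simp only [map_smul] at h2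
    have h3 : ∀ x : R.H.obj (tp T n), ((u⁻¹ : (Module.End K (R.H.obj (tp T n)))ˣ) :
        Module.End K (R.H.obj (tp T n))) ((u : Module.End K (R.H.obj (tp T n))) x) = x := by
      intro x
      rw [← Module.End.mul_apply, ← Units.val_mul, inv_mul_cancel]
      rfl
    rw [h3] at h2
    rw [h2, smul_smul]
    have h4 : a * a = 1 := by rcases ha with rfl | rfl <;> simp
    rw [h4, one_smul]

lemma GG_finite {T : C} {ι : Type} [Finite ι] (e : Basis ι K (R.H.obj T)) (n : ℕ) :
    Finite (GG e n) := by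
  classical
  choose σ hσ using fun u : GG e n => u.2.2.2
  choose a ha h using hσ
  refine Finite.of_injective (fun u : GG e n =>
    ((σ u, fun w => decide (a u w = 1)) : Equiv.Perm (Fin n) × ((Fin n → ι) → Bool))) ?_
  intro u u' huu
  rw [Prod.mk.injEq] at huu
  obtain ⟨h1, h2⟩ := huu
  apply Subtype.ext
  apply Units.ext
  refine (wb e n).ext fun w => ?_
  have e1 : w = (w ∘ ⇑(σ u)⁻¹) ∘ (σ u) := by
    funext i
    simp
  have e2 := h u (w ∘ ⇑(σ u)⁻¹)
  have e3 := h u' (w ∘ ⇑(σ u)⁻¹)
  rw [← h1, ← e1] at e3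
  rw [← e1] at e2
  rw [e2, e3]
  congr 1
  have h3 := congrFun h2 (w ∘ ⇑(σ u)⁻¹)
  have h4 : a u (w ∘ ⇑(σ u)⁻¹) = 1 ↔ a u' (w ∘ ⇑(σ u)⁻¹) = 1 := by
    simpa using h3
  rcases ha u (w ∘ ⇑(σ u)⁻¹) with h5 | h5 <;> rcases ha u' (w ∘ ⇑(σ u)⁻¹) with h6 | h6
  · rw [h5, h6]
  · rw [h4.1 h5, h5]
  · rw [h4.2 h6, h6]
  · rw [h5, h6]

/-- every permutation of the factors is realised -/
lemma GG_perm (h2 : (2 : K) ≠ 0) {T : C} {ι : Type} (e : Basis ι K (R.H.obj T))
    (he : ∀ j, ∃ a : K, (a = 1 ∨ a = -1) ∧ (R.par T).hom (e j) = a • e j) (n : ℕ)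
    (σ : Equiv.Perm (Fin n)) : ∃ u : GG e n, ∀ w : Fin n → ι, ∃ a : K, (a = 1 ∨ a = -1) ∧
      ((u : (Module.End K (R.H.obj (tp T n)))ˣ) : Module.End K (R.H.obj (tp T n)))
        (wb e n (w ∘ σ)) = a • wb e n w := by
  let S : Submonoid (Equiv.Perm (Fin n)) :=
    { carrier := {σ | ∃ u : GG e n, ∀ w : Fin n → ι, ∃ a : K, (a = 1 ∨ a = -1) ∧
      ((u : (Module.End K (R.H.obj (tp T n)))ˣ) : Module.End K (R.H.obj (tp T n)))
        (wb e n (w ∘ σ)) = a • wb e n w}
      one_mem' := ⟨1, fun w => ⟨1, Or.inl rfl, by rw [one_smul]; rfl⟩⟩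
      mul_mem' := by
        rintro σ σ' ⟨u, hu⟩ ⟨u', hu'⟩
        refine ⟨u * u', fun w => ?_⟩
        obtain ⟨a, ha, h1⟩ := hu w
        obtain ⟨a', ha', h1'⟩ := hu' (w ∘ σ)
        refine ⟨a' * a, sign_mul ha' ha, ?_⟩
        have e1 : w ∘ (σ * σ') = (w ∘ σ) ∘ σ' := rfl
        rw [e1, Subgroup.coe_mul, Units.val_mul, Module.End.mul_apply, h1', map_smul, h1,
          smul_smul] }
  have key : σ ∈ S := by
    rcases n with - | n
    · have : σ = 1 := Subsingleton.elim _ _
      rw [this]
      exact S.one_mem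
    · have h3 : (⊤ : Submonoid (Equiv.Perm (Fin (n + 1)))) ≤ S := by
        rw [← Equiv.Perm.mclosure_swap_castSucc_succ n, Submonoid.closure_le]
        rintro _ ⟨i, rfl⟩
        obtain ⟨s, hs, h⟩ := exists_swap h2 e he n i
        have hss : (R.H.map s).hom * (R.H.map s).hom = (1 : Module.End K (R.H.obj (tp T (n + 1)))) := by
          have := congrArg (fun f => (R.H.map f).hom) hs
          simp only [Functor.map_comp, ModuleCat.hom_comp, CategoryTheory.Functor.map_id] at this
          exact this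
        let u : (Module.End K (R.H.obj (tp T (n + 1))))ˣ :=
          ⟨(R.H.map s).hom, (R.H.map s).hom, hss, hss⟩
        exact ⟨⟨u, ⟨s, rfl⟩, ⟨s, rfl⟩, _, h⟩, h⟩
      exact h3 trivial
  exact key

end perms

section algebra

variable {K : Type w} [Field K] [CharZero K] {M : Type w} [AddCommGroup M] [Module K M]
  [FiniteDimensional K M] {G : Type w} [Group G] [Finite G]

/-- The algebra spanned by a representation. -/
noncomputable def rAlg (ρ : G →* Module.End K M) : Subalgebra K (Module.End K M) :=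
  (MonoidAlgebra.lift K _ _ ρ).range

instance rAlg_ss (ρ : G →* Module.End K M) : IsSemisimpleRing (rAlg ρ) := by
  have hne : NeZero ((Nat.card G : K)) :=
    ⟨Nat.cast_ne_zero.2 Nat.card_pos.ne'⟩
  have h1 : IsSemisimpleRing (MonoidAlgebra K G) := by
    unfold IsSemisimpleRing
    infer_instance
  let f : MonoidAlgebra K G →+* rAlg ρ :=
    ((MonoidAlgebra.lift K _ _ ρ).rangeRestrict).toRingHom
  have hf : Function.Surjective f := AlgHom.rangeRestrict_surjective _
  exact RingHom.isSemisimpleRing_of_surjective f hf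

lemma r_mem (ρ : G →* Module.End K M) (σ : G) : ρ σ ∈ rAlg ρ :=
  ⟨MonoidAlgebra.single σ 1, by
    change MonoidAlgebra.lift K _ _ ρ (MonoidAlgebra.single σ 1) = _
    rw [MonoidAlgebra.lift_single, one_smul]⟩

lemma rAlg_eq (ρ : G →* Module.End K M) :
    Subalgebra.toSubmodule (rAlg ρ) = Submodule.span K (Set.range ρ) := by
  apply le_antisymm
  · rintro _ ⟨x, rfl⟩
    change MonoidAlgebra.lift K _ _ ρ x ∈ _
    rw [MonoidAlgebra.lift_apply, Finsupp.sum]
    exact Submodule.sum_mem _ fun σ _ => Submodule.smul_mem _ _ (Submodule.subset_span ⟨σ, rfl⟩)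
  · rw [Submodule.span_le]
    rintro _ ⟨σ, rfl⟩
    exact r_mem ρ σ

/-- semisimple rings are von Neumann regular -/
lemma regular_of_ss {A : Type*} [Ring A] [IsSemisimpleRing A] (a : A) : ∃ b, a * b * a = a := by
  obtain ⟨N, hN⟩ := exists_isCompl (Submodule.span A ({a} : Set A))
  have h5 : (1 : A) ∈ Submodule.span A ({a} : Set A) ⊔ N := by
    rw [hN.sup_eq_top]
    trivial
  obtain ⟨x, hx, y, hy, hxy⟩ := Submodule.mem_sup.1 h5
  obtain ⟨b, rfl⟩ := Submodule.mem_span_singleton.1 hx
  refine ⟨b, ?_⟩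
  have h6 : a * y ∈ N := N.smul_mem a hy
  have h7 : a * y = a - a * b * a := by
    have : y = 1 - b * a := by rw [← hxy]; simp
    rw [this, mul_sub, mul_one, mul_assoc]
  have h8 : a * y ∈ Submodule.span A ({a} : Set A) := by
    rw [h7]
    exact Submodule.sub_mem _ (Submodule.mem_span_singleton_self a)
      (Submodule.mem_span_singleton.2 ⟨a * b, rfl⟩)
  have h9 : a * y = 0 := by
    have := hN.disjoint.le_bot ⟨h8, h6⟩
    simpa using this
  rw [h7, sub_eq_zero] at h9
  exact h9.symm

/-- an idempotent operator of trace zero vanishes -/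
lemma idem_trace (f : Module.End K M) (hf : f * f = f) (h0 : LinearMap.trace K M f = 0) :
    f = 0 := by
  have h1 : LinearMap.IsProj (LinearMap.range f) f := by
    refine ⟨fun x => ⟨x, rfl⟩, ?_⟩
    rintro _ ⟨x, rfl⟩
    exact LinearMap.congr_fun hf x
  have h2 := h1.trace
  rw [h0] at h2
  have h3 : finrank K (LinearMap.range f) = 0 := by exact_mod_cast h2.symm
  rw [Submodule.finrank_eq_zero] at h3
  exact LinearMap.range_eq_bot.1 h3

/-- the trace form on the span of a representation is nondegenerate -/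
lemma trace_nondeg (ρ : G →* Module.End K M) (x : Module.End K M)
    (hx : x ∈ Submodule.span K (Set.range ρ))
    (h : ∀ g, LinearMap.trace K M (x ∘ₗ ρ g) = 0) : x = 0 := by
  have hx' : x ∈ rAlg ρ := by
    rw [← Subalgebra.mem_toSubmodule, rAlg_eq]
    exact hx
  obtain ⟨⟨y, hy⟩, hxy⟩ := regular_of_ss (⟨x, hx'⟩ : rAlg ρ)
  have hxy' : x * y * x = x := congrArg Subtype.val hxy
  have hall : ∀ z ∈ Submodule.span K (Set.range ρ), LinearMap.trace K M (x * z) = 0 := by
    intro z hz
    have h1 : Submodule.span K (Set.range ρ) ≤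
        LinearMap.ker (LinearMap.trace K M ∘ₗ LinearMap.mulLeft K x) := by
      rw [Submodule.span_le]
      rintro _ ⟨g, rfl⟩
      exact h g
    exact h1 hz
  have hy' : y ∈ Submodule.span K (Set.range ρ) := by
    rw [← rAlg_eq]
    exact hy
  have h2 := idem_trace (x * y) (by rw [← mul_assoc, hxy']) (hall y hy')
  rw [h2, zero_mul] at hxy'
  exact hxy'.symm

end algebra

end Pool.Agent.N833.AF

namespace Pool.Agent.N64.AF

universe v u w t

open Pool.Agent.N833.AF Pool.Agent.Y133.Half

/-- D1: the span of the realisations of the endomorphisms of a tensor power is large, and the trace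
form is nondegenerate on a large subspace. -/
theorem exists_perm_span {C : Type u} [Category.{v} C] [Preadditive C] [MonoidalCategory C]
    [SymmetricCategory C] {K : Type w} [Field K] [IsAlgClosed K] [CharZero K]
    (R : SuperRealisation C K) (T : C) (n : ℕ) :
    ∃ (ι : Type) (_ : Fintype ι) (s : ι → (tp T n ⟶ tp T n)),
      (bt R T ^ 2) ^ n ≤ (n + 1) ^ (bt R T ^ 2) *
        finrank K (Submodule.span K (Set.range fun i => (R.H.map (s i)).hom)) ∧
      ∀ x ∈ Submodule.span K (Set.range fun i => (R.H.map (s i)).hom),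
        (∀ i, LinearMap.trace K (R.H.obj (tp T n)) (x ∘ₗ (R.H.map (s i)).hom) = 0) → x = 0 := by
  classical
  have h2 : (2 : K) ≠ 0 := two_ne_zero
  obtain ⟨e, he⟩ := exists_hbasis R T
  have hfin := R.finite (tp T n)
  have hG := GG_finite e n
  let ρ : GG e n →* Module.End K (R.H.obj (tp T n)) :=
    (Units.coeHom _).comp (GG e n).subtype
  let f := Finite.equivFin (GG e n)
  choose s hs using fun u : GG e n => u.2.1
  have hrange : (Set.range fun i : Fin (Nat.card (GG e n)) => (R.H.map (s (f.symm i))).hom) =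
      Set.range ρ := by
    ext y
    constructor
    · rintro ⟨i, rfl⟩
      exact ⟨f.symm i, (hs (f.symm i)).symm⟩
    · rintro ⟨u, rfl⟩
      refine ⟨f u, ?_⟩
      simp only [Equiv.symm_apply_apply]
      exact hs u
  refine ⟨Fin (Nat.card (GG e n)), inferInstance, fun i => s (f.symm i), ?_, ?_⟩
  · rw [hrange]
    choose g hg using GG_perm h2 e he n
    let D : Submodule K (Module.End K (R.H.obj (tp T n))) :=
      { carrier := {u | ∀ σ m, u (ρ σ m) = ρ σ (u m)}
        zero_mem' := fun σ m => by rw [LinearMap.zero_apply, LinearMap.zero_apply, map_zero]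
        add_mem' := fun {a b} ha hb σ m => by
          rw [LinearMap.add_apply, LinearMap.add_apply, ha σ m, hb σ m, map_add]
        smul_mem' := fun c a ha σ m => by
          rw [LinearMap.smul_apply, LinearMap.smul_apply, ha σ m, map_smul] }
    have k1 := commutant_le (wb e n) (fun σ => ρ (g σ)) (by
      intro σ w
      obtain ⟨a, ha, h⟩ := hg σ w
      refine ⟨a, ?_, h⟩
      rcases ha with rfl | rfl
      · exact one_ne_zero
      · exact neg_ne_zero.2 one_ne_zero) D fun u hu σ m => hu (g σ) m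
    have k2 := sq_le_mul_commutant K (rAlg ρ) (R.H.obj (tp T n)) D
      fun u hu σ m => hu ⟨_, r_mem ρ σ⟩ m
    have k3 : finrank K (rAlg ρ) ≤ finrank K (Submodule.span K (Set.range ρ)) :=
      Submodule.finrank_mono (rAlg_eq ρ).le
    have k4 : finrank K (R.H.obj (tp T n)) = bt R T ^ n := by
      rw [Module.finrank_eq_card_basis (wb e n), Fintype.card_fun, Fintype.card_fin,
        Fintype.card_fin]
    rw [Fintype.card_fin] at k1
    rw [k4] at k2
    calc (bt R T ^ 2) ^ n = (bt R T ^ n) ^ 2 := by rw [← pow_mul, ← pow_mul, mul_comm]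
      _ ≤ finrank K (rAlg ρ) * finrank K D := k2
      _ ≤ finrank K (Submodule.span K (Set.range ρ)) * (n + 1) ^ (bt R T ^ 2) :=
          Nat.mul_le_mul k3 k1
      _ = _ := mul_comm _ _
  · rw [hrange]
    intro x hx h
    refine trace_nondeg ρ x hx fun u => ?_
    have h3 := h (f u)
    simp only [Equiv.symm_apply_apply] at h3
    rw [hs u] at h3
    exact h3

end Pool.Agent.N64.AF
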