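import Pool.Agent.N64.AF.D1
import Pool.Agent.N64.AF.Ba
import Pool.Agent.N64.AF.P1

/-!
# D2: growth
-/

set_option autoImplicit false

open CategoryTheory Limits MonoidalCategory Module
open Pool.Agent.Y112.SR Pool.Agent.Y112.KD
open Pool.Agent.Y116.MT (tr)

namespace Pool.Agent.N64.AF

universe v u w t

variable {C : Type u} [Category.{v} C] [Preadditive C] [MonoidalCategory C]
  [MonoidalPreadditive C] [SymmetricCategory C] [RightRigidCategory C]
  {Λ : Type t} [Field Λ] [CharZero Λ] [Linear Λ C] [MonoidalLinear Λ C]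
  {K : Type w} [Field K] [IsAlgClosed K] [Algebra Λ K] {R : SuperRealisation C K}

/-- D2: growth. -/
theorem growth (hR : IsReal Λ R) {T : C} (hT : R.CPlus T) (n : ℕ) :
    (bt R T ^ 2) ^ n ≤ (n + 1) ^ (bt R T ^ 2) * nr Λ (𝟙 (tp T n)) (𝟙 (tp T n)) := by
  have : CharZero K := charZero_of_injective_algebraMap (algebraMap Λ K).injective
  obtain ⟨ι, hι, s, hs1, hs2⟩ := exists_perm_span R T n
  set B := Submodule.span K (Set.range fun i => (R.H.map (s i)).hom) with hB
  have e1 : (R.H.map (𝟙 (tp T n))).hom = LinearMap.id := by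
    rw [R.H.map_id]
    rfl
  have hnr := nr_eq_nd hR (cplus_tp hR hT n) (𝟙 (tp T n)) (𝟙 (tp T n))
  rw [e1, Pool.Agent.Y129.sand_one] at hnr
  have hle : finrank K B ≤ nr Λ (𝟙 (tp T n)) (𝟙 (tp T n)) := by
    rw [hnr, Pool.Agent.Y129.nd]
    have hBC : B ≤ CK R (tp T n) (tp T n) := by
      rw [hB, Submodule.span_le]
      rintro _ ⟨i, rfl⟩
      exact Submodule.subset_span ⟨s i, rfl⟩
    have hfin : Module.Finite K (R.H.obj (tp T n)) := inferInstance
    have hinj : Function.Injective
        ((Pool.Agent.Y129.perp (H := fun Y : C => R.H.obj Y) (CK R) (tp T n) (tp T n)).mkQ.domRestrict B) := by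
      rw [← LinearMap.ker_eq_bot, Submodule.eq_bot_iff]
      rintro ⟨x, hx⟩ hx0
      rw [LinearMap.mem_ker, LinearMap.domRestrict_apply, Submodule.mkQ_apply,
        Submodule.Quotient.mk_eq_zero] at hx0
      apply Subtype.ext
      apply hs2 x hx
      intro i
      have h1 := hx0 (R.H.map (s i)).hom (hBC (Submodule.subset_span ⟨i, rfl⟩))
      rw [LinearMap.trace_comp_comm'] at h1
      exact h1
    have h2 := LinearMap.finrank_range_of_inj hinj
    rw [LinearMap.range_domRestrict] at h2
    rw [← h2]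
    apply Submodule.finrank_mono
    exact Submodule.map_mono hBC
  exact hs1.trans (Nat.mul_le_mul_left _ hle)

end Pool.Agent.N64.AF
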