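import Pool.Agent.Y112.SR.Defs
import Pool.Agent.Y112.KD.Asym
import Pool.Agent.Y116.MT.Trace

/-!
# Numerical equivalence in a tensor category: definitions

`C` is a `Λ`-linear rigid symmetric monoidal category with a symmetric monoidal functor to finite
dimensional super vector spaces over an extension `K` of `Λ`. In the intended use `C` is the category
of the smooth projective varieties over a field, with the Chow groups of `X × Y` (all codimensions,
coefficients in `Λ`) as morphisms, and the realisation is a Weil cohomology.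
-/

set_option autoImplicit false

open CategoryTheory Limits MonoidalCategory Module
open Pool.Agent.Y112.SR Pool.Agent.Y112.KD
open Pool.Agent.Y116.MT (tr)

namespace Pool.Agent.N64.AF

universe v u w t

section Num

variable {C : Type u} [Category.{v} C] [Preadditive C] [MonoidalCategory C]
  [MonoidalPreadditive C] [SymmetricCategory C] [RightRigidCategory C]

/-- The morphism `f` is numerically trivial: all its composites with morphisms in the opposite
direction have trace zero. -/
def NumTriv {Y Z : C} (f : Y ⟶ Z) : Prop := ∀ g : Z ⟶ Y, tr (f ≫ g) = 0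

/-- The endomorphism `e` is idempotent modulo numerical equivalence. -/
def NumIdem {Y : C} (e : Y ⟶ Y) : Prop := NumTriv (e ≫ e - e)

lemma tr_add' {X : C} (a b : X ⟶ X) : tr (a + b) = tr a + tr b := by
  simp only [tr, MonoidalPreadditive.add_whiskerRight, Preadditive.comp_add, Preadditive.add_comp]

lemma tr_zero' (X : C) : tr (0 : X ⟶ X) = 0 := by
  simp [tr]

variable (Λ : Type t) [Field Λ] [Linear Λ C] [MonoidalLinear Λ C]

lemma tr_smul' {X : C} (c : Λ) (a : X ⟶ X) : tr (c • a) = c • tr a := by
  simp only [tr, MonoidalLinear.smul_whiskerRight, Linear.comp_smul, Linear.smul_comp]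

/-- The space of the numerically trivial morphisms. -/
def numIdeal (Y Z : C) : Submodule Λ (Y ⟶ Z) where
  carrier := {f | NumTriv f}
  zero_mem' := fun g => by rw [zero_comp, tr_zero']
  add_mem' := fun {a b} ha hb g => by rw [Preadditive.add_comp, tr_add', ha g, hb g, add_zero]
  smul_mem' := fun c a ha g => by rw [Linear.smul_comp, tr_smul', ha g, smul_zero]

variable {Λ} in
lemma mem_numIdeal {Y Z : C} {f : Y ⟶ Z} : f ∈ numIdeal Λ Y Z ↔ NumTriv f := Iff.rfl

/-- The dimension of the space of the morphisms `e ≫ c ≫ f` modulo numerical equivalence, where `c`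
runs through the morphisms from `Y` to `Z`. -/
noncomputable def nr {Y Z : C} (e : Y ⟶ Y) (f : Z ⟶ Z) : ℕ :=
  finrank Λ (LinearMap.range ((numIdeal Λ Y Z).mkQ ∘ₗ Linear.rightComp Λ Y f ∘ₗ
    Linear.leftComp Λ Z e))

/-- The dimension of the space of the morphisms from the unit object to `S` modulo numerical
equivalence. -/
noncomputable def numRank (S : C) : ℕ :=
  finrank Λ ((𝟙_ C ⟶ S) ⧸ numIdeal Λ (𝟙_ C) S)

end Num

section Real

variable {C : Type u} [Category.{v} C] [Preadditive C] [MonoidalCategory C]
  [SymmetricCategory C] {K : Type w} [Field K]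

/-- The endomorphisms of the unit object are the scalars in `Λ`, and the realisation is
`Λ`-linear. -/
structure IsReal (Λ : Type t) [Field Λ] [Linear Λ C] [Algebra Λ K] (R : SuperRealisation C K) :
    Prop where
  unit : ∀ c : 𝟙_ C ⟶ 𝟙_ C, ∃ q : Λ, c = q • 𝟙 _
  lin : ∀ {X Y : C} (a : Λ) (f : X ⟶ Y), R.H.map (a • f) = algebraMap Λ K a • R.H.map f

/-- The endomorphism `e` has rank `r`: this is the (ordinary, unsigned) trace of its realisation. -/
def IsRk (R : SuperRealisation C K) {Y : C} (e : Y ⟶ Y) (r : ℕ) : Prop :=
  LinearMap.trace K (R.H.obj Y) (R.H.map e).hom = r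

/-- The linear combinations of the realisations of the morphisms from `Y` to `Z`. -/
noncomputable def CK (R : SuperRealisation C K) (Y Z : C) :
    Submodule K (R.H.obj Y →ₗ[K] R.H.obj Z) :=
  Submodule.span K (Set.range fun f : Y ⟶ Z => (R.H.map f).hom)

/-- The dimension of the realisation. -/
noncomputable def bt (R : SuperRealisation C K) (Y : C) : ℕ := finrank K (R.H.obj Y)

end Real

/-- The comparison sequence. -/
def cmpSeq (β : ℕ → ℕ) (b n : ℕ) : ℕ := b ^ (n % 2) * β (2 * (n / 2))

section Pow

variable {C : Type u} [Category.{v} C] [MonoidalCategory C]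

/-- The endomorphism `e ⊗ 1 ⊗ ⋯ ⊗ 1` of a higher tensor power. -/
def upT (T : C) {m : ℕ} (e : tp T m ⟶ tp T m) : ∀ p : ℕ, (tp T (m + p) ⟶ tp T (m + p))
  | 0 => e
  | p + 1 => upT T e p ▷ T

end Pow

section Hyp

variable {C : Type u} [Category.{v} C] [Preadditive C] [MonoidalCategory C]
  [MonoidalPreadditive C] [SymmetricCategory C] [RightRigidCategory C]
  {K : Type w} [Field K]

/-- The hypotheses on the object `T`: it satisfies the sign conjecture, and the unit object is a
direct summand of `T`. (In the applications `T` is the motive of a variety `X`, which is self-dual.)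
-/
structure IsPow (Λ : Type t) [Field Λ] [Linear Λ C] [MonoidalLinear Λ C] [Algebra Λ K]
    (R : SuperRealisation C K) (T : C) : Prop where
  real : IsReal Λ R
  cplus : R.CPlus T
  retract : ∃ (i : 𝟙_ C ⟶ T) (r : T ⟶ 𝟙_ C), i ≫ r = 𝟙 (𝟙_ C)

end Hyp

end Pool.Agent.N64.AF
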