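import Pool.Agent.N64.AF.C

/-!
# E1: multiplicities in tensor powers
-/

set_option autoImplicit false

open CategoryTheory Limits MonoidalCategory Module Filter Topology
open Pool.Agent.Y112.SR Pool.Agent.Y112.KD
open Pool.Agent.Y116.MT (tr)

namespace Pool.Agent.N64.AF

universe v u w t

variable {C : Type u} [Category.{v} C] [Preadditive C] [MonoidalCategory C]
  [MonoidalPreadditive C] [SymmetricCategory C] [RightRigidCategory C]
  {Λ : Type t} [Field Λ] [CharZero Λ] [Linear Λ C] [MonoidalLinear Λ C]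
  {K : Type w} [Field K] [IsAlgClosed K] [Algebra Λ K] {R : SuperRealisation C K}

/-- E1 -/
theorem nr_tp (hR : IsReal Λ R) (T : C) [ExactPairing T T] (m n : ℕ) :
    nr Λ (𝟙 (tp T m)) (𝟙 (tp T n)) = numRank Λ (tp T (m + n)) := by
  induction m generalizing n with
  | zero =>
    rw [Nat.zero_add, numRank_eq]
  | succ m ih =>
    have h1 : 𝟙 (tp T (m + 1)) = 𝟙 (tp T m) ▷ T := (id_whiskerRight (tp T m) T).symm
    have h2 : 𝟙 (tp T (n + 1)) = 𝟙 (tp T n) ▷ T := (id_whiskerRight (tp T n) T).symm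
    have h3 : m + 1 + n = m + (n + 1) := by omega
    rw [h1, nr_dual hR T T, ← h2, ih (n + 1), h3]

/-- E2 -/
theorem nr_upT (hR : IsReal Λ R) (T : C) [ExactPairing T T] {m : ℕ} (e : tp T m ⟶ tp T m)
    (n p : ℕ) : nr Λ e (𝟙 (tp T (n + p))) = nr Λ (upT T e p) (𝟙 (tp T n)) := by
  induction p generalizing n with
  | zero => rfl
  | succ p ih =>
    have h2 : 𝟙 (tp T (n + 1)) = 𝟙 (tp T n) ▷ T := (id_whiskerRight (tp T n) T).symm
    have h3 : n + (p + 1) = (n + 1) + p := by omega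
    rw [h3, ih (n + 1), h2, ← nr_dual hR T T]
    rfl

/-- E3 -/
theorem exists_tp_iso (T : C) (m p : ℕ) : ∃ i : tp T m ⊗ tp T p ≅ tp T (m + p),
    ∀ e : tp T m ⟶ tp T m, (e ▷ tp T p) ≫ i.hom = i.hom ≫ upT T e p := by
  induction p with
  | zero => exact ⟨ρ_ (tp T m), fun e => rightUnitor_naturality e⟩
  | succ p ih =>
    obtain ⟨i, hi⟩ := ih
    refine ⟨(α_ (tp T m) (tp T p) T).symm ≪≫ whiskerRightIso i T, fun e => ?_⟩
    change (e ▷ (tp T p ⊗ T)) ≫ ((α_ (tp T m) (tp T p) T).inv ≫ i.hom ▷ T) =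
      ((α_ (tp T m) (tp T p) T).inv ≫ i.hom ▷ T) ≫ (upT T e p ▷ T)
    rw [whiskerRight_tensor, Category.assoc, Category.assoc, Iso.hom_inv_id_assoc, Category.assoc,
      ← comp_whiskerRight, hi e, comp_whiskerRight]

namespace E1aux

theorem even_case {T : C} [ExactPairing T T] (h : IsPow Λ R T) {m : ℕ}
    {e : tp T m ⟶ tp T m} (he : NumIdem e) {r : ℕ} (hr : IsRk R e r) (p : ℕ) :
    nr Λ e (𝟙 (tp T (p + p))) ≤ r * numRank Λ (tp T (p + p)) := by
  obtain ⟨i, hi⟩ := exists_tp_iso T m p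
  rw [nr_upT h.real T e p p, ← nr_congr_left h.real i (hi e), ← nr_tp h.real T p p]
  exact schur h.real (cplus_tp h.real h.cplus m) (cplus_tp h.real h.cplus p) he hr

end E1aux

/-- E4 -/
theorem nr_le_cmpSeq {T : C} [ExactPairing T T] (h : IsPow Λ R T) {m : ℕ}
    {e : tp T m ⟶ tp T m} (he : NumIdem e) {r : ℕ} (hr : IsRk R e r) (n : ℕ) :
    nr Λ e (𝟙 (tp T n)) ≤ r * cmpSeq (fun n => numRank Λ (tp T n)) (bt R T) n := by
  rcases Nat.even_or_odd' n with ⟨p, hp | hp⟩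
  · have h1 : n = p + p := by omega
    have h2 : n % 2 = 0 := by omega
    have h3 : 2 * (n / 2) = n := by omega
    unfold cmpSeq
    rw [h2, h3, pow_zero, one_mul, h1]
    exact E1aux.even_case h he hr p
  · have h1 : n = p + p + 1 := by omega
    have h2 : n % 2 = 1 := by omega
    have h3 : 2 * (n / 2) = p + p := by omega
    unfold cmpSeq
    rw [h2, h3, pow_one, h1, nr_upT h.real T e (p + p) 1]
    have he' : NumIdem (e ⊗ₘ 𝟙 T) := numIdem_tensor h.real he (numIdem_id T)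
    have hr' : IsRk R (e ⊗ₘ 𝟙 T) (r * bt R T) := isRk_tensor hr (isRk_id R T)
    rw [tensorHom_id] at he' hr'
    have h4 := E1aux.even_case (m := m + 1) h he' hr' p
    rw [mul_assoc] at h4
    exact h4

/-- E5 -/
theorem bt_pos {T : C} (h : IsPow Λ R T) : 0 < bt R T := by
  obtain ⟨i, r, hir⟩ := h.retract
  have h1 : R.H.map i ≫ R.H.map r = 𝟙 (R.H.obj (𝟙_ C)) := by
    rw [← R.H.map_comp, hir, R.H.map_id]
  have h2 : Function.Injective (R.H.map i).hom := by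
    intro a b hab
    have h3 : (R.H.map r).hom ((R.H.map i).hom a) = (R.H.map r).hom ((R.H.map i).hom b) := by
      rw [hab]
    have h4 : ∀ x, (R.H.map r).hom ((R.H.map i).hom x) = x := fun x => by
      have := congrArg (fun f => f.hom x) h1
      exact this
    rw [h4, h4] at h3
    exact h3
  have h3 := LinearMap.finrank_le_finrank_of_injective h2
  have h4 : finrank K (R.H.obj (𝟙_ C)) = 1 := bt_unit R
  unfold bt
  omega

namespace E1aux

lemma id_ne_zero (R : SuperRealisation C K) : (𝟙 (𝟙_ C) : 𝟙_ C ⟶ 𝟙_ C) ≠ 0 := by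
  intro h0
  have h1 : (𝟙 (R.H.obj (𝟙_ C)) : R.H.obj (𝟙_ C) ⟶ R.H.obj (𝟙_ C)) = 0 := by
    rw [← R.H.map_id, h0, R.H.map_zero]
  have h4 : finrank K (R.H.obj (𝟙_ C)) = 1 := bt_unit R
  have h5 : 0 < finrank K (R.H.obj (𝟙_ C)) := by omega
  obtain ⟨x, hx⟩ := Module.finrank_pos_iff_exists_ne_zero.1 h5
  apply hx
  have := congrArg (fun f => f.hom x) h1
  exact this

lemma retract_tp {T : C} {i : 𝟙_ C ⟶ T} {r : T ⟶ 𝟙_ C} (h : i ≫ r = 𝟙 (𝟙_ C)) (n : ℕ) :
    ((ρ_ (tp T n)).inv ≫ (tp T n ◁ i)) ≫ ((tp T n ◁ r) ≫ (ρ_ (tp T n)).hom) = 𝟙 (tp T n) := by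
  rw [Category.assoc, ← Category.assoc (tp T n ◁ i), ← whiskerLeft_comp, h, whiskerLeft_id,
    Category.id_comp, Iso.inv_hom_id]

lemma retract_unit {T : C} {i : 𝟙_ C ⟶ T} {r : T ⟶ 𝟙_ C} (h : i ≫ r = 𝟙 (𝟙_ C)) (n : ℕ) :
    ∃ (i' : 𝟙_ C ⟶ tp T n) (r' : tp T n ⟶ 𝟙_ C), i' ≫ r' = 𝟙 (𝟙_ C) := by
  induction n with
  | zero => exact ⟨𝟙 _, 𝟙 _, Category.id_comp _⟩
  | succ n ih =>
    obtain ⟨i', r', h'⟩ := ih
    refine ⟨i' ≫ ((ρ_ (tp T n)).inv ≫ (tp T n ◁ i)), ((tp T n ◁ r) ≫ (ρ_ (tp T n)).hom) ≫ r', ?_⟩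
    rw [Category.assoc, ← Category.assoc ((ρ_ (tp T n)).inv ≫ (tp T n ◁ i)), retract_tp h,
      Category.id_comp, h']

lemma numRank_pos {T : C} (h : IsPow Λ R T) (n : ℕ) : 0 < numRank Λ (tp T n) := by
  obtain ⟨i, r, hir⟩ := h.retract
  obtain ⟨i', r', h'⟩ := retract_unit hir n
  have hfin := finite_num h.real (Λ := Λ) (𝟙_ C) (tp T n)
  unfold numRank
  rw [Module.finrank_pos_iff_exists_ne_zero]
  refine ⟨Submodule.Quotient.mk i', fun h0 => ?_⟩
  rw [Submodule.Quotient.mk_eq_zero, mem_numIdeal, numTriv_unit_iff h.real] at h0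
  have h1 := h0 r'
  rw [h'] at h1
  exact id_ne_zero R h1

lemma numRank_le_succ {T : C} (h : IsPow Λ R T) (n : ℕ) :
    numRank Λ (tp T n) ≤ numRank Λ (tp T (n + 1)) := by
  obtain ⟨i, r, hir⟩ := h.retract
  rw [numRank_eq, numRank_eq]
  have h1 := nr_retract_right (Λ := Λ) h.real ((ρ_ (tp T n)).inv ≫ (tp T n ◁ i))
    ((tp T n ◁ r) ≫ (ρ_ (tp T n)).hom) (retract_tp hir n) (𝟙 (𝟙_ C))
  rw [← h1]
  exact nr_le_right h.real _ _

lemma up {T : C} [ExactPairing T T] (h : IsPow Λ R T) (m p : ℕ) :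
    numRank Λ (tp T (m + 2 * p)) ≤ bt R T ^ m * numRank Λ (tp T (2 * p)) := by
  have h1 := nr_le_cmpSeq h (m := m) (numIdem_id (tp T m)) (isRk_id R (tp T m)) (2 * p)
  have h2 : 2 * p % 2 = 0 := by omega
  have h3 : 2 * (2 * p / 2) = 2 * p := by omega
  unfold cmpSeq at h1
  rw [nr_tp h.real, h2, h3, pow_zero, one_mul, bt_tp] at h1
  exact h1

end E1aux

/-- E8 -/
theorem numRank_mono {T : C} [ExactPairing T T] (h : IsPow Λ R T) (n : ℕ) :
    0 < numRank Λ (tp T n) ∧ numRank Λ (tp T n) ≤ numRank Λ (tp T (n + 1)) ∧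
      numRank Λ (tp T (n + 1)) ≤ bt R T ^ 2 * numRank Λ (tp T n) := by
  refine ⟨E1aux.numRank_pos h n, E1aux.numRank_le_succ h n, ?_⟩
  have hb := bt_pos h
  rcases Nat.even_or_odd' n with ⟨p, hp | hp⟩
  · have h1 := E1aux.up h 1 p
    have h2 : 1 + 2 * p = n + 1 := by omega
    rw [h2, ← hp, pow_one] at h1
    refine h1.trans (Nat.mul_le_mul_right _ ?_)
    nlinarith
  · have h1 := E1aux.up h 2 p
    have h2 : 2 + 2 * p = n + 1 := by omega
    rw [h2] at h1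
    refine h1.trans (Nat.mul_le_mul_left _ ?_)
    rw [hp]
    exact E1aux.numRank_le_succ h (2 * p)

end Pool.Agent.N64.AF
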