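import Pool.Agent.N64.AF.E0
import Pool.Agent.N64.AF.E1
import Pool.Agent.N64.AF.D2

/-!
# E2: asymptotics of the multiplicities
-/

set_option autoImplicit false
set_option linter.unusedSectionVars false

open CategoryTheory Limits MonoidalCategory Module Filter Topology
open Pool.Agent.Y112.SR Pool.Agent.Y112.KD
open Pool.Agent.Y116.MT (tr)

namespace Pool.Agent.N505.AFE2

open Pool.Agent.N64.AF

universe v u w t

variable {C : Type u} [Category.{v} C] [Preadditive C] [MonoidalCategory C]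
  [MonoidalPreadditive C] [SymmetricCategory C] [RightRigidCategory C]
  {Λ : Type t} [Field Λ] [CharZero Λ] [Linear Λ C] [MonoidalLinear Λ C]
  {K : Type w} [Field K] [IsAlgClosed K] [Algebra Λ K] {R : SuperRealisation C K}

lemma cmpSeq_even (β : ℕ → ℕ) (b n : ℕ) : cmpSeq β b (2 * n) = β (2 * n) := by
  unfold cmpSeq
  rw [Nat.mul_mod_right, pow_zero, one_mul, Nat.mul_div_cancel_left n (by norm_num)]

lemma isRk_one (R : SuperRealisation C K) {T : C} (i : 𝟙_ C ⟶ T) (r : T ⟶ 𝟙_ C)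
    (h : i ≫ r = 𝟙 (𝟙_ C)) : IsRk R (r ≫ i) 1 := by
  have h1 := isRk_id R (𝟙_ C)
  rw [bt_unit] at h1
  rw [← h] at h1
  unfold IsRk at h1 ⊢
  rw [← h1]
  have e1 : (R.H.map (r ≫ i)).hom = (R.H.map i).hom ∘ₗ (R.H.map r).hom := by
    rw [R.H.map_comp]
    rfl
  have e2 : (R.H.map (i ≫ r)).hom = (R.H.map r).hom ∘ₗ (R.H.map i).hom := by
    rw [R.H.map_comp]
    rfl
  rw [e1, e2]
  have := R.finite T
  have := R.finite (𝟙_ C)
  exact LinearMap.trace_comp_comm' _ _

end Pool.Agent.N505.AFE2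

namespace Pool.Agent.N64.AF

universe v u w t

variable {C : Type u} [Category.{v} C] [Preadditive C] [MonoidalCategory C]
  [MonoidalPreadditive C] [SymmetricCategory C] [RightRigidCategory C]
  {Λ : Type t} [Field Λ] [CharZero Λ] [Linear Λ C] [MonoidalLinear Λ C]
  {K : Type w} [Field K] [IsAlgClosed K] [Algebra Λ K] {R : SuperRealisation C K}

/-- E6 -/
theorem numRank_tendsto {T : C} [ExactPairing T T] (h : IsPow Λ R T) :
    (∀ n, 0 < cmpSeq (fun n => numRank Λ (tp T n)) (bt R T) n) ∧ ∀ j : ℕ,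
      Tendsto (fun n => (numRank Λ (tp T (n + j)) : ℝ) /
        cmpSeq (fun n => numRank Λ (tp T n)) (bt R T) n) atTop (𝓝 ((bt R T : ℝ) ^ j)) := by
  have hR := h.real
  have hT := h.cplus
  have hb := bt_pos h
  have hcp := fun n => cplus_tp hR hT n
  have hrk : ∀ m, IsRk R (𝟙 (tp T m)) (bt R T ^ m) := fun m => by
    have h1 := isRk_id R (tp T m)
    rwa [bt_tp] at h1
  have htp : ∀ m n k : ℕ, m + n = k →
      nr Λ (𝟙 (tp T m)) (𝟙 (tp T n)) = numRank Λ (tp T k) := by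
    intro m n k hk
    rw [nr_tp hR T m n, hk]
  refine tendsto_cmpSeq (β := fun n => numRank Λ (tp T n)) hb ?_ ?_ ?_ ?_ ?_
  · intro n
    have h1 := nr_sq_le hR (hcp n) (hcp (n + 2)) (numIdem_id (tp T n)) (numIdem_id (tp T (n + 2)))
    rw [htp n (n + 2) (2 * n + 2) (by ring), htp n n (2 * n) (by ring),
      htp (n + 2) (n + 2) (2 * n + 4) (by ring)] at h1
    exact h1
  · intro n
    have h1 := nr_le_cmpSeq h (numIdem_id (tp T 2)) (hrk 2) (2 * n)
    rw [htp 2 (2 * n) (2 * n + 2) (by ring), Pool.Agent.N505.AFE2.cmpSeq_even] at h1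
    exact h1
  · intro n
    have h1 := growth hR hT n
    rw [htp n n (2 * n) (by ring)] at h1
    exact h1
  · intro n
    have h1 := nr_le_cmpSeq h (numIdem_id (tp T 1)) (hrk 1) (2 * n)
    rw [htp 1 (2 * n) (2 * n + 1) (by ring), Pool.Agent.N505.AFE2.cmpSeq_even, pow_one] at h1
    exact h1
  · intro n
    obtain ⟨i, r, hir⟩ := h.retract
    have hbb : bt R T ≤ bt R T ^ 2 := by
      rw [pow_two]
      exact Nat.le_mul_of_pos_right _ hb
    let ι : tp T 2 ⟶ tp T 2 := tp T 1 ◁ (r ≫ i)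
    have hι : ι = (tp T 1 ◁ r ≫ (ρ_ (tp T 1)).hom) ≫ (ρ_ (tp T 1)).inv ≫ tp T 1 ◁ i := by
      show tp T 1 ◁ (r ≫ i) = _
      rw [Category.assoc, Iso.hom_inv_id_assoc, MonoidalCategory.whiskerLeft_comp]
    have hid : NumIdem ι := by
      have h1 : ι ≫ ι = ι := by
        show tp T 1 ◁ (r ≫ i) ≫ tp T 1 ◁ (r ≫ i) = tp T 1 ◁ (r ≫ i)
        rw [← MonoidalCategory.whiskerLeft_comp]
        congr 1
        rw [Category.assoc, reassoc_of% hir]
      unfold NumIdem
      rw [h1, sub_self]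
      exact (numIdeal Λ _ _).zero_mem
    have hιrk : IsRk R ι (bt R T) := by
      have h1 := isRk_tensor (hrk 1) (Pool.Agent.N505.AFE2.isRk_one R i r hir)
      rw [pow_one, mul_one, MonoidalCategory.id_tensorHom] at h1
      exact h1
    have hc : IsRk R (𝟙 (tp T 2) - ι) (bt R T ^ 2 - bt R T) := by
      refine isRk_compl hιrk ?_
      rw [bt_tp]
      omega
    have h1 := nr_le_cmpSeq h (numIdem_compl hid) hc (2 * n)
    have h2 := nr_add hR hid (𝟙 (tp T (2 * n)))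
    have h3 : nr Λ ι (𝟙 (tp T (2 * n))) = numRank Λ (tp T (2 * n + 1)) := by
      rw [hι, nr_retract hR ((ρ_ (tp T 1)).inv ≫ tp T 1 ◁ i) (tp T 1 ◁ r ≫ (ρ_ (tp T 1)).hom)
        (by rw [Category.assoc, ← MonoidalCategory.whiskerLeft_comp_assoc, hir,
              MonoidalCategory.whiskerLeft_id, Category.id_comp, Iso.inv_hom_id])
        (𝟙 (tp T (2 * n))), htp 1 (2 * n) (2 * n + 1) (by ring)]
    rw [htp 2 (2 * n) (2 * n + 2) (by ring), h3] at h2
    rw [Pool.Agent.N505.AFE2.cmpSeq_even] at h1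
    show numRank Λ (tp T (2 * n + 2)) ≤ numRank Λ (tp T (2 * n + 1)) +
      (bt R T ^ 2 - bt R T) * numRank Λ (tp T (2 * n))
    rw [← h2]
    exact Nat.add_le_add_left h1 _

/-- E7: the asymptotic multiplicity is the rank. -/
theorem eventually_nr {T : C} [ExactPairing T T] (h : IsPow Λ R T) {m : ℕ}
    {e : tp T m ⟶ tp T m} (he : NumIdem e) {r : ℕ} (hr : IsRk R e r) {δ : ℝ} (hδ : 0 < δ) :
    ∀ᶠ n in atTop, ((r : ℝ) - δ) * cmpSeq (fun n => numRank Λ (tp T n)) (bt R T) n ≤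
      nr Λ e (𝟙 (tp T n)) := by
  have hR := h.real
  have hT := h.cplus
  have : CharZero K := charZero_of_injective_algebraMap (algebraMap Λ K).injective
  obtain ⟨r', hr', hle⟩ := exists_rk hR (cplus_tp hR hT m) he
  have hrr : r = r' := by
    have h1 : (r : K) = r' := by
      rw [← show _ = (r : K) from hr, ← show _ = (r' : K) from hr']
    exact_mod_cast h1
  rw [← hrr, bt_tp] at hle
  obtain ⟨s, hs⟩ := Nat.exists_eq_add_of_le hle
  have hc : IsRk R (𝟙 (tp T m) - e) s := by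
    refine isRk_compl hr ?_
    rw [bt_tp, hs]
  obtain ⟨hpos, hlim⟩ := numRank_tendsto h
  have h1 : ∀ᶠ n in atTop, (bt R T : ℝ) ^ m - δ < (numRank Λ (tp T (n + m)) : ℝ) /
      cmpSeq (fun n => numRank Λ (tp T n)) (bt R T) n :=
    (hlim m).eventually_const_lt (by linarith)
  filter_upwards [h1] with n hn
  have hp : (0 : ℝ) < cmpSeq (fun n => numRank Λ (tp T n)) (bt R T) n := by
    exact_mod_cast hpos n
  rw [lt_div_iff₀ hp] at hn
  have h2 := nr_add hR he (𝟙 (tp T n))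
  rw [nr_tp hR T m n, Nat.add_comm m n] at h2
  have h3 := nr_le_cmpSeq h (numIdem_compl he) hc n
  have h2' : (nr Λ e (𝟙 (tp T n)) : ℝ) + nr Λ (𝟙 (tp T m) - e) (𝟙 (tp T n)) =
      numRank Λ (tp T (n + m)) := by exact_mod_cast h2
  have h3' : (nr Λ (𝟙 (tp T m) - e) (𝟙 (tp T n)) : ℝ) ≤
      s * cmpSeq (fun n => numRank Λ (tp T n)) (bt R T) n := by exact_mod_cast h3
  have hs' : (bt R T : ℝ) ^ m = r + s := by exact_mod_cast hs
  rw [hs'] at hn
  linarith [hn, h2', h3']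

end Pool.Agent.N64.AF
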