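import Pool.Agent.N64.AF.Q

/-!
# E3: an effective criterion (project AF of helper64; this file by helper945)
-/

set_option autoImplicit false

open CategoryTheory Limits MonoidalCategory Module Filter Topology
open Pool.Agent.Y112.SR Pool.Agent.Y112.KD
open Pool.Agent.Y116.MT (tr)
open scoped ENNReal

namespace Pool.Agent.N945.AFE3

universe v u w t x

open Pool.Agent.N64.AF

variable {C : Type u} [Category.{v} C] [Preadditive C] [MonoidalCategory C]
  [MonoidalPreadditive C] [SymmetricCategory C] [RightRigidCategory C]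
  {Λ : Type t} [Field Λ] [CharZero Λ] [Linear Λ C] [MonoidalLinear Λ C]
  {K : Type w} [Field K] [IsAlgClosed K] [Algebra Λ K] {R : SuperRealisation C K}

lemma cmpSeq_of_even {β : ℕ → ℕ} {b n : ℕ} (h : Even n) : cmpSeq β b n = β n := by
  obtain ⟨k, rfl⟩ := h
  unfold cmpSeq
  have h1 : (k + k) % 2 = 0 := by omega
  have h2 : 2 * ((k + k) / 2) = k + k := by omega
  rw [h1, h2, pow_zero, one_mul]

lemma cmpSeq_le {T : C} [ExactPairing T T] (h : IsPow Λ R T) (k : ℕ) :
    cmpSeq (fun n => numRank Λ (tp T n)) (bt R T) k ≤ bt R T * numRank Λ (tp T k) := by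
  have hb := bt_pos h
  unfold cmpSeq
  rcases Nat.mod_two_eq_zero_or_one k with h0 | h1
  · have h2 : 2 * (k / 2) = k := by omega
    rw [h0, h2, pow_zero]
    exact Nat.mul_le_mul_right _ hb
  · have h2 : 2 * (k / 2) + 1 = k := by omega
    rw [h1, pow_one]
    refine Nat.mul_le_mul_left _ ?_
    have h3 := (numRank_mono h (2 * (k / 2))).2.1
    rw [h2] at h3
    exact h3

/-- retracts of higher powers -/
lemma exists_retract {T : C} (h : IsPow Λ R T) (m : ℕ) : ∀ k : ℕ, m ≤ k →
    ∃ (i : tp T m ⟶ tp T k) (r : tp T k ⟶ tp T m), i ≫ r = 𝟙 (tp T m) := by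
  intro k hk
  induction k, hk using Nat.le_induction with
  | base => exact ⟨𝟙 _, 𝟙 _, Category.id_comp _⟩
  | succ k hk ih =>
    obtain ⟨i, r, hir⟩ := ih
    obtain ⟨i', r', hir'⟩ := exists_retract_tp h k
    refine ⟨i ≫ i', r' ≫ r, ?_⟩
    rw [Category.assoc, reassoc_of% hir', hir]

lemma finite_of_retract {Λ' : Type t} [Field Λ'] {D : Type u} [Category.{v} D]
    (F : D ⥤ ModuleCat.{x} Λ') {X Y : D} (i : X ⟶ Y)
    (r : Y ⟶ X) (h : i ≫ r = 𝟙 X) (hf : Module.Finite Λ' (F.obj Y)) :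
    Module.Finite Λ' (F.obj X) := by
  refine Module.Finite.of_surjective (F.map r).hom ?_
  intro a
  refine ⟨(F.map i).hom a, ?_⟩
  have h2 : F.map i ≫ F.map r = 𝟙 _ := by rw [← F.map_comp, h, F.map_id]
  exact congrArg (fun g : F.obj X ⟶ F.obj X => g.hom a) h2

omit [IsAlgClosed K] in
lemma isRk_tp (R : SuperRealisation C K) (T : C) (m : ℕ) : IsRk R (𝟙 (tp T m)) (bt R T ^ m) := by
  have h1 := isRk_id R (tp T m)
  rwa [bt_tp] at h1

/-- the lower bound for one idempotent -/
lemma nr_low {T : C} [ExactPairing T T] (h : IsPow Λ R T) {m n : ℕ} (hn : Even n)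
    {e : tp T m ⟶ tp T m} (he : NumIdem e) (hpos : 0 < nr Λ e (𝟙 (tp T m))) :
    numRank Λ (tp T (n + m)) ≤
      nr Λ e (𝟙 (tp T n)) + (bt R T ^ m - 1) * numRank Λ (tp T n) := by
  have hR := h.real
  obtain ⟨r, hr, hle⟩ := exists_rk hR (cplus_tp hR h.cplus m) he
  rw [bt_tp] at hle
  have hr1 : 1 ≤ r := by
    by_contra hc
    have h0 : r = 0 := by omega
    have h2 := nr_le_cmpSeq h he hr m
    rw [h0, zero_mul] at h2
    omega
  have hc : IsRk R (𝟙 (tp T m) - e) (bt R T ^ m - r) := by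
    refine isRk_compl hr ?_
    rw [bt_tp]
    omega
  have h2 := nr_add hR he (𝟙 (tp T n))
  rw [nr_tp hR T m n, Nat.add_comm m n] at h2
  have h3 := nr_le_cmpSeq h (numIdem_compl he) hc n
  rw [cmpSeq_of_even hn] at h3
  have h4 : (bt R T ^ m - r) * numRank Λ (tp T n) ≤ (bt R T ^ m - 1) * numRank Λ (tp T n) :=
    Nat.mul_le_mul_right _ (by omega)
  omega

/-- upper bound for the numerical ranks -/
lemma up_even {T : C} [ExactPairing T T] (h : IsPow Λ R T) {m n : ℕ} (hn : Even n) :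
    numRank Λ (tp T (n + m)) ≤ bt R T ^ m * numRank Λ (tp T n) := by
  have h3 := nr_le_cmpSeq h (numIdem_id (tp T m)) (isRk_tp R T m) n
  rw [cmpSeq_of_even hn, nr_tp h.real T m n, Nat.add_comm m n] at h3
  exact h3

lemma up_any {T : C} [ExactPairing T T] (h : IsPow Λ R T) (m k : ℕ) :
    numRank Λ (tp T (k + m)) ≤ bt R T ^ (m + 1) * numRank Λ (tp T k) := by
  have h3 := nr_le_cmpSeq h (numIdem_id (tp T m)) (isRk_tp R T m) k
  rw [nr_tp h.real T m k, Nat.add_comm m k] at h3
  refine h3.trans ?_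
  rw [pow_succ, mul_assoc]
  exact Nat.mul_le_mul_left _ (cmpSeq_le h k)

/-- the lower bound from phantoms -/
lemma phantom_low {T : C} [ExactPairing T T] (h : IsPow Λ R T) (F : C ⥤ ModuleCat.{x} Λ)
    [F.Additive] [F.Linear Λ] {m a : ℕ} (hfin : Module.Finite Λ (F.obj (tp T (m * a + m))))
    {y : tp T m ⟶ tp T m} (hy : NumTriv y)
    (hn : ¬ IsNilpotent ((F.map y).hom : Module.End Λ (F.obj (tp T m)))) :
    (a + 1) * numRank Λ (tp T (m * a)) ≤ finrank Λ (F.obj (tp T (m * a + m))) := by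
  have hR := h.real
  have hfm : Module.Finite Λ (F.obj (tp T m)) := by
    obtain ⟨i, r, hir⟩ := exists_retract h m (m * a + m) (Nat.le_add_left _ _)
    exact finite_of_retract F i r hir hfin
  obtain ⟨z, e, hz, he, he'⟩ := exists_phantom hR F hy hn
  have hiso : ∀ a, Nonempty (tp T (m * a) ⊗ tp T m ≅ tp T (m * a + m)) := fun a => by
    obtain ⟨i, _⟩ := exists_tp_iso T (m * a) m
    exact ⟨i⟩
  obtain ⟨i⟩ := Pool.Agent.N712.AF.tpIso T m hiso a
  obtain ⟨j⟩ := Pool.Agent.N712.AF.tpIso T m hiso (a + 1)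
  have j' : tp (tp T m) (a + 1) ≅ tp T (m * a + m) := j
  have e1 : numRank Λ (tp T (m * a)) = numRank Λ (tp (tp T m) a) := by
    rw [numRank_eq, numRank_eq]
    exact (nr_congr_right hR i (𝟙 (𝟙_ C)) (by rw [Category.id_comp, Category.comp_id])).symm
  have eq := (F.mapIso j').toLinearEquiv
  have e2 : finrank Λ (F.obj (tp T (m * a + m))) = finrank Λ (F.obj (tp (tp T m) (a + 1))) :=
    eq.finrank_eq.symm
  have : Module.Finite Λ (F.obj (tp (tp T m) (a + 1))) := Module.Finite.equiv eq.symm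
  rw [e1, e2]
  exact phantom hR F hz he he' a

end Pool.Agent.N945.AFE3

namespace Pool.Agent.N64.AF

universe v u w t x

variable {C : Type u} [Category.{v} C] [Preadditive C] [MonoidalCategory C]
  [MonoidalPreadditive C] [SymmetricCategory C] [RightRigidCategory C]
  {Λ : Type t} [Field Λ] [CharZero Λ] [Linear Λ C] [MonoidalLinear Λ C]
  {K : Type w} [Field K] [IsAlgClosed K] [Algebra Λ K] {R : SuperRealisation C K}

open Pool.Agent.N945.AFE3 in
/-- E3a: one inequality on one power implies the vanishing on another power. -/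
theorem criterion {T : C} [ExactPairing T T] (h : IsPow Λ R T) (F : C ⥤ ModuleCat.{x} Λ)
    [F.Additive] [F.Linear Λ] {m a : ℕ} (ha : bt R T ^ (m + 1) ≤ a) (hev : Even (m * a))
    (hfin : Module.Finite Λ (F.obj (tp T (m * a))))
    (hlt : finrank Λ (F.obj (tp T (m * a))) + (bt R T ^ m - 1) * numRank Λ (tp T (m * a)) <
      numRank Λ (tp T (m * a + m))) : Subsingleton (F.obj (tp T m)) := by
  have hR := h.real
  have hb := bt_pos h
  have ha1 : 1 ≤ a := le_trans (Nat.one_le_pow _ _ hb) ha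
  obtain ⟨a', rfl⟩ : ∃ a', a = a' + 1 := ⟨a - 1, by omega⟩
  have hn : m * (a' + 1) = m * a' + m := by ring
  have hfm : Module.Finite Λ (F.obj (tp T m)) := by
    obtain ⟨i, r, hir⟩ := exists_retract h m (m * (a' + 1)) (by rw [hn]; exact Nat.le_add_left _ _)
    exact finite_of_retract F i r hir hfin
  by_contra hns
  rw [not_subsingleton_iff_nontrivial] at hns
  by_cases hnil : ∀ y : tp T m ⟶ tp T m, NumTriv y →
      IsNilpotent ((F.map y).hom : Module.End Λ (F.obj (tp T m)))
  · obtain ⟨l, e, z, he, hpos, hrank, hlow⟩ := exists_chain hR (cplus_tp hR h.cplus m) F hnil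
    have hl : 0 < l := by
      rcases Nat.eq_zero_or_pos l with h0 | h0
      · subst h0
        rw [Finset.univ_eq_empty, Finset.sum_empty] at hrank
        have := Module.finrank_pos (R := Λ) (M := F.obj (tp T m))
        omega
      · exact h0
    have h1 := hlow (tp T (m * (a' + 1))) hfin
    have h2 : nr Λ (e ⟨0, hl⟩) (𝟙 (tp T (m * (a' + 1)))) ≤
        ∑ i, nr Λ (e i) (𝟙 (tp T (m * (a' + 1)))) :=
      Finset.single_le_sum (f := fun i => nr Λ (e i) (𝟙 (tp T (m * (a' + 1)))))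
        (fun _ _ => Nat.zero_le _) (Finset.mem_univ _)
    have h3 := Submodule.finrank_le (Submodule.span Λ {y : F.obj (tp T (m * (a' + 1))) |
      ∃ (i : Fin l) (c : tp T m ⟶ tp T (m * (a' + 1))), (F.map c).hom (z i) = y})
    have h4 := nr_low h hev (he ⟨0, hl⟩) (hpos ⟨0, hl⟩)
    omega
  · push Not at hnil
    obtain ⟨y, hy, hyn⟩ := hnil
    have hm : m ≠ 0 := by
      rintro rfl
      apply hyn
      have h0 : y ≫ 𝟙 (𝟙_ C) = 0 := (numTriv_unit_iff hR (S := 𝟙_ C) y).1 hy (𝟙 (𝟙_ C))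
      have h1 : y = 0 := by
        have := h0
        rwa [Category.comp_id] at this
      have h2 : F.map y = 0 := by rw [h1, F.map_zero]
      rw [h2]
      exact IsNilpotent.zero
    have hfin' : Module.Finite Λ (F.obj (tp T (m * a' + m))) := hfin
    have h1 := phantom_low h F (a := a') hfin' hy hyn
    have h2 := up_any h m (m * a')
    have h3 := up_even h (m := m) hev
    have h4 : bt R T ^ (m + 1) * numRank Λ (tp T (m * a')) ≤
        (a' + 1) * numRank Λ (tp T (m * a')) := Nat.mul_le_mul_right _ ha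
    rw [hn] at hlt h3
    have h5 : bt R T ^ m * numRank Λ (tp T (m * a' + m)) =
        (bt R T ^ m - 1) * numRank Λ (tp T (m * a' + m)) + numRank Λ (tp T (m * a' + m)) := by
      have h6 : 1 ≤ bt R T ^ m := Nat.one_le_pow _ _ hb
      obtain ⟨c, hc⟩ : ∃ c, bt R T ^ m = c + 1 := ⟨bt R T ^ m - 1, by omega⟩
      rw [hc, Nat.add_sub_cancel]
      ring
    omega

open Pool.Agent.N945.AFE3 in
/-- E3b: the inequality is asymptotically sharp. -/
theorem criterion_sharp {T : C} [ExactPairing T T] (h : IsPow Λ R T) (m : ℕ) {δ : ℝ}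
    (hδ : 0 < δ) : ∀ᶠ n in atTop, Even n →
      (1 - δ) * numRank Λ (tp T n) + ((bt R T : ℝ) ^ m - 1) * numRank Λ (tp T n) ≤
        numRank Λ (tp T (n + m)) := by
  obtain ⟨hpos, hlim⟩ := numRank_tendsto h
  have h1 : ∀ᶠ n in atTop, (bt R T : ℝ) ^ m - δ < (numRank Λ (tp T (n + m)) : ℝ) /
      cmpSeq (fun n => numRank Λ (tp T n)) (bt R T) n :=
    (hlim m).eventually_const_lt (by linarith)
  filter_upwards [h1] with n hn hev
  have hp : (0 : ℝ) < cmpSeq (fun n => numRank Λ (tp T n)) (bt R T) n := by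
    exact_mod_cast hpos n
  rw [lt_div_iff₀ hp, cmpSeq_of_even hev] at hn
  linarith

end Pool.Agent.N64.AF
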