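import Pool.Agent.N64.AF.A1
import Pool.Agent.N64.AF.Bb
import Pool.Agent.N64.AF.F

/-!
# G: composition series of the values of an additive functor
-/

set_option autoImplicit false
set_option linter.unusedSectionVars false
set_option linter.style.haveILetI false

open CategoryTheory Limits MonoidalCategory Module
open Pool.Agent.Y112.SR Pool.Agent.Y112.KD
open Pool.Agent.Y116.MT (tr)

namespace Pool.Agent.N64.AF

universe v u w t x

namespace N441G

section lin

variable {Λ : Type t} [Field Λ]

/-- the rank of a map with the larger kernel is the smaller one -/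
lemma rank_le {M : Type v} {P : Type u} {Q : Type w} [AddCommGroup M] [AddCommGroup P]
    [AddCommGroup Q] [Module Λ M] [Module Λ P] [Module Λ Q] (f : M →ₗ[Λ] P) (g : M →ₗ[Λ] Q)
    [Module.Finite Λ (LinearMap.range f)] (h : LinearMap.ker f ≤ LinearMap.ker g) :
    finrank Λ (LinearMap.range g) ≤ finrank Λ (LinearMap.range f) := by
  let e := f.quotKerEquivRange
  let q : (M ⧸ LinearMap.ker f) →ₗ[Λ] LinearMap.range g :=
    (LinearMap.ker f).liftQ g.rangeRestrict (by rw [LinearMap.ker_rangeRestrict]; exact h)
  have hq : Function.Surjective (q ∘ₗ e.symm.toLinearMap) := by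
    intro y
    obtain ⟨x, hx⟩ := g.surjective_rangeRestrict y
    refine ⟨e (Submodule.Quotient.mk x), ?_⟩
    rw [LinearMap.comp_apply, LinearEquiv.coe_toLinearMap, LinearEquiv.symm_apply_apply]
    exact hx
  exact LinearMap.finrank_le_finrank_of_surjective hq

/-- dimensions in a quotient -/
lemma finrank_quot {P : Type u} [AddCommGroup P] [Module Λ P] [Module.Finite Λ P]
    {A B : Submodule Λ P} (h : A ≤ B) {r : ℕ} {S : Submodule Λ (P ⧸ A)} (hS : S ≤ B.map A.mkQ)
    (hr : r ≤ finrank Λ S) : finrank Λ A + r ≤ finrank Λ B := by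
  have h1 : finrank Λ S ≤ finrank Λ (B.map A.mkQ) := Submodule.finrank_mono hS
  have h2 := (A.mkQ.domRestrict B).finrank_range_add_finrank_ker
  have h3 : LinearMap.range (A.mkQ.domRestrict B) = B.map A.mkQ := by
    rw [LinearMap.range_domRestrict]
  have h4 : finrank Λ (LinearMap.ker (A.mkQ.domRestrict B)) = finrank Λ A := by
    rw [LinearMap.ker_domRestrict, Submodule.ker_mkQ]
    exact (Submodule.comapSubtypeEquivOfLe h).finrank_eq
  rw [h3, h4] at h2
  omega

end lin

section fun_

variable {C : Type u} [Category.{v} C] [Preadditive C] {Λ : Type t} [Field Λ] [Linear Λ C]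

/-- the action of the endomorphisms on the values of the functor -/
@[reducible] def act (F : C ⥤ ModuleCat.{x} Λ) [F.Additive] (U : C) :
    Module (End U) (F.obj U) where
  smul φ v := (F.map (Y := U) (X := U) φ).hom v
  one_smul v := by
    change (F.map (𝟙 U)).hom v = v
    rw [F.map_id]
    rfl
  mul_smul a b v := by
    change (F.map (Y := U) (X := U) (a * b)).hom v = (F.map (Y := U) (X := U) a).hom
      ((F.map (Y := U) (X := U) b).hom v)
    rw [End.mul_def, F.map_comp]
    rfl
  smul_zero a := map_zero _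
  smul_add a v w := map_add _ _ _
  add_smul a b v := by
    change (F.map (Y := U) (X := U) (a + b)).hom v = (F.map (Y := U) (X := U) a).hom v +
      (F.map (Y := U) (X := U) b).hom v
    rw [F.map_add]
    rfl
  zero_smul v := by
    change (F.map (0 : U ⟶ U)).hom v = 0
    rw [F.map_zero]
    rfl

lemma act_def (F : C ⥤ ModuleCat.{x} Λ) [F.Additive] (U : C) (a : End U) (v : F.obj U) :
    letI := act F U
    a • v = (F.map (Y := U) (X := U) a).hom v := rfl

lemma act_tower (F : C ⥤ ModuleCat.{x} Λ) [F.Additive] [F.Linear Λ] (U : C) :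
    letI := act F U
    IsScalarTower Λ (End U) (F.obj U) := by
  letI := act F U
  refine ⟨fun c a v => ?_⟩
  change (F.map (Y := U) (X := U) (c • a)).hom v = c • (F.map (Y := U) (X := U) a).hom v
  rw [F.map_smul]
  rfl

lemma act_pow (F : C ⥤ ModuleCat.{x} Λ) [F.Additive] (U : C) (a : End U) (n : ℕ)
    (v : F.obj U) :
    letI := act F U
    a ^ n • v = ((F.map (Y := U) (X := U) a).hom ^ n : Module.End Λ (F.obj U)) v := by
  letI := act F U
  induction n generalizing v with
  | zero => rw [pow_zero, one_smul, pow_zero]; rfl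
  | succ n ih =>
    rw [pow_succ, mul_smul, ih, pow_succ, Module.End.mul_apply]
    rfl

lemma comp_ap (F : C ⥤ ModuleCat.{x} Λ) {X Y Z : C} (a : X ⟶ Y) (b : Y ⟶ Z) (v : F.obj X) :
    (F.map (a ≫ b)).hom v = (F.map b).hom ((F.map a).hom v) := by
  rw [F.map_comp]
  rfl

/-- the images of the elements of a subspace under the morphisms to `Z` -/
def gen (F : C ⥤ ModuleCat.{x} Λ) {U : C} (N : Set (F.obj U)) (Z : C) :
    Submodule Λ (F.obj Z) :=
  Submodule.span Λ {y | ∃ (c : U ⟶ Z), ∃ v ∈ N, (F.map c).hom v = y}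

lemma gen_mono (F : C ⥤ ModuleCat.{x} Λ) {U : C} {N N' : Set (F.obj U)} (h : N ⊆ N') (Z : C) :
    gen F N Z ≤ gen F N' Z := by
  apply Submodule.span_mono
  rintro _ ⟨c, v, hv, rfl⟩
  exact ⟨c, v, h hv, rfl⟩

lemma mem_gen (F : C ⥤ ModuleCat.{x} Λ) {U : C} {N : Set (F.obj U)} {Z : C} (c : U ⟶ Z)
    {v : F.obj U} (hv : v ∈ N) : (F.map c).hom v ∈ gen F N Z :=
  Submodule.subset_span ⟨c, v, hv, rfl⟩

end fun_

end N441G

open N441G

variable {C : Type u} [Category.{v} C] [Preadditive C] [MonoidalCategory C]
  [MonoidalPreadditive C] [SymmetricCategory C] [RightRigidCategory C]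
  {Λ : Type t} [Field Λ] [CharZero Λ] [Linear Λ C] [MonoidalLinear Λ C]
  {K : Type w} [Field K] [IsAlgClosed K] [Algebra Λ K] {R : SuperRealisation C K}

namespace N441G

/-- the ideal of the numerically trivial endomorphisms -/
def idl (hR : IsReal Λ R) (U : C) : Ideal (End U) where
  carrier := {f | NumTriv (Y := U) (Z := U) f}
  zero_mem' := (numIdeal Λ U U).zero_mem'
  add_mem' := fun {a b} ha hb => (numIdeal Λ U U).add_mem' ha hb
  smul_mem' := fun c a ha => by
    have h := NumTriv.comp hR (f := (a : U ⟶ U)) ha (𝟙 U) (c : U ⟶ U)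
    rw [Category.id_comp] at h
    exact h

lemma mem_idl (hR : IsReal Λ R) (U : C) (f : End U) :
    f ∈ idl hR U ↔ NumTriv (Y := U) (Z := U) f := Iff.rfl

lemma idl_two (hR : IsReal Λ R) (U : C) : (idl hR U).IsTwoSided := by
  refine ⟨fun {a} b ha => ?_⟩
  have h := NumTriv.comp hR (f := (a : U ⟶ U)) ha (b : U ⟶ U) (𝟙 U)
  rw [Category.comp_id] at h
  exact h

lemma idl_fin (hR : IsReal Λ R) (U : C) : Module.Finite Λ (End U ⧸ idl hR U) := by
  haveI := finite_num hR U U
  let q : ((U ⟶ U) ⧸ numIdeal Λ U U) →ₗ[Λ] (End U ⧸ idl hR U) :=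
    (numIdeal Λ U U).liftQ ((Submodule.mkQ (idl hR U)).restrictScalars Λ : End U →ₗ[Λ] _)
      (by
        intro f hf
        rw [LinearMap.mem_ker]
        exact (Submodule.Quotient.mk_eq_zero _).2 hf)
  refine Module.Finite.of_surjective q ?_
  intro y
  obtain ⟨f, rfl⟩ := Submodule.Quotient.mk_surjective _ y
  exact ⟨Submodule.Quotient.mk (p := numIdeal Λ U U) f, rfl⟩

lemma nr_eq (hR : IsReal Λ R) (U : C) (g : End U) :
    finrank Λ (LinearMap.range (((idl hR U).restrictScalars Λ).mkQ ∘ₗ
      LinearMap.mulRight Λ g)) = nr Λ (Y := U) (Z := U) g (𝟙 U) := by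
  have h1 : ((idl hR U).restrictScalars Λ : Submodule Λ (End U)) = numIdeal Λ U U := by
    ext f
    rfl
  have h2 : (LinearMap.mulRight Λ g : End U →ₗ[Λ] End U) =
      Linear.rightComp Λ U (𝟙 U) ∘ₗ Linear.leftComp Λ U (g : U ⟶ U) := by
    apply LinearMap.ext
    intro f
    change g ≫ f = (g ≫ f) ≫ 𝟙 U
    rw [Category.comp_id]
  unfold nr
  rw [← h2]
  rfl

/-- numerically trivial composites -/
lemma triv_of (hR : IsReal Λ R) {U Z : C} {g : U ⟶ U} (hg : NumIdem g) (c : U ⟶ Z)
    (h : ∀ d : Z ⟶ U, NumTriv ((g ≫ (c ≫ d)) ≫ g)) : NumTriv (g ≫ c) := by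
  intro d
  have h1 : tr ((g ≫ g - g) ≫ (c ≫ d)) = 0 := hg (c ≫ d)
  have h2 : tr (((g ≫ (c ≫ d)) ≫ g) ≫ 𝟙 U) = 0 := h d (𝟙 U)
  rw [Category.comp_id] at h2
  have h3 : tr (g ≫ (g ≫ (c ≫ d))) = 0 := (tr_comm_zero hR g (g ≫ (c ≫ d))).2 h2
  have h4 : g ≫ (g ≫ (c ≫ d)) = (g ≫ g - g) ≫ (c ≫ d) + (g ≫ c) ≫ d := by
    rw [Preadditive.sub_comp]
    simp only [Category.assoc]
    abel
  rw [h4, tr_add', h1, zero_add] at h3
  exact h3

end N441G

/-- G -/
theorem exists_chain (hR : IsReal Λ R) {U : C} (hU : R.CPlus U) (F : C ⥤ ModuleCat.{x} Λ)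
    [F.Additive] [F.Linear Λ] [Module.Finite Λ (F.obj U)]
    (hnil : ∀ y : U ⟶ U, NumTriv y → IsNilpotent ((F.map y).hom : Module.End Λ (F.obj U))) :
    ∃ (l : ℕ) (e : Fin l → (U ⟶ U)) (z : Fin l → F.obj U), (∀ i, NumIdem (e i)) ∧
      (∀ i, 0 < nr Λ (e i) (𝟙 U)) ∧ finrank Λ (F.obj U) = ∑ i, nr Λ (e i) (𝟙 U) ∧
      ∀ Z : C, Module.Finite Λ (F.obj Z) → ∑ i, nr Λ (e i) (𝟙 Z) ≤
        finrank Λ (Submodule.span Λ {y : F.obj Z | ∃ (i : Fin l) (c : U ⟶ Z),
          (F.map c).hom (z i) = y}) := by
  letI := act F U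
  haveI := act_tower F U
  haveI := idl_two hR U
  haveI := idl_fin hR U
  haveI : IsSemisimpleRing (End U ⧸ idl hR U) := semisimple hR hU (idl hR U) (mem_idl hR U)
  have hnil' : ∀ y ∈ idl hR U, ∃ n : ℕ, ∀ v : F.obj U, y ^ n • v = 0 := by
    intro y hy
    obtain ⟨n, hn⟩ := hnil y hy
    refine ⟨n, fun v => ?_⟩
    rw [act_pow, hn]
    rfl
  -- the induction
  have key : ∀ (k : ℕ) (N : Submodule (End U) (F.obj U)),
      finrank Λ (F.obj U) ≤ k + finrank Λ (N.restrictScalars Λ) →
      ∃ (l : ℕ) (e : Fin l → (U ⟶ U)) (z : Fin l → F.obj U), (∀ i, NumIdem (e i)) ∧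
        (∀ i, 0 < nr Λ (e i) (𝟙 U)) ∧
        finrank Λ (F.obj U) = finrank Λ (N.restrictScalars Λ) + ∑ i, nr Λ (e i) (𝟙 U) ∧
        N ⊔ Submodule.span (End U) (Set.range z) = ⊤ ∧
        ∀ Z : C, Module.Finite Λ (F.obj Z) → finrank Λ (gen F (N : Set (F.obj U)) Z) +
          ∑ i, nr Λ (e i) (𝟙 Z) ≤ finrank Λ (gen F (Set.univ : Set (F.obj U)) Z) := by
    intro k
    induction k with
    | zero =>
      intro N hN
      have h1 : N.restrictScalars Λ = ⊤ := by
        apply Submodule.eq_top_of_finrank_eq
        have := Submodule.finrank_le (N.restrictScalars Λ)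
        omega
      have h2 : N = ⊤ := by
        rw [eq_top_iff]
        intro v _
        have : v ∈ N.restrictScalars Λ := by rw [h1]; trivial
        exact this
      subst h2
      refine ⟨0, Fin.elim0, Fin.elim0, fun i => i.elim0, fun i => i.elim0, ?_, ?_, ?_⟩
      · rw [h1, finrank_top]
        simp
      · simp
      · intro Z _
        simp
    | succ k ih =>
      intro N hN
      by_cases htop : N = ⊤
      · subst htop
        refine ⟨0, Fin.elim0, Fin.elim0, fun i => i.elim0, fun i => i.elim0, ?_, ?_, ?_⟩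
        · rw [Submodule.restrictScalars_top, finrank_top]
          simp
        · simp
        · intro Z _
          simp
      obtain ⟨N', g, z, hlt, hN', hg, hgz, hgx, hfr⟩ := mod_step (Λ := Λ) (A := End U)
        (V := F.obj U) (idl hR U) hnil' N htop
      rw [nr_eq hR U g] at hfr
      have hlt' : finrank Λ (N.restrictScalars Λ) < finrank Λ (N'.restrictScalars Λ) := by
        apply Submodule.finrank_lt_finrank_of_lt
        exact hlt
      obtain ⟨l, e, z', he1, he2, he3, he4, he5⟩ := ih N' (by omega)
      have hgI : NumIdem (Y := U) g := hg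
      have hzN' : z ∈ N' := by
        rw [hN']
        exact Submodule.mem_sup_right (Submodule.mem_span_singleton_self z)
      refine ⟨l + 1, Fin.cons g e, Fin.cons z z', ?_, ?_, ?_, ?_, ?_⟩
      · intro i
        refine Fin.cases ?_ (fun j => ?_) i
        · exact hgI
        · exact he1 j
      · intro i
        refine Fin.cases ?_ (fun j => ?_) i
        · rw [Fin.cons_zero]
          omega
        · exact he2 j
      · rw [Fin.sum_univ_succ, he3, hfr]
        simp only [Fin.cons_zero, Fin.cons_succ]
        ring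
      · rw [Fin.range_cons, Set.insert_eq, Submodule.span_union, ← sup_assoc, ← hN', he4]
      · intro Z hZ
        rw [Fin.sum_univ_succ]
        simp only [Fin.cons_zero, Fin.cons_succ]
        have h5 := he5 Z hZ
        -- the step
        have hstep : finrank Λ (gen F (N : Set (F.obj U)) Z) + nr Λ (Y := U) g (𝟙 Z) ≤
            finrank Λ (gen F (N' : Set (F.obj U)) Z) := by
          let Θ : (U ⟶ Z) →ₗ[Λ] (F.obj Z ⧸ gen F (N : Set (F.obj U)) Z) :=
            { toFun := fun c => Submodule.Quotient.mk ((F.map ((g : U ⟶ U) ≫ c)).hom z)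
              map_add' := fun a b => by
                rw [Preadditive.comp_add, F.map_add]
                rfl
              map_smul' := fun r a => by
                rw [Linear.comp_smul, F.map_smul]
                rfl }
          have hΘ : ∀ c, Θ c = Submodule.Quotient.mk ((F.map ((g : U ⟶ U) ≫ c)).hom z) :=
            fun _ => rfl
          refine finrank_quot (gen_mono F hlt.le Z) (S := LinearMap.range Θ) ?_ ?_
          · rintro _ ⟨c, rfl⟩
            rw [hΘ]
            refine Submodule.mem_map_of_mem ?_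
            exact mem_gen F _ hzN'
          · unfold nr
            refine rank_le Θ _ ?_
            intro c hc
            rw [LinearMap.mem_ker, hΘ, Submodule.Quotient.mk_eq_zero] at hc
            rw [LinearMap.mem_ker]
            change (numIdeal Λ U Z).mkQ (((g : U ⟶ U) ≫ c) ≫ 𝟙 Z) = 0
            rw [Category.comp_id, Submodule.mkQ_apply, Submodule.Quotient.mk_eq_zero]
            change NumTriv _
            refine triv_of hR hgI c fun d => ?_
            have h6 : ∀ y ∈ gen F (N : Set (F.obj U)) Z, (F.map d).hom y ∈ N := by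
              intro y hy
              unfold gen at hy
              induction hy using Submodule.span_induction with
              | mem y hy =>
                obtain ⟨c', v, hv, rfl⟩ := hy
                rw [← comp_ap]
                exact N.smul_mem (c' ≫ d : End U) hv
              | zero => rw [map_zero]; exact N.zero_mem
              | add a b _ _ ha hb => rw [map_add]; exact N.add_mem ha hb
              | smul r a _ ha =>
                rw [map_smul]
                exact (N.restrictScalars Λ).smul_mem r ha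
            have h7 := h6 _ hc
            rw [← comp_ap] at h7
            obtain ⟨w, hw⟩ : ∃ w : End U, w = (c ≫ d : U ⟶ U) := ⟨_, rfl⟩
            have h8 : (g * w * g) • z ∈ N := by
              have h9 := N.smul_mem g h7
              have h10 : (g * w * g) • z =
                  g • ((F.map (((g : U ⟶ U) ≫ c) ≫ d)).hom z) := by
                rw [mul_smul, mul_smul]
                congr 1
                rw [hw]
                change (F.map (c ≫ d)).hom ((F.map (g : U ⟶ U)).hom z) = _
                rw [← comp_ap, Category.assoc]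
              rw [h10]
              exact h9
            have h12 : NumTriv (Y := U) (Z := U) (g * w * g) := hgx _ h8
            have h13 : (g * w * g : End U) = ((g : U ⟶ U) ≫ (c ≫ d)) ≫ g := by
              rw [End.mul_def, End.mul_def, hw]
              simp only [Category.assoc]
            rw [h13] at h12
            exact h12
        omega
  obtain ⟨l, e, z, h1, h2, h3, h4, h5⟩ := key (finrank Λ (F.obj U)) ⊥ (by omega)
  refine ⟨l, e, z, h1, h2, ?_, ?_⟩
  · rw [h3, Submodule.restrictScalars_bot, finrank_bot, zero_add]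
  · intro Z hZ
    have h6 := h5 Z hZ
    refine le_trans ?_ (le_trans h6 ?_)
    · omega
    · apply Submodule.finrank_mono
      unfold gen
      rw [Submodule.span_le]
      rintro _ ⟨c, v, -, rfl⟩
      rw [bot_sup_eq] at h4
      have hv : v ∈ Submodule.span (End U) (Set.range z) := by rw [h4]; trivial
      have hall : ∀ c : U ⟶ Z, (F.map c).hom v ∈ Submodule.span Λ
          {y : F.obj Z | ∃ (i : Fin l) (c : U ⟶ Z), (F.map c).hom (z i) = y} := by
        induction hv using Submodule.span_induction with
        | mem y hy =>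
          obtain ⟨i, rfl⟩ := hy
          exact fun c => Submodule.subset_span ⟨i, c, rfl⟩
        | zero => intro c; rw [map_zero]; exact Submodule.zero_mem _
        | add a b _ _ ha hb => intro c; rw [map_add]; exact Submodule.add_mem _ (ha c) (hb c)
        | smul r a _ ha =>
          intro c
          have : (F.map c).hom (r • a) = (F.map ((r : U ⟶ U) ≫ c)).hom a := (comp_ap F _ _ _).symm
          rw [this]
          exact ha _
      exact hall c

end Pool.Agent.N64.AF
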