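import Pool.Agent.N64.AF.A2
import Pool.Agent.N591.AF.LA

/-!
# Statement H: numerically trivial operators which are not nilpotent
-/

set_option autoImplicit false
set_option linter.unusedSectionVars false

open CategoryTheory Limits MonoidalCategory Module
open Pool.Agent.Y112.SR Pool.Agent.Y112.KD
open Pool.Agent.Y116.MT (tr)

namespace Pool.Agent.N591.AF

open Pool.Agent.N64.AF

universe v u w t x

variable {C : Type u} [Category.{v} C] [Preadditive C] [MonoidalCategory C]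
  [MonoidalPreadditive C] [SymmetricCategory C] [RightRigidCategory C]
  {Λ : Type t} [Field Λ] [CharZero Λ] [Linear Λ C] [MonoidalLinear Λ C]
  {K : Type w} [Field K] [Algebra Λ K] {R : SuperRealisation C K}

/-- the exchange of the last two factors as an isomorphism -/
def swIso (Q X : C) : (Q ⊗ X) ⊗ X ≅ (Q ⊗ X) ⊗ X where
  hom := sw Q X
  inv := sw Q X
  hom_inv_id := sw_sw Q X
  inv_hom_id := sw_sw Q X

lemma sub_wR {Y Z : C} (f g : Y ⟶ Z) (Q : C) : (f - g) ▷ Q = f ▷ Q - g ▷ Q := by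
  have h : (f - g) ▷ Q + g ▷ Q = f ▷ Q := by
    rw [← MonoidalPreadditive.add_whiskerRight, sub_add_cancel]
  exact eq_sub_of_add_eq h

lemma sub_wL {Y Z : C} (f g : Y ⟶ Z) (Q : C) : Q ◁ (f - g) = Q ◁ f - Q ◁ g := by
  have h : Q ◁ (f - g) + Q ◁ g = Q ◁ f := by
    rw [← MonoidalPreadditive.whiskerLeft_add, sub_add_cancel]
  exact eq_sub_of_add_eq h

lemma sw_nat_last' (Q : C) {X : C} (q : X ⟶ X) :
    sw Q X ≫ (Q ⊗ X) ◁ q = (Q ◁ q) ▷ X ≫ sw Q X := by
  have h := sw_nat_last Q q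
  calc sw Q X ≫ (Q ⊗ X) ◁ q = sw Q X ≫ ((Q ⊗ X) ◁ q ≫ sw Q X) ≫ sw Q X := by
        rw [Category.assoc, sw_sw, Category.comp_id]
    _ = (sw Q X ≫ sw Q X) ≫ (Q ◁ q) ▷ X ≫ sw Q X := by rw [h]; simp only [Category.assoc]
    _ = _ := by rw [sw_sw, Category.id_comp]

/-- The permutations which move the last factor to the position `k`. -/
lemma slotPerm (hR : IsReal Λ R) {P : C} {e : P ⟶ P} (he' : NumTriv (e - 𝟙 P)) (a : ℕ) :
    ∃ σ : ℕ → (tp P (a + 1) ≅ tp P (a + 1)), ∀ j ≤ a, ∃ E : tp P (a + 1) ⟶ tp P (a + 1),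
      (σ j).hom ≫ E = (tp P a ◁ e) ≫ (σ j).hom ∧
      ∀ k < j, ∃ E' : tp P a ⟶ tp P a, NumTriv (E' - 𝟙 _) ∧
        (σ k).hom ≫ E = (E' ▷ P) ≫ (σ k).hom := by
  induction a with
  | zero =>
    refine ⟨fun _ => Iso.refl _, fun j hj => ⟨tp P 0 ◁ e, ?_, fun k hk => by omega⟩⟩
    rw [Iso.refl_hom, Category.id_comp, Category.comp_id]
  | succ a ih =>
    obtain ⟨σ, hσ⟩ := ih
    refine ⟨fun k => if k ≤ a then swIso (tp P a) P ≪≫ whiskerRightIso (σ k) P
      else Iso.refl _, fun j hj => ?_⟩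
    have hs : ∀ k ≤ a, (if k ≤ a then swIso (tp P a) P ≪≫ whiskerRightIso (σ k) P
        else Iso.refl _ : tp P (a + 1 + 1) ≅ tp P (a + 1 + 1)).hom =
          sw (tp P a) P ≫ (σ k).hom ▷ P := by
      intro k hk
      rw [if_pos hk]
      rfl
    by_cases hja : j ≤ a
    · obtain ⟨E, h1, h2⟩ := hσ j hja
      refine ⟨E ▷ P, ?_, fun k hk => ?_⟩
      · rw [hs j hja, Category.assoc, ← comp_whiskerRight, h1, comp_whiskerRight,
          ← Category.assoc, ← sw_nat_last, Category.assoc]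
      · obtain ⟨E', h3, h4⟩ := h2 k hk
        refine ⟨E' ▷ P, ?_, ?_⟩
        · have h5 := h3.whiskerRight hR P
          have h6 : E' ▷ P - 𝟙 (tp P a ⊗ P) = (E' - 𝟙 _) ▷ P := by
            rw [sub_wR, id_whiskerRight]
          rw [h6]
          exact h5
        · rw [hs k (by omega), Category.assoc, ← comp_whiskerRight, h4, comp_whiskerRight,
            ← Category.assoc, ← sw_nat_left, Category.assoc]
    · refine ⟨tp P (a + 1) ◁ e, ?_, fun k hk => ?_⟩
      · dsimp only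
        rw [if_neg hja, Iso.refl_hom, Category.id_comp, Category.comp_id]
      · refine ⟨tp P a ◁ e, ?_, ?_⟩
        · have h5 := he'.whiskerLeft hR (tp P a)
          have h6 : tp P a ◁ e - 𝟙 (tp P a ⊗ P) = tp P a ◁ (e - 𝟙 _) := by
            rw [sub_wL, whiskerLeft_id]
          rw [h6]
          exact h5
        · rw [hs k (by omega), Category.assoc, ← whisker_exchange, ← Category.assoc,
            sw_nat_last', Category.assoc]

/-- the insertion of a vector in the last factor -/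
def ins {P Q : C} (τ : Q ⊗ P ⟶ Q ⊗ P) (α : 𝟙_ C ⟶ Q) : P ⟶ Q ⊗ P :=
  (λ_ P).inv ≫ α ▷ P ≫ τ

lemma ins_add {P Q : C} (τ : Q ⊗ P ⟶ Q ⊗ P) (α β : 𝟙_ C ⟶ Q) :
    ins τ (α + β) = ins τ α + ins τ β := by
  unfold ins
  rw [MonoidalPreadditive.add_whiskerRight, Preadditive.add_comp, Preadditive.comp_add]

lemma ins_smul {P Q : C} (τ : Q ⊗ P ⟶ Q ⊗ P) (c : Λ) (α : 𝟙_ C ⟶ Q) :
    ins τ (c • α) = c • ins τ α := by
  unfold ins
  rw [MonoidalLinear.smul_whiskerRight, Linear.smul_comp, Linear.comp_smul]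

lemma ins_last {P Q : C} (τ E : Q ⊗ P ⟶ Q ⊗ P) (e : P ⟶ P) (h : τ ≫ E = (Q ◁ e) ≫ τ)
    (α : 𝟙_ C ⟶ Q) : ins τ α ≫ E = e ≫ ins τ α := by
  unfold ins
  rw [Category.assoc, Category.assoc, h, ← whisker_exchange_assoc,
    ← leftUnitor_inv_naturality_assoc]

lemma ins_other {P Q : C} (τ E : Q ⊗ P ⟶ Q ⊗ P) (E' : Q ⟶ Q) (h : τ ≫ E = (E' ▷ P) ≫ τ)
    (α : 𝟙_ C ⟶ Q) : ins τ α ≫ E = ins τ (α ≫ E') := by
  unfold ins
  rw [Category.assoc, Category.assoc, h, comp_whiskerRight, Category.assoc]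

/-- the slot maps -/
noncomputable def slot {P Q : C} (F : C ⥤ ModuleCat.{x} Λ) [F.Additive] [F.Linear Λ]
    (z : F.obj P) (τ : Q ⊗ P ⟶ Q ⊗ P) : (𝟙_ C ⟶ Q) →ₗ[Λ] F.obj (Q ⊗ P) where
  toFun α := (F.map (ins τ α)).hom z
  map_add' α β := by
    rw [ins_add, F.map_add]
    rfl
  map_smul' c α := by
    rw [ins_smul, F.map_smul]
    rfl

lemma slot_apply {P Q : C} (F : C ⥤ ModuleCat.{x} Λ) [F.Additive] [F.Linear Λ]
    (z : F.obj P) (τ : Q ⊗ P ⟶ Q ⊗ P) (α : 𝟙_ C ⟶ Q) :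
    slot F z τ α = (F.map (ins τ α)).hom z := rfl

lemma slot_ker (hR : IsReal Λ R) {P Q : C} (F : C ⥤ ModuleCat.{x} Λ) [F.Additive] [F.Linear Λ]
    {z : F.obj P} (hz : z ≠ 0) (σ : Q ⊗ P ≅ Q ⊗ P) (α : 𝟙_ C ⟶ Q)
    (h : slot F z σ.hom α = 0) : NumTriv α := by
  rw [numTriv_unit_iff hR]
  intro β
  obtain ⟨q, hq⟩ := hR.unit (α ≫ β)
  have h1 : ins σ.hom α ≫ σ.inv ≫ β ▷ P ≫ (λ_ P).hom = q • 𝟙 P := by
    unfold ins
    simp only [Category.assoc, Iso.hom_inv_id_assoc]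
    rw [← comp_whiskerRight_assoc, hq, MonoidalLinear.smul_whiskerRight, id_whiskerRight,
      Linear.smul_comp, Linear.comp_smul, Category.id_comp, Iso.inv_hom_id]
  have h2 : (F.map (q • 𝟙 P)).hom z = 0 := by
    rw [← h1, F.map_comp]
    show (F.map _).hom ((F.map (ins σ.hom α)).hom z) = 0
    rw [← slot_apply, h, map_zero]
  have h3 : q • z = 0 := by
    rw [F.map_smul, F.map_id] at h2
    exact h2
  have h4 : q = 0 := by
    rcases smul_eq_zero.1 h3 with h | h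
    · exact h
    · exact absurd h hz
  rw [hq, h4, zero_smul]

end Pool.Agent.N591.AF

namespace Pool.Agent.N64.AF

universe v u w t x

variable {C : Type u} [Category.{v} C] [Preadditive C] [MonoidalCategory C]
  [MonoidalPreadditive C] [SymmetricCategory C] [RightRigidCategory C]
  {Λ : Type t} [Field Λ] [CharZero Λ] [Linear Λ C] [MonoidalLinear Λ C]
  {K : Type w} [Field K] [Algebra Λ K] {R : SuperRealisation C K}

open Pool.Agent.N591.AF

/-- H1 -/
theorem phantom (hR : IsReal Λ R) {P : C} (F : C ⥤ ModuleCat.{x} Λ) [F.Additive] [F.Linear Λ]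
    {z : F.obj P} (hz : z ≠ 0) {e : P ⟶ P} (he : (F.map e).hom z = 0)
    (he' : NumTriv (e - 𝟙 P)) (a : ℕ) [Module.Finite Λ (F.obj (tp P (a + 1)))] :
    (a + 1) * numRank Λ (tp P a) ≤ finrank Λ (F.obj (tp P (a + 1))) := by
  obtain ⟨σ, hσ⟩ := slotPerm hR he' a
  have key := slots (numIdeal Λ (𝟙_ C) (tp P a)) (fun k => slot F z (σ k).hom) a
    (fun k _ α h => slot_ker hR F hz (σ k) α h)
    (fun j hj => by
      obtain ⟨E, h1, h2⟩ := hσ j hj
      refine ⟨(F.map E).hom, fun α => ?_, fun k hk => ?_⟩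
      · show (F.map E).hom ((F.map (ins (σ j).hom α)).hom z) = 0
        have h3 := ins_last (σ j).hom E e h1 α
        have h4 : (F.map E).hom ((F.map (ins (σ j).hom α)).hom z) =
            (F.map (ins (σ j).hom α ≫ E)).hom z := by
          rw [F.map_comp]
          rfl
        rw [h4, h3, F.map_comp]
        show (F.map (ins (σ j).hom α)).hom ((F.map e).hom z) = 0
        rw [he, map_zero]
      · obtain ⟨E', h3, h4⟩ := h2 k hk
        refine ⟨Linear.rightComp Λ (𝟙_ C) E', fun α => ?_, fun α => ?_⟩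
        · show NumTriv (α ≫ E' - α)
          have h5 := h3.comp hR α (𝟙 (tp P a))
          rw [Category.comp_id, Preadditive.comp_sub, Category.comp_id] at h5
          exact h5
        · show (F.map E).hom ((F.map (ins (σ k).hom α)).hom z) =
            (F.map (ins (σ k).hom (α ≫ E'))).hom z
          rw [← ins_other (σ k).hom E E' h4 α, F.map_comp]
          rfl)
    (fun _ => ⊤) (fun _ _ => top_sup_eq _)
  exact key.trans (Submodule.finrank_le _)

end Pool.Agent.N64.AF
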