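import Pool.Agent.N64.AF.H1
import Pool.Agent.N64.AF.E1
import Pool.Agent.Y133.Half.Key

/-!
# H2: numerically trivial operators which are not nilpotent (helper712 for project AF of helper64)
-/

set_option autoImplicit false

open CategoryTheory Limits MonoidalCategory Module Filter Topology
open Pool.Agent.Y112.SR Pool.Agent.Y112.KD
open Pool.Agent.Y116.MT (tr)

namespace Pool.Agent.N712.AF

universe v u w t x

section

variable {C : Type u} [Category.{v} C] [Preadditive C] {Λ : Type t} [Field Λ] [Linear Λ C]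

/-- the action of the endomorphisms on the value of a functor -/
noncomputable def act {U : C} (F : C ⥤ ModuleCat.{x} Λ) [F.Additive] [F.Linear Λ] :
    End U →ₐ[Λ] Module.End Λ (F.obj U) :=
  AlgHom.ofLinearMap
    { toFun := fun a => (F.map a).hom
      map_add' := fun a b => by
        have : F.map (a + b) = F.map a + F.map b := F.map_add
        rw [this]
        rfl
      map_smul' := fun c a => by
        have : F.map (c • (a : U ⟶ U)) = c • F.map (a : U ⟶ U) := F.map_smul c (a : U ⟶ U)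
        rw [this]
        rfl }
    (by
      show (F.map (𝟙 U)).hom = _
      rw [F.map_id]
      rfl)
    (fun a b => by
      show (F.map (b ≫ a)).hom = _
      rw [F.map_comp]
      rfl)

theorem act_apply {U : C} (F : C ⥤ ModuleCat.{x} Λ) [F.Additive] [F.Linear Λ] (a : End U) :
    act F a = (F.map a).hom := rfl

end

section

variable {C : Type u} [Category.{v} C] [MonoidalCategory C]

theorem tpIso (T : C) (m : ℕ)
    (h : ∀ a, Nonempty (tp T (m * a) ⊗ tp T m ≅ tp T (m * a + m))) :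
    ∀ a : ℕ, Nonempty (tp (tp T m) a ≅ tp T (m * a))
  | 0 => ⟨Iso.refl _⟩
  | a + 1 => by
    obtain ⟨i⟩ := tpIso T m h a
    obtain ⟨j⟩ := h a
    exact ⟨whiskerRightIso i (tp T m) ≪≫ j⟩

end

end Pool.Agent.N712.AF

namespace Pool.Agent.N64.AF

universe v u w t x

variable {C : Type u} [Category.{v} C] [Preadditive C] [MonoidalCategory C]
  [MonoidalPreadditive C] [SymmetricCategory C] [RightRigidCategory C]
  {Λ : Type t} [Field Λ] [CharZero Λ] [Linear Λ C] [MonoidalLinear Λ C]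
  {K : Type w} [Field K] [IsAlgClosed K] [Algebra Λ K] {R : SuperRealisation C K}

/-- H2 -/
theorem exists_phantom (hR : IsReal Λ R) {U : C} (F : C ⥤ ModuleCat.{x} Λ) [F.Additive]
    [F.Linear Λ] [Module.Finite Λ (F.obj U)] {y : U ⟶ U} (hy : NumTriv y)
    (hn : ¬ IsNilpotent ((F.map y).hom : Module.End Λ (F.obj U))) :
    ∃ (z : F.obj U) (e : U ⟶ U), z ≠ 0 ∧ (F.map e).hom z = 0 ∧ NumTriv (e - 𝟙 U) := by
  obtain ⟨q, hq1, hq2⟩ := Pool.Agent.Y133.Half.exists_fit
    ((F.map y).hom : Module.End Λ (F.obj U))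
  set y0 : Module.End Λ (F.obj U) := (F.map y).hom with hy0
  set p : Module.End Λ (F.obj U) := Polynomial.aeval y0 q * y0 with hp
  have hp0 : p ≠ 0 := fun h => hn (hq2 h)
  obtain ⟨v, hv⟩ : ∃ v, p v ≠ 0 := by
    by_contra hcon
    push Not at hcon
    exact hp0 (LinearMap.ext hcon)
  obtain ⟨yE, hyE⟩ : ∃ yE : End U, yE = End.of y := ⟨_, rfl⟩
  obtain ⟨u, hu⟩ : ∃ u : U ⟶ U, End.of u = Polynomial.aeval yE q := ⟨Polynomial.aeval yE q, rfl⟩
  have h1 : (F.map (y ≫ u)).hom = p := by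
    have h2 : (F.map (y ≫ u)).hom = Pool.Agent.N712.AF.act F (End.of u * yE) := by
      rw [hyE]
      rfl
    rw [h2, hu, map_mul, ← Polynomial.aeval_algHom_apply]
    have h3 : Pool.Agent.N712.AF.act F yE = y0 := by
      rw [hyE]
      rfl
    rw [h3]
  have h3 : NumTriv (y ≫ u) := by
    have := NumTriv.comp hR hy (𝟙 U) u
    rwa [Category.id_comp] at this
  refine ⟨p v, 𝟙 U - y ≫ u, hv, ?_, ?_⟩
  · have h4 : F.map (𝟙 U - y ≫ u) = 𝟙 _ - F.map (y ≫ u) := by
      rw [F.map_sub, F.map_id]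
    have h5 : (F.map (𝟙 U - y ≫ u)).hom (p v) = p v - (F.map (y ≫ u)).hom (p v) := by
      rw [h4]
      rfl
    rw [h5, h1]
    have h6 : p (p v) = p v := congrArg (fun f : Module.End Λ (F.obj U) => f v) hq1
    rw [h6, sub_self]
  · have h4 : 𝟙 U - y ≫ u - 𝟙 U = -(y ≫ u) := by abel
    rw [h4]
    exact (numIdeal Λ U U).neg_mem (mem_numIdeal.2 h3)

/-- J1: the case of a non-nilpotent numerically trivial operator. -/
theorem infinite_case {T : C} [ExactPairing T T] (h : IsPow Λ R T) (F : C ⥤ ModuleCat.{x} Λ)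
    [F.Additive] [F.Linear Λ] (hfin : ∀ n, Module.Finite Λ (F.obj (tp T n))) {m : ℕ}
    {y : tp T m ⟶ tp T m} (hy : NumTriv y)
    (hn : ¬ IsNilpotent ((F.map y).hom : Module.End Λ (F.obj (tp T m)))) :
    Tendsto (fun n => (finrank Λ (F.obj (tp T n)) : ℝ) / numRank Λ (tp T n)) atTop atTop := by
  have hR := h.real
  have hm : m ≠ 0 := by
    rintro rfl
    apply hn
    have h0 : y ≫ 𝟙 (𝟙_ C) = 0 := (numTriv_unit_iff hR (S := 𝟙_ C) y).1 hy (𝟙 (𝟙_ C))
    have h1 : y = 0 := by
      have := h0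
      rwa [Category.comp_id] at this
    have h2 : F.map y = 0 := by rw [h1, F.map_zero]
    rw [h2]
    exact IsNilpotent.zero
  have := hfin m
  obtain ⟨z, e, hz, he, he'⟩ := exists_phantom hR F hy hn
  -- the lower bound along multiples of `m`
  have low : ∀ a : ℕ, (a + 1) * numRank Λ (tp T (m * a)) ≤
      finrank Λ (F.obj (tp T (m * a + m))) := by
    intro a
    have hiso : ∀ a, Nonempty (tp T (m * a) ⊗ tp T m ≅ tp T (m * a + m)) := fun a => by
      obtain ⟨i, _⟩ := exists_tp_iso T (m * a) m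
      exact ⟨i⟩
    obtain ⟨i⟩ := Pool.Agent.N712.AF.tpIso T m hiso a
    obtain ⟨j⟩ := Pool.Agent.N712.AF.tpIso T m hiso (a + 1)
    have j' : tp (tp T m) (a + 1) ≅ tp T (m * a + m) := j
    have e1 : numRank Λ (tp T (m * a)) = numRank Λ (tp (tp T m) a) := by
      rw [numRank_eq, numRank_eq]
      exact (nr_congr_right hR i (𝟙 (𝟙_ C)) (by rw [Category.id_comp, Category.comp_id])).symm
    have eq := (F.mapIso j').toLinearEquiv
    have e2 : finrank Λ (F.obj (tp T (m * a + m))) = finrank Λ (F.obj (tp (tp T m) (a + 1))) :=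
      eq.finrank_eq.symm
    have := hfin (m * a + m)
    have : Module.Finite Λ (F.obj (tp (tp T m) (a + 1))) := Module.Finite.equiv eq.symm
    rw [e1, e2]
    exact phantom hR F hz he he' a
  -- monotonicity
  have mono : ∀ n, finrank Λ (F.obj (tp T n)) ≤ finrank Λ (F.obj (tp T (n + 1))) := by
    intro n
    obtain ⟨i, r, hir⟩ := h.retract
    have hc : ((ρ_ (tp T n)).inv ≫ (tp T n ◁ i)) ≫ ((tp T n ◁ r) ≫ (ρ_ (tp T n)).hom) =
        𝟙 (tp T n) := by
      rw [Category.assoc, ← Category.assoc (tp T n ◁ i), ← MonoidalCategory.whiskerLeft_comp, hir,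
        MonoidalCategory.whiskerLeft_id, Category.id_comp, Iso.inv_hom_id]
    have hc' := congrArg F.map hc
    rw [F.map_comp, F.map_id] at hc'
    have := hfin (n + 1)
    refine LinearMap.finrank_le_finrank_of_injective
      (f := (F.map ((ρ_ (tp T n)).inv ≫ (tp T n ◁ i))).hom) ?_
    intro a b hab
    have h1 := congrArg (fun g => (ModuleCat.Hom.hom g) a) hc'
    have h2 := congrArg (fun g => (ModuleCat.Hom.hom g) b) hc'
    have h3 : (F.map ((tp T n ◁ r) ≫ (ρ_ (tp T n)).hom)).hom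
        ((F.map ((ρ_ (tp T n)).inv ≫ (tp T n ◁ i))).hom a) = a := h1
    have h4 : (F.map ((tp T n ◁ r) ≫ (ρ_ (tp T n)).hom)).hom
        ((F.map ((ρ_ (tp T n)).inv ≫ (tp T n ◁ i))).hom b) = b := h2
    rw [← h3, ← h4]
    exact congrArg _ hab
  have mono' : Monotone fun n => finrank Λ (F.obj (tp T n)) := monotone_nat_of_le_succ mono
  -- growth of the numerical ranks
  set b := bt R T with hb
  have hb0 : 0 < b := bt_pos h
  have hb1 : 1 ≤ b ^ 2 := Nat.one_le_pow _ _ hb0
  have gr : ∀ n k, numRank Λ (tp T (n + k)) ≤ (b ^ 2) ^ k * numRank Λ (tp T n) := by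
    intro n k
    induction k with
    | zero => simp
    | succ k ih =>
      refine (numRank_mono h (n + k)).2.2.trans ?_
      have e1 : (b ^ 2) ^ (k + 1) * numRank Λ (tp T n) =
          b ^ 2 * ((b ^ 2) ^ k * numRank Λ (tp T n)) := by ring
      rw [e1]
      exact Nat.mul_le_mul_left _ ih
  have key : ∀ n : ℕ, ((n / m : ℕ) : ℝ) / (((b ^ 2) ^ (2 * m) : ℕ) : ℝ) ≤
      (finrank Λ (F.obj (tp T n)) : ℝ) / numRank Λ (tp T n) := by
    intro n
    have hN : (0 : ℝ) < numRank Λ (tp T n) := by exact_mod_cast (numRank_mono h n).1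
    have hB : (0 : ℝ) < (((b ^ 2) ^ (2 * m) : ℕ) : ℝ) := by
      exact_mod_cast Nat.pow_pos (n := 2 * m) (Nat.lt_of_lt_of_le Nat.zero_lt_one hb1)
    rw [div_le_div_iff₀ hB hN]
    rcases Nat.eq_zero_or_pos (n / m) with h0 | h0
    · rw [h0, Nat.cast_zero, zero_mul]
      positivity
    · obtain ⟨a, ha⟩ := Nat.exists_eq_succ_of_ne_zero (Nat.pos_iff_ne_zero.1 h0)
      have hdm := Nat.div_add_mod n m
      have hlt := Nat.mod_lt n (Nat.pos_of_ne_zero hm)
      rw [ha, Nat.mul_succ] at hdm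
      have h1 : finrank Λ (F.obj (tp T (m * a + m))) ≤ finrank Λ (F.obj (tp T n)) :=
        mono' (by omega)
      have h2 := low a
      obtain ⟨k, hk⟩ : ∃ k, n = m * a + k := ⟨m + n % m, by omega⟩
      have hk2 : k ≤ 2 * m := by omega
      have h3 : numRank Λ (tp T n) ≤ (b ^ 2) ^ (2 * m) * numRank Λ (tp T (m * a)) := by
        rw [hk]
        refine (gr (m * a) k).trans (Nat.mul_le_mul_right _ ?_)
        exact Nat.pow_le_pow_right hb1 hk2
      have h4 : (n / m) * numRank Λ (tp T n) ≤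
          finrank Λ (F.obj (tp T n)) * (b ^ 2) ^ (2 * m) := by
        rw [ha]
        calc (a + 1) * numRank Λ (tp T n)
            ≤ (a + 1) * ((b ^ 2) ^ (2 * m) * numRank Λ (tp T (m * a))) :=
              Nat.mul_le_mul_left _ h3
          _ = ((a + 1) * numRank Λ (tp T (m * a))) * (b ^ 2) ^ (2 * m) := by ring
          _ ≤ finrank Λ (F.obj (tp T (m * a + m))) * (b ^ 2) ^ (2 * m) :=
              Nat.mul_le_mul_right _ h2
          _ ≤ _ := Nat.mul_le_mul_right _ h1
      exact_mod_cast h4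
  refine tendsto_atTop_mono key ?_
  have hB : (0 : ℝ) < (((b ^ 2) ^ (2 * m) : ℕ) : ℝ) := by
    exact_mod_cast Nat.pow_pos (n := 2 * m) (Nat.lt_of_lt_of_le Nat.zero_lt_one hb1)
  exact (tendsto_natCast_atTop_atTop.comp (Nat.tendsto_div_const_atTop hm)).atTop_div_const hB

end Pool.Agent.N64.AF
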