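import Pool.Agent.N64.AF.E2
import Pool.Agent.N64.AF.G
import Pool.Agent.N64.AF.H2
import Pool.Agent.Y129.Asym

/-!
# The law for the values of an additive functor on the powers of an object
-/

set_option autoImplicit false

open CategoryTheory Limits MonoidalCategory Module Filter Topology
open Pool.Agent.Y112.SR Pool.Agent.Y112.KD
open Pool.Agent.Y116.MT (tr)
open scoped ENNReal

namespace Pool.Agent.N64.AF

universe v u w t x

/-- The dimension of a vector space, a natural number or infinity. -/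
noncomputable def dimE (Λ : Type t) [Field Λ] (V : Type x) [AddCommGroup V] [Module Λ V] : ℕ∞ :=
  Cardinal.toENat (Module.rank Λ V)

lemma dimE_eq {Λ : Type t} [Field Λ] {V : Type x} [AddCommGroup V] [Module Λ V]
    [Module.Finite Λ V] : dimE Λ V = (finrank Λ V : ℕ∞) := by
  rw [dimE, ← finrank_eq_rank, Cardinal.toENat_nat]

lemma dimE_top {Λ : Type t} [Field Λ] {V : Type x} [AddCommGroup V] [Module Λ V]
    (h : ¬ Module.Finite Λ V) : dimE Λ V = ⊤ := by
  rw [dimE, Cardinal.toENat_eq_top]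
  by_contra h2
  exact h (Module.rank_lt_aleph0_iff.1 (not_le.1 h2))

section Quot

variable {C : Type u} [Category.{v} C] {Λ : Type t} [Field Λ]

/-- The subspace of the value at `Z` generated by the images of the elements `z i`. -/
def gen (F : C ⥤ ModuleCat.{x} Λ) {U : C} {l : ℕ} (z : Fin l → F.obj U) (Z : C) :
    Submodule Λ (F.obj Z) :=
  Submodule.span Λ {y : F.obj Z | ∃ (i : Fin l) (c : U ⟶ Z), (F.map c).hom (z i) = y}

lemma gen_le (F : C ⥤ ModuleCat.{x} Λ) {U : C} {l : ℕ} (z : Fin l → F.obj U) {Y Z : C}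
    (f : Y ⟶ Z) : gen F z Y ≤ (gen F z Z).comap (F.map f).hom := by
  rw [gen, Submodule.span_le]
  rintro _ ⟨i, c, rfl⟩
  refine Submodule.subset_span ⟨i, c ≫ f, ?_⟩
  rw [F.map_comp]
  rfl

/-- The quotient of a functor by the subfunctor generated by finitely many elements. -/
def quo (F : C ⥤ ModuleCat.{x} Λ) {U : C} {l : ℕ} (z : Fin l → F.obj U) :
    C ⥤ ModuleCat.{x} Λ where
  obj Z := ModuleCat.of Λ (F.obj Z ⧸ gen F z Z)
  map {Y Z} f := ModuleCat.ofHom ((gen F z Y).mapQ (gen F z Z) (F.map f).hom (gen_le F z f))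
  map_id Y := by
    ext a
    change (Submodule.Quotient.mk ((F.map (𝟙 Y)).hom a) : F.obj Y ⧸ gen F z Y) =
      Submodule.Quotient.mk a
    rw [F.map_id]
    rfl
  map_comp {X Y Z} f g := by
    ext a
    change (Submodule.Quotient.mk ((F.map (f ≫ g)).hom a) : F.obj Z ⧸ gen F z Z) =
      Submodule.Quotient.mk ((F.map g).hom ((F.map f).hom a))
    rw [F.map_comp]
    rfl

lemma quo_map_mk (F : C ⥤ ModuleCat.{x} Λ) {U : C} {l : ℕ} (z : Fin l → F.obj U) {Y Z : C}
    (f : Y ⟶ Z) (a : F.obj Y) : ((quo F z).map f).hom (Submodule.Quotient.mk a) =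
      Submodule.Quotient.mk ((F.map f).hom a) := rfl

instance [Preadditive C] (F : C ⥤ ModuleCat.{x} Λ) [F.Additive] {U : C} {l : ℕ}
    (z : Fin l → F.obj U) : (quo F z).Additive where
  map_add {Y Z} {f g} := by
    ext a
    obtain ⟨a, rfl⟩ := Submodule.mkQ_surjective _ a
    change ((quo F z).map (f + g)).hom (Submodule.Quotient.mk a) =
      ((quo F z).map f).hom (Submodule.Quotient.mk a) +
        ((quo F z).map g).hom (Submodule.Quotient.mk a)
    rw [quo_map_mk, quo_map_mk, quo_map_mk, F.map_add]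
    rfl

instance [Preadditive C] [Linear Λ C] (F : C ⥤ ModuleCat.{x} Λ) [F.Additive] [F.Linear Λ] {U : C}
    {l : ℕ} (z : Fin l → F.obj U) : (quo F z).Linear Λ where
  map_smul {Y Z} f c := by
    ext a
    obtain ⟨a, rfl⟩ := Submodule.mkQ_surjective _ a
    change ((quo F z).map (c • f)).hom (Submodule.Quotient.mk a) =
      c • ((quo F z).map f).hom (Submodule.Quotient.mk a)
    rw [quo_map_mk, quo_map_mk, F.map_smul]
    rfl

lemma quo_nil (F : C ⥤ ModuleCat.{x} Λ) {U : C} {l : ℕ} (z : Fin l → F.obj U) {Y : C}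
    (f : Y ⟶ Y) (h : IsNilpotent ((F.map f).hom : Module.End Λ (F.obj Y))) :
    IsNilpotent (((quo F z).map f).hom : Module.End Λ ((quo F z).obj Y)) := by
  obtain ⟨k, hk⟩ := h
  refine ⟨k, ?_⟩
  have h1 : ∀ (j : ℕ) (a : F.obj Y), ((((quo F z).map f).hom :
      Module.End Λ ((quo F z).obj Y)) ^ j) (Submodule.Quotient.mk a) =
      Submodule.Quotient.mk ((((F.map f).hom : Module.End Λ (F.obj Y)) ^ j) a) := by
    intro j
    induction j with
    | zero => intro a; rfl
    | succ j ih =>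
      intro a
      rw [pow_succ, pow_succ, Module.End.mul_apply, Module.End.mul_apply, quo_map_mk, ih]
  apply LinearMap.ext
  intro a
  obtain ⟨a, rfl⟩ := Submodule.mkQ_surjective _ a
  refine (h1 k a).trans ?_
  rw [hk]
  rfl

end Quot

variable {C : Type u} [Category.{v} C] [Preadditive C] [MonoidalCategory C]
  [MonoidalPreadditive C] [SymmetricCategory C] [RightRigidCategory C]
  {Λ : Type t} [Field Λ] [CharZero Λ] [Linear Λ C] [MonoidalLinear Λ C]
  {K : Type w} [Field K] [IsAlgClosed K] [Algebra Λ K] {R : SuperRealisation C K}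

/-- The basic bounds. -/
theorem nilpotent_bounds {T : C} [ExactPairing T T] (h : IsPow Λ R T)
    (hcp : ∀ n, R.CPlus (tp T n)) (F : C ⥤ ModuleCat.{x} Λ)
    [F.Additive] [F.Linear Λ] (hfin : ∀ n, Module.Finite Λ (F.obj (tp T n)))
    (hnil : ∀ (m : ℕ) (y : tp T m ⟶ tp T m), NumTriv y →
      IsNilpotent ((F.map y).hom : Module.End Λ (F.obj (tp T m)))) (m : ℕ) :
    ∃ (N l : ℕ) (z : Fin l → F.obj (tp T m)), l ≤ N ∧ finrank Λ (F.obj (tp T m)) ≤
      N * cmpSeq (fun n => numRank Λ (tp T n)) (bt R T) m ∧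
      ∀ δ : ℝ, 0 < δ → ∀ᶠ n in atTop,
        ((N : ℝ) - δ) * cmpSeq (fun n => numRank Λ (tp T n)) (bt R T) n ≤
          finrank Λ (gen F z (tp T n)) := by
  have := hfin m
  obtain ⟨l, e, z, he, hpos, hrank, hlow⟩ := exists_chain h.real (hcp m) F (hnil m)
  choose r hr hr' using fun i => exists_rk h.real (hcp m) (he i)
  have hup : ∀ i n, nr Λ (e i) (𝟙 (tp T n)) ≤
      r i * cmpSeq (fun n => numRank Λ (tp T n)) (bt R T) n := fun i n =>
    nr_le_cmpSeq h (he i) (hr i) n
  have hr1 : ∀ i, 1 ≤ r i := by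
    intro i
    by_contra hc
    have h0 : r i = 0 := by omega
    have h1 := hpos i
    have h2 := hup i m
    rw [h0, zero_mul] at h2
    omega
  refine ⟨∑ i, r i, l, z, ?_, ?_, ?_⟩
  · calc l = ∑ _i : Fin l, 1 := by simp
      _ ≤ ∑ i, r i := Finset.sum_le_sum fun i _ => hr1 i
  · rw [hrank, Finset.sum_mul]
    exact Finset.sum_le_sum fun i _ => hup i m
  · intro δ hδ
    have h1 : 0 < δ / (l + 1) := by positivity
    have h2 : ∀ᶠ n in atTop, ∀ i, ((r i : ℝ) - δ / (l + 1)) *
        cmpSeq (fun n => numRank Λ (tp T n)) (bt R T) n ≤ nr Λ (e i) (𝟙 (tp T n)) :=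
      eventually_all.2 fun i => eventually_nr h (he i) (hr i) h1
    filter_upwards [h2] with n hn
    have h3 := hlow (tp T n) (hfin n)
    have h4 : ((∑ i, nr Λ (e i) (𝟙 (tp T n)) : ℕ) : ℝ) ≤
        (finrank Λ (gen F z (tp T n)) : ℝ) := by exact_mod_cast h3
    refine le_trans ?_ h4
    push_cast
    have h5 : ∑ i, ((r i : ℝ) - δ / (l + 1)) *
        cmpSeq (fun n => numRank Λ (tp T n)) (bt R T) n ≤
        ∑ i, (nr Λ (e i) (𝟙 (tp T n)) : ℝ) := Finset.sum_le_sum fun i _ => hn i
    refine le_trans ?_ h5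
    rw [← Finset.sum_mul]
    apply mul_le_mul_of_nonneg_right _ (by positivity)
    rw [Finset.sum_sub_distrib, Finset.sum_const, Finset.card_univ, Fintype.card_fin, nsmul_eq_mul]
    apply sub_le_sub_left
    rw [mul_div_assoc', div_le_iff₀ (by positivity)]
    nlinarith

/-- The bounds, normalized, and the first form of the law. -/
theorem nilpotent_seq {T : C} [ExactPairing T T] (h : IsPow Λ R T)
    (hcp : ∀ n, R.CPlus (tp T n)) (F : C ⥤ ModuleCat.{x} Λ)
    [F.Additive] [F.Linear Λ] (hfin : ∀ n, Module.Finite Λ (F.obj (tp T n)))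
    (hnil : ∀ (m : ℕ) (y : tp T m ⟶ tp T m), NumTriv y →
      IsNilpotent ((F.map y).hom : Module.End Λ (F.obj (tp T m)))) :
    (∃ N : ℕ, (∀ n, finrank Λ (F.obj (tp T n)) ≤
        N * cmpSeq (fun n => numRank Λ (tp T n)) (bt R T) n) ∧
      Tendsto (fun n => (finrank Λ (F.obj (tp T n)) : ℝ) /
        cmpSeq (fun n => numRank Λ (tp T n)) (bt R T) n) atTop (𝓝 (N : ℝ)) ∧
      ∃ (m l : ℕ) (z : Fin l → F.obj (tp T m)), l ≤ N ∧ ∀ δ : ℝ, 0 < δ → ∀ᶠ n in atTop,
        ((N : ℝ) - δ) * cmpSeq (fun n => numRank Λ (tp T n)) (bt R T) n ≤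
          finrank Λ (gen F z (tp T n))) ∨
    Tendsto (fun n => (finrank Λ (F.obj (tp T n)) : ℝ) /
        cmpSeq (fun n => numRank Λ (tp T n)) (bt R T) n) atTop atTop := by
  have hc : ∀ n, (0 : ℝ) < cmpSeq (fun n => numRank Λ (tp T n)) (bt R T) n := fun n => by
    exact_mod_cast (numRank_tendsto h).1 n
  have key := nilpotent_bounds h hcp F hfin hnil
  have hgen : ∀ (m l n : ℕ) (z : Fin l → F.obj (tp T m)),
      (finrank Λ (gen F z (tp T n)) : ℝ) ≤ finrank Λ (F.obj (tp T n)) := fun m l n z => by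
    have := hfin n
    exact_mod_cast Submodule.finrank_le _
  choose N l z hl hN hN' using key
  have hlaw := Pool.Agent.Y129.law_of_bounds (s := fun n => (finrank Λ (F.obj (tp T n)) : ℝ) /
    cmpSeq (fun n => numRank Λ (tp T n)) (bt R T) n) (fun m => ⟨N m, by
      rw [div_le_iff₀ (hc m)]
      exact_mod_cast hN m, fun δ hδ => by
      filter_upwards [hN' m δ hδ] with n hn
      rw [le_div_iff₀ (hc n)]
      exact hn.trans (hgen _ _ _ _)⟩)
  rcases hlaw with ⟨N₀, h1, h2⟩ | h1
  · left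
    refine ⟨N₀, fun n => ?_, h2, ?_⟩
    · have h3 := h1 n
      rw [div_le_iff₀ (hc n)] at h3
      exact_mod_cast h3
    · -- a power where the maximum is attained
      have h3 : ∀ m, N m ≤ N₀ := by
        intro m
        have h4 : ∀ δ : ℝ, 0 < δ → (N m : ℝ) - δ ≤ N₀ := by
          intro δ hδ
          refine ge_of_tendsto h2 ?_
          filter_upwards [hN' m δ hδ] with n hn
          rw [le_div_iff₀ (hc n)]
          exact hn.trans (hgen _ _ _ _)
        have h5 : (N m : ℝ) ≤ N₀ := le_of_forall_pos_le_add fun δ hδ => by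
          have := h4 δ hδ
          linarith
        exact_mod_cast h5
      have h4 : ∃ m, N m = N₀ := by
        have h5 : ∀ᶠ n in atTop, (N₀ : ℝ) - 1 < (finrank Λ (F.obj (tp T n)) : ℝ) /
            cmpSeq (fun n => numRank Λ (tp T n)) (bt R T) n :=
          h2.eventually (lt_mem_nhds (by linarith))
        obtain ⟨m, hm⟩ := h5.exists
        refine ⟨m, le_antisymm (h3 m) ?_⟩
        have h6 : (finrank Λ (F.obj (tp T m)) : ℝ) /
            cmpSeq (fun n => numRank Λ (tp T n)) (bt R T) m ≤ N m := by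
          rw [div_le_iff₀ (hc m)]
          exact_mod_cast hN m
        have h7 : (N₀ : ℝ) < N m + 1 := by linarith
        have h8 : N₀ < N m + 1 := by exact_mod_cast h7
        omega
      obtain ⟨m, hm⟩ := h4
      refine ⟨m, l m, z m, hm ▸ hl m, ?_⟩
      rw [← hm]
      exact hN' m
  · exact Or.inr h1

/-- J2: the case of nilpotent numerically trivial operators. -/
theorem nilpotent_case' {T : C} [ExactPairing T T] (h : IsPow Λ R T)
    (hcp : ∀ n, R.CPlus (tp T n)) (F : C ⥤ ModuleCat.{x} Λ)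
    [F.Additive] [F.Linear Λ] (hfin : ∀ n, Module.Finite Λ (F.obj (tp T n)))
    (hnil : ∀ (m : ℕ) (y : tp T m ⟶ tp T m), NumTriv y →
      IsNilpotent ((F.map y).hom : Module.End Λ (F.obj (tp T m)))) :
    (∃ N : ℕ, (∀ n, finrank Λ (F.obj (tp T n)) ≤
        N * cmpSeq (fun n => numRank Λ (tp T n)) (bt R T) n) ∧
      Tendsto (fun n => (finrank Λ (F.obj (tp T n)) : ℝ) / numRank Λ (tp T n)) atTop
        (𝓝 (N : ℝ)) ∧
      (N = 0 ↔ ∀ n, Subsingleton (F.obj (tp T n))) ∧
      ∃ (m l : ℕ) (z : Fin l → F.obj (tp T m)), l ≤ N ∧ ∀ (n : ℕ) (y : F.obj (tp T n)),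
        y ∈ Submodule.span Λ {y : F.obj (tp T n) | ∃ (i : Fin l) (c : tp T m ⟶ tp T n),
          (F.map c).hom (z i) = y}) ∨
    Tendsto (fun n => (finrank Λ (F.obj (tp T n)) : ℝ) / numRank Λ (tp T n)) atTop atTop := by
  have hc : ∀ n, (0 : ℝ) < cmpSeq (fun n => numRank Λ (tp T n)) (bt R T) n := fun n => by
    exact_mod_cast (numRank_tendsto h).1 n
  have hβ : ∀ n, (0 : ℝ) < numRank Λ (tp T n) := fun n => by
    exact_mod_cast (numRank_mono h n).1
  have h0 := (numRank_tendsto h).2 0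
  simp only [add_zero, pow_zero] at h0
  have h0' : Tendsto (fun n => ((numRank Λ (tp T n) : ℝ) /
      cmpSeq (fun n => numRank Λ (tp T n)) (bt R T) n)⁻¹) atTop (𝓝 1) := by
    have := h0.inv₀ one_ne_zero
    rwa [inv_one] at this
  have hconv : ∀ n, (finrank Λ (F.obj (tp T n)) : ℝ) / numRank Λ (tp T n) =
      (finrank Λ (F.obj (tp T n)) : ℝ) / cmpSeq (fun n => numRank Λ (tp T n)) (bt R T) n *
      ((numRank Λ (tp T n) : ℝ) / cmpSeq (fun n => numRank Λ (tp T n)) (bt R T) n)⁻¹ := by
    intro n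
    have h1 := (hc n).ne'
    have h2 := (hβ n).ne'
    field_simp
  rcases nilpotent_seq h hcp F hfin hnil with ⟨N, h1, h2, m, l, z, hl, hz⟩ | h1
  · left
    refine ⟨N, h1, ?_, ?_, m, l, z, hl, ?_⟩
    · simp_rw [hconv]
      have := h2.mul h0'
      rwa [mul_one] at this
    · constructor
      · intro h3 n
        have h4 := h1 n
        rw [h3, zero_mul] at h4
        have := hfin n
        exact finrank_zero_iff.1 (Nat.le_zero.1 h4)
      · intro h3
        have h4 : (fun n => (finrank Λ (F.obj (tp T n)) : ℝ) /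
            cmpSeq (fun n => numRank Λ (tp T n)) (bt R T) n) = fun _ => 0 := by
          funext n
          have := h3 n
          rw [finrank_zero_of_subsingleton, Nat.cast_zero, zero_div]
        rw [h4] at h2
        have h5 := tendsto_nhds_unique h2 tendsto_const_nhds
        exact_mod_cast h5
    · -- the quotient functor vanishes
      have hfin' : ∀ n, Module.Finite Λ ((quo F z).obj (tp T n)) := fun n => by
        have := hfin n
        exact inferInstanceAs (Module.Finite Λ (F.obj (tp T n) ⧸ gen F z (tp T n)))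
      have hnil' : ∀ (m : ℕ) (y : tp T m ⟶ tp T m), NumTriv y →
          IsNilpotent (((quo F z).map y).hom : Module.End Λ ((quo F z).obj (tp T m))) :=
        fun m y hy => quo_nil F z y (hnil m y hy)
      have hdim : ∀ n, (finrank Λ ((quo F z).obj (tp T n)) : ℝ) +
          finrank Λ (gen F z (tp T n)) = finrank Λ (F.obj (tp T n)) := by
        intro n
        have := hfin n
        exact_mod_cast Submodule.finrank_quotient_add_finrank (gen F z (tp T n))
      have hlim : Tendsto (fun n => (finrank Λ ((quo F z).obj (tp T n)) : ℝ) /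
          cmpSeq (fun n => numRank Λ (tp T n)) (bt R T) n) atTop (𝓝 0) := by
        rw [Metric.tendsto_atTop]
        intro ε hε
        obtain ⟨n₀, hn₀⟩ := eventually_atTop.1 (hz (ε / 2) (half_pos hε))
        refine ⟨n₀, fun n hn => ?_⟩
        rw [Real.dist_eq, sub_zero, abs_of_nonneg (by positivity), div_lt_iff₀ (hc n)]
        have h3 := hn₀ n hn
        have h4 := hdim n
        have h5 : (finrank Λ (F.obj (tp T n)) : ℝ) ≤
            N * cmpSeq (fun n => numRank Λ (tp T n)) (bt R T) n := by exact_mod_cast h1 n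
        have h6 := hc n
        nlinarith
      have hzero : ∀ n, finrank Λ ((quo F z).obj (tp T n)) = 0 := by
        rcases nilpotent_seq h hcp (quo F z) hfin' hnil' with ⟨N', h3, h4, -⟩ | h3
        · have h5 := tendsto_nhds_unique h4 hlim
          have h6 : N' = 0 := by exact_mod_cast h5
          intro n
          have h7 := h3 n
          rw [h6, zero_mul] at h7
          exact Nat.le_zero.1 h7
        · exact absurd hlim (not_tendsto_nhds_of_tendsto_atTop h3 0)
      intro n y
      have := hfin' n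
      have h3 : Subsingleton ((quo F z).obj (tp T n)) := finrank_zero_iff.1 (hzero n)
      have h4 : (Submodule.Quotient.mk y : F.obj (tp T n) ⧸ gen F z (tp T n)) = 0 :=
        @Subsingleton.elim _ h3 _ _
      exact (Submodule.Quotient.mk_eq_zero _).1 h4
  · right
    simp_rw [hconv]
    exact h1.atTop_mul_pos one_pos h0'

/-- J2: the case of nilpotent numerically trivial operators. -/
theorem nilpotent_case {T : C} [ExactPairing T T] (h : IsPow Λ R T) (F : C ⥤ ModuleCat.{x} Λ)
    [F.Additive] [F.Linear Λ] (hfin : ∀ n, Module.Finite Λ (F.obj (tp T n)))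
    (hnil : ∀ (m : ℕ) (y : tp T m ⟶ tp T m), NumTriv y →
      IsNilpotent ((F.map y).hom : Module.End Λ (F.obj (tp T m)))) :
    (∃ N : ℕ, (∀ n, finrank Λ (F.obj (tp T n)) ≤
        N * cmpSeq (fun n => numRank Λ (tp T n)) (bt R T) n) ∧
      Tendsto (fun n => (finrank Λ (F.obj (tp T n)) : ℝ) / numRank Λ (tp T n)) atTop
        (𝓝 (N : ℝ)) ∧
      (N = 0 ↔ ∀ n, Subsingleton (F.obj (tp T n))) ∧
      ∃ (m l : ℕ) (z : Fin l → F.obj (tp T m)), l ≤ N ∧ ∀ (n : ℕ) (y : F.obj (tp T n)),
        y ∈ Submodule.span Λ {y : F.obj (tp T n) | ∃ (i : Fin l) (c : tp T m ⟶ tp T n),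
          (F.map c).hom (z i) = y}) ∨
    Tendsto (fun n => (finrank Λ (F.obj (tp T n)) : ℝ) / numRank Λ (tp T n)) atTop atTop :=
  nilpotent_case' h (fun n => cplus_tp h.real h.cplus n) F hfin hnil

/-- The unit object being a retract of `T`, each tensor power is a retract of the next one. -/
lemma exists_retract_tp {T : C} (h : IsPow Λ R T) (n : ℕ) :
    ∃ (i : tp T n ⟶ tp T (n + 1)) (r : tp T (n + 1) ⟶ tp T n), i ≫ r = 𝟙 (tp T n) := by
  obtain ⟨i, r, hir⟩ := h.retract
  refine ⟨(ρ_ (tp T n)).inv ≫ (tp T n ◁ i), (tp T n ◁ r) ≫ (ρ_ (tp T n)).hom, ?_⟩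
  rw [Category.assoc, ← Category.assoc (tp T n ◁ i), ← MonoidalCategory.whiskerLeft_comp, hir,
    MonoidalCategory.whiskerLeft_id, Category.id_comp, Iso.inv_hom_id]

lemma not_finite_succ {T : C} (h : IsPow Λ R T) (F : C ⥤ ModuleCat.{x} Λ) {n : ℕ}
    (hn : ¬ Module.Finite Λ (F.obj (tp T n))) : ¬ Module.Finite Λ (F.obj (tp T (n + 1))) := by
  intro h1
  obtain ⟨i, r, hir⟩ := exists_retract_tp h n
  refine hn (Module.Finite.of_surjective (F.map r).hom ?_)
  intro a
  refine ⟨(F.map i).hom a, ?_⟩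
  have h2 : F.map i ≫ F.map r = 𝟙 _ := by rw [← F.map_comp, hir, F.map_id]
  exact congrArg (fun g : F.obj (tp T n) ⟶ F.obj (tp T n) => g.hom a) h2

/-- The limit infinity. -/
lemma law_top {T : C} [ExactPairing T T] (h : IsPow Λ R T) (F : C ⥤ ModuleCat.{x} Λ)
    (hfin : ∀ n, Module.Finite Λ (F.obj (tp T n)))
    (hlim : Tendsto (fun n => (finrank Λ (F.obj (tp T n)) : ℝ) / numRank Λ (tp T n)) atTop atTop) :
    Tendsto (fun n => ((dimE Λ (F.obj (tp T n)) : ℕ∞) : ℝ≥0∞) / numRank Λ (tp T n)) atTop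
        (𝓝 (⊤ : ℝ≥0∞)) ∧ ¬ ∀ n, Subsingleton (F.obj (tp T n)) := by
  have hβ : ∀ n, (0 : ℝ) < numRank Λ (tp T n) := fun n => by
    exact_mod_cast (numRank_mono h n).1
  constructor
  · have h1 := ENNReal.tendsto_ofReal_nhds_top.2 hlim
    refine h1.congr fun n => ?_
    have := hfin n
    rw [dimE_eq, ENNReal.ofReal_div_of_pos (hβ n), ENNReal.ofReal_natCast, ENNReal.ofReal_natCast]
    rfl
  · intro h1
    have h2 : (fun n => (finrank Λ (F.obj (tp T n)) : ℝ) / numRank Λ (tp T n)) = fun _ => 0 := by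
      funext n
      have := h1 n
      rw [finrank_zero_of_subsingleton, Nat.cast_zero, zero_div]
    rw [h2] at hlim
    exact not_tendsto_nhds_of_tendsto_atTop hlim 0 tendsto_const_nhds

/-- J3: **the law**. -/
theorem law {T : C} [ExactPairing T T] (h : IsPow Λ R T) (F : C ⥤ ModuleCat.{x} Λ)
    [F.Additive] [F.Linear Λ] : ∃ N : ℕ∞,
      Tendsto (fun n => ((dimE Λ (F.obj (tp T n)) : ℕ∞) : ℝ≥0∞) / numRank Λ (tp T n)) atTop
        (𝓝 (N : ℝ≥0∞)) ∧
      (N = 0 ↔ ∀ n, Subsingleton (F.obj (tp T n))) ∧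
      (N ≠ ⊤ → (∀ n, Module.Finite Λ (F.obj (tp T n)) ∧
          (finrank Λ (F.obj (tp T (2 * n))) : ℕ∞) ≤ N * numRank Λ (tp T (2 * n)) ∧
          ∀ y : tp T n ⟶ tp T n, NumTriv y →
            IsNilpotent ((F.map y).hom : Module.End Λ (F.obj (tp T n)))) ∧
        ∃ (m l : ℕ) (z : Fin l → F.obj (tp T m)), (l : ℕ∞) ≤ N ∧
          ∀ (n : ℕ) (y : F.obj (tp T n)), y ∈ Submodule.span Λ {y : F.obj (tp T n) |
            ∃ (i : Fin l) (c : tp T m ⟶ tp T n), (F.map c).hom (z i) = y}) := by
  have hβ : ∀ n, (0 : ℝ) < numRank Λ (tp T n) := fun n => by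
    exact_mod_cast (numRank_mono h n).1
  by_cases hfin : ∀ n, Module.Finite Λ (F.obj (tp T n))
  · by_cases hnil : ∀ (m : ℕ) (y : tp T m ⟶ tp T m), NumTriv y →
      IsNilpotent ((F.map y).hom : Module.End Λ (F.obj (tp T m)))
    · rcases nilpotent_case h F hfin hnil with ⟨N, h1, h2, h3, m, l, z, hl, hz⟩ | h1
      · refine ⟨(N : ℕ∞), ?_, ?_, fun _ => ⟨fun n => ⟨hfin n, ?_, hnil n⟩, m, l, z, ?_, hz⟩⟩
        · have h4 := (ENNReal.continuous_ofReal.tendsto _).comp h2
          rw [ENNReal.ofReal_natCast] at h4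
          refine (h4.congr fun n => ?_)
          have := hfin n
          rw [dimE_eq, Function.comp_apply, ENNReal.ofReal_div_of_pos (hβ n),
            ENNReal.ofReal_natCast, ENNReal.ofReal_natCast]
          rfl
        · rw [Nat.cast_eq_zero]
          exact h3
        · have h4 := h1 (2 * n)
          have h5 : cmpSeq (fun n => numRank Λ (tp T n)) (bt R T) (2 * n) =
              numRank Λ (tp T (2 * n)) := by
            have h6 : 2 * n % 2 = 0 := by omega
            have h7 : 2 * (2 * n / 2) = 2 * n := by omega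
            simp only [cmpSeq, h6, h7, pow_zero, one_mul]
          rw [h5] at h4
          exact_mod_cast h4
        · exact_mod_cast hl
      · obtain ⟨h2, h3⟩ := law_top h F hfin h1
        exact ⟨⊤, h2, iff_of_false (by simp) h3, fun h4 => absurd rfl h4⟩
    · push Not at hnil
      obtain ⟨m, y, hy, hn⟩ := hnil
      obtain ⟨h2, h3⟩ := law_top h F hfin (infinite_case h F hfin hy hn)
      exact ⟨⊤, h2, iff_of_false (by simp) h3, fun h4 => absurd rfl h4⟩
  · push Not at hfin
    obtain ⟨m, hm⟩ := hfin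
    have h1 : ∀ n, m ≤ n → ¬ Module.Finite Λ (F.obj (tp T n)) := by
      intro n hn
      induction n, hn using Nat.le_induction with
      | base => exact hm
      | succ n _ ih => exact not_finite_succ h F ih
    refine ⟨⊤, ?_, iff_of_false (by simp) fun h2 => ?_, fun h4 => absurd rfl h4⟩
    · refine tendsto_const_nhds.congr' ?_
      filter_upwards [eventually_ge_atTop m] with n hn
      rw [dimE_top (h1 n hn)]
      exact (ENNReal.top_div_of_ne_top (ENNReal.natCast_ne_top _)).symm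
    · have := h2 m
      exact hm inferInstance

end Pool.Agent.N64.AF
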