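import Pool.Agent.N64.AF.P1
import Pool.Agent.N64.AF.D1
import Pool.Agent.R905.Div

/-!
# K2 (helper861 for helper64): Kimura finite-dimensionality
-/

set_option autoImplicit false
set_option linter.unusedSectionVars false
set_option backward.isDefEq.respectTransparency false
set_option backward.defeqAttrib.useBackward true

open CategoryTheory Limits MonoidalCategory Module Filter Topology
open Pool.Agent.Y112.SR Pool.Agent.Y112.KD
open Pool.Agent.Y116.MT (tr)
open scoped ENNReal

namespace Pool.Agent.N861.AF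

universe v u w

open Pool.Agent.R905 Pool.Agent.N64.AF

variable {C : Type u} [Category.{v} C] [Preadditive C] [Linear ℚ C] [MonoidalCategory C]
  [MonoidalPreadditive C] [MonoidalLinear ℚ C] [SymmetricCategory C]
  [RightRigidCategory C] {K : Type w} [Field K] (R : SuperRealisation C K)

lemma Dn_one {X : C} (n : ℕ) : Dn n (fun _ : Fin n => 𝟙 X) = 𝟙 _ := by
  induction n with
  | zero => rfl
  | succ n ih =>
    rw [Dn_succ, ih, id_tensorHom_id]

/-- the trace of the (anti)symmetrizer vanishes -/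
lemma trq_asym (hU : UnitQ C) {E : C} (d : ℚ) (hd : d * d = 1) (hE : R.par E = (d : K) • 𝟙 _) :
    trq hU (tp E (finrank K (R.H.obj E) + 1)) (asym (-d) E (finrank K (R.H.obj E) + 1)) = 0 := by
  obtain ⟨n, hn⟩ : ∃ n, n = finrank K (R.H.obj E) := ⟨_, rfl⟩
  rw [← hn]
  have hη : (-d) * (-d) = 1 := by linear_combination hd
  have h1 := ptr_gg hU hη n (fun _ : Fin (n + 1) => (1 : End E))
  have h2 : ∀ i : Fin n, Function.update (fun _ : Fin n => (1 : End E)) i ((1 : End E) * 1) =
      fun _ => 1 := by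
    intro i
    rw [one_mul, Function.update_eq_self_iff]
  simp only [h2, Finset.sum_const, Finset.card_univ, Fintype.card_fin] at h1
  have h3 : trq hU E (1 : End E) = d * n := by
    rw [hn]
    exact trq_one R hU d hE
  rw [h3] at h1
  have h4 : ptrL (tp E n) E (gg (-d) (n + 1) (fun _ : Fin (n + 1) => (1 : End E))) = 0 := by
    rw [h1, ← Nat.cast_smul_eq_nsmul ℚ n (gg (-d) n _), smul_smul, ← add_smul]
    have : d * (n : ℚ) + -d * (n : ℚ) = 0 := by ring
    rw [this, zero_smul]
  have h5 : trq hU (tp E (n + 1)) (gg (-d) (n + 1) (fun _ : Fin (n + 1) => (1 : End E))) = 0 := by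
    rw [← trq_ptr R hU]
    have h6 : ptr (gg (-d) (n + 1) (fun _ : Fin (n + 1) => (1 : End E))) = 0 := h4
    rw [h6]
    exact map_zero _
  have h7 : gg (-d) (n + 1) (fun _ : Fin (n + 1) => (1 : End E)) =
      ((n + 1).factorial : ℚ) • asym (-d) E (n + 1) := by
    unfold gg
    have h8 : Dn (n + 1) (fun i : Fin (n + 1) => ((1 : End E) : E ⟶ E)) = 𝟙 _ := Dn_one (n + 1)
    rw [h8, Category.id_comp]
  rw [h7] at h5
  have h8 : trq hU (tp E (n + 1)) (((n + 1).factorial : ℚ) • (asym (-d) E (n + 1) : End (tp E (n + 1)))) =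
    ((n + 1).factorial : ℚ) • trq hU (tp E (n + 1)) (asym (-d) E (n + 1)) := map_smul _ _ _
  have h9 := h8.symm.trans h5
  rw [smul_eq_mul] at h9
  exact (mul_eq_zero.1 h9).resolve_left (by positivity)

variable [IsIdempotentComplete C]

/-- the parity of tensor powers -/
lemma par_tp {E : C} {d : K} (hE : R.par E = d • 𝟙 _) (n : ℕ) : R.par (tp E n) = (d ^ n) • 𝟙 _ := by
  induction n with
  | zero =>
    rw [pow_zero, one_smul]
    exact R.par_unit
  | succ n ih =>
    rw [pow_succ]
    exact par_tensor_eq R ih hE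

/-- the realisation of the (anti)symmetrizer vanishes -/
lemma map_asym_zero (hU : UnitQ C) {E : C} (d : ℚ) (hd : d * d = 1) (hE : R.par E = (d : K) • 𝟙 _) :
    R.H.map (asym (-d) E (finrank K (R.H.obj E) + 1)) = 0 := by
  have hc := R_charZero R
  have h1 := trq_asym R hU d hd hE
  obtain ⟨n, hn⟩ : ∃ n, n = finrank K (R.H.obj E) + 1 := ⟨_, rfl⟩
  rw [← hn] at h1 ⊢
  have hfin := R.finite (tp E n)
  have h2 := real_tr R hU (asym (-d) E n)
  have hdK : (d : K) * d = 1 := by exact_mod_cast hd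
  have hd0 : (d : K) ^ n ≠ 0 := by
    apply pow_ne_zero
    intro h
    rw [h, zero_mul] at hdK
    exact zero_ne_one hdK
  have h3 : trq hU (tp E n) (asym (-d) E n) = 0 := h1
  rw [h3, par_tp R hE n, Linear.comp_smul, Category.comp_id, ModuleCat.hom_smul, map_smul, Rat.cast_zero,
    smul_eq_mul] at h2
  have h4 : LinearMap.trace K (R.H.obj (tp E n)) (R.H.map (asym (-d) E n)).hom = 0 :=
    (mul_eq_zero.1 h2.symm).resolve_left hd0
  have hη : (-d) * (-d) = 1 := by linear_combination hd
  have h5 : (R.H.map (asym (-d) E n)).hom * (R.H.map (asym (-d) E n)).hom =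
      (R.H.map (asym (-d) E n)).hom := by
    have h6 := congrArg (fun f => (R.H.map f).hom) (asym_idem hη E n)
    simp only [Functor.map_comp, ModuleCat.hom_comp] at h6
    exact h6
  have h7 := Pool.Agent.N833.AF.idem_trace _ h5 h4
  apply ModuleCat.hom_ext
  exact h7

/-- nilpotence implies the vanishing of powers -/
lemma asym_zero_of_nil (hU : UnitQ C) {E : C} (d : ℚ) (hd : d * d = 1) (hE : R.par E = (d : K) • 𝟙 _)
    (hnil : ∀ n, HomNil R (tp E n)) : ∃ n, asym (-d) E n = 0 := by
  refine ⟨finrank K (R.H.obj E) + 1, ?_⟩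
  have hη : (-d) * (-d) = 1 := by linear_combination hd
  obtain ⟨k, hk⟩ := hnil _ (en (asym (-d) E (finrank K (R.H.obj E) + 1))) (map_asym_zero R hU d hd hE)
  have h1 : IsIdempotentElem (en (asym (-d) E (finrank K (R.H.obj E) + 1))) := asym_idem hη E _
  have h2 := h1.pow_succ_eq k
  rw [pow_succ, hk, zero_mul] at h2
  exact h2.symm

end Pool.Agent.N861.AF

namespace Pool.Agent.N64.AF

universe v u w t x

variable {C : Type u} [Category.{v} C] [Preadditive C] [MonoidalCategory C]
  [MonoidalPreadditive C] [SymmetricCategory C] [RightRigidCategory C]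
  [Linear ℚ C] [MonoidalLinear ℚ C] [IsIdempotentComplete C]
  {K : Type w} [Field K] [Algebra ℚ K] {R : SuperRealisation C K}

open Pool.Agent.R905 Pool.Agent.N861.AF in
/-- K2: Kimura finite-dimensionality from nilpotence. -/
theorem kimura_of_nil (hR : IsReal ℚ R) {T : C} (hT : R.CPlus T)
    (hnil : ∀ (n : ℕ) (y : End (tp T n)), R.H.map (y : tp T n ⟶ tp T n) = 0 → IsNilpotent y) :
    Pool.Agent.R905.IsKimuraFinite T := by
  have hc := R_charZero R
  have hU : UnitQ C := by
    refine ⟨hR.unit, fun h => ?_⟩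
    have h1 := bt_unit R
    have h2 : 𝟙 (R.H.obj (𝟙_ C)) = 0 := by
      rw [← CategoryTheory.Functor.map_id, h, Functor.map_zero]
    have h3 : IsZero (R.H.obj (𝟙_ C)) := (IsZero.iff_id_eq_zero _).2 h2
    have h4 : Subsingleton (R.H.obj (𝟙_ C)) := ModuleCat.subsingleton_of_isZero h3
    unfold bt at h1
    rw [finrank_zero_of_subsingleton] at h1
    exact zero_ne_one h1
  have hn : ∀ n, HomNil R (tp T n) := fun n y hy => hnil n y hy
  have hT1 : HomNil R T := (hn 1).retract (λ_ T).inv (λ_ T).hom (by simp)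
  obtain ⟨E, O, i, r, i', r', h1, h2, h3, hE, hO⟩ := exists_parts R hT hT1
  have key : ∀ (P : C) (i : P ⟶ T) (r : T ⟶ P), i ≫ r = 𝟙 P → ∀ n, HomNil R (tp P n) := by
    intro P i r hir n
    refine (hn n).retract (tpm i n) (tpm r n) ?_
    rw [tpm_comp, hir, tpm_id]
  obtain ⟨n, hn1⟩ := asym_zero_of_nil R hU (E := E) 1 (by norm_num) (by rw [hE]; norm_num) (key E i r h1)
  obtain ⟨m, hm⟩ := asym_zero_of_nil R hU (E := O) (-1) (by norm_num) (by rw [hO]; norm_num)
    (key O i' r' h2)
  rw [neg_neg] at hm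
  exact (isKimuraFinite_iff T).2 ⟨E, O, i, r, i', r', h1, h2, h3, ⟨n, hn1⟩, m, hm⟩

end Pool.Agent.N64.AF
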