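import Pool.Agent.N64.AF.K1
import Pool.Agent.N64.AF.K2

/-!
# Rational and numerical equivalence on the powers of an object
-/

set_option autoImplicit false

open CategoryTheory Limits MonoidalCategory Module Filter Topology
open Pool.Agent.Y112.SR Pool.Agent.Y112.KD
open Pool.Agent.Y116.MT (tr)
open scoped ENNReal

namespace Pool.Agent.N64.AF

universe v u w t

section

variable {C : Type u} [Category.{v} C] [Preadditive C] [MonoidalCategory C]
  [MonoidalPreadditive C] [SymmetricCategory C] [RightRigidCategory C]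
  {Λ : Type t} [Field Λ] [CharZero Λ] [Linear Λ C] [MonoidalLinear Λ C]
  {K : Type w} [Field K] [Algebra Λ K] {R : SuperRealisation C K}

/-- Morphisms with trivial realisation are numerically trivial. -/
lemma numTriv_of_map (hR : IsReal Λ R) {X Y : C} {f : X ⟶ Y} (hf : R.H.map f = 0) :
    NumTriv f := by
  intro g
  rw [tr_eq_zero_iff hR, Functor.map_comp, hf, zero_comp, zero_comp]
  exact map_zero _

/-- The powers of a numerically trivial endomorphism. -/
lemma numPow_pow {T : C} {n : ℕ} (y : End (tp T n)) (hy : NumTriv (y : tp T n ⟶ tp T n)) (k : ℕ) :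
    NumPow T k ((y ^ k : End (tp T n)) : tp T n ⟶ tp T n) := by
  induction k with
  | zero => trivial
  | succ k ih =>
    refine ⟨n, ((y ^ k : End (tp T n)) : tp T n ⟶ tp T n), (y : tp T n ⟶ tp T n), ih, hy, ?_⟩
    rw [pow_succ', End.mul_def]

end

/-- The law for the morphisms from the unit object. -/
theorem chow_law {C : Type u} [Category.{v} C] [Preadditive C] [MonoidalCategory C]
    [MonoidalPreadditive C] [SymmetricCategory C] [RightRigidCategory C]
    [Linear ℚ C] [MonoidalLinear ℚ C] [IsIdempotentComplete C]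
    {K : Type w} [Field K] [IsAlgClosed K] [Algebra ℚ K] {R : SuperRealisation C K}
    {T : C} [ExactPairing T T] (h : IsPow ℚ R T) :
    ∃ N : ℕ∞, N ≠ 0 ∧
      Tendsto (fun n => ((dimE ℚ (𝟙_ C ⟶ tp T n) : ℕ∞) : ℝ≥0∞) / numRank ℚ (tp T n)) atTop
        (𝓝 (N : ℝ≥0∞)) ∧
      (N = 1 ↔ ∀ (a b : ℕ) (f : tp T a ⟶ tp T b), NumTriv f → f = 0) ∧
      ∀ k : ℕ, N = k → (∀ a b : ℕ, Module.Finite ℚ (tp T a ⟶ tp T b)) ∧
        (∀ (a b : ℕ) (f : tp T a ⟶ tp T b), NumPow T k f → f = 0) ∧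
        Pool.Agent.R905.IsKimuraFinite T := by
  obtain ⟨N, h1, h2, -⟩ := law h (homF ℚ (𝟙_ C))
  have h1' : Tendsto (fun n => ((dimE ℚ (𝟙_ C ⟶ tp T n) : ℕ∞) : ℝ≥0∞) / numRank ℚ (tp T n))
      atTop (𝓝 (N : ℝ≥0∞)) := h1
  have key : ∀ k : ℕ, N = k → 0 < k ∧ (∀ a b : ℕ, Module.Finite ℚ (tp T a ⟶ tp T b)) ∧
      (∀ (a b : ℕ) (f : tp T a ⟶ tp T b), NumPow T k f → f = 0) ∧
      (k = 1 ↔ ∀ (a b : ℕ) (f : tp T a ⟶ tp T b), NumTriv f → f = 0) := by
    rintro k rfl
    exact hom_nil h h1'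
  refine ⟨N, ?_, h1', ?_, ?_⟩
  · intro h0
    obtain ⟨h3, -⟩ := key 0 (by rw [h0]; rfl)
    exact lt_irrefl _ h3
  · constructor
    · intro h3
      exact ((key 1 (by rw [h3]; rfl)).2.2.2).1 rfl
    · intro h3
      -- the ratio is one
      have h4 : ∀ n, dimE ℚ (𝟙_ C ⟶ tp T n) = (numRank ℚ (tp T n) : ℕ∞) := by
        intro n
        have h5 : numIdeal ℚ (𝟙_ C) (tp T n) = ⊥ := by
          rw [eq_bot_iff]
          intro α hα
          exact h3 0 n α hα
        have h6 := finite_num h.real (𝟙_ C) (tp T n)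
        have e : ((𝟙_ C ⟶ tp T n) ⧸ numIdeal ℚ (𝟙_ C) (tp T n)) ≃ₗ[ℚ] (𝟙_ C ⟶ tp T n) :=
          Submodule.quotEquivOfEqBot _ h5
        have h7 : Module.Finite ℚ (𝟙_ C ⟶ tp T n) := Module.Finite.equiv e
        rw [dimE_eq, numRank, e.finrank_eq]
      have h5 : Tendsto (fun n => ((dimE ℚ (𝟙_ C ⟶ tp T n) : ℕ∞) : ℝ≥0∞) /
          numRank ℚ (tp T n)) atTop (𝓝 (1 : ℝ≥0∞)) := by
        refine tendsto_const_nhds.congr fun n => ?_
        rw [h4 n]
        have h6 : (numRank ℚ (tp T n) : ℝ≥0∞) ≠ 0 := by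
          exact_mod_cast (numRank_mono h n).1.ne'
        symm
        exact ENNReal.div_self h6 (ENNReal.natCast_ne_top _)
      have h6 := tendsto_nhds_unique h1' h5
      exact_mod_cast h6
  · intro k hk
    obtain ⟨-, h3, h4, -⟩ := key k hk
    refine ⟨h3, h4, kimura_of_nil h.real h.cplus fun n y hy => ⟨k, ?_⟩⟩
    exact h4 n n _ (numPow_pow y (numTriv_of_map h.real hy) k)

end Pool.Agent.N64.AF
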