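import Pool.Agent.N64.AF.L1
import Pool.Agent.N64.AF.W

/-!
# L2 (helper878 for helper64): the endomorphisms of the powers of an object which is not self-dual
-/

set_option autoImplicit false
set_option linter.unusedSectionVars false

open CategoryTheory Limits MonoidalCategory Module Filter Topology
open Pool.Agent.Y112.SR Pool.Agent.Y112.KD
open Pool.Agent.Y116.MT (tr)
open scoped ENNReal

namespace Pool.Agent.N878.AFL2

open Pool.Agent.N64.AF Pool.Agent.N413.AFW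

universe v u w t x

section Cat

variable {C : Type u} [Category.{v} C] [Preadditive C] [MonoidalCategory C]
  [MonoidalPreadditive C]

/-- tensoring with a dual is faithful -/
lemma whisker_inj {P D : C} [ExactPairing P D] {y : P ⟶ P} (h : y ▷ D = 0) : y = 0 := by
  have h0 : tensorRightHomEquiv (𝟙_ C) P D P ((λ_ P).hom ≫ y) =
      tensorRightHomEquiv (𝟙_ C) P D P 0 := by
    simp only [tensorRightHomEquiv, Equiv.coe_fn_mk, comp_whiskerRight, h, comp_zero,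
      MonoidalPreadditive.zero_whiskerRight]
  have h1 := (tensorRightHomEquiv (𝟙_ C) P D P).injective h0
  have h2 : y = (λ_ P).inv ≫ (λ_ P).hom ≫ y := by simp
  rw [h2, h1, comp_zero]

variable [SymmetricCategory C] [RightRigidCategory C]

/-- the endomorphism `y ⊗ 1` of the power of `T ⊗ Tᘁ` -/
noncomputable def Psi (T : C) (n : ℕ) (y : tp T n ⟶ tp T n) :
    tp (T ⊗ Tᘁ) n ⟶ tp (T ⊗ Tᘁ) n :=
  (isoTp T Tᘁ n).hom ≫ (y ▷ dp Tᘁ n) ≫ (isoTp T Tᘁ n).inv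

lemma Psi_comp (T : C) (n : ℕ) (y z : tp T n ⟶ tp T n) :
    Psi T n (y ≫ z) = Psi T n y ≫ Psi T n z := by
  simp [Psi, comp_whiskerRight]

lemma Psi_inj (T : C) (n : ℕ) {y : tp T n ⟶ tp T n} (h : Psi T n y = 0) : y = 0 := by
  let _ := pairTp T Tᘁ n
  apply whisker_inj (D := dp Tᘁ n)
  have h1 : y ▷ dp Tᘁ n = (isoTp T Tᘁ n).inv ≫ Psi T n y ≫ (isoTp T Tᘁ n).hom := by
    simp [Psi]
  rw [h1, h, zero_comp, comp_zero]

end Cat

variable {C : Type u} [Category.{v} C] [Preadditive C] [MonoidalCategory C]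
  [MonoidalPreadditive C] [SymmetricCategory C] [RightRigidCategory C]
  {Λ : Type t} [Field Λ] [CharZero Λ] [Linear Λ C] [MonoidalLinear Λ C]
  {K : Type w} [Field K] [Algebra Λ K] {R : SuperRealisation C K}

lemma Psi_numTriv (hR : IsReal Λ R) (T : C) (n : ℕ) {y : tp T n ⟶ tp T n} (hy : NumTriv y) :
    NumTriv (Psi T n y) :=
  (hy.whiskerRight hR (dp Tᘁ n)).comp hR _ _

lemma Psi_list (hR : IsReal Λ R) (T : C) (n : ℕ) (l : List (End (tp T n)))
    (hl : ∀ y ∈ l, NumTriv (y : tp T n ⟶ tp T n)) :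
    NumPow (T ⊗ Tᘁ) l.length (Psi T n (l.prod : End (tp T n))) := by
  induction l with
  | nil => trivial
  | cons y l ih =>
    refine ⟨n, Psi T n (l.prod : End (tp T n)), Psi T n y,
      ih fun z hz => hl z (List.mem_cons_of_mem _ hz),
      Psi_numTriv hR T n (hl y List.mem_cons_self), ?_⟩
    rw [List.prod_cons, End.mul_def, Psi_comp]

/-- if there are no numerically trivial endomorphisms, `nr` is the dimension -/
lemma nr_of_bot (hR : IsReal Λ R) (P : C) (h : ∀ y : P ⟶ P, NumTriv y → y = 0) :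
    dimE Λ (P ⟶ P) = (nr Λ (𝟙 P) (𝟙 P) : ℕ∞) := by
  have h5 : numIdeal Λ P P = ⊥ := by
    rw [eq_bot_iff]
    intro α hα
    exact h α hα
  have h6 := finite_num hR P P
  have e : ((P ⟶ P) ⧸ numIdeal Λ P P) ≃ₗ[Λ] (P ⟶ P) := Submodule.quotEquivOfEqBot _ h5
  have h7 : Module.Finite Λ (P ⟶ P) := Module.Finite.equiv e
  have h8 : LinearMap.range ((numIdeal Λ P P).mkQ ∘ₗ Linear.rightComp Λ P (𝟙 P) ∘ₗ
      Linear.leftComp Λ P (𝟙 P)) = ⊤ := by
    rw [LinearMap.range_eq_top]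
    intro q
    obtain ⟨a, rfl⟩ := Submodule.mkQ_surjective _ q
    refine ⟨a, ?_⟩
    simp
  rw [dimE_eq, nr, h8, finrank_top, e.finrank_eq]

end Pool.Agent.N878.AFL2

namespace Pool.Agent.N64.AF

universe v u w t x

variable {C : Type u} [Category.{v} C] [Preadditive C] [MonoidalCategory C]
  [MonoidalPreadditive C] [SymmetricCategory C] [RightRigidCategory C]
  [Linear ℚ C] [MonoidalLinear ℚ C] [IsIdempotentComplete C]
  {K : Type w} [Field K] [IsAlgClosed K] [Algebra ℚ K] {R : SuperRealisation C K}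

open Pool.Agent.N878.AFL2 in
/-- L2: the law for the endomorphism algebras of the powers of an object. -/
theorem end_law (hR : IsReal ℚ R) {T : C} (hT : R.CPlus T) (hb : 0 < bt R T) :
    ∃ N : ℕ∞, N ≠ 0 ∧
      Tendsto (fun n => ((dimE ℚ (tp T n ⟶ tp T n) : ℕ∞) : ℝ≥0∞) /
        nr ℚ (𝟙 (tp T n)) (𝟙 (tp T n))) atTop (𝓝 (N : ℝ≥0∞)) ∧
      (N = 1 ↔ ∀ (n : ℕ) (y : tp T n ⟶ tp T n), NumTriv y → y = 0) ∧
      ∀ k : ℕ, N = k → (∀ n, Module.Finite ℚ (tp T n ⟶ tp T n)) ∧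
        (∀ (n : ℕ) (l : List (End (tp T n))), l.length = k →
          (∀ y ∈ l, NumTriv (y : tp T n ⟶ tp T n)) → l.prod = 0) ∧
        Pool.Agent.R905.IsKimuraFinite T := by
  obtain ⟨inst, hS⟩ := isPow_tensor_dual hR hT hb
  obtain ⟨N, h1, h2, -⟩ := law hS (homF ℚ (𝟙_ C))
  have h1' : Tendsto (fun n => ((dimE ℚ (𝟙_ C ⟶ tp (T ⊗ Tᘁ) n) : ℕ∞) : ℝ≥0∞) /
      numRank ℚ (tp (T ⊗ Tᘁ) n)) atTop (𝓝 (N : ℝ≥0∞)) := h1
  have key : ∀ k : ℕ, N = k → 0 < k ∧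
      (∀ a b : ℕ, Module.Finite ℚ (tp (T ⊗ Tᘁ) a ⟶ tp (T ⊗ Tᘁ) b)) ∧
      (∀ (a b : ℕ) (f : tp (T ⊗ Tᘁ) a ⟶ tp (T ⊗ Tᘁ) b), NumPow (T ⊗ Tᘁ) k f → f = 0) ∧
      (k = 1 ↔ ∀ (a b : ℕ) (f : tp (T ⊗ Tᘁ) a ⟶ tp (T ⊗ Tᘁ) b), NumTriv f → f = 0) := by
    rintro k rfl
    exact hom_nil hS h1'
  have hdim : ∀ n, dimE ℚ (𝟙_ C ⟶ tp (T ⊗ Tᘁ) n) = dimE ℚ (tp T n ⟶ tp T n) := by
    intro n
    obtain ⟨e⟩ := nonempty_equiv_tensor_dual (Λ := ℚ) T n
    rw [dimE, dimE, e.rank_eq]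
  have hrk : ∀ n, numRank ℚ (tp (T ⊗ Tᘁ) n) = nr ℚ (𝟙 (tp T n)) (𝟙 (tp T n)) :=
    fun n => numRank_tensor_dual hR T n
  have h3 : Tendsto (fun n => ((dimE ℚ (tp T n ⟶ tp T n) : ℕ∞) : ℝ≥0∞) /
      nr ℚ (𝟙 (tp T n)) (𝟙 (tp T n))) atTop (𝓝 (N : ℝ≥0∞)) := by
    refine h1'.congr fun n => ?_
    rw [hdim n, hrk n]
  have hnil : ∀ k : ℕ, N = k → ∀ (n : ℕ) (l : List (End (tp T n))), l.length = k →
      (∀ y ∈ l, NumTriv (y : tp T n ⟶ tp T n)) → l.prod = 0 := by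
    intro k hk n l hl hy
    have h4 := Psi_list hR T n l hy
    rw [hl] at h4
    exact Psi_inj T n ((key k hk).2.2.1 n n _ h4)
  refine ⟨N, ?_, h3, ⟨?_, ?_⟩, ?_⟩
  · intro h0
    obtain ⟨h4, -⟩ := key 0 (by rw [h0]; rfl)
    exact lt_irrefl _ h4
  · intro h4 n y hy
    have h5 := hnil 1 (by rw [h4]; rfl) n [(y : End (tp T n))] rfl (by
      intro z hz
      rw [List.mem_singleton] at hz
      rw [hz]
      exact hy)
    rw [List.prod_singleton] at h5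
    exact h5
  · intro h4
    have h5 : Tendsto (fun n => ((dimE ℚ (tp T n ⟶ tp T n) : ℕ∞) : ℝ≥0∞) /
        nr ℚ (𝟙 (tp T n)) (𝟙 (tp T n))) atTop (𝓝 (1 : ℝ≥0∞)) := by
      refine tendsto_const_nhds.congr fun n => ?_
      rw [nr_of_bot hR (tp T n) (h4 n)]
      have h6 : (nr ℚ (𝟙 (tp T n)) (𝟙 (tp T n)) : ℝ≥0∞) ≠ 0 := by
        rw [← hrk n]
        exact_mod_cast (numRank_mono hS n).1.ne'
      symm
      exact ENNReal.div_self h6 (ENNReal.natCast_ne_top _)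
    have h6 := tendsto_nhds_unique h3 h5
    exact_mod_cast h6
  · intro k hk
    refine ⟨fun n => ?_, hnil k hk, kimura_of_nil hR hT fun n y hy => ⟨k, ?_⟩⟩
    · obtain ⟨e⟩ := nonempty_equiv_tensor_dual (Λ := ℚ) T n
      have h4 : Module.Finite ℚ (𝟙_ C ⟶ tp (T ⊗ Tᘁ) n) := (key k hk).2.1 0 n
      exact Module.Finite.equiv e
    · have h4 := hnil k hk n (List.replicate k y) (List.length_replicate ..) (by
        intro z hz
        rw [List.eq_of_mem_replicate hz]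
        exact numTriv_of_map hR hy)
      rw [List.prod_replicate] at h4
      exact h4

end Pool.Agent.N64.AF
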