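import Pool.Agent.N64.AF.E5

/-!
# Natural transformations between additive functors on the powers of an object
-/

set_option autoImplicit false

open CategoryTheory Limits MonoidalCategory Module Filter Topology
open Pool.Agent.Y112.SR Pool.Agent.Y112.KD
open scoped ENNReal

namespace Pool.Agent.N64.AF

universe v u w t x

variable {C : Type u} [Category.{v} C] [Preadditive C] [MonoidalCategory C]
  [MonoidalPreadditive C] [SymmetricCategory C] [RightRigidCategory C]
  {Λ : Type t} [Field Λ] [CharZero Λ] [Linear Λ C] [MonoidalLinear Λ C]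
  {K : Type w} [Field K] [IsAlgClosed K] [Algebra Λ K] {R : SuperRealisation C K}

omit [CharZero Λ] in
lemma dimE_lt {V : Type x} [AddCommGroup V] [Module Λ V] {r : ℕ} (h : 2 * dimE Λ V < r) :
    Module.Finite Λ V ∧ 2 * finrank Λ V < r := by
  by_cases hV : Module.Finite Λ V
  · refine ⟨hV, ?_⟩
    rw [dimE_eq] at h
    exact_mod_cast h
  · rw [dimE_top hV] at h
    exact absurd h (by simp)

lemma ker_stab {F G : C ⥤ ModuleCat.{x} Λ} (φ : F ⟶ G) :
    IsStab F (fun Z => LinearMap.ker (φ.app Z).hom) := by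
  intro Y Z f a ha
  have h1 : (φ.app Z).hom ((F.map f).hom a) = (G.map f).hom ((φ.app Y).hom a) := by
    have h0 := congrArg (fun q : F.obj Y ⟶ G.obj Z => q.hom a) (φ.naturality f)
    exact h0
  have h2 : (φ.app Y).hom a = 0 := ha
  change (φ.app Z).hom ((F.map f).hom a) = 0
  rw [h1, h2, map_zero]

lemma range_stab {F G : C ⥤ ModuleCat.{x} Λ} (φ : F ⟶ G) :
    IsStab G (fun Z => LinearMap.range (φ.app Z).hom) := by
  rintro Y Z f _ ⟨a, rfl⟩
  have h1 : (φ.app Z).hom ((F.map f).hom a) = (G.map f).hom ((φ.app Y).hom a) := by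
    have h0 := congrArg (fun q : F.obj Y ⟶ G.obj Z => q.hom a) (φ.naturality f)
    exact h0
  exact ⟨(F.map f).hom a, h1⟩

/-- The dimension of the kernel of a natural transformation at the object `Z`. -/
noncomputable def kerDim {F G : C ⥤ ModuleCat.{x} Λ} (φ : F ⟶ G) (Z : C) : ℕ∞ :=
  dimE Λ (LinearMap.ker (φ.app Z).hom)

/-- The dimension of the cokernel of a natural transformation at the object `Z`. -/
noncomputable def cokerDim {F G : C ⥤ ModuleCat.{x} Λ} (φ : F ⟶ G) (Z : C) : ℕ∞ :=
  dimE Λ (G.obj Z ⧸ LinearMap.range (φ.app Z).hom)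

/-- The quotients of the sequence `a` by the numerical ranks of the powers of `T` converge to `N`. -/
def RatioTo (Λ : Type t) [Field Λ] [Linear Λ C] [MonoidalLinear Λ C] (T : C) (a : ℕ → ℕ∞)
    (N : ℕ∞) : Prop :=
  Tendsto (fun n => ((a n : ℕ∞) : ℝ≥0∞) / numRank Λ (tp T n)) atTop (𝓝 (N : ℝ≥0∞))

/-- The kernel and the cokernel of a natural transformation between two additive functors: the law of
their dimensions, and an explicit criterion for injectivity and surjectivity. -/
theorem natural_law {T : C} [ExactPairing T T] (h : IsPow Λ R T) (F G : C ⥤ ModuleCat.{x} Λ)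
    [F.Additive] [F.Linear Λ] [G.Additive] [G.Linear Λ] (φ : F ⟶ G) : ∃ N₁ N₂ : ℕ∞,
      RatioTo Λ T (fun n => kerDim φ (tp T n)) N₁ ∧
      RatioTo Λ T (fun n => cokerDim φ (tp T n)) N₂ ∧
      (N₁ = 0 ↔ ∀ n, Function.Injective (φ.app (tp T n)).hom) ∧
      (N₂ = 0 ↔ ∀ n, Function.Surjective (φ.app (tp T n)).hom) ∧
      ∀ m n : ℕ, 128 * (m + 1) ^ 2 * bt R T ^ (2 * m + 6) ≤ n →
        (2 * kerDim φ (tp T n) < numRank Λ (tp T n) → Function.Injective (φ.app (tp T m)).hom) ∧
        (2 * cokerDim φ (tp T n) < numRank Λ (tp T n) →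
          Function.Surjective (φ.app (tp T m)).hom) := by
  have hinj : ∀ n, (Subsingleton ((sub F _ (ker_stab φ)).obj (tp T n)) ↔
      Function.Injective (φ.app (tp T n)).hom) := by
    intro n
    rw [← LinearMap.ker_eq_bot]
    exact Submodule.subsingleton_iff_eq_bot
  have hsur : ∀ n, (Subsingleton ((quoS G _ (range_stab φ)).obj (tp T n)) ↔
      Function.Surjective (φ.app (tp T n)).hom) := by
    intro n
    rw [← LinearMap.range_eq_top]
    exact Submodule.Quotient.subsingleton_iff
  obtain ⟨N₁, a1, a2, -⟩ := law h (sub F _ (ker_stab φ))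
  obtain ⟨N₂, b1, b2, -⟩ := law h (quoS G _ (range_stab φ))
  refine ⟨N₁, N₂, a1, b1, a2.trans (forall_congr' hinj), b2.trans (forall_congr' hsur),
    fun m n hn => ⟨fun h1 => (hinj m).1 ?_, fun h1 => (hsur m).1 ?_⟩⟩
  · obtain ⟨h2, h3⟩ := dimE_lt h1
    exact explicit_criterion h (sub F _ (ker_stab φ)) hn h2 h3
  · obtain ⟨h2, h3⟩ := dimE_lt h1
    exact explicit_criterion h (quoS G _ (range_stab φ)) hn h2 h3

end Pool.Agent.N64.AF
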