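import Pool.Agent.N64.AF.Q

/-!
# Statements Rad: the radical

Project AF (helper64), proof by helper814: the law for the morphisms modulo the Jacobson radical.
-/

set_option autoImplicit false
set_option linter.all false

open CategoryTheory Limits MonoidalCategory Module Filter Topology
open Pool.Agent.Y112.SR Pool.Agent.Y112.KD
open Pool.Agent.Y116.MT (tr)
open scoped ENNReal

namespace Pool.Agent.N814.AF

section ring

variable {B : Type*} [Ring B]

lemma mem_jac_iff {x : B} : x ∈ Ring.jacobson B ↔ ∀ y, ∃ z, z * (1 + y * x) = 1 := by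
  rw [← Ideal.jacobson_bot, Ideal.mem_jacobson_iff]
  refine forall_congr' fun y => exists_congr fun z => ?_
  rw [Ideal.mem_bot, sub_eq_zero, mul_add, mul_one, ← mul_assoc, add_comm]

lemma isUnit_one_add {j : B} (hj : j ∈ Ring.jacobson B) : IsUnit (1 + j) := by
  obtain ⟨z, hz⟩ := (mem_jac_iff.1 hj) 1
  rw [one_mul] at hz
  have hz2 : 1 + (-z) * j = z := by
    rw [mul_add, mul_one] at hz
    rw [← hz, neg_mul]
    abel
  obtain ⟨w, hw⟩ := (mem_jac_iff.1 hj) (-z)
  rw [hz2] at hw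
  have h3 : w = 1 + j := by
    calc w = w * (z * (1 + j)) := by rw [hz, mul_one]
      _ = 1 + j := by rw [← mul_assoc, hw, one_mul]
  rw [h3] at hw
  exact ⟨⟨1 + j, z, hw, hz⟩, rfl⟩

lemma le_jac {I : Ideal B} (h : ∀ x ∈ I, ∃ k : ℕ, x ^ k ∈ Ring.jacobson B) :
    I ≤ Ring.jacobson B := by
  intro x hx
  rw [mem_jac_iff]
  intro y
  obtain ⟨k, hk⟩ := h (y * x) (I.mul_mem_left y hx)
  have h0 : (-(y * x)) ^ k ∈ Ring.jacobson B := by
    rw [neg_pow]
    exact Ideal.mul_mem_left _ _ hk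
  obtain ⟨w, hw⟩ := (isUnit_one_add (neg_mem h0)).exists_left_inv
  refine ⟨w * ∑ i ∈ Finset.range k, (-(y * x)) ^ i, ?_⟩
  have e : (1 + y * x : B) = 1 - (-(y * x)) := by rw [sub_neg_eq_add]
  rw [mul_assoc, e, geom_sum_mul_neg, sub_eq_add_neg, hw]

lemma isUnit_of {Λ : Type*} [Field Λ] [Algebra Λ B] (I : Ideal B) [I.IsTwoSided]
    (hI : I ≤ Ring.jacobson B) [Module.Finite Λ (B ⧸ I)] {f : B} (h1 : ∀ x, x * f ∈ I → x ∈ I)
    (h2 : ∀ x, f * x ∈ I → x ∈ I) : IsUnit f := by
  have i1 : Function.Injective (LinearMap.mulRight Λ (Ideal.Quotient.mk I f)) := by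
    rw [← LinearMap.ker_eq_bot, LinearMap.ker_eq_bot']
    intro x hx
    obtain ⟨x, rfl⟩ := Ideal.Quotient.mk_surjective x
    rw [LinearMap.mulRight_apply, ← map_mul, Ideal.Quotient.eq_zero_iff_mem] at hx
    exact Ideal.Quotient.eq_zero_iff_mem.2 (h1 x hx)
  have i2 : Function.Injective (LinearMap.mulLeft Λ (Ideal.Quotient.mk I f)) := by
    rw [← LinearMap.ker_eq_bot, LinearMap.ker_eq_bot']
    intro x hx
    obtain ⟨x, rfl⟩ := Ideal.Quotient.mk_surjective x
    rw [LinearMap.mulLeft_apply, ← map_mul, Ideal.Quotient.eq_zero_iff_mem] at hx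
    exact Ideal.Quotient.eq_zero_iff_mem.2 (h2 x hx)
  obtain ⟨g, hg⟩ := (LinearMap.injective_iff_surjective.1 i1) 1
  obtain ⟨g, rfl⟩ := Ideal.Quotient.mk_surjective g
  obtain ⟨g', hg'⟩ := (LinearMap.injective_iff_surjective.1 i2) 1
  obtain ⟨g', rfl⟩ := Ideal.Quotient.mk_surjective g'
  rw [LinearMap.mulRight_apply, ← map_mul, ← map_one (Ideal.Quotient.mk I),
    Ideal.Quotient.eq] at hg
  rw [LinearMap.mulLeft_apply, ← map_mul, ← map_one (Ideal.Quotient.mk I),
    Ideal.Quotient.eq] at hg'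
  have u1 : IsUnit (g * f) := by
    have := isUnit_one_add (hI hg)
    rwa [add_sub_cancel] at this
  have u2 : IsUnit (f * g') := by
    have := isUnit_one_add (hI hg')
    rwa [add_sub_cancel] at this
  obtain ⟨a, ha⟩ := u1.exists_left_inv
  obtain ⟨b, hb⟩ := u2.exists_right_inv
  have ha' : (a * g) * f = 1 := by rw [mul_assoc, ha]
  have hb' : f * (g' * b) = 1 := by rw [← mul_assoc, hb]
  exact ⟨⟨f, g' * b, hb', by rw [← left_inv_eq_right_inv ha' hb', ha']⟩, rfl⟩

end ring

end Pool.Agent.N814.AF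

namespace Pool.Agent.N64.AF

universe v u w t x

variable {C : Type u} [Category.{v} C] [Preadditive C] [MonoidalCategory C]
  [MonoidalPreadditive C] [SymmetricCategory C] [RightRigidCategory C]
  {Λ : Type t} [Field Λ] [CharZero Λ] [Linear Λ C] [MonoidalLinear Λ C]
  {K : Type w} [Field K] [IsAlgClosed K] [Algebra Λ K] {R : SuperRealisation C K}

/-- The radical of the category. -/
def radSub (Λ : Type t) [Field Λ] {C : Type u} [Category.{v} C] [Preadditive C] [Linear Λ C]
    (W Z : C) : Submodule Λ (W ⟶ Z) where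
  carrier := {f | ∀ g : Z ⟶ W, (f ≫ g : End W) ∈ Ring.jacobson (End W)}
  zero_mem' := fun g => by
    rw [zero_comp]
    exact (Ring.jacobson (End W)).zero_mem
  add_mem' := fun {a b} ha hb g => by
    rw [Preadditive.add_comp]
    exact (Ring.jacobson (End W)).add_mem (ha g) (hb g)
  smul_mem' := fun c a ha g => by
    rw [Linear.smul_comp, ← Linear.comp_smul]
    exact ha (c • g)

end Pool.Agent.N64.AF

namespace Pool.Agent.N814.AF

open Pool.Agent.N64.AF Pool.Agent.N64.AF.N441G Pool.Agent.N8.AFBb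

universe v u w t x

variable {C : Type u} [Category.{v} C] [Preadditive C] [MonoidalCategory C]
  [MonoidalPreadditive C] [SymmetricCategory C] [RightRigidCategory C]
  {Λ : Type t} [Field Λ] [CharZero Λ] [Linear Λ C] [MonoidalLinear Λ C]
  {K : Type w} [Field K] [IsAlgClosed K] [Algebra Λ K] {R : SuperRealisation C K}

/-- The inverse of the realisation of `f` is a linear combination of realisations. -/
lemma exists_inv (R : SuperRealisation C K) {W : C} (f : W ⟶ W) (hf : IsIso (R.H.map f)) :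
    ∃ c ∈ CK R W W, c ∘ₗ (R.H.map f).hom = LinearMap.id ∧
      (R.H.map f).hom ∘ₗ c = LinearMap.id := by
  have : Module.Finite K (R.H.obj W) := R.finite W
  let G : Module.End K (R.H.obj W) := (inv (R.H.map f)).hom
  let F : Module.End K (R.H.obj W) := (R.H.map f).hom
  have hFG : F * G = 1 := by
    have h1 := congrArg ModuleCat.Hom.hom (IsIso.inv_hom_id (R.H.map f))
    exact h1
  let L : CK R W W →ₗ[K] CK R W W :=
    { toFun := fun c => ⟨c.1 ∘ₗ F, (isCat_CK R).comp_mem c.2 (mem_CK R f)⟩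
      map_add' := fun a b => Subtype.ext (by rfl)
      map_smul' := fun a b => Subtype.ext (by rfl) }
  have hL : Function.Injective L := by
    intro a b hab
    have h1 : a.1 ∘ₗ F = b.1 ∘ₗ F := congrArg Subtype.val hab
    apply Subtype.ext
    have h2 : ∀ c : Module.End K (R.H.obj W), (c ∘ₗ F) ∘ₗ G = c := fun c => by
      change (c * F) * G = c
      rw [mul_assoc, hFG, mul_one]
    rw [← h2 a.1, ← h2 b.1, h1]
  obtain ⟨c, hc⟩ := (LinearMap.injective_iff_surjective.1 hL) ⟨LinearMap.id, (isCat_CK R).id_mem W⟩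
  have hc1 : c.1 ∘ₗ F = LinearMap.id := congrArg Subtype.val hc
  refine ⟨c.1, c.2, hc1, ?_⟩
  have h3 : (c.1 : Module.End K (R.H.obj W)) * F = 1 := hc1
  exact mul_eq_one_comm.1 h3

lemma isIso_one_add (hR : IsReal Λ R) {W : C} (hW : R.CPlus W) {y : W ⟶ W} (hy : NumTriv y) :
    IsIso (R.H.map (𝟙 W + y)) := by
  have hK : CharZero K := charZero_K Λ K
  have : ∀ Y : C, Module.Finite K (R.H.obj Y) := R.finite
  have h1 : IsNilpotent ((R.H.map y).hom : Module.End K (R.H.obj W)) :=
    nil_of_perp (H := fun Y : C => R.H.obj Y) (isCat_CK R) (mem_CK R y)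
      ((mem_perp_iff hR hW y).2 hy)
  obtain ⟨⟨a, b, hab, hba⟩, ha⟩ := h1.isUnit_one_add
  have ha' : a = 1 + ((R.H.map y).hom : Module.End K (R.H.obj W)) := ha
  have h2 : (R.H.map (𝟙 W + y)).hom = a := by
    rw [Functor.map_add, R.H.map_id, ha']
    rfl
  refine ⟨ModuleCat.ofHom b, ?_, ?_⟩
  · apply ModuleCat.hom_ext
    change b * (R.H.map (𝟙 W + y)).hom = 1
    rw [h2, hba]
  · apply ModuleCat.hom_ext
    change (R.H.map (𝟙 W + y)).hom * b = 1
    rw [h2, hab]

/-- The radical is contained in the ideal of the numerically trivial endomorphisms. -/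
lemma jac_le (hR : IsReal Λ R) {W : C} (hW : R.CPlus W) :
    Ring.jacobson (End W) ≤ idl hR W := by
  haveI := idl_two hR W
  have h1 : IsSemisimpleRing (End W ⧸ idl hR W) := semisimple hR hW (idl hR W) (fun x => Iff.rfl)
  exact Ring.jacobson_le_of_eq_bot (IsSemisimpleRing.jacobson_eq_bot _)

lemma rad_le (hR : IsReal Λ R) {W : C} (hW : R.CPlus W) (Z : C) :
    radSub Λ W Z ≤ numIdeal Λ W Z := by
  intro f hf g
  have h1 : NumTriv (f ≫ g) := jac_le hR hW (hf g)
  have h2 := h1 (𝟙 W)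
  rwa [Category.comp_id] at h2

lemma le_rad (hR : IsReal Λ R) {W : C} (h : idl hR W ≤ Ring.jacobson (End W)) (Z : C) :
    numIdeal Λ W Z ≤ radSub Λ W Z := by
  intro f hf g
  apply h
  have h1 := NumTriv.comp hR (f := f) hf (𝟙 W) g
  rwa [Category.id_comp] at h1

lemma idl_le (hR : IsReal Λ R) {W : C} (hW : R.CPlus W)
    (h : ∀ f : W ⟶ W, IsIso (R.H.map f) → IsIso f) : idl hR W ≤ Ring.jacobson (End W) := by
  intro x hx
  rw [mem_jac_iff]
  intro y
  have h1 : NumTriv (Y := W) (Z := W) (y * x : End W) := (idl hR W).mul_mem_left y hx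
  have h2 := h _ (isIso_one_add hR hW h1)
  have h3 : IsUnit (1 + y * x : End W) := (isUnit_iff_isIso _).2 h2
  exact h3.exists_left_inv

/-- An endomorphism with invertible realisation is invertible if the numerically trivial
endomorphisms lie in the radical. -/
lemma isIso_of (hR : IsReal Λ R) {W : C} (hW : R.CPlus W)
    (h : idl hR W ≤ Ring.jacobson (End W)) {f : W ⟶ W} (hf : IsIso (R.H.map f)) : IsIso f := by
  haveI := idl_two hR W
  haveI := idl_fin hR W
  have : ∀ Y : C, Module.Finite K (R.H.obj Y) := R.finite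
  obtain ⟨c, hc, hc1, hc2⟩ := exists_inv R f hf
  have h1 : @IsUnit (End W) _ f := by
    refine isUnit_of (Λ := Λ) (idl hR W) h ?_ ?_
    · intro x hx
      have h2 : NumTriv (f ≫ (x : W ⟶ W)) := hx
      rw [← mem_perp_iff hR hW, R.H.map_comp] at h2
      have h3 := perp_comp' (H := fun Y : C => R.H.obj Y) (isCat_CK R) h2 hc
      have h4 : (R.H.map f ≫ R.H.map (x : W ⟶ W)).hom ∘ₗ c = (R.H.map (x : W ⟶ W)).hom := by
        change ((R.H.map (x : W ⟶ W)).hom ∘ₗ (R.H.map f).hom) ∘ₗ c = _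
        rw [LinearMap.comp_assoc, hc2, LinearMap.comp_id]
      rw [h4] at h3
      exact (mem_perp_iff hR hW _).1 h3
    · intro x hx
      have h2 : NumTriv ((x : W ⟶ W) ≫ f) := hx
      rw [← mem_perp_iff hR hW, R.H.map_comp] at h2
      have h3 := perp_comp (H := fun Y : C => R.H.obj Y) (isCat_CK R) h2 hc
      have h4 : c ∘ₗ (R.H.map (x : W ⟶ W) ≫ R.H.map f).hom = (R.H.map (x : W ⟶ W)).hom := by
        change c ∘ₗ ((R.H.map f).hom ∘ₗ (R.H.map (x : W ⟶ W)).hom) = _
        rw [← LinearMap.comp_assoc, hc1, LinearMap.id_comp]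
      rw [h4] at h3
      exact (mem_perp_iff hR hW _).1 h3
  exact (isUnit_iff_isIso _).1 h1

/-- The radical as a family of subspaces of the values of a functor. -/
def radFam (Λ : Type t) [Field Λ] {C : Type u} [Category.{v} C] [Preadditive C] [Linear Λ C]
    (W Z : C) : Submodule Λ ((homF Λ W).obj Z) := radSub Λ W Z

lemma stab (Λ : Type t) [Field Λ] {C : Type u} [Category.{v} C] [Preadditive C] [Linear Λ C]
    (W : C) : IsStab (homF Λ W) (radFam Λ W) := by
  intro Y Z f a ha g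
  have h1 : (a ≫ f) ≫ g = a ≫ (f ≫ g) := Category.assoc _ _ _
  change ((a ≫ f) ≫ g : End W) ∈ Ring.jacobson (End W)
  rw [h1]
  exact ha (f ≫ g)

lemma pow_mk (Λ : Type t) [Field Λ] {C : Type u} [Category.{v} C] [Preadditive C] [Linear Λ C]
    (W : C) (y : End W) (j : ℕ) :
    ((((quoS (homF Λ W) (radFam Λ W) (stab Λ W)).map (X := W) (Y := W) y).hom :
      Module.End Λ ((quoS (homF Λ W) (radFam Λ W) (stab Λ W)).obj W)) ^ j)
      ((radFam Λ W W).mkQ (𝟙 W : W ⟶ W)) = (radFam Λ W W).mkQ (y ^ j : End W) := by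
  induction j with
  | zero => rfl
  | succ j ih =>
    have e1 : ∀ a, ((((quoS (homF Λ W) (radFam Λ W) (stab Λ W)).map (X := W) (Y := W) y).hom :
      Module.End Λ ((quoS (homF Λ W) (radFam Λ W) (stab Λ W)).obj W)) ^ (j + 1)) a =
      ((((quoS (homF Λ W) (radFam Λ W) (stab Λ W)).map (X := W) (Y := W) y).hom :
      Module.End Λ ((quoS (homF Λ W) (radFam Λ W) (stab Λ W)).obj W)))
      (((((quoS (homF Λ W) (radFam Λ W) (stab Λ W)).map (X := W) (Y := W) y).hom :
      Module.End Λ ((quoS (homF Λ W) (radFam Λ W) (stab Λ W)).obj W)) ^ j) a) := fun a => by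
      rw [pow_succ']
      rfl
    refine (e1 _).trans ?_
    rw [ih, pow_succ']
    rfl

end Pool.Agent.N814.AF

namespace Pool.Agent.N64.AF

universe v u w t x

variable {C : Type u} [Category.{v} C] [Preadditive C] [MonoidalCategory C]
  [MonoidalPreadditive C] [SymmetricCategory C] [RightRigidCategory C]
  {Λ : Type t} [Field Λ] [CharZero Λ] [Linear Λ C] [MonoidalLinear Λ C]
  {K : Type w} [Field K] [IsAlgClosed K] [Algebra Λ K] {R : SuperRealisation C K}

open Pool.Agent.N814.AF in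
/-- Rad: the law for the morphisms modulo the radical. -/
theorem radical_law {T : C} [ExactPairing T T] (h : IsPow Λ R T) (m : ℕ) : ∃ N : ℕ∞,
    (N = (bt R T ^ m : ℕ) ∨ N = ⊤) ∧
    Tendsto (fun n => ((dimE Λ ((tp T m ⟶ tp T n) ⧸ radSub Λ (tp T m) (tp T n)) : ℕ∞) : ℝ≥0∞) /
      numRank Λ (tp T n)) atTop (𝓝 (N : ℝ≥0∞)) ∧
    (N = (bt R T ^ m : ℕ) ↔ ∀ f : tp T m ⟶ tp T m, IsIso (R.H.map f) → IsIso f) := by
  have hW : R.CPlus (tp T m) := cplus_tp h.real h.cplus m
  by_cases hf : ∀ f : tp T m ⟶ tp T m, IsIso (R.H.map f) → IsIso f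
  · refine ⟨(bt R T ^ m : ℕ), Or.inl rfl, ?_, iff_of_true rfl hf⟩
    have hle := idl_le h.real hW hf
    have hrad : ∀ Z, radSub Λ (tp T m) Z = numIdeal Λ (tp T m) Z := fun Z =>
      le_antisymm (rad_le h.real hW Z) (le_rad h.real hle Z)
    have hβ : ∀ n, (0 : ℝ) < numRank Λ (tp T n) := fun n => by
      exact_mod_cast (numRank_mono h n).1
    have hdim : ∀ n, dimE Λ ((tp T m ⟶ tp T n) ⧸ radSub Λ (tp T m) (tp T n)) =
        ((numRank Λ (tp T (n + m)) : ℕ) : ℕ∞) := by
      intro n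
      rw [hrad]
      haveI := finite_num h.real (Λ := Λ) (tp T m) (tp T n)
      rw [dimE_eq]
      have h1 := nr_tp (Λ := Λ) h.real T m n
      rw [Pool.Agent.N199.AFA3.nr_eq] at h1
      have h2 : Pool.Agent.N199.AFA3.sw Λ (𝟙 (tp T m)) (𝟙 (tp T n)) = ⊤ := by
        rw [eq_top_iff]
        intro x _
        exact Pool.Agent.N199.AFA3.mem_sw.2 ⟨x, by simp⟩
      rw [h2, Submodule.map_top, Submodule.range_mkQ, finrank_top, add_comm m n] at h1
      rw [h1]
    simp_rw [hdim]
    obtain ⟨hc, hlim⟩ := numRank_tendsto h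
    have hc' : ∀ n, (0 : ℝ) < cmpSeq (fun n => numRank Λ (tp T n)) (bt R T) n := fun n => by
      exact_mod_cast hc n
    have h0 := hlim 0
    simp only [add_zero, pow_zero] at h0
    have h1 := (hlim m).div h0 one_ne_zero
    rw [div_one] at h1
    have h2 : Tendsto (fun n => (numRank Λ (tp T (n + m)) : ℝ) / numRank Λ (tp T n)) atTop
        (𝓝 ((bt R T : ℝ) ^ m)) := by
      refine h1.congr fun n => ?_
      have := (hc' n).ne'
      have := (hβ n).ne'
      simp only [Pi.div_apply]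
      field_simp
    have h4 := (ENNReal.continuous_ofReal.tendsto _).comp h2
    have e : ENNReal.ofReal ((bt R T : ℝ) ^ m) = ((((bt R T ^ m : ℕ) : ℕ∞)) : ℝ≥0∞) := by
      rw [← Nat.cast_pow, ENNReal.ofReal_natCast]
      rfl
    rw [e] at h4
    refine h4.congr fun n => ?_
    rw [Function.comp_apply, ENNReal.ofReal_div_of_pos (hβ n), ENNReal.ofReal_natCast,
      ENNReal.ofReal_natCast]
    rfl
  · refine ⟨⊤, Or.inr rfl, ?_, iff_of_false (ENat.natCast_ne_top _).symm hf⟩
    obtain ⟨N, hN1, -, hN3⟩ := law h (quoS (homF Λ (tp T m)) (radFam Λ (tp T m))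
      (stab Λ (tp T m)))
    by_cases hN : N = ⊤
    · rw [hN] at hN1
      exact hN1
    · exfalso
      apply hf
      intro f hff
      refine isIso_of h.real hW (le_jac fun y hy => ?_) hff
      obtain ⟨k, hk⟩ := ((hN3 hN).1 m).2.2 y hy
      refine ⟨k, ?_⟩
      have h1 := pow_mk Λ (tp T m) y k
      have h1' := (congrArg (fun g : Module.End Λ ((quoS (homF Λ (tp T m)) (radFam Λ (tp T m))
        (stab Λ (tp T m))).obj (tp T m)) => g ((radFam Λ (tp T m) (tp T m)).mkQ
          (𝟙 (tp T m) : tp T m ⟶ tp T m))) hk).symm.trans h1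
      have h2 : (Submodule.Quotient.mk (y ^ k : End (tp T m)) :
        (tp T m ⟶ tp T m) ⧸ radSub Λ (tp T m) (tp T m)) = 0 := h1'.symm
      rw [Submodule.Quotient.mk_eq_zero] at h2
      have h3 := h2 (𝟙 _)
      rwa [Category.comp_id] at h3

end Pool.Agent.N64.AF
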