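import Pool.Agent.N64.AF.M1
import Pool.Agent.N64.AF.W
import Pool.Agent.N64.AF.Rad

/-!
# Conservativity for an object with `C⁺` and the size of the morphisms modulo the radical
-/

set_option autoImplicit false

open CategoryTheory Limits MonoidalCategory Module Filter Topology
open Pool.Agent.Y112.SR Pool.Agent.Y112.KD
open scoped ENNReal

namespace Pool.Agent.N64.AF

universe v u w t x

variable {C : Type u} [Category.{v} C] [Preadditive C] [MonoidalCategory C]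
  [MonoidalPreadditive C] [SymmetricCategory C] [RightRigidCategory C]
  {Λ : Type t} [Field Λ] [CharZero Λ] [Linear Λ C] [MonoidalLinear Λ C]
  {K : Type w} [Field K] [IsAlgClosed K] [Algebra Λ K] {R : SuperRealisation C K}

/-- A retract of an isomorphism. -/
lemma isIso_of_whisker {P Q : C} (i : 𝟙_ C ⟶ Q) (r : Q ⟶ 𝟙_ C) (hir : i ≫ r = 𝟙 _)
    (f : P ⟶ P) (hf : IsIso (f ▷ Q)) : IsIso f := by
  refine ⟨(ρ_ P).inv ≫ P ◁ i ≫ inv (f ▷ Q) ≫ P ◁ r ≫ (ρ_ P).hom, ?_, ?_⟩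
  · calc f ≫ (ρ_ P).inv ≫ P ◁ i ≫ inv (f ▷ Q) ≫ P ◁ r ≫ (ρ_ P).hom
        = (ρ_ P).inv ≫ (f ▷ 𝟙_ C ≫ P ◁ i) ≫ inv (f ▷ Q) ≫ P ◁ r ≫ (ρ_ P).hom := by
          simp only [Category.assoc, rightUnitor_inv_naturality_assoc]
      _ = (ρ_ P).inv ≫ P ◁ i ≫ P ◁ r ≫ (ρ_ P).hom := by
          rw [← whisker_exchange]
          simp only [Category.assoc, IsIso.hom_inv_id_assoc]
      _ = 𝟙 P := by
          rw [← whiskerLeft_comp_assoc, hir]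
          simp
  · calc ((ρ_ P).inv ≫ P ◁ i ≫ inv (f ▷ Q) ≫ P ◁ r ≫ (ρ_ P).hom) ≫ f
        = (ρ_ P).inv ≫ P ◁ i ≫ inv (f ▷ Q) ≫ (P ◁ r ≫ f ▷ 𝟙_ C) ≫ (ρ_ P).hom := by
          simp only [Category.assoc, rightUnitor_naturality]
      _ = (ρ_ P).inv ≫ P ◁ i ≫ P ◁ r ≫ (ρ_ P).hom := by
          rw [whisker_exchange]
          simp only [Category.assoc, IsIso.inv_hom_id_assoc]
      _ = 𝟙 P := by
          rw [← whiskerLeft_comp_assoc, hir]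
          simp

lemma isIso_aux {W P D : C} (e : W ≅ P ⊗ D) (i : 𝟙_ C ⟶ W) (r : W ⟶ 𝟙_ C) (hir : i ≫ r = 𝟙 _)
    (hc : ∀ f : W ⟶ W, IsIso (R.H.map f) → IsIso f) (f : P ⟶ P) (hf : IsIso (R.H.map f)) :
    IsIso f := by
  have h1 : IsIso (R.H.map (f ▷ D)) := by
    rw [Functor.Monoidal.map_whiskerRight]
    infer_instance
  have h2 : IsIso (e.hom ≫ (f ▷ D) ≫ e.inv) := by
    apply hc
    rw [Functor.map_comp, Functor.map_comp]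
    infer_instance
  have h3 : IsIso (f ▷ D) := by
    have e1 : f ▷ D = e.inv ≫ (e.hom ≫ (f ▷ D) ≫ e.inv) ≫ e.hom := by simp
    rw [e1]
    infer_instance
  have h4 : IsIso (f ▷ (D ⊗ P)) := by
    rw [MonoidalCategory.whiskerRight_tensor]
    infer_instance
  refine isIso_of_whisker (Q := D ⊗ P) (i ≫ e.hom ≫ (β_ P D).hom) ((β_ P D).inv ≫ e.inv ≫ r)
    ?_ f h4
  simp only [Category.assoc, Iso.hom_inv_id_assoc, hir]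

open Pool.Agent.N413.AFW in
/-- Conservativity on the powers of `M ⊗ Mᘁ` implies conservativity on the powers of `M`. -/
lemma isIso_power {M : C} (h : ∃ (i : 𝟙_ C ⟶ M ⊗ Mᘁ) (r : M ⊗ Mᘁ ⟶ 𝟙_ C), i ≫ r = 𝟙 _) (m : ℕ)
    (hc : ∀ f : tp (M ⊗ Mᘁ) m ⟶ tp (M ⊗ Mᘁ) m, IsIso (R.H.map f) → IsIso f)
    (f : tp M m ⟶ tp M m) (hf : IsIso (R.H.map f)) : IsIso f := by
  have hr : ∀ k : ℕ, ∃ (i : 𝟙_ C ⟶ tp (M ⊗ Mᘁ) k) (r : tp (M ⊗ Mᘁ) k ⟶ 𝟙_ C),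
      i ≫ r = 𝟙 (𝟙_ C) := by
    intro k
    induction k with
    | zero => exact ⟨𝟙 _, 𝟙 _, Category.id_comp _⟩
    | succ k ih =>
      obtain ⟨i, r, hir⟩ := ih
      obtain ⟨i', r', hir'⟩ := h
      refine ⟨i ≫ (ρ_ (tp (M ⊗ Mᘁ) k)).inv ≫ (tp (M ⊗ Mᘁ) k ◁ i'),
        ((tp (M ⊗ Mᘁ) k ◁ r') ≫ (ρ_ (tp (M ⊗ Mᘁ) k)).hom) ≫ r, ?_⟩
      have e1 : ((ρ_ (tp (M ⊗ Mᘁ) k)).inv ≫ (tp (M ⊗ Mᘁ) k ◁ i')) ≫
          ((tp (M ⊗ Mᘁ) k ◁ r') ≫ (ρ_ (tp (M ⊗ Mᘁ) k)).hom) = 𝟙 _ := by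
        rw [Category.assoc, ← Category.assoc (tp (M ⊗ Mᘁ) k ◁ i'),
          ← MonoidalCategory.whiskerLeft_comp, hir', MonoidalCategory.whiskerLeft_id,
          Category.id_comp, Iso.inv_hom_id]
      calc (i ≫ (ρ_ (tp (M ⊗ Mᘁ) k)).inv ≫ (tp (M ⊗ Mᘁ) k ◁ i')) ≫
            ((tp (M ⊗ Mᘁ) k ◁ r') ≫ (ρ_ (tp (M ⊗ Mᘁ) k)).hom) ≫ r
          = i ≫ (((ρ_ (tp (M ⊗ Mᘁ) k)).inv ≫ (tp (M ⊗ Mᘁ) k ◁ i')) ≫
            ((tp (M ⊗ Mᘁ) k ◁ r') ≫ (ρ_ (tp (M ⊗ Mᘁ) k)).hom)) ≫ r := by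
            simp only [Category.assoc]
        _ = 𝟙 _ := by rw [e1, Category.id_comp, hir]
  obtain ⟨i, r, hir⟩ := hr m
  exact isIso_aux (isoTp M Mᘁ m) i r hir hc f hf

/-- The size of the morphisms between the powers of `M ⊗ Mᘁ` modulo the radical. -/
theorem radical_dual (hR : IsReal Λ R) {M : C} (hM : R.CPlus M) (hb : 0 < bt R M) (m : ℕ) :
    ∃ N : ℕ∞, (N = (bt R M ^ (2 * m) : ℕ) ∨ N = ⊤) ∧
      Tendsto (fun n => ((dimE Λ ((tp (M ⊗ Mᘁ) m ⟶ tp (M ⊗ Mᘁ) n) ⧸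
          radSub Λ (tp (M ⊗ Mᘁ) m) (tp (M ⊗ Mᘁ) n)) : ℕ∞) : ℝ≥0∞) /
        nr Λ (𝟙 (tp M n)) (𝟙 (tp M n))) atTop (𝓝 (N : ℝ≥0∞)) ∧
      (N = (bt R M ^ (2 * m) : ℕ) ↔
        ∀ f : tp (M ⊗ Mᘁ) m ⟶ tp (M ⊗ Mᘁ) m, IsIso (R.H.map f) → IsIso f) ∧
      (N = (bt R M ^ (2 * m) : ℕ) → ∀ f : tp M m ⟶ tp M m, IsIso (R.H.map f) → IsIso f) := by
  obtain ⟨inst, hS⟩ := isPow_tensor_dual hR hM hb
  obtain ⟨N, h1, h2, h3⟩ := radical_law hS m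
  have e1 : bt R (M ⊗ Mᘁ) ^ m = bt R M ^ (2 * m) := by
    rw [bt_tensor, bt_dual, pow_mul, sq]
  rw [e1] at h1 h3
  refine ⟨N, h1, ?_, h3, fun hN => isIso_power hS.retract m (h3.1 hN)⟩
  refine h2.congr fun n => ?_
  rw [numRank_tensor_dual hR]

end Pool.Agent.N64.AF
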