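import Pool.Agent.N64.AF.M1
import Pool.Agent.N64.AF.K2
import Pool.Agent.N64.AF.Rad

/-!
# Kimura finite-dimensionality and the size of the morphisms modulo the radical
-/

set_option autoImplicit false

open CategoryTheory Limits MonoidalCategory Module Filter Topology
open Pool.Agent.Y112.SR Pool.Agent.Y112.KD
open scoped ENNReal

namespace Pool.Agent.N64.AF

universe v u w t x

section Idem

variable {C : Type u} [Category.{v} C] [Preadditive C] [MonoidalCategory C]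
  [SymmetricCategory C] {K : Type w} [Field K] {R : SuperRealisation C K}

/-- If the realisation is conservative on the endomorphisms of `W`, then idempotents on retracts
with zero realisation vanish. -/
lemma idem_zero {W P : C} (hc : ∀ f : W ⟶ W, IsIso (R.H.map f) → IsIso f)
    (i : P ⟶ W) (r : W ⟶ P) (hir : i ≫ r = 𝟙 P) (e : P ⟶ P) (he : e ≫ e = e)
    (hH : R.H.map e = 0) : e = 0 := by
  have h1 : IsIso (R.H.map (𝟙 W - r ≫ e ≫ i)) := by
    rw [Functor.map_sub, Functor.map_comp, Functor.map_comp, hH, zero_comp, comp_zero, sub_zero,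
      R.H.map_id]
    infer_instance
  have h2 := hc _ h1
  have h3 : (r ≫ e ≫ i) ≫ (𝟙 W - r ≫ e ≫ i) = 0 := by
    rw [Preadditive.comp_sub, Category.comp_id]
    have e1 : (r ≫ e ≫ i) ≫ r ≫ e ≫ i = r ≫ e ≫ i := by
      simp only [Category.assoc]
      rw [← Category.assoc i r, hir, Category.id_comp, ← Category.assoc e e, he]
    rw [e1, sub_self]
  have h4 : r ≫ e ≫ i = 0 := by
    rw [← cancel_mono (𝟙 W - r ≫ e ≫ i), h3, zero_comp]
  have h5 : e = i ≫ (r ≫ e ≫ i) ≫ r := by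
    simp only [Category.assoc]
    rw [hir, Category.comp_id, ← Category.assoc, hir, Category.id_comp]
  rw [h5, h4, zero_comp, comp_zero]

end Idem

variable {C : Type u} [Category.{v} C] [Preadditive C] [MonoidalCategory C]
  [MonoidalPreadditive C] [SymmetricCategory C] [RightRigidCategory C]
  [Linear ℚ C] [MonoidalLinear ℚ C] [IsIdempotentComplete C]
  {K : Type w} [Field K] [IsAlgClosed K] [Algebra ℚ K] {R : SuperRealisation C K}

open Pool.Agent.R905 Pool.Agent.N861.AF in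
/-- Kimura finite-dimensionality from conservativity on one power. -/
theorem kimura_of_conservative (h : IsReal ℚ R) {T : C}
    (hret : ∀ m k : ℕ, ∃ (i : tp T m ⟶ tp T (m + k)) (r : tp T (m + k) ⟶ tp T m),
      i ≫ r = 𝟙 (tp T m)) {E O : C} (i : E ⟶ T) (r : T ⟶ E) (i' : O ⟶ T) (r' : T ⟶ O)
    (h1 : i ≫ r = 𝟙 E) (h2 : i' ≫ r' = 𝟙 O) (h3 : r ≫ i + r' ≫ i' = 𝟙 T)
    (hE : R.par E = 𝟙 _) (hO : R.par O = -𝟙 _) (m : ℕ) (hmE : bt R E < m) (hmO : bt R O < m)
    (hc : ∀ f : tp T m ⟶ tp T m, IsIso (R.H.map f) → IsIso f) :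
    Pool.Agent.R905.IsKimuraFinite T := by
  have hcc := R_charZero R
  have hU : UnitQ C := by
    refine ⟨h.unit, fun h => ?_⟩
    have h1 := bt_unit R
    have h2 : 𝟙 (R.H.obj (𝟙_ C)) = 0 := by
      rw [← CategoryTheory.Functor.map_id, h, Functor.map_zero]
    have h3 : IsZero (R.H.obj (𝟙_ C)) := (IsZero.iff_id_eq_zero _).2 h2
    have h4 : Subsingleton (R.H.obj (𝟙_ C)) := ModuleCat.subsingleton_of_isZero h3
    unfold bt at h1
    rw [finrank_zero_of_subsingleton] at h1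
    exact zero_ne_one h1
  have key : ∀ (P : C) (i : P ⟶ T) (r : T ⟶ P) (hir : i ≫ r = 𝟙 P) (d : ℚ) (hd : d * d = 1)
      (hP : R.par P = (d : K) • 𝟙 _) (hm : bt R P < m), asym (-d) P (bt R P + 1) = 0 := by
    intro P i r hir d hd hP hm
    have hη : (-d) * (-d) = 1 := by linear_combination hd
    obtain ⟨k, hk⟩ := Nat.exists_eq_add_of_le (show bt R P + 1 ≤ m from hm)
    subst hk
    obtain ⟨i2, r2, hir2⟩ := hret (bt R P + 1) k
    refine idem_zero hc (tpm i (bt R P + 1) ≫ i2) (r2 ≫ tpm r (bt R P + 1)) ?_ _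
      (asym_idem hη P _) (map_asym_zero R hU d hd hP)
    rw [Category.assoc, ← Category.assoc i2, hir2, Category.id_comp, tpm_comp, hir, tpm_id]
  have hE1 := key E i r h1 1 (by norm_num) (by rw [hE]; norm_num) hmE
  have hO1 := key O i' r' h2 (-1) (by norm_num) (by rw [hO]; norm_num) hmO
  rw [neg_neg] at hO1
  exact (isKimuraFinite_iff T).2 ⟨E, O, i, r, i', r', h1, h2, h3, ⟨_, hE1⟩, _, hO1⟩

/-- The criterion for Kimura finite-dimensionality. -/
theorem kimura_radical {T : C} [ExactPairing T T] (h : IsPow ℚ R T) {E O : C} (i : E ⟶ T)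
    (r : T ⟶ E) (i' : O ⟶ T) (r' : T ⟶ O) (h1 : i ≫ r = 𝟙 E) (h2 : i' ≫ r' = 𝟙 O)
    (h3 : r ≫ i + r' ≫ i' = 𝟙 T) (hE : R.par E = 𝟙 _) (hO : R.par O = -𝟙 _) (m : ℕ)
    (hmE : bt R E < m) (hmO : bt R O < m) : ∃ N : ℕ∞,
      (N = (bt R T ^ m : ℕ) ∨ N = ⊤) ∧
      RatioTo ℚ T (fun n => dimE ℚ ((tp T m ⟶ tp T n) ⧸ radSub ℚ (tp T m) (tp T n))) N ∧
      (N = (bt R T ^ m : ℕ) → Pool.Agent.R905.IsKimuraFinite T) := by
  obtain ⟨N, a1, a2, a3⟩ := radical_law h m
  refine ⟨N, a1, a2, fun hN => ?_⟩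
  have hret : ∀ m k : ℕ, ∃ (i : tp T m ⟶ tp T (m + k)) (r : tp T (m + k) ⟶ tp T m),
      i ≫ r = 𝟙 (tp T m) := by
    intro m k
    induction k with
    | zero => exact ⟨𝟙 _, 𝟙 _, Category.id_comp _⟩
    | succ k ih =>
      obtain ⟨i, r, hir⟩ := ih
      obtain ⟨i', r', hir'⟩ := exists_retract_tp h (m + k)
      refine ⟨i ≫ i', r' ≫ r, ?_⟩
      rw [Category.assoc, ← Category.assoc i', hir', Category.id_comp, hir]
  exact kimura_of_conservative h.real hret i r i' r' h1 h2 h3 hE hO m hmE hmO (a3.1 hN)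

end Pool.Agent.N64.AF
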