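import Pool.Agent.N64.AF.M1
import Pool.Agent.N64.AF.W

/-!
# The growth gap for objects which are not self-dual
-/

set_option autoImplicit false

open CategoryTheory Limits MonoidalCategory Module Filter Topology
open Pool.Agent.Y112.SR Pool.Agent.Y112.KD
open scoped ENNReal

namespace Pool.Agent.N64.AF

universe v u w t x

variable {C : Type u} [Category.{v} C] [Preadditive C] [MonoidalCategory C]
  [MonoidalPreadditive C] [SymmetricCategory C] [RightRigidCategory C]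
  {Λ : Type t} [Field Λ] [CharZero Λ] [Linear Λ C] [MonoidalLinear Λ C]
  {K : Type w} [Field K] [IsAlgClosed K] [Algebra Λ K] {R : SuperRealisation C K}

/-- The explicit growth gap. -/
theorem growth_gap (hR : IsReal Λ R) {T : C} (hT : R.CPlus T) (hb : 0 < bt R T)
    (F : C ⥤ ModuleCat.{x} Λ) [F.Additive] [F.Linear Λ] {m n : ℕ}
    (hn : 128 * (m + 1) ^ 2 * bt R T ^ (4 * m + 12) ≤ n)
    (hF : ¬ Subsingleton (F.obj (tp (T ⊗ Tᘁ) m))) :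
    ((bt R T ^ (2 * n) : ℕ) : ℕ∞) ≤
      (2 * (n + 1) ^ (bt R T ^ 2) : ℕ) * dimE Λ (F.obj (tp (T ⊗ Tᘁ) n)) := by
  obtain ⟨inst, hS⟩ := isPow_tensor_dual hR hT hb
  by_cases hfin : Module.Finite Λ (F.obj (tp (T ⊗ Tᘁ) n))
  · rw [dimE_eq]
    have e1 : bt R (T ⊗ Tᘁ) = bt R T ^ 2 := by rw [bt_tensor, bt_dual, sq]
    by_contra hlt
    rw [not_le] at hlt
    have hlt' : 2 * (n + 1) ^ (bt R T ^ 2) * finrank Λ (F.obj (tp (T ⊗ Tᘁ) n)) <
        bt R T ^ (2 * n) := by exact_mod_cast hlt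
    have h1 := growth (Λ := Λ) hR hT n
    rw [← pow_mul] at h1
    have h2 : (n + 1) ^ (bt R T ^ 2) * (2 * finrank Λ (F.obj (tp (T ⊗ Tᘁ) n))) <
        (n + 1) ^ (bt R T ^ 2) * nr Λ (𝟙 (tp T n)) (𝟙 (tp T n)) := by
      refine lt_of_lt_of_le ?_ h1
      calc (n + 1) ^ (bt R T ^ 2) * (2 * finrank Λ (F.obj (tp (T ⊗ Tᘁ) n)))
          = 2 * (n + 1) ^ (bt R T ^ 2) * finrank Λ (F.obj (tp (T ⊗ Tᘁ) n)) := by ring
        _ < _ := hlt'
    have h3 : 2 * finrank Λ (F.obj (tp (T ⊗ Tᘁ) n)) < numRank Λ (tp (T ⊗ Tᘁ) n) := by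
      rw [numRank_tensor_dual hR]
      exact lt_of_mul_lt_mul_left h2 (Nat.zero_le _)
    refine hF (explicit_criterion hS F (m := m) (n := n) ?_ hfin h3)
    rw [e1, ← pow_mul]
    have e2 : 2 * (2 * m + 6) = 4 * m + 12 := by ring
    rwa [e2]
  · rw [dimE_top hfin, ENat.mul_top]
    · exact le_top
    · have : 0 < 2 * (n + 1) ^ (bt R T ^ 2) := by positivity
      exact_mod_cast this.ne'

/-- The law and the growth gap for the powers of `T ⊗ Tᘁ`. -/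
theorem dual_law (hR : IsReal Λ R) {T : C} (hT : R.CPlus T) (hb : 0 < bt R T)
    (F : C ⥤ ModuleCat.{x} Λ) [F.Additive] [F.Linear Λ] :
    (∃ N : ℕ∞, Tendsto (fun n => ((dimE Λ (F.obj (tp (T ⊗ Tᘁ) n)) : ℕ∞) : ℝ≥0∞) /
        nr Λ (𝟙 (tp T n)) (𝟙 (tp T n))) atTop (𝓝 (N : ℝ≥0∞)) ∧
      (N = 0 ↔ ∀ n, Subsingleton (F.obj (tp (T ⊗ Tᘁ) n)))) ∧
    ∀ m n : ℕ, ¬ Subsingleton (F.obj (tp (T ⊗ Tᘁ) m)) →
      128 * (m + 1) ^ 2 * bt R T ^ (4 * m + 12) ≤ n →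
      ((bt R T ^ (2 * n) : ℕ) : ℕ∞) ≤
        (2 * (n + 1) ^ (bt R T ^ 2) : ℕ) * dimE Λ (F.obj (tp (T ⊗ Tᘁ) n)) := by
  obtain ⟨inst, hS⟩ := isPow_tensor_dual hR hT hb
  obtain ⟨N, h1, h2, -⟩ := law hS F
  refine ⟨⟨N, h1.congr fun n => ?_, h2⟩, fun m n hF hn => growth_gap hR hT hb F hn hF⟩
  rw [numRank_tensor_dual hR]

end Pool.Agent.N64.AF
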