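import Pool.Agent.N64.AF.K1
import Pool.Agent.N64.AF.V1

/-!
# V2: adequate equivalence relations and smash nilpotence
-/

set_option autoImplicit false

open CategoryTheory Limits MonoidalCategory Module Filter Topology
open Pool.Agent.Y112.SR Pool.Agent.Y112.KD
open Pool.Agent.Y116.MT (tr)
open scoped ENNReal

namespace Pool.Agent.N64.AF

universe v u w t x

namespace N690V2

section Pow

variable {C : Type u} [Category.{v} C] [MonoidalCategory C]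

lemma exists_add [Preadditive C] [MonoidalPreadditive C] {Z : C} (α : 𝟙_ C ⟶ Z) (a b : ℕ) :
    ∃ i : tp Z a ⊗ tp Z b ⟶ tp Z (a + b),
      tpow α a ≫ (ρ_ (tp Z a)).inv ≫ (tp Z a ◁ tpow α b) ≫ i = tpow α (a + b) := by
  induction b with
  | zero =>
    refine ⟨(ρ_ (tp Z a)).hom, ?_⟩
    change tpow α a ≫ (ρ_ (tp Z a)).inv ≫ (tp Z a ◁ 𝟙 _) ≫ (ρ_ (tp Z a)).hom = tpow α a
    rw [MonoidalCategory.whiskerLeft_id, Category.id_comp, Iso.inv_hom_id, Category.comp_id]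
  | succ b ih =>
    obtain ⟨i, hi⟩ := ih
    refine ⟨(α_ (tp Z a) (tp Z b) Z).inv ≫ (i ▷ Z), ?_⟩
    change tpow α a ≫ (ρ_ (tp Z a)).inv ≫
      (tp Z a ◁ (tpow α b ≫ (ρ_ (tp Z b)).inv ≫ (tp Z b ◁ α))) ≫
        (α_ (tp Z a) (tp Z b) Z).inv ≫ (i ▷ Z) =
      tpow α (a + b) ≫ (ρ_ (tp Z (a + b))).inv ≫ (tp Z (a + b) ◁ α)
    rw [← hi, MonoidalCategory.whiskerLeft_comp, MonoidalCategory.whiskerLeft_comp]
    simp only [Category.assoc]
    rw [associator_inv_naturality_right_assoc, whisker_exchange,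
      ← rightUnitor_tensor_inv_assoc, ← rightUnitor_inv_naturality_assoc]

lemma exists_mul [Preadditive C] [MonoidalPreadditive C] {Z : C} (α : 𝟙_ C ⟶ Z) (k j : ℕ) :
    ∃ f : tp (tp Z k) j ⟶ tp Z (k * j), tpow (tpow α k) j ≫ f = tpow α (k * j) := by
  induction j with
  | zero => exact ⟨𝟙 _, Category.comp_id _⟩
  | succ j ih =>
    obtain ⟨f, hf⟩ := ih
    obtain ⟨i, hi⟩ := exists_add α (k * j) k
    refine ⟨(f ▷ tp Z k) ≫ i, ?_⟩
    change (tpow (tpow α k) j ≫ (ρ_ (tp (tp Z k) j)).inv ≫ (tp (tp Z k) j ◁ tpow α k)) ≫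
      (f ▷ tp Z k) ≫ i = tpow α (k * j + k)
    rw [← hi, ← hf]
    simp only [Category.assoc]
    rw [whisker_exchange_assoc, ← rightUnitor_inv_naturality_assoc]

lemma isIso_tpow_one [Preadditive C] [MonoidalPreadditive C] (k : ℕ) :
    IsIso (tpow (𝟙 (𝟙_ C)) k) := by
  induction k with
  | zero => exact inferInstanceAs (IsIso (𝟙 (𝟙_ C)))
  | succ k ih =>
    change IsIso (tpow (𝟙 (𝟙_ C)) k ≫ (ρ_ (tp (𝟙_ C) k)).inv ≫ (tp (𝟙_ C) k ◁ 𝟙 (𝟙_ C)))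
    infer_instance

end Pow

variable {C : Type u} [Category.{v} C] [Preadditive C] [MonoidalCategory C]
  [MonoidalPreadditive C] [SymmetricCategory C] [RightRigidCategory C]
  {Λ : Type t} [Field Λ] [CharZero Λ] [Linear Λ C] [MonoidalLinear Λ C]
  {K : Type w} [Field K] [IsAlgClosed K] [Algebra Λ K] {R : SuperRealisation C K}

omit [CharZero Λ] [Linear Λ C] [MonoidalLinear Λ C] [IsAlgClosed K] [Algebra Λ K] in
lemma exists_iso (T : C) (m k : ℕ) : ∃ b : ℕ, Nonempty (tp (tp T m) k ≅ tp T b) := by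
  induction k with
  | zero => exact ⟨0, ⟨Iso.refl _⟩⟩
  | succ k ih =>
    obtain ⟨b, ⟨j⟩⟩ := ih
    obtain ⟨i, -⟩ := exists_tp_iso T b m
    exact ⟨b + m, ⟨whiskerRightIso j (tp T m) ≪≫ i⟩⟩

omit [IsAlgClosed K] in
lemma numPow_tpow {T : C} (hR : IsReal Λ R) {m : ℕ} {α : 𝟙_ C ⟶ tp T m} (hα : NumTriv α)
    (k : ℕ) : ∀ (b : ℕ) (j : tp (tp T m) k ⟶ tp T b), NumPow T k (tpow α k ≫ j) := by
  induction k with
  | zero => intro b j; trivial
  | succ k ih =>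
    intro b j
    obtain ⟨b', ⟨i⟩⟩ := exists_iso T m k
    refine ⟨b', tpow α k ≫ i.hom, (i.inv ≫ (ρ_ (tp (tp T m) k)).inv) ≫
      (tp (tp T m) k ◁ α) ≫ j, ih b' i.hom, ?_, ?_⟩
    · exact NumTriv.comp hR (NumTriv.whiskerLeft hR hα _) _ _
    · change (tpow α k ≫ (ρ_ (tp (tp T m) k)).inv ≫ (tp (tp T m) k ◁ α)) ≫ j = _
      simp only [Category.assoc, Iso.hom_inv_id_assoc]

omit [CharZero Λ] [MonoidalLinear Λ C] [IsAlgClosed K] in
/-- the unit object is not zero -/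
lemma one_ne (hR : IsReal Λ R) : 𝟙 (𝟙_ C) ≠ 0 := by
  intro h0
  have h1 := A1aux.st_one R
  have h2 : 𝟙 (𝟙_ C) = (0 : Λ) • 𝟙 (𝟙_ C) := by rw [zero_smul, h0]
  rw [h2, A1aux.st, hR.lin, map_zero, zero_smul, zero_comp, ModuleCat.hom_zero, map_zero] at h1
  exact zero_ne_one h1

end N690V2

open N690V2

variable {C : Type u} [Category.{v} C] [Preadditive C] [MonoidalCategory C]
  [MonoidalPreadditive C] [SymmetricCategory C] [RightRigidCategory C]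
  {Λ : Type t} [Field Λ] [CharZero Λ] [Linear Λ C] [MonoidalLinear Λ C]
  {K : Type w} [Field K] [IsAlgClosed K] [Algebra Λ K] {R : SuperRealisation C K}

/-- V2: the law for the morphisms from the unit object modulo an equivalence relation. -/
theorem quot_law {T : C} [ExactPairing T T] (h : IsPow Λ R T)
    (J : ∀ Z : C, Submodule Λ (𝟙_ C ⟶ Z))
    (hJ : ∀ {Y Z : C} (f : Y ⟶ Z) (α : 𝟙_ C ⟶ Y), α ∈ J Y → α ≫ f ∈ J Z)
    (hJ1 : 𝟙 (𝟙_ C) ∉ J (𝟙_ C)) : ∃ N : ℕ∞, N ≠ 0 ∧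
      Tendsto (fun n => ((dimE Λ ((𝟙_ C ⟶ tp T n) ⧸ J (tp T n)) : ℕ∞) : ℝ≥0∞) /
        numRank Λ (tp T n)) atTop (𝓝 (N : ℝ≥0∞)) ∧
      (N = 1 ↔ ∀ (n : ℕ) (α : 𝟙_ C ⟶ tp T n), NumTriv α → α ∈ J (tp T n)) ∧
      ∀ k : ℕ, N = k → ∀ (m : ℕ) (α : 𝟙_ C ⟶ tp T m), NumTriv α →
        tpow α k ∈ J (tp (tp T m) k) := by
  let S : ∀ Z, Submodule Λ ((homF Λ (𝟙_ C)).obj Z) := fun Z => J Z
  have hst : IsStab (homF Λ (𝟙_ C)) S := fun Y Z f α hα => hJ f α hα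
  obtain ⟨N, h1, h2, -⟩ := law h (quoS (homF Λ (𝟙_ C)) S hst)
  -- vanishing of the quotient functor on a morphism from the unit object
  have hvan : ∀ {b : ℕ} (f : tp T 0 ⟶ tp T b),
      (quoS (homF Λ (𝟙_ C)) S hst).map f = 0 → f ∈ J (tp T b) := by
    intro b f hf
    have h3 := quoS_map_mk hst f (𝟙 (𝟙_ C))
    rw [hf] at h3
    have h4 : (Submodule.Quotient.mk (((homF Λ (𝟙_ C)).map f).hom (𝟙 (𝟙_ C))) :
      (𝟙_ C ⟶ tp T b) ⧸ J (tp T b)) = 0 := h3.symm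
    have h5 := (Submodule.Quotient.mk_eq_zero _).1 h4
    rw [homF_map, Category.id_comp] at h5
    exact h5
  refine ⟨N, ?_, h1, ⟨?_, ?_⟩, ?_⟩
  · intro h0
    have h3 := h2.1 h0 0
    apply hJ1
    have h4 : (Submodule.Quotient.mk (𝟙 (𝟙_ C)) : (𝟙_ C ⟶ 𝟙_ C) ⧸ J (𝟙_ C)) = 0 :=
      @Subsingleton.elim _ h3 _ _
    exact (Submodule.Quotient.mk_eq_zero _).1 h4
  · intro hN1 n α hα
    have hN : Tendsto (fun n => ((dimE Λ ((quoS (homF Λ (𝟙_ C)) S hst).obj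
        (tp T n)) : ℕ∞) : ℝ≥0∞) / numRank Λ (tp T n)) atTop (𝓝 ((1 : ℕ) : ℝ≥0∞)) := by
      have h3 := h1
      rw [hN1] at h3
      simpa using h3
    exact hvan (b := n) α ((structure_thm h _ hN).2 0 n α
      ⟨0, 𝟙 _, α, trivial, hα, (Category.id_comp _).symm⟩)
  · intro hall
    have hJn : ∀ n, J (tp T n) = numIdeal Λ (𝟙_ C) (tp T n) := by
      intro n
      apply le_antisymm
      · intro α hα
        rw [mem_numIdeal, numTriv_unit_iff h.real]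
        intro β
        have h3 := hJ β α hα
        obtain ⟨q, hq⟩ := h.real.unit (α ≫ β)
        rw [hq] at h3 ⊢
        by_cases hq0 : q = 0
        · rw [hq0, zero_smul]
        · exfalso
          apply hJ1
          have h4 := (J (𝟙_ C)).smul_mem q⁻¹ h3
          rwa [smul_smul, inv_mul_cancel₀ hq0, one_smul] at h4
      · intro α hα
        exact hall n α (mem_numIdeal.1 hα)
    have h3 : (fun n => ((dimE Λ ((𝟙_ C ⟶ tp T n) ⧸ J (tp T n)) : ℕ∞) : ℝ≥0∞) /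
        numRank Λ (tp T n)) = fun _ => 1 := by
      funext n
      rw [hJn n]
      have := finite_num h.real (𝟙_ C) (tp T n)
      rw [dimE_eq]
      change (((numRank Λ (tp T n) : ℕ) : ℕ∞) : ℝ≥0∞) / numRank Λ (tp T n) = 1
      have h4 : (numRank Λ (tp T n) : ℝ≥0∞) ≠ 0 := by
        have := (numRank_mono h n).1
        exact_mod_cast this.ne'
      have h5 : (((numRank Λ (tp T n) : ℕ) : ℕ∞) : ℝ≥0∞) = (numRank Λ (tp T n) : ℝ≥0∞) := rfl
      rw [h5]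
      exact ENNReal.div_self h4 (ENNReal.natCast_ne_top _)
    have h4 : Tendsto (fun n => ((dimE Λ ((𝟙_ C ⟶ tp T n) ⧸ J (tp T n)) : ℕ∞) : ℝ≥0∞) /
        numRank Λ (tp T n)) atTop (𝓝 (N : ℝ≥0∞)) := h1
    rw [h3] at h4
    have h5 := tendsto_nhds_unique h4 tendsto_const_nhds
    exact_mod_cast h5
  · intro k hk m α hα
    have hN : Tendsto (fun n => ((dimE Λ ((quoS (homF Λ (𝟙_ C)) S hst).obj
        (tp T n)) : ℕ∞) : ℝ≥0∞) / numRank Λ (tp T n)) atTop (𝓝 ((k : ℕ) : ℝ≥0∞)) := by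
      have h3 := h1
      rw [hk] at h3
      simpa using h3
    obtain ⟨b, ⟨i⟩⟩ := exists_iso T m k
    have h3 := hvan (b := b) (tpow α k ≫ i.hom) ((structure_thm h _ hN).2 0 b _
      (numPow_tpow h.real hα k b i.hom))
    have h4 := hJ i.inv _ h3
    rwa [Category.assoc, Iso.hom_inv_id, Category.comp_id] at h4

/-- V3: the zero-one law for smash nilpotence. -/
theorem smash_law {T : C} [ExactPairing T T] (h : IsPow Λ R T) : ∃ N : ℕ∞, (N = 1 ∨ N = ⊤) ∧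
    Tendsto (fun n => ((dimE Λ ((𝟙_ C ⟶ tp T n) ⧸ smashSub Λ (tp T n)) : ℕ∞) : ℝ≥0∞) /
      numRank Λ (tp T n)) atTop (𝓝 (N : ℝ≥0∞)) ∧
    (N = 1 ↔ ∀ (n : ℕ) (α : 𝟙_ C ⟶ tp T n), NumTriv α → SmashNil α) := by
  obtain ⟨N, -, h1, h2, h3⟩ := quot_law h (fun Z => smashSub Λ Z)
    (fun f α hα => SmashNil.comp hα f) (by
      rintro ⟨k, hk⟩
      have := isIso_tpow_one (C := C) k
      apply one_ne (R := R) h.real
      have h4 := IsIso.hom_inv_id (tpow (𝟙 (𝟙_ C)) k)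
      rw [← h4]
      simp only [hk, zero_comp])
  refine ⟨N, ?_, h1, h2⟩
  by_cases hN : N = ⊤
  · exact Or.inr hN
  · left
    rw [h2]
    obtain ⟨k, rfl⟩ := ENat.ne_top_iff_exists.1 hN
    intro n α hα
    obtain ⟨j, hj⟩ := h3 k rfl n α hα
    obtain ⟨f, hf⟩ := exists_mul α k j
    refine ⟨k * j, ?_⟩
    rw [← hf, hj, zero_comp]

end Pool.Agent.N64.AF
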