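import Pool.Agent.N64.AF.M5
import Pool.Agent.N64.AF.V2

/-!
# Homological and numerical equivalence: the zero-one law
-/

set_option autoImplicit false

open CategoryTheory Limits MonoidalCategory Module Filter Topology
open Pool.Agent.Y112.SR Pool.Agent.Y112.KD
open scoped ENNReal

namespace Pool.Agent.N64.AF

universe v u w t x

section Hom

variable {C : Type u} [Category.{v} C] [Preadditive C] [MonoidalCategory C]
  [MonoidalPreadditive C] [SymmetricCategory C] [RightRigidCategory C]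
  {Λ : Type t} [Field Λ] [CharZero Λ] [Linear Λ C] [MonoidalLinear Λ C]
  {K : Type w} [Field K] [IsAlgClosed K] [Algebra Λ K] {R : SuperRealisation C K}

/-- The space of the homologically trivial morphisms: the realisation is zero. -/
def homSub (hR : IsReal Λ R) (Y Z : C) : Submodule Λ (Y ⟶ Z) where
  carrier := {f | R.H.map f = 0}
  zero_mem' := R.H.map_zero _ _
  add_mem' := fun {a b} ha hb => by
    change R.H.map (a + b) = 0
    rw [Functor.map_add, show R.H.map a = 0 from ha, show R.H.map b = 0 from hb, add_zero]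
  smul_mem' := fun c a ha => by
    change R.H.map (c • a) = 0
    rw [hR.lin, show R.H.map a = 0 from ha, smul_zero]

/-- The numerically trivial morphisms modulo the homologically trivial ones. -/
abbrev NumModHom (hR : IsReal Λ R) (Y Z : C) : Type _ :=
  numIdeal Λ Y Z ⧸ (homSub hR Y Z).comap (numIdeal Λ Y Z).subtype

omit [IsAlgClosed K] in
lemma exists_section (R : SuperRealisation C K) {Z : C} {α : 𝟙_ C ⟶ Z} (hα : R.H.map α ≠ 0) :
    ∃ s : R.H.obj Z ⟶ R.H.obj (𝟙_ C), R.H.map α ≫ s = 𝟙 _ := by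
  have h1 : finrank K (R.H.obj (𝟙_ C)) = 1 := bt_unit R
  obtain ⟨v, hv0, hv⟩ := finrank_eq_one_iff'.1 h1
  have h2 : (R.H.map α).hom v ≠ 0 := by
    intro h0
    apply hα
    ext w
    obtain ⟨c, rfl⟩ := hv w
    change (R.H.map α).hom (c • v) = 0
    rw [map_smul, h0, smul_zero]
  have h3 : LinearMap.ker (R.H.map α).hom = ⊥ := by
    rw [LinearMap.ker_eq_bot']
    intro w hw
    obtain ⟨c, rfl⟩ := hv w
    rw [map_smul] at hw
    rcases smul_eq_zero.1 hw with h | h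
    · rw [h, zero_smul]
    · exact absurd h h2
  obtain ⟨g, hg⟩ := (R.H.map α).hom.exists_leftInverse_of_injective h3
  refine ⟨ModuleCat.ofHom g, ?_⟩
  ext w
  exact LinearMap.congr_fun hg w

omit [IsAlgClosed K] in
lemma map_tpow_ne (R : SuperRealisation C K) {Z : C} {α : 𝟙_ C ⟶ Z} (hα : R.H.map α ≠ 0)
    (k : ℕ) : R.H.map (tpow α k) ≠ 0 := by
  obtain ⟨s, hs⟩ := exists_section R hα
  induction k with
  | zero =>
    intro h0
    have h1 : finrank K (R.H.obj (𝟙_ C)) = 1 := bt_unit R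
    have h2 : 𝟙 (R.H.obj (𝟙_ C)) = 0 := by
      rw [← CategoryTheory.Functor.map_id]
      exact h0
    have h4 : Subsingleton (R.H.obj (𝟙_ C)) :=
      ModuleCat.subsingleton_of_isZero ((IsZero.iff_id_eq_zero _).2 h2)
    rw [finrank_zero_of_subsingleton] at h1
    exact zero_ne_one h1
  | succ k ih =>
    intro h0
    apply ih
    have h1 : R.H.map (tpow α (k + 1)) = R.H.map (tpow α k) ≫ R.H.map (ρ_ (tp Z k)).inv ≫
        Functor.OplaxMonoidal.δ R.H (tp Z k) (𝟙_ C) ≫ (R.H.obj (tp Z k) ◁ R.H.map α) ≫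
          Functor.LaxMonoidal.μ R.H (tp Z k) Z := by
      rw [V1aux322.tpow_succ, Functor.map_comp, Functor.map_comp, Functor.Monoidal.map_whiskerLeft]
    calc R.H.map (tpow α k)
        = (R.H.map (tpow α (k + 1)) ≫ Functor.OplaxMonoidal.δ R.H (tp Z k) Z ≫
            (R.H.obj (tp Z k) ◁ s) ≫ Functor.LaxMonoidal.μ R.H (tp Z k) (𝟙_ C)) ≫
            R.H.map (ρ_ (tp Z k)).hom := by
          rw [h1]
          simp only [Category.assoc, Functor.Monoidal.μ_δ_assoc]
          rw [← MonoidalCategory.whiskerLeft_comp_assoc, hs, MonoidalCategory.whiskerLeft_id,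
            Category.id_comp, Functor.Monoidal.δ_μ_assoc, ← Functor.map_comp, Iso.inv_hom_id,
            CategoryTheory.Functor.map_id, Category.comp_id]
      _ = 0 := by rw [h0, zero_comp, zero_comp]

/-- The numerically trivial classes. -/
def numS (Λ : Type t) [Field Λ] [Linear Λ C] [MonoidalLinear Λ C] (Z : C) :
    Submodule Λ ((homF Λ (𝟙_ C)).obj Z) :=
  numIdeal Λ (𝟙_ C) Z

omit [IsAlgClosed K] in
lemma num_stab (hR : IsReal Λ R) : IsStab (homF Λ (𝟙_ C)) (numS (C := C) Λ) := by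
  intro Y Z f a ha
  have h := NumTriv.comp hR (f := (a : 𝟙_ C ⟶ Y)) ha (𝟙 _) f
  rw [Category.id_comp] at h
  exact h

/-- The homologically trivial ones among the numerically trivial classes. -/
def homS (hR : IsReal Λ R) (Z : C) :
    Submodule Λ ((sub (homF Λ (𝟙_ C)) (numS Λ) (num_stab hR)).obj Z) :=
  (homSub hR (𝟙_ C) Z).comap (numIdeal Λ (𝟙_ C) Z).subtype

omit [IsAlgClosed K] in
lemma hom_stab (hR : IsReal Λ R) :
    IsStab (sub (homF Λ (𝟙_ C)) (numS Λ) (num_stab hR)) (homS hR) := by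
  intro Y Z f a ha
  have h : R.H.map (show 𝟙_ C ⟶ Y from Subtype.val a) = 0 := ha
  change R.H.map ((show 𝟙_ C ⟶ Y from Subtype.val a) ≫ f) = 0
  rw [Functor.map_comp, h, zero_comp]

/-- The functor of the numerically trivial classes modulo the homologically trivial ones. -/
def numModHomF (hR : IsReal Λ R) : C ⥤ ModuleCat.{v} Λ :=
  quoS (sub (homF Λ (𝟙_ C)) (numS Λ) (num_stab hR)) (homS hR) (hom_stab hR)

instance (hR : IsReal Λ R) : (numModHomF hR).Additive := by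
  unfold numModHomF
  infer_instance

instance (hR : IsReal Λ R) : (numModHomF hR).Linear Λ := by
  unfold numModHomF
  infer_instance

/-- The dimension of the space of the numerically trivial classes modulo the homologically trivial
ones is at least `b ^ (2 n) / (2 (n + 1) ^ (b ^ 2))`. -/
def DefectLarge (hR : IsReal Λ R) (T : C) (n : ℕ) : Prop :=
  ((bt R T ^ (2 * n) : ℕ) : ℕ∞) ≤
    (2 * (n + 1) ^ (bt R T ^ 2) : ℕ) * dimE Λ (NumModHom hR (𝟙_ C) (tp (T ⊗ Tᘁ) n))

lemma defect_large (hR : IsReal Λ R) {T : C} (hT : R.CPlus T) (hb : 0 < bt R T) {m n : ℕ}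
    (hn : 128 * (m + 1) ^ 2 * bt R T ^ (4 * m + 12) ≤ n) {α : 𝟙_ C ⟶ tp (T ⊗ Tᘁ) m}
    (h1 : NumTriv α) (h2 : R.H.map α ≠ 0) : DefectLarge hR T n := by
  refine growth_gap hR hT hb (numModHomF hR) hn fun hs => h2 ?_
  have h3 : (Submodule.Quotient.mk (⟨α, h1⟩ : numIdeal Λ (𝟙_ C) (tp (T ⊗ Tᘁ) m)) :
      NumModHom hR (𝟙_ C) (tp (T ⊗ Tᘁ) m)) = 0 := @Subsingleton.elim _ hs _ _
  exact (Submodule.Quotient.mk_eq_zero _).1 h3

/-- The zero-one law for homological and numerical equivalence on the powers of `T ⊗ Tᘁ`. -/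
theorem hom_num_law (hR : IsReal Λ R) {T : C} (hT : R.CPlus T) (hb : 0 < bt R T) :
    (∃ N : ℕ∞, (N = 1 ∨ N = ⊤) ∧
      RatioTo Λ (T ⊗ Tᘁ) (fun n => dimE Λ ((𝟙_ C ⟶ tp (T ⊗ Tᘁ) n) ⧸
        homSub hR (𝟙_ C) (tp (T ⊗ Tᘁ) n))) N ∧
      (N = 1 ↔ ∀ (n : ℕ) (α : 𝟙_ C ⟶ tp (T ⊗ Tᘁ) n), NumTriv α → R.H.map α = 0)) ∧
    (∀ (m n : ℕ) (α : 𝟙_ C ⟶ tp (T ⊗ Tᘁ) m), NumTriv α → R.H.map α ≠ 0 →
      128 * (m + 1) ^ 2 * bt R T ^ (4 * m + 12) ≤ n → DefectLarge hR T n) ∧
    ∀ (i : 𝟙_ C ⟶ Tᘁ) (r : Tᘁ ⟶ 𝟙_ C), i ≫ r = 𝟙 _ → ∀ α : 𝟙_ C ⟶ T, NumTriv α →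
      R.H.map α ≠ 0 → ∀ n, 512 * bt R T ^ 16 ≤ n → DefectLarge hR T n := by
  obtain ⟨inst, hS⟩ := isPow_tensor_dual hR hT hb
  refine ⟨?_, fun m n α h1 h2 hn => defect_large hR hT hb hn h1 h2, ?_⟩
  · obtain ⟨N, h0, h1, h2, h3⟩ := quot_law hS (fun Z => homSub hR (𝟙_ C) Z)
      (fun {Y Z} f α hα => by
        change R.H.map (α ≫ f) = 0
        rw [Functor.map_comp, show R.H.map α = 0 from hα, zero_comp]) (by
        intro h
        have h1 : R.H.map (𝟙 (𝟙_ C)) ≠ 0 := by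
          have := map_tpow_ne R (Z := 𝟙_ C) (α := 𝟙 _) (fun h' => ?_) 0
          · exact this
          · have h1 : finrank K (R.H.obj (𝟙_ C)) = 1 := bt_unit R
            have h2 : 𝟙 (R.H.obj (𝟙_ C)) = 0 := by
              rw [← CategoryTheory.Functor.map_id]
              exact h'
            have h4 : Subsingleton (R.H.obj (𝟙_ C)) :=
              ModuleCat.subsingleton_of_isZero ((IsZero.iff_id_eq_zero _).2 h2)
            rw [finrank_zero_of_subsingleton] at h1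
            exact zero_ne_one h1
        exact h1 h)
    refine ⟨N, ?_, h1, h2⟩
    by_cases hN : N = ⊤
    · exact Or.inr hN
    · left
      obtain ⟨k, rfl⟩ := ENat.ne_top_iff_exists.1 hN
      refine h2.2 fun n α hα => ?_
      by_contra hne
      exact map_tpow_ne R hne k (h3 k rfl n α hα)
  · intro i r hir α h1 h2 n hn
    have h3 := (h1.comp hR (𝟙 _) ((ρ_ T).inv ≫ (T ◁ i) ≫ (λ_ (T ⊗ Tᘁ)).inv))
    rw [Category.id_comp] at h3
    refine defect_large (m := 1) hR hT hb ?_ h3 fun h4 => h2 ?_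
    · have e : 128 * (1 + 1) ^ 2 * bt R T ^ (4 * 1 + 12) = 512 * bt R T ^ 16 := by norm_num
      rw [e]
      exact hn
    · have e1 : α = (α ≫ (ρ_ T).inv ≫ (T ◁ i) ≫ (λ_ (T ⊗ Tᘁ)).inv) ≫ (λ_ (T ⊗ Tᘁ)).hom ≫
          (T ◁ r) ≫ (ρ_ T).hom := by
        simp only [Category.assoc, Iso.inv_hom_id_assoc]
        rw [← MonoidalCategory.whiskerLeft_comp_assoc, hir]
        simp
      rw [e1, Functor.map_comp, h4, zero_comp]

end Hom

end Pool.Agent.N64.AF
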