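import Pool.Agent.N64.AF.J

/-!
# Subfunctors and quotients, powers of the numerical ideal
-/

set_option autoImplicit false

open CategoryTheory Limits MonoidalCategory Module Filter Topology
open Pool.Agent.Y112.SR Pool.Agent.Y112.KD
open Pool.Agent.Y116.MT (tr)
open scoped ENNReal

namespace Pool.Agent.N64.AF

universe v u w t x

section Sub

variable {C : Type u} [Category.{v} C] {Λ : Type t} [Field Λ]

/-- A family of subspaces of the values of a functor is stable. -/
def IsStab (F : C ⥤ ModuleCat.{x} Λ) (S : ∀ Z, Submodule Λ (F.obj Z)) : Prop :=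
  ∀ ⦃Y Z : C⦄ (f : Y ⟶ Z), S Y ≤ (S Z).comap (F.map f).hom

/-- The subfunctor given by a stable family of subspaces. -/
def sub (F : C ⥤ ModuleCat.{x} Λ) (S : ∀ Z, Submodule Λ (F.obj Z)) (hS : IsStab F S) :
    C ⥤ ModuleCat.{x} Λ where
  obj Z := ModuleCat.of Λ (S Z)
  map {Y Z} f := ModuleCat.ofHom ((F.map f).hom.restrict (hS f))
  map_id Y := by
    ext a
    change (F.map (𝟙 Y)).hom a.1 = a.1
    rw [F.map_id]
    rfl
  map_comp {X Y Z} f g := by
    ext a
    change (F.map (f ≫ g)).hom a.1 = (F.map g).hom ((F.map f).hom a.1)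
    rw [F.map_comp]
    rfl

/-- The quotient by a stable family of subspaces. -/
def quoS (F : C ⥤ ModuleCat.{x} Λ) (S : ∀ Z, Submodule Λ (F.obj Z)) (hS : IsStab F S) :
    C ⥤ ModuleCat.{x} Λ where
  obj Z := ModuleCat.of Λ (F.obj Z ⧸ S Z)
  map {Y Z} f := ModuleCat.ofHom ((S Y).mapQ (S Z) (F.map f).hom (hS f))
  map_id Y := by
    ext a
    change (Submodule.Quotient.mk ((F.map (𝟙 Y)).hom a) : F.obj Y ⧸ S Y) =
      Submodule.Quotient.mk a
    rw [F.map_id]
    rfl
  map_comp {X Y Z} f g := by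
    ext a
    change (Submodule.Quotient.mk ((F.map (f ≫ g)).hom a) : F.obj Z ⧸ S Z) =
      Submodule.Quotient.mk ((F.map g).hom ((F.map f).hom a))
    rw [F.map_comp]
    rfl

variable {F : C ⥤ ModuleCat.{x} Λ} {S : ∀ Z, Submodule Λ (F.obj Z)} (hS : IsStab F S)

lemma quoS_map_mk {Y Z : C} (f : Y ⟶ Z) (a : F.obj Y) :
    ((quoS F S hS).map f).hom (Submodule.Quotient.mk a) =
      Submodule.Quotient.mk ((F.map f).hom a) := rfl

lemma sub_map_val {Y Z : C} (f : Y ⟶ Z) (a : S Y) :
    (((sub F S hS).map f).hom a : S Z).1 = (F.map f).hom a.1 := rfl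

instance [Preadditive C] [F.Additive] : (quoS F S hS).Additive where
  map_add {Y Z} {f g} := by
    ext a
    obtain ⟨a, rfl⟩ := Submodule.mkQ_surjective _ a
    change ((quoS F S hS).map (f + g)).hom (Submodule.Quotient.mk a) =
      ((quoS F S hS).map f).hom (Submodule.Quotient.mk a) +
        ((quoS F S hS).map g).hom (Submodule.Quotient.mk a)
    rw [quoS_map_mk, quoS_map_mk, quoS_map_mk, F.map_add]
    rfl

instance [Preadditive C] [F.Additive] : (sub F S hS).Additive where
  map_add {Y Z} {f g} := by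
    ext a
    apply Subtype.ext
    change (F.map (f + g)).hom a.1 = (F.map f).hom a.1 + (F.map g).hom a.1
    rw [F.map_add]
    rfl

instance [Preadditive C] [Linear Λ C] [F.Additive] [F.Linear Λ] : (quoS F S hS).Linear Λ where
  map_smul {Y Z} f c := by
    ext a
    obtain ⟨a, rfl⟩ := Submodule.mkQ_surjective _ a
    change ((quoS F S hS).map (c • f)).hom (Submodule.Quotient.mk a) =
      c • ((quoS F S hS).map f).hom (Submodule.Quotient.mk a)
    rw [quoS_map_mk, quoS_map_mk, F.map_smul]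
    rfl

instance [Preadditive C] [Linear Λ C] [F.Additive] [F.Linear Λ] : (sub F S hS).Linear Λ where
  map_smul {Y Z} f c := by
    ext a
    apply Subtype.ext
    change (F.map (c • f)).hom a.1 = c • (F.map f).hom a.1
    rw [F.map_smul]
    rfl

lemma quoS_nil {Y : C} (f : Y ⟶ Y) (h : IsNilpotent ((F.map f).hom : Module.End Λ (F.obj Y))) :
    IsNilpotent (((quoS F S hS).map f).hom : Module.End Λ ((quoS F S hS).obj Y)) := by
  obtain ⟨k, hk⟩ := h
  refine ⟨k, ?_⟩
  have h1 : ∀ (j : ℕ) (a : F.obj Y), ((((quoS F S hS).map f).hom :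
      Module.End Λ ((quoS F S hS).obj Y)) ^ j) (Submodule.Quotient.mk a) =
      Submodule.Quotient.mk ((((F.map f).hom : Module.End Λ (F.obj Y)) ^ j) a) := by
    intro j
    induction j with
    | zero => intro a; rfl
    | succ j ih =>
      intro a
      rw [pow_succ, pow_succ, Module.End.mul_apply, Module.End.mul_apply, quoS_map_mk, ih]
  apply LinearMap.ext
  intro a
  obtain ⟨a, rfl⟩ := Submodule.mkQ_surjective _ a
  refine (h1 k a).trans ?_
  rw [hk]
  rfl

lemma sub_nil {Y : C} (f : Y ⟶ Y) (h : IsNilpotent ((F.map f).hom : Module.End Λ (F.obj Y))) :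
    IsNilpotent (((sub F S hS).map f).hom : Module.End Λ ((sub F S hS).obj Y)) := by
  obtain ⟨k, hk⟩ := h
  refine ⟨k, ?_⟩
  have h1 : ∀ (j : ℕ) (a : S Y), (((((sub F S hS).map f).hom :
      Module.End Λ ((sub F S hS).obj Y)) ^ j) a : S Y).1 =
      (((F.map f).hom : Module.End Λ (F.obj Y)) ^ j) a.1 := by
    intro j
    induction j with
    | zero => intro a; rfl
    | succ j ih =>
      intro a
      rw [pow_succ, pow_succ, Module.End.mul_apply, Module.End.mul_apply]
      exact ih _
  apply LinearMap.ext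
  intro a
  apply Subtype.ext
  refine (h1 k a).trans ?_
  rw [hk]
  rfl

end Sub

section Pw

variable {C : Type u} [Category.{v} C] [Preadditive C] [MonoidalCategory C]
  [MonoidalPreadditive C] [SymmetricCategory C] [RightRigidCategory C]

/-- The morphism `f` is a composition `f = g ≫ y₁ ≫ ⋯ ≫ y_k` with numerically trivial morphisms
`y₁`, …, `y_k` whose sources are tensor powers of `T`. -/
def NumPow (T : C) : ℕ → ∀ {Y Z : C}, (Y ⟶ Z) → Prop
  | 0, _, _, _ => True
  | k + 1, Y, Z, f => ∃ (b : ℕ) (g : Y ⟶ tp T b) (y : tp T b ⟶ Z),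
      NumPow T k g ∧ NumTriv y ∧ f = g ≫ y

end Pw

/-- The functor of the morphisms from the object `W`. -/
abbrev homF (Λ : Type t) [Field Λ] {C : Type u} [Category.{v} C] [Preadditive C] [Linear Λ C]
    (W : C) : C ⥤ ModuleCat.{v} Λ :=
  (linearCoyoneda Λ C).obj (Opposite.op W)

lemma homF_map (Λ : Type t) [Field Λ] {C : Type u} [Category.{v} C] [Preadditive C] [Linear Λ C]
    (W : C) {Y Z : C} (f : Y ⟶ Z) (a : W ⟶ Y) : ((homF Λ W).map f).hom a = a ≫ f := rfl

instance (Λ : Type t) [Field Λ] {C : Type u} [Category.{v} C] [Preadditive C] [Linear Λ C]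
    (W : C) : (homF Λ W).Linear Λ where
  map_smul {Y Z} f c := by
    ext a
    change a ≫ (c • f) = c • (a ≫ f)
    rw [Linear.comp_smul]

end Pool.Agent.N64.AF
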