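import Pool.Agent.N64.AF.Q

/-!
# The structure of a functor with a finite limit
-/

set_option autoImplicit false
set_option linter.unusedSectionVars false
set_option linter.style.haveILetI false

open CategoryTheory Limits MonoidalCategory Module Filter Topology
open Pool.Agent.Y112.SR Pool.Agent.Y112.KD
open Pool.Agent.Y116.MT (tr)
open scoped ENNReal

namespace Pool.Agent.N64.AF

universe v u w t x

/-- Dimensions and kernels. -/
lemma finrank_map_of_ker {Λ : Type t} [Field Λ] {V : Type v} {W : Type w} [AddCommGroup V]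
    [AddCommGroup W] [Module Λ V] [Module Λ W] [Module.Finite Λ W] {P : Type u} [AddCommGroup P]
    [Module Λ P] (Θ : V →ₗ[Λ] W) (ν : V →ₗ[Λ] P) (h : LinearMap.ker Θ ≤ LinearMap.ker ν) :
    finrank Λ (LinearMap.range Θ) =
      finrank Λ ((LinearMap.ker ν).map Θ) + finrank Λ (LinearMap.range ν) := by
  set A : Submodule Λ W := (LinearMap.ker ν).map Θ with hA
  have hAB : A ≤ LinearMap.range Θ := by
    rintro _ ⟨v, -, rfl⟩
    exact ⟨v, rfl⟩
  have h2 := (A.mkQ.domRestrict (LinearMap.range Θ)).finrank_range_add_finrank_ker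
  have h3 : LinearMap.range (A.mkQ.domRestrict (LinearMap.range Θ)) =
      LinearMap.range (A.mkQ ∘ₗ Θ) := by
    rw [LinearMap.range_domRestrict, LinearMap.range_comp]
  have h4 : finrank Λ (LinearMap.ker (A.mkQ.domRestrict (LinearMap.range Θ))) = finrank Λ A := by
    rw [LinearMap.ker_domRestrict, Submodule.ker_mkQ]
    exact (Submodule.comapSubtypeEquivOfLe hAB).finrank_eq
  have h5 : LinearMap.ker (A.mkQ ∘ₗ Θ) = LinearMap.ker ν := by
    rw [LinearMap.ker_comp, Submodule.ker_mkQ, hA, Submodule.comap_map_eq]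
    exact sup_eq_left.2 h
  have h6 : finrank Λ (LinearMap.range (A.mkQ ∘ₗ Θ)) = finrank Λ (LinearMap.range ν) := by
    rw [← (A.mkQ ∘ₗ Θ).quotKerEquivRange.finrank_eq, ← ν.quotKerEquivRange.finrank_eq, h5]
  rw [h3, h6, h4] at h2
  omega

section Pw

variable {C : Type u} [Category.{v} C] [Preadditive C] [MonoidalCategory C]
  [MonoidalPreadditive C] [SymmetricCategory C] [RightRigidCategory C] {T : C}

lemma NumPow.pred {k : ℕ} : ∀ {Y Z : C} {f : Y ⟶ Z}, NumPow T (k + 1) f → NumPow T k f := by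
  induction k with
  | zero => intro Y Z f _; trivial
  | succ k ih =>
    rintro Y Z f ⟨b, g, y, hg, hy, rfl⟩
    exact ⟨b, g, y, ih hg, hy, rfl⟩

lemma NumPow.mono {k l : ℕ} (h : k ≤ l) {Y Z : C} {f : Y ⟶ Z} (hf : NumPow T l f) :
    NumPow T k f := by
  induction l, h using Nat.le_induction with
  | base => exact hf
  | succ l _ ih => exact ih hf.pred

lemma NumPow.split {a : ℕ} (b : ℕ) : ∀ {Y : C} {d : ℕ} {f : Y ⟶ tp T d}, NumPow T (a + b) f →
    ∃ (c : ℕ) (g : Y ⟶ tp T c) (h : tp T c ⟶ tp T d), NumPow T a g ∧ NumPow T b h ∧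
      f = g ≫ h := by
  induction b with
  | zero =>
    intro Y d f hf
    exact ⟨d, f, 𝟙 _, hf, trivial, (Category.comp_id f).symm⟩
  | succ b ih =>
    rintro Y d f ⟨b₀, g₀, y, hg, hy, rfl⟩
    obtain ⟨c, g, h, h1, h2, rfl⟩ := ih hg
    exact ⟨c, g, h ≫ y, h1, ⟨b₀, h, y, h2, hy, rfl⟩, Category.assoc _ _ _⟩

variable {Λ : Type t} [Field Λ] [CharZero Λ] [Linear Λ C] [MonoidalLinear Λ C]
  {K : Type w} [Field K] [Algebra Λ K] {R : SuperRealisation C K}

lemma NumPow.head (hR : IsReal Λ R) {k : ℕ} : ∀ {Y : C} {d : ℕ} {f : Y ⟶ tp T d},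
    NumPow T (k + 1) f → ∃ (c : ℕ) (y : Y ⟶ tp T c) (h : tp T c ⟶ tp T d), NumTriv y ∧
      NumPow T k h ∧ f = y ≫ h := by
  induction k with
  | zero =>
    rintro Y d f ⟨b, g, y, -, hy, rfl⟩
    refine ⟨d, g ≫ y, 𝟙 _, ?_, trivial, (Category.comp_id _).symm⟩
    have h1 := NumTriv.comp hR hy g (𝟙 _)
    rwa [Category.comp_id] at h1
  | succ k ih =>
    rintro Y d f ⟨b, g, y, hg, hy, rfl⟩
    obtain ⟨c, y', h, h1, h2, rfl⟩ := ih hg
    exact ⟨c, y', h ≫ y, h1, ⟨b, h, y, h2, hy, rfl⟩, Category.assoc _ _ _⟩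

end Pw

variable {C : Type u} [Category.{v} C] [Preadditive C] [MonoidalCategory C]
  [MonoidalPreadditive C] [SymmetricCategory C] [RightRigidCategory C]
  {Λ : Type t} [Field Λ] [CharZero Λ] [Linear Λ C] [MonoidalLinear Λ C]
  {K : Type w} [Field K] [IsAlgClosed K] [Algebra Λ K] {R : SuperRealisation C K}

open N441G in
/-- The first constituent. -/
theorem exists_simple (hR : IsReal Λ R) {U : C} (hU : R.CPlus U) (F : C ⥤ ModuleCat.{x} Λ)
    [F.Additive] [F.Linear Λ] [Module.Finite Λ (F.obj U)]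
    (hnil : ∀ y : U ⟶ U, NumTriv y → IsNilpotent ((F.map y).hom : Module.End Λ (F.obj U)))
    (hne : ¬ Subsingleton (F.obj U)) :
    ∃ (g : U ⟶ U) (z : F.obj U), NumIdem g ∧ 0 < nr Λ g (𝟙 U) ∧
      ∀ (Z : C) (c : U ⟶ Z), (F.map (g ≫ c)).hom z = 0 → NumTriv (g ≫ c) := by
  letI := act F U
  haveI := act_tower F U
  haveI := idl_two hR U
  haveI := idl_fin hR U
  haveI : IsSemisimpleRing (End U ⧸ idl hR U) := semisimple hR hU (idl hR U) (mem_idl hR U)
  have hnil' : ∀ y ∈ idl hR U, ∃ n : ℕ, ∀ v : F.obj U, y ^ n • v = 0 := by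
    intro y hy
    obtain ⟨n, hn⟩ := hnil y hy
    refine ⟨n, fun v => ?_⟩
    rw [act_pow, hn]
    rfl
  have hbot : (⊥ : Submodule (End U) (F.obj U)) ≠ ⊤ := by
    intro h
    exact hne (Submodule.subsingleton_iff (End U) |>.1 (subsingleton_of_bot_eq_top h))
  obtain ⟨N', g, z, hlt, hN', hg, hgz, hgx, hfr⟩ := mod_step (Λ := Λ) (A := End U)
    (V := F.obj U) (idl hR U) hnil' ⊥ hbot
  rw [nr_eq hR U g] at hfr
  have hlt' : finrank Λ ((⊥ : Submodule (End U) (F.obj U)).restrictScalars Λ) <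
      finrank Λ (N'.restrictScalars Λ) := by
    apply Submodule.finrank_lt_finrank_of_lt
    exact hlt
  have hgI : NumIdem (Y := U) g := hg
  refine ⟨g, z, hgI, by omega, fun Z c hc => ?_⟩
  refine triv_of hR hgI c fun d => ?_
  obtain ⟨w, hw⟩ : ∃ w : End U, w = (c ≫ d : U ⟶ U) := ⟨_, rfl⟩
  have h10 : (g * w * g) • z = g • ((F.map (((g : U ⟶ U) ≫ c) ≫ d)).hom z) := by
    rw [mul_smul, mul_smul]
    congr 1
    rw [hw]
    change (F.map (c ≫ d)).hom ((F.map (g : U ⟶ U)).hom z) = _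
    rw [← comp_ap, Category.assoc]
  have h8 : (g * w * g) • z ∈ (⊥ : Submodule (End U) (F.obj U)) := by
    rw [h10, comp_ap, hc, map_zero, smul_zero]
    exact Submodule.zero_mem _
  have h12 : NumTriv (Y := U) (Z := U) (g * w * g) := hgx _ h8
  have h13 : (g * w * g : End U) = ((g : U ⟶ U) ≫ (c ≫ d)) ≫ g := by
    rw [End.mul_def, End.mul_def, hw]
    simp only [Category.assoc]
  rw [h13] at h12
  exact h12

/-- The values are finite dimensional and numerically trivial operators are nilpotent. -/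
structure IsFin (Λ : Type t) [Field Λ] [Linear Λ C] (T : C) (F : C ⥤ ModuleCat.{x} Λ) :
    Prop where
  fin : ∀ n, Module.Finite Λ (F.obj (tp T n))
  nil : ∀ (m : ℕ) (y : tp T m ⟶ tp T m), NumTriv y →
    IsNilpotent ((F.map y).hom : Module.End Λ (F.obj (tp T m)))

lemma IsFin.sub {T : C} {F : C ⥤ ModuleCat.{x} Λ} (h : IsFin Λ T F)
    {S : ∀ Z, Submodule Λ (F.obj Z)} (hS : IsStab F S) : IsFin Λ T (sub F S hS) where
  fin n := by
    have := h.fin n
    exact inferInstanceAs (Module.Finite Λ (S (tp T n)))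
  nil m y hy := sub_nil hS y (h.nil m y hy)

lemma IsFin.quoS {T : C} {F : C ⥤ ModuleCat.{x} Λ} (h : IsFin Λ T F)
    {S : ∀ Z, Submodule Λ (F.obj Z)} (hS : IsStab F S) : IsFin Λ T (quoS F S hS) where
  fin n := by
    have := h.fin n
    exact inferInstanceAs (Module.Finite Λ (F.obj (tp T n) ⧸ S (tp T n)))
  nil m y hy := quoS_nil hS y (h.nil m y hy)

section Sub1

/-- The map `c ↦ F(g ≫ c) z`. -/
noncomputable def thetaMap (F : C ⥤ ModuleCat.{x} Λ) [F.Additive] [F.Linear Λ] {U : C}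
    (g : U ⟶ U) (z : F.obj U) (Z : C) : (U ⟶ Z) →ₗ[Λ] F.obj Z where
  toFun c := (F.map (g ≫ c)).hom z
  map_add' a b := by
    rw [Preadditive.comp_add, F.map_add]
    rfl
  map_smul' r a := by
    rw [Linear.comp_smul, F.map_smul]
    rfl

lemma thetaMap_apply (F : C ⥤ ModuleCat.{x} Λ) [F.Additive] [F.Linear Λ] {U : C}
    (g : U ⟶ U) (z : F.obj U) (Z : C) (c : U ⟶ Z) :
    thetaMap F g z Z c = (F.map (g ≫ c)).hom z := rfl

lemma thetaMap_comp (F : C ⥤ ModuleCat.{x} Λ) [F.Additive] [F.Linear Λ] {U : C}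
    (g : U ⟶ U) (z : F.obj U) {Y Z : C} (c : U ⟶ Y) (f : Y ⟶ Z) :
    (F.map f).hom (thetaMap F g z Y c) = thetaMap F g z Z (c ≫ f) := by
  rw [thetaMap_apply, thetaMap_apply, ← Category.assoc]
  exact (N441G.comp_ap F _ _ _).symm

/-- The map defining the multiplicity. -/
noncomputable def nuMap (Λ : Type t) [Field Λ] [Linear Λ C] [MonoidalLinear Λ C] {U : C}
    (g : U ⟶ U) (Z : C) : (U ⟶ Z) →ₗ[Λ] ((U ⟶ Z) ⧸ numIdeal Λ U Z) :=
  (numIdeal Λ U Z).mkQ ∘ₗ Linear.rightComp Λ U (𝟙 Z) ∘ₗ Linear.leftComp Λ Z g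

lemma mem_ker_nuMap {U : C} (g : U ⟶ U) {Z : C} (c : U ⟶ Z) :
    c ∈ LinearMap.ker (nuMap Λ g Z) ↔ NumTriv (g ≫ c) := by
  rw [LinearMap.mem_ker]
  change (numIdeal Λ U Z).mkQ ((g ≫ c) ≫ 𝟙 Z) = 0 ↔ _
  rw [Category.comp_id, Submodule.mkQ_apply, Submodule.Quotient.mk_eq_zero, mem_numIdeal]

variable (F : C ⥤ ModuleCat.{x} Λ) [F.Additive] [F.Linear Λ] {U : C} (g : U ⟶ U) (z : F.obj U)

lemma isStab_range : IsStab F (fun Z => LinearMap.range (thetaMap F g z Z)) := by
  rintro Y Z f _ ⟨c, rfl⟩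
  exact ⟨c ≫ f, (thetaMap_comp F g z c f).symm⟩

lemma isStab_ker (hR : IsReal Λ R) :
    IsStab F (fun Z => (LinearMap.ker (nuMap Λ g Z)).map (thetaMap F g z Z)) := by
  rintro Y Z f _ ⟨c, hc, rfl⟩
  refine ⟨c ≫ f, ?_, (thetaMap_comp F g z c f).symm⟩
  have h1 : NumTriv (g ≫ c) := (mem_ker_nuMap g c).1 hc
  have h2 := NumTriv.comp hR h1 (𝟙 _) f
  rw [Category.id_comp, Category.assoc] at h2
  exact (mem_ker_nuMap g _).2 h2

end Sub1

/-- The induction. -/
theorem structure_core {T : C} [ExactPairing T T] (h : IsPow Λ R T) (N : ℕ) :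
    ∀ (F : C ⥤ ModuleCat.{x} Λ) [F.Additive] [F.Linear Λ], IsFin Λ T F →
    Tendsto (fun n => (finrank Λ (F.obj (tp T n)) : ℝ) /
        cmpSeq (fun n => numRank Λ (tp T n)) (bt R T) n) atTop (𝓝 (N : ℝ)) →
    (∃ (ι : Type) (_ : Fintype ι) (d : ι → Σ m : ℕ, (tp T m ⟶ tp T m)) (r : ι → ℕ),
      (∀ i, NumIdem (d i).2 ∧ IsRk R (d i).2 (r i) ∧ 0 < r i) ∧ ∑ i, r i = N ∧
      ∀ n, finrank Λ (F.obj (tp T n)) = ∑ i, nr Λ (d i).2 (𝟙 (tp T n))) ∧
    ∀ (a b : ℕ) (f : tp T a ⟶ tp T b), NumPow T N f → F.map f = 0 := by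
  induction N using Nat.strong_induction_on with
  | _ N ih =>
  intro F _ _ hfin hlim
  have hcp : ∀ n, R.CPlus (tp T n) := fun n => cplus_tp h.real h.cplus n
  have hc : ∀ n, (0 : ℝ) < cmpSeq (fun n => numRank Λ (tp T n)) (bt R T) n := fun n => by
    exact_mod_cast (numRank_tendsto h).1 n
  by_cases hall : ∀ n, Subsingleton (F.obj (tp T n))
  · -- the zero functor
    have h0 : ∀ n, finrank Λ (F.obj (tp T n)) = 0 := fun n => by
      have := hall n
      exact finrank_zero_of_subsingleton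
    have h1 : (fun n => (finrank Λ (F.obj (tp T n)) : ℝ) /
        cmpSeq (fun n => numRank Λ (tp T n)) (bt R T) n) = fun _ => 0 := by
      funext n
      rw [h0, Nat.cast_zero, zero_div]
    rw [h1] at hlim
    have h2 : N = 0 := by
      have := tendsto_nhds_unique hlim tendsto_const_nhds
      exact_mod_cast this
    refine ⟨⟨Empty, inferInstance, fun i => i.elim, fun i => i.elim, fun i => i.elim, ?_, ?_⟩, ?_⟩
    · simp [h2]
    · intro n
      simp [h0]
    · intro a b f _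
      have := hall b
      ext v
      exact Subsingleton.elim _ _
  · push Not at hall
    obtain ⟨m, hm⟩ := hall
    have hm' : ¬ Subsingleton (F.obj (tp T m)) := not_subsingleton_iff_nontrivial.2 hm
    have hfinm := hfin.fin m
    obtain ⟨g, z, hg, hgpos, hgz⟩ := exists_simple h.real (hcp m) F (hfin.nil m) hm'
    obtain ⟨r, hr, -⟩ := exists_rk h.real (hcp m) hg
    have hrpos : 0 < r := by
      by_contra h0
      have h1 : r = 0 := by omega
      have h2 := nr_le_cmpSeq h hg hr m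
      rw [h1, zero_mul] at h2
      omega
    -- the subfunctors
    have hS := isStab_range F g z
    have hS' := isStab_ker (R := R) F g z h.real
    have hF1 := hfin.sub hS'
    have hF2 := hfin.quoS hS
    -- dimensions
    have hdim : ∀ n, finrank Λ (F.obj (tp T n)) =
        finrank Λ ((quoS F _ hS).obj (tp T n)) + finrank Λ ((sub F _ hS').obj (tp T n)) +
          nr Λ g (𝟙 (tp T n)) := by
      intro n
      have := hfin.fin n
      have h1 := Submodule.finrank_quotient_add_finrank (LinearMap.range (thetaMap F g z (tp T n)))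
      have h2 := finrank_map_of_ker (thetaMap F g z (tp T n)) (nuMap Λ g (tp T n)) (by
        intro c hc'
        rw [mem_ker_nuMap]
        exact hgz _ c hc')
      have h3 : finrank Λ (LinearMap.range (nuMap Λ g (tp T n))) = nr Λ g (𝟙 (tp T n)) := rfl
      rw [h3] at h2
      change _ = finrank Λ (F.obj (tp T n) ⧸ LinearMap.range (thetaMap F g z (tp T n))) +
        finrank Λ ((LinearMap.ker (nuMap Λ g (tp T n))).map (thetaMap F g z (tp T n))) + _
      omega
    -- limits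
    have hlimg : Tendsto (fun n => (nr Λ g (𝟙 (tp T n)) : ℝ) /
        cmpSeq (fun n => numRank Λ (tp T n)) (bt R T) n) atTop (𝓝 (r : ℝ)) := by
      rw [Metric.tendsto_atTop]
      intro ε hε
      obtain ⟨n₀, hn₀⟩ := eventually_atTop.1 (eventually_nr h hg hr (half_pos hε))
      refine ⟨n₀, fun n hn => ?_⟩
      have h1 := hn₀ n hn
      rw [← le_div_iff₀ (hc n)] at h1
      have h2 : (nr Λ g (𝟙 (tp T n)) : ℝ) ≤
          r * cmpSeq (fun n => numRank Λ (tp T n)) (bt R T) n := by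
        exact_mod_cast nr_le_cmpSeq h hg hr n
      rw [← div_le_iff₀ (hc n)] at h2
      rw [Real.dist_eq, abs_lt]
      constructor <;> linarith
    have hle : ∀ (G : C ⥤ ModuleCat.{x} Λ) [G.Additive] [G.Linear Λ], IsFin Λ T G →
        (∀ n, finrank Λ (G.obj (tp T n)) ≤ finrank Λ (F.obj (tp T n))) →
        ∃ k : ℕ, Tendsto (fun n => (finrank Λ (G.obj (tp T n)) : ℝ) /
          cmpSeq (fun n => numRank Λ (tp T n)) (bt R T) n) atTop (𝓝 (k : ℝ)) := by
      intro G _ _ hG hGF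
      rcases nilpotent_seq h hcp G hG.fin hG.nil with ⟨k, -, hk, -⟩ | hk
      · exact ⟨k, hk⟩
      · exfalso
        have h1 : ∀ᶠ n in atTop, (N : ℝ) + 1 ≤ (finrank Λ (G.obj (tp T n)) : ℝ) /
            cmpSeq (fun n => numRank Λ (tp T n)) (bt R T) n := hk.eventually_ge_atTop _
        have h2 : ∀ᶠ n in atTop, (finrank Λ (F.obj (tp T n)) : ℝ) /
            cmpSeq (fun n => numRank Λ (tp T n)) (bt R T) n < (N : ℝ) + 1 :=
          hlim.eventually (gt_mem_nhds (by linarith))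
        obtain ⟨n, hn1, hn2⟩ := (h1.and h2).exists
        have h3 : (finrank Λ (G.obj (tp T n)) : ℝ) /
            cmpSeq (fun n => numRank Λ (tp T n)) (bt R T) n ≤ (finrank Λ (F.obj (tp T n)) : ℝ) /
            cmpSeq (fun n => numRank Λ (tp T n)) (bt R T) n := by
          apply div_le_div_of_nonneg_right _ (hc n).le
          exact_mod_cast hGF n
        linarith
    obtain ⟨N₁, hN₁⟩ := hle (sub F _ hS') hF1 (fun n => by have := hdim n; omega)
    obtain ⟨N₂, hN₂⟩ := hle (quoS F _ hS) hF2 (fun n => by have := hdim n; omega)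
    have hsum : N = N₂ + N₁ + r := by
      have h1 : (fun n => (finrank Λ (F.obj (tp T n)) : ℝ) /
          cmpSeq (fun n => numRank Λ (tp T n)) (bt R T) n) = fun n =>
          (finrank Λ ((quoS F _ hS).obj (tp T n)) : ℝ) /
            cmpSeq (fun n => numRank Λ (tp T n)) (bt R T) n +
          (finrank Λ ((sub F _ hS').obj (tp T n)) : ℝ) /
            cmpSeq (fun n => numRank Λ (tp T n)) (bt R T) n +
          (nr Λ g (𝟙 (tp T n)) : ℝ) / cmpSeq (fun n => numRank Λ (tp T n)) (bt R T) n := by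
        funext n
        rw [hdim n]
        push_cast
        ring
      rw [h1] at hlim
      have h2 := tendsto_nhds_unique hlim ((hN₂.add hN₁).add hlimg)
      exact_mod_cast h2
    obtain ⟨⟨ι₁, _, d₁, r₁, hd₁, hs₁, hf₁⟩, hk₁⟩ := ih N₁ (by omega) (sub F _ hS') hF1 hN₁
    obtain ⟨⟨ι₂, _, d₂, r₂, hd₂, hs₂, hf₂⟩, hk₂⟩ := ih N₂ (by omega) (quoS F _ hS) hF2 hN₂
    refine ⟨⟨Option (ι₂ ⊕ ι₁), inferInstance, fun i => i.elim ⟨m, g⟩ (Sum.elim d₂ d₁),
      fun i => i.elim r (Sum.elim r₂ r₁), ?_, ?_, ?_⟩, ?_⟩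
    · rintro (_ | (i | i))
      · exact ⟨hg, hr, hrpos⟩
      · exact hd₂ i
      · exact hd₁ i
    · rw [Fintype.sum_option, Fintype.sum_sum_type]
      simp only [Option.elim_none, Option.elim_some, Sum.elim_inl, Sum.elim_inr]
      rw [hs₁, hs₂, hsum]
      ring
    · intro n
      rw [Fintype.sum_option, Fintype.sum_sum_type]
      simp only [Option.elim_none, Option.elim_some, Sum.elim_inl, Sum.elim_inr]
      rw [hdim n, hf₁, hf₂]
      ring
    · -- vanishing
      intro a b f hf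
      have hf1 : NumPow T (N₂ + (N₁ + 1)) f := hf.mono (by omega)
      obtain ⟨c, g₁, h₁, hg₁, hh₁, rfl⟩ := hf1.split (N₁ + 1)
      obtain ⟨c', y, h₂, hy, hh₂, rfl⟩ := hh₁.head h.real
      have e1 := hk₂ a c g₁ hg₁
      have e2 := hk₁ c' b h₂ hh₂
      ext v
      have e3 : ((quoS F _ hS).map g₁).hom (Submodule.Quotient.mk v) = 0 := by
        rw [e1]
        rfl
      rw [quoS_map_mk] at e3
      have e4 : (F.map g₁).hom v ∈ LinearMap.range (thetaMap F g z (tp T c)) :=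
        (Submodule.Quotient.mk_eq_zero _).1 e3
      obtain ⟨c₀, hc₀⟩ := e4
      have e5 : (F.map y).hom ((F.map g₁).hom v) ∈
          (LinearMap.ker (nuMap Λ g (tp T c'))).map (thetaMap F g z (tp T c')) := by
        rw [← hc₀]
        refine ⟨c₀ ≫ y, ?_, (thetaMap_comp F g z c₀ y).symm⟩
        have h2 := NumTriv.comp h.real hy (g ≫ c₀) (𝟙 _)
        rw [Category.comp_id, Category.assoc] at h2
        exact (mem_ker_nuMap g _).2 h2
      have e6 := sub_map_val hS' h₂ ⟨_, e5⟩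
      rw [e2] at e6
      rw [F.map_comp, F.map_comp]
      exact e6.symm

/-- The hypotheses of the induction. -/
theorem isFin_of_lim {T : C} [ExactPairing T T] (h : IsPow Λ R T) (F : C ⥤ ModuleCat.{x} Λ)
    [F.Additive] [F.Linear Λ] {N : ℕ}
    (hN : Tendsto (fun n => ((dimE Λ (F.obj (tp T n)) : ℕ∞) : ℝ≥0∞) / numRank Λ (tp T n)) atTop
      (𝓝 (N : ℝ≥0∞))) : IsFin Λ T F ∧
    Tendsto (fun n => (finrank Λ (F.obj (tp T n)) : ℝ) /
        cmpSeq (fun n => numRank Λ (tp T n)) (bt R T) n) atTop (𝓝 (N : ℝ)) := by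
  obtain ⟨N', h1, -, h3⟩ := law h F
  have h4 : (N' : ℝ≥0∞) = N := tendsto_nhds_unique h1 hN
  have h5 : N' = (N : ℕ∞) := by exact_mod_cast h4
  obtain ⟨h6, -⟩ := h3 (by rw [h5]; exact ENat.natCast_ne_top N)
  have hfin : IsFin Λ T F := ⟨fun n => (h6 n).1, fun n y hy => (h6 n).2.2 y hy⟩
  refine ⟨hfin, ?_⟩
  have hcp : ∀ n, R.CPlus (tp T n) := fun n => cplus_tp h.real h.cplus n
  rcases nilpotent_case h F hfin.fin hfin.nil with ⟨k, -, h7, -⟩ | h7
  · -- the value of the limit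
    have hβ : ∀ n, (0 : ℝ) < numRank Λ (tp T n) := fun n => by
      exact_mod_cast (numRank_mono h n).1
    have h8 : Tendsto (fun n => ((dimE Λ (F.obj (tp T n)) : ℕ∞) : ℝ≥0∞) / numRank Λ (tp T n))
        atTop (𝓝 (k : ℝ≥0∞)) := by
      have h4 := (ENNReal.continuous_ofReal.tendsto _).comp h7
      rw [ENNReal.ofReal_natCast] at h4
      refine (h4.congr fun n => ?_)
      have := hfin.fin n
      rw [dimE_eq, Function.comp_apply, ENNReal.ofReal_div_of_pos (hβ n),
        ENNReal.ofReal_natCast, ENNReal.ofReal_natCast]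
      rfl
    have h9 : (k : ℝ≥0∞) = N := tendsto_nhds_unique h8 hN
    have h10 : k = N := by exact_mod_cast h9
    subst h10
    have hc : ∀ n, (0 : ℝ) < cmpSeq (fun n => numRank Λ (tp T n)) (bt R T) n := fun n => by
      exact_mod_cast (numRank_tendsto h).1 n
    have h0 := (numRank_tendsto h).2 0
    simp only [add_zero, pow_zero] at h0
    have h11 := h7.mul h0
    rw [mul_one] at h11
    refine h11.congr fun n => ?_
    have h1 := (hc n).ne'
    have h2 := (hβ n).ne'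
    field_simp
  · exfalso
    obtain ⟨h8, -⟩ := law_top h F hfin.fin h7
    have h9 : (⊤ : ℝ≥0∞) = N := tendsto_nhds_unique h8 hN
    exact ENNReal.natCast_ne_top N h9.symm

/-- S: **the structure theorem**. -/
theorem structure_thm {T : C} [ExactPairing T T] (h : IsPow Λ R T) (F : C ⥤ ModuleCat.{x} Λ)
    [F.Additive] [F.Linear Λ] {N : ℕ}
    (hN : Tendsto (fun n => ((dimE Λ (F.obj (tp T n)) : ℕ∞) : ℝ≥0∞) / numRank Λ (tp T n)) atTop
      (𝓝 (N : ℝ≥0∞))) :
    (∃ (ι : Type) (_ : Fintype ι) (m r : ι → ℕ) (e : ∀ i, tp T (m i) ⟶ tp T (m i)),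
      (∀ i, NumIdem (e i) ∧ IsRk R (e i) (r i) ∧ 0 < r i) ∧ ∑ i, r i = N ∧
      ∀ n, finrank Λ (F.obj (tp T n)) = ∑ i, nr Λ (e i) (𝟙 (tp T n))) ∧
    ∀ (a b : ℕ) (f : tp T a ⟶ tp T b), NumPow T N f → F.map f = 0 := by
  obtain ⟨hfin, hlim⟩ := isFin_of_lim h F hN
  obtain ⟨⟨ι, i1, d, r, h1, h2, h3⟩, h4⟩ := structure_core h N F hfin hlim
  exact ⟨⟨ι, i1, fun i => (d i).1, r, fun i => (d i).2, h1, h2, h3⟩, h4⟩

end Pool.Agent.N64.AF
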