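import Pool.Agent.N64.AF.M1
import Pool.Agent.N64.AF.S
import Pool.Agent.N64.AF.E3
import Pool.Agent.Y112.SR.Main

/-!
# The values of an additive functor at simple direct summands of the powers
-/

set_option autoImplicit false

open CategoryTheory Limits MonoidalCategory Module Filter Topology
open Pool.Agent.Y112.SR Pool.Agent.Y112.KD
open Pool.Agent.Y116.MT (tr)
open scoped ENNReal

namespace Pool.Agent.N64.AF

universe v u w t x

variable {C : Type u} [Category.{v} C] [Preadditive C] [MonoidalCategory C]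
  [MonoidalPreadditive C] [SymmetricCategory C] [RightRigidCategory C]
  {Λ : Type t} [Field Λ] [CharZero Λ] [Linear Λ C] [MonoidalLinear Λ C]
  {K : Type w} [Field K] [IsAlgClosed K] [Algebra Λ K] {R : SuperRealisation C K}

/-- The object `P` is simple modulo numerical equivalence: it is not numerically trivial, and each
endomorphism is numerically trivial or has a right inverse modulo numerical equivalence. -/
def NumSimple (P : C) : Prop :=
  ¬ NumTriv (𝟙 P) ∧ ∀ f : P ⟶ P, NumTriv f ∨ ∃ g : P ⟶ P, NumTriv (f ≫ g - 𝟙 P)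

lemma NumTriv.sub' {Y Z : C} {a b : Y ⟶ Z} (ha : NumTriv a) (hb : NumTriv b) :
    NumTriv (a - b) := fun g => by
  rw [Preadditive.sub_comp]
  have h1 : tr (a ≫ g) = tr (a ≫ g - b ≫ g) + tr (b ≫ g) := by
    rw [← tr_add', sub_add_cancel]
  rw [ha g, hb g, add_zero] at h1
  exact h1.symm

omit [CharZero Λ] [IsAlgClosed K] in
/-- A numerical idempotent of a simple object is trivial or the identity. -/
lemma NumSimple.idem [CharZero Λ] (hR : IsReal Λ R) {P : C} (hP : NumSimple P) {e : P ⟶ P}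
    (he : NumIdem e) : NumTriv e ∨ NumTriv (e - 𝟙 P) := by
  rcases hP.2 e with h | ⟨g, hg⟩
  · exact Or.inl h
  · right
    -- e ≫ (e ≫ g - 1) and (e ≫ e - e) ≫ g
    have h1 : NumTriv (e ≫ (e ≫ g - 𝟙 P)) := by
      have := NumTriv.comp hR hg e (𝟙 P)
      rwa [Category.comp_id] at this
    have h2 : NumTriv ((e ≫ e - e) ≫ g) := by
      have := NumTriv.comp hR he (𝟙 P) g
      rwa [Category.id_comp] at this
    have h3 : e - 𝟙 P = (e ≫ g - 𝟙 P) - (e ≫ (e ≫ g - 𝟙 P)) + (e ≫ e - e) ≫ g := by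
      simp only [Preadditive.comp_sub, Preadditive.sub_comp, Category.assoc, Category.comp_id]
      abel
    rw [h3]
    exact (numIdeal Λ P P).add_mem ((numIdeal Λ P P).sub_mem hg h1) h2

omit [IsAlgClosed K] in
lemma nr_eq_zero_of (hR : IsReal Λ R) {Y Z : C} {e : Y ⟶ Y} (he : NumTriv e) (f : Z ⟶ Z) :
    nr Λ e f = 0 := by
  have h1 : (numIdeal Λ Y Z).mkQ ∘ₗ Linear.rightComp Λ Y f ∘ₗ Linear.leftComp Λ Z e = 0 := by
    apply LinearMap.ext
    intro c
    change (numIdeal Λ Y Z).mkQ ((e ≫ c) ≫ f) = 0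
    rw [Submodule.mkQ_apply, Submodule.Quotient.mk_eq_zero]
    have := NumTriv.comp hR he (𝟙 Y) (c ≫ f)
    rw [Category.id_comp] at this
    rw [Category.assoc]
    exact this
  rw [nr, h1, LinearMap.range_zero, finrank_bot]

omit [IsAlgClosed K] in
lemma nr_eq_one_of (hR : IsReal Λ R) {Y Z : C} {e : Y ⟶ Y} (he : NumTriv (e - 𝟙 Y)) (f : Z ⟶ Z) :
    nr Λ e f = nr Λ (𝟙 Y) f := by
  have h1 : (numIdeal Λ Y Z).mkQ ∘ₗ Linear.rightComp Λ Y f ∘ₗ Linear.leftComp Λ Z e =
      (numIdeal Λ Y Z).mkQ ∘ₗ Linear.rightComp Λ Y f ∘ₗ Linear.leftComp Λ Z (𝟙 Y) := by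
    apply LinearMap.ext
    intro c
    change (numIdeal Λ Y Z).mkQ ((e ≫ c) ≫ f) = (numIdeal Λ Y Z).mkQ ((𝟙 Y ≫ c) ≫ f)
    rw [Submodule.mkQ_apply, Submodule.mkQ_apply, Submodule.Quotient.eq]
    have := NumTriv.comp hR he (𝟙 Y) (c ≫ f)
    rw [Category.id_comp, Preadditive.sub_comp] at this
    rw [Category.assoc, Category.assoc]
    exact this
  rw [nr, h1, nr]

/-- The nilpotent case: the dimension of the value at a simple object. -/
theorem simple_chain (hR : IsReal Λ R) {P : C} (hP : NumSimple P) (hPc : R.CPlus P)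
    (F : C ⥤ ModuleCat.{x} Λ) [F.Additive] [F.Linear Λ] [Module.Finite Λ (F.obj P)]
    (hnil : ∀ y : P ⟶ P, NumTriv y → IsNilpotent ((F.map y).hom : Module.End Λ (F.obj P))) :
    ∃ l : ℕ, finrank Λ (F.obj P) = l * nr Λ (𝟙 P) (𝟙 P) ∧
      ∀ Z : C, Module.Finite Λ (F.obj Z) → l * nr Λ (𝟙 P) (𝟙 Z) ≤ finrank Λ (F.obj Z) := by
  obtain ⟨l, e, z, hid, hpos, hsum, hZ⟩ := exists_chain hR hPc F hnil
  have h1 : ∀ (i : Fin l) (Z : C), nr Λ (e i) (𝟙 Z) = nr Λ (𝟙 P) (𝟙 Z) := by
    intro i Z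
    rcases hP.idem hR (hid i) with h | h
    · have := hpos i
      rw [nr_eq_zero_of hR h] at this
      exact absurd this (lt_irrefl 0)
    · exact nr_eq_one_of hR h _
  refine ⟨l, ?_, fun Z hfin => ?_⟩
  · rw [hsum, Finset.sum_congr rfl (fun i _ => h1 i P)]
    simp
  · have h2 := (hZ Z hfin).trans (Submodule.finrank_le _)
    rw [Finset.sum_congr rfl (fun i _ => h1 i Z)] at h2
    simpa using h2

omit [CharZero Λ] [MonoidalLinear Λ C] [IsAlgClosed K] [MonoidalPreadditive C]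
  [SymmetricCategory C] [RightRigidCategory C] [MonoidalCategory C] in
lemma nil_retract {P U : C} (i : P ⟶ U) (p : U ⟶ P) (hip : i ≫ p = 𝟙 P)
    (F : C ⥤ ModuleCat.{x} Λ) (y : P ⟶ P)
    (h : IsNilpotent ((F.map (p ≫ y ≫ i)).hom : Module.End Λ (F.obj U))) :
    IsNilpotent ((F.map y).hom : Module.End Λ (F.obj P)) := by
  obtain ⟨k, hk⟩ := h
  refine ⟨k, ?_⟩
  have h1 : ∀ (j : ℕ) (a : F.obj P), ((((F.map (p ≫ y ≫ i)).hom : Module.End Λ (F.obj U)) ^ j)
      ((F.map i).hom a)) = (F.map i).hom ((((F.map y).hom : Module.End Λ (F.obj P)) ^ j) a) := by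
    intro j
    induction j with
    | zero => intro a; rfl
    | succ j ih =>
      intro a
      rw [pow_succ, pow_succ, Module.End.mul_apply, Module.End.mul_apply]
      have e1 : (F.map (p ≫ y ≫ i)).hom ((F.map i).hom a) =
          (F.map i).hom ((F.map y).hom a) := by
        have e2 : F.map i ≫ F.map (p ≫ y ≫ i) = F.map y ≫ F.map i := by
          rw [← F.map_comp, ← F.map_comp, ← Category.assoc, hip, Category.id_comp]
        exact congrArg (fun q : F.obj P ⟶ F.obj U => q.hom a) e2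
      rw [e1, ih]
  have h2 : ∀ a : F.obj P, (F.map p).hom ((F.map i).hom a) = a := by
    intro a
    have e2 : F.map i ≫ F.map p = 𝟙 _ := by rw [← F.map_comp, hip, F.map_id]
    exact congrArg (fun q : F.obj P ⟶ F.obj P => q.hom a) e2
  apply LinearMap.ext
  intro a
  have h3 := h1 k a
  rw [hk, LinearMap.zero_apply] at h3
  have h4 := h2 ((((F.map y).hom : Module.End Λ (F.obj P)) ^ k) a)
  rw [← h3, map_zero] at h4
  rw [LinearMap.zero_apply]
  exact h4.symm


omit [CharZero Λ] [MonoidalLinear Λ C] [IsAlgClosed K] [RightRigidCategory C]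
  [MonoidalPreadditive C] [Linear Λ C] in
lemma isRk_retract (R : SuperRealisation C K) {P U : C} (i : P ⟶ U) (p : U ⟶ P)
    (hip : i ≫ p = 𝟙 P) : IsRk R (p ≫ i) (bt R P) := by
  have e1 : LinearMap.trace K (R.H.obj P) (R.H.map (i ≫ p)).hom = bt R P := by
    rw [hip, R.H.map_id, ModuleCat.hom_id, LinearMap.trace_id]
    rfl
  have e2 : (R.H.map (i ≫ p)).hom = (R.H.map p).hom ∘ₗ (R.H.map i).hom := by
    rw [R.H.map_comp]
    rfl
  have e3 : (R.H.map (p ≫ i)).hom = (R.H.map i).hom ∘ₗ (R.H.map p).hom := by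
    rw [R.H.map_comp]
    rfl
  unfold IsRk
  rw [e3, ← e1, e2]
  have := R.finite U
  have := R.finite P
  exact LinearMap.trace_comp_comm' _ _

omit [CharZero Λ] [MonoidalLinear Λ C] [Linear Λ C] in
lemma numIdem_retract {P U : C} (i : P ⟶ U) (p : U ⟶ P)
    (hip : i ≫ p = 𝟙 P) : NumIdem (p ≫ i) := by
  unfold NumIdem
  have h1 : (p ≫ i) ≫ p ≫ i = p ≫ i := by
    rw [Category.assoc, ← Category.assoc i, hip, Category.id_comp]
  rw [h1, sub_self]
  exact fun g => by rw [zero_comp, tr_zero']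

omit [IsAlgClosed K] in
lemma nr_pos_of (hR : IsReal Λ R) {P : C} (h : ¬ NumTriv (𝟙 P)) : 0 < nr Λ (𝟙 P) (𝟙 P) := by
  rw [Nat.pos_iff_ne_zero]
  intro h0
  apply h
  have hfin := finite_num hR P P
  have h1 : LinearMap.range ((numIdeal Λ P P).mkQ ∘ₗ Linear.rightComp Λ P (𝟙 P) ∘ₗ
      Linear.leftComp Λ P (𝟙 P)) = ⊥ := by
    rw [← Submodule.finrank_eq_zero (R := Λ)]
    exact h0
  have h2 : (numIdeal Λ P P).mkQ (𝟙 P) ∈ LinearMap.range ((numIdeal Λ P P).mkQ ∘ₗ
      Linear.rightComp Λ P (𝟙 P) ∘ₗ Linear.leftComp Λ P (𝟙 P)) := by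
    refine ⟨𝟙 P, ?_⟩
    change (numIdeal Λ P P).mkQ ((𝟙 P ≫ 𝟙 P) ≫ 𝟙 P) = _
    rw [Category.id_comp, Category.id_comp]
  rw [h1, Submodule.mem_bot, Submodule.mkQ_apply, Submodule.Quotient.mk_eq_zero] at h2
  exact h2

lemma cplus_of_retract (hR : IsReal Λ R) {P U : C} (i : P ⟶ U) (p : U ⟶ P)
    (hip : i ≫ p = 𝟙 P) (hU : R.CPlus U) : R.CPlus P := by
  obtain ⟨w, hw⟩ := P1aux.of_cplus hU
  refine P1aux.cplus_of hR (i ≫ w ≫ p) ?_
  rw [R.H.map_comp, R.H.map_comp, hw, ← R.par_natural, ← Category.assoc, ← R.H.map_comp, hip,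
    R.H.map_id, Category.id_comp]

/-- The law, and the bound for the value at a simple direct summand of a power. -/
theorem simple_law {T : C} [ExactPairing T T] (h : IsPow Λ R T) (F : C ⥤ ModuleCat.{x} Λ)
    [F.Additive] [F.Linear Λ] : ∃ N : ℕ∞, RatioTo Λ T (fun n => dimE Λ (F.obj (tp T n))) N ∧
      (N = 0 ↔ ∀ n, Subsingleton (F.obj (tp T n))) ∧
      ∀ (m : ℕ) (P : C) (i : P ⟶ tp T m) (p : tp T m ⟶ P), i ≫ p = 𝟙 P → NumSimple P →
        (bt R P : ℕ∞) * dimE Λ (F.obj P) ≤ nr Λ (𝟙 P) (𝟙 P) * N ∧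
        (¬ Subsingleton (F.obj P) → (bt R P : ℕ∞) ≤ N) := by
  have hR := h.real
  obtain ⟨N, h1, h2, h3⟩ := law h F
  refine ⟨N, h1, h2, fun m P i p hip hP => ?_⟩
  have hpos := nr_pos_of hR hP.1
  by_cases hN : N = ⊤
  · rw [hN]
    refine ⟨?_, fun _ => le_top⟩
    rw [ENat.mul_top (by exact_mod_cast hpos.ne')]
    exact le_top
  · obtain ⟨h4, -⟩ := h3 hN
    obtain ⟨k, rfl⟩ := ENat.ne_top_iff_exists.1 hN
    have hfT := (h4 m).1
    obtain ⟨hfP, -⟩ := Pool.Agent.N701.AFE5.fin_of_retract F i p hip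
    have hnil : ∀ y : P ⟶ P, NumTriv y → IsNilpotent ((F.map y).hom : Module.End Λ (F.obj P)) :=
      fun y hy => nil_retract i p hip F y ((h4 m).2.2 _ (NumTriv.comp hR hy p i))
    obtain ⟨l, hl, hlow⟩ := simple_chain hR hP
      (cplus_of_retract hR i p hip (cplus_tp hR h.cplus m)) F hnil
    have key : l * bt R P ≤ k := by
      by_contra hlt
      rw [not_le] at hlt
      have hl0 : (0 : ℝ) < (l : ℝ) + 1 := by positivity
      have hδ : (0 : ℝ) < 1 / (2 * ((l : ℝ) + 1)) := by positivity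
      have h5 := eventually_nr h (numIdem_retract i p hip) (isRk_retract R i p hip) hδ
      obtain ⟨n₀, hn₀⟩ := eventually_atTop.1 h5
      have h6 := hn₀ (2 * n₀) (by omega)
      have h7 := hlow (tp T (2 * n₀)) (h4 _).1
      have h8 : (finrank Λ (F.obj (tp T (2 * n₀))) : ℕ) ≤ k * numRank Λ (tp T (2 * n₀)) := by
        exact_mod_cast (h4 n₀).2.1
      rw [nr_retract hR i p hip, Pool.Agent.N505.AFE2.cmpSeq_even] at h6
      have hβ : (0 : ℝ) < numRank Λ (tp T (2 * n₀)) := by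
        exact_mod_cast (numRank_mono h (2 * n₀)).1
      have h9 : (l : ℝ) * nr Λ (𝟙 P) (𝟙 (tp T (2 * n₀))) ≤ k * numRank Λ (tp T (2 * n₀)) := by
        exact_mod_cast h7.trans h8
      have h10 : (l : ℝ) * (((bt R P : ℝ) - 1 / (2 * ((l : ℝ) + 1))) *
          numRank Λ (tp T (2 * n₀))) ≤ k * numRank Λ (tp T (2 * n₀)) :=
        (mul_le_mul_of_nonneg_left h6 (Nat.cast_nonneg l)).trans h9
      rw [← mul_assoc] at h10
      have h11 := le_of_mul_le_mul_right h10 hβ
      have h12 : (l : ℝ) * (1 / (2 * ((l : ℝ) + 1))) < 1 := by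
        rw [mul_one_div, div_lt_one (by positivity)]
        linarith [(Nat.cast_nonneg l : (0 : ℝ) ≤ l)]
      have h13 : ((k : ℕ) : ℝ) + 1 ≤ (l : ℝ) * bt R P := by exact_mod_cast hlt
      nlinarith
    constructor
    · rw [dimE_eq, hl]
      have : bt R P * (l * nr Λ (𝟙 P) (𝟙 P)) ≤ nr Λ (𝟙 P) (𝟙 P) * k := by
        calc bt R P * (l * nr Λ (𝟙 P) (𝟙 P)) = nr Λ (𝟙 P) (𝟙 P) * (l * bt R P) := by ring
          _ ≤ nr Λ (𝟙 P) (𝟙 P) * k := Nat.mul_le_mul_left _ key
      exact_mod_cast this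
    · intro hne
      have hl1 : 1 ≤ l := by
        by_contra hc
        have h0 : l = 0 := by omega
        rw [h0, zero_mul] at hl
        apply hne
        exact Module.finrank_zero_iff.1 hl
      have : bt R P ≤ k := by
        calc bt R P = 1 * bt R P := (one_mul _).symm
          _ ≤ l * bt R P := Nat.mul_le_mul_right _ hl1
          _ ≤ k := key
      exact_mod_cast this

/-- A lower bound for all large powers, if the value at a simple direct summand is not zero. -/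
theorem simple_lower {T : C} [ExactPairing T T] (h : IsPow Λ R T) (F : C ⥤ ModuleCat.{x} Λ)
    [F.Additive] [F.Linear Λ] {m n : ℕ} {P : C} (i : P ⟶ tp T m) (p : tp T m ⟶ P)
    (hip : i ≫ p = 𝟙 P) (hP : NumSimple P) (hne : ¬ Subsingleton (F.obj P))
    (hn : m * bt R T ^ (3 * m) ≤ n) :
    (nr Λ (𝟙 P) (𝟙 (tp T n)) : ℕ∞) ≤ dimE Λ (F.obj (tp T n)) := by
  have hR := h.real
  have hb := bt_pos h
  by_cases hfin : Module.Finite Λ (F.obj (tp T n))
  · rw [dimE_eq]
    have hp1 : 1 ≤ bt R T ^ (3 * m) := Nat.one_le_pow _ _ hb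
    have hmn : m ≤ n := by
      calc m = m * 1 := (mul_one m).symm
        _ ≤ m * bt R T ^ (3 * m) := Nat.mul_le_mul_left _ hp1
        _ ≤ n := hn
    have hfm := (Pool.Agent.N701.AFE5.fin_le h F hmn).1
    obtain ⟨hfP, -⟩ := Pool.Agent.N701.AFE5.fin_of_retract F i p hip
    by_cases hnil : ∀ y : tp T m ⟶ tp T m, NumTriv y →
        IsNilpotent ((F.map y).hom : Module.End Λ (F.obj (tp T m)))
    · have hnil' : ∀ y : P ⟶ P, NumTriv y →
          IsNilpotent ((F.map y).hom : Module.End Λ (F.obj P)) :=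
        fun y hy => nil_retract i p hip F y (hnil _ (NumTriv.comp hR hy p i))
      obtain ⟨l, hl, hlow⟩ := simple_chain hR hP
        (cplus_of_retract hR i p hip (cplus_tp hR h.cplus m)) F hnil'
      have hl1 : 1 ≤ l := by
        by_contra hc
        have h0 : l = 0 := by omega
        rw [h0, zero_mul] at hl
        exact hne (Module.finrank_zero_iff.1 hl)
      have h1 := hlow (tp T n) hfin
      have : nr Λ (𝟙 P) (𝟙 (tp T n)) ≤ finrank Λ (F.obj (tp T n)) := by
        calc nr Λ (𝟙 P) (𝟙 (tp T n)) = 1 * nr Λ (𝟙 P) (𝟙 (tp T n)) := (one_mul _).symm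
          _ ≤ l * nr Λ (𝟙 P) (𝟙 (tp T n)) := Nat.mul_le_mul_right _ hl1
          _ ≤ _ := h1
      exact_mod_cast this
    · push Not at hnil
      obtain ⟨y, hy, hnn⟩ := hnil
      have hm : m ≠ 0 := by
        rintro rfl
        apply hnn
        have h0 : y ≫ 𝟙 (𝟙_ C) = 0 := (numTriv_unit_iff hR (S := 𝟙_ C) y).1 hy (𝟙 (𝟙_ C))
        have h1 : y = 0 := by
          have := h0
          rwa [Category.comp_id] at this
        have h2 : F.map y = 0 := by rw [h1, F.map_zero]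
        rw [h2]
        exact IsNilpotent.zero
      obtain ⟨z, e, hz, he, he'⟩ := exists_phantom hR F hy hnn
      have hdiv : bt R T ^ (3 * m) ≤ n / m := by
        rw [Nat.le_div_iff_mul_le (Nat.pos_of_ne_zero hm), mul_comm]
        exact hn
      obtain ⟨a, ha⟩ := Nat.exists_eq_succ_of_ne_zero (by omega : n / m ≠ 0)
      have hdm := Nat.div_add_mod n m
      have hlt := Nat.mod_lt n (Nat.pos_of_ne_zero hm)
      rw [ha, Nat.mul_succ] at hdm
      rw [ha] at hdiv
      have hle : m * a + m ≤ n := by omega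
      obtain ⟨hf1, hf2⟩ := Pool.Agent.N701.AFE5.fin_le h F hle
      have low : (a + 1) * numRank Λ (tp T (m * a)) ≤ finrank Λ (F.obj (tp T (m * a + m))) :=
        Pool.Agent.N945.AFE3.phantom_low h F hf1 hy hnn
      obtain ⟨k, hk⟩ : ∃ k, n = k + m * a := ⟨m + n % m, by omega⟩
      have hk2 : k + m + 1 ≤ 3 * m := by omega
      have h3 : nr Λ (𝟙 P) (𝟙 (tp T n)) ≤ bt R T ^ (3 * m) * numRank Λ (tp T (m * a)) := by
        calc nr Λ (𝟙 P) (𝟙 (tp T n)) = nr Λ (p ≫ i) (𝟙 (tp T n)) :=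
              (nr_retract hR i p hip _).symm
          _ ≤ nr Λ (𝟙 (tp T m)) (𝟙 (tp T n)) := nr_le_left hR _ _
          _ = numRank Λ (tp T (k + m + m * a)) := by
              rw [nr_tp hR T m n, hk]
              congr 2
              omega
          _ ≤ bt R T ^ (k + m) * cmpSeq (fun n => numRank Λ (tp T n)) (bt R T) (m * a) :=
              Pool.Agent.N701.AFE5.le_cmp h (k + m) _
          _ ≤ bt R T ^ (k + m) * (bt R T * numRank Λ (tp T (m * a))) :=
              Nat.mul_le_mul_left _ (Pool.Agent.N701.AFE5.cmp_le h _)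
          _ = bt R T ^ (k + m + 1) * numRank Λ (tp T (m * a)) := by ring
          _ ≤ bt R T ^ (3 * m) * numRank Λ (tp T (m * a)) :=
              Nat.mul_le_mul_right _ (Nat.pow_le_pow_right hb hk2)
      have h4 : nr Λ (𝟙 P) (𝟙 (tp T n)) ≤ finrank Λ (F.obj (tp T n)) := by
        calc nr Λ (𝟙 P) (𝟙 (tp T n)) ≤ bt R T ^ (3 * m) * numRank Λ (tp T (m * a)) := h3
          _ ≤ (a + 1) * numRank Λ (tp T (m * a)) := Nat.mul_le_mul_right _ hdiv
          _ ≤ finrank Λ (F.obj (tp T (m * a + m))) := low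
          _ ≤ finrank Λ (F.obj (tp T n)) := hf2
      exact_mod_cast h4
  · rw [dimE_top hfin]
    exact le_top

end Pool.Agent.N64.AF
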