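import Pool.Agent.N64.AF.X8
import Pool.Agent.N64.AF.W

/-!
# Chow-Künneth decompositions of the powers: zero-infinity law and a criterion on one power
-/

set_option autoImplicit false

open CategoryTheory Limits MonoidalCategory Module Filter Topology
open Pool.Agent.Y112.SR Pool.Agent.Y112.KD
open scoped ENNReal

namespace Pool.Agent.N64.AF

universe v u w t x

section Ring

variable {A B : Type*} [Ring A] [Ring B] (φ : A →+* B) {ι : Type*} [Fintype ι]

/-- Two lifts are conjugate by a unit which is trivial modulo the ideal. -/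
theorem exists_conj (hnil : ∀ x, φ x = 0 → IsNilpotent x) {π π' : ι → A}
    (hπ : CompleteOrthogonalIdempotents π) (hπ' : CompleteOrthogonalIdempotents π')
    (hφ : ∀ i, φ (π' i) = φ (π i)) :
    ∃ u v : A, φ u = 1 ∧ u * v = 1 ∧ v * u = 1 ∧ ∀ i, u * π i = π' i * u := by
  have hφw : φ (∑ j, π' j * π j) = 1 := comp_one φ hπ hφ
  obtain ⟨W, hW⟩ := isUnit_of φ hnil hφw
  refine ⟨∑ j, π' j * π j, (W⁻¹ : Aˣ).val, hφw, ?_, ?_, fun i => ?_⟩
  · rw [← hW, Units.mul_inv]
  · rw [← hW, Units.inv_mul]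
  · rw [comp_left hπ, comp_right hπ']

end Ring

variable {C : Type u} [Category.{v} C] [Preadditive C] [MonoidalCategory C]
  [MonoidalPreadditive C] [SymmetricCategory C] [RightRigidCategory C]
  {Λ : Type t} [Field Λ] [CharZero Λ] [Linear Λ C] [MonoidalLinear Λ C]
  {K : Type w} [Field K] [IsAlgClosed K] [Algebra Λ K] {R : SuperRealisation C K}

/-- Each system of endomorphisms of `Z` in a subalgebra `D`, which is a complete system of orthogonal
idempotents modulo homological equivalence, lifts to such a system in `D`, and the lift is unique up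
to conjugation by automorphisms in `D` which are trivial on cohomology. -/
def KunnethLifts (R : SuperRealisation C K) (Λ : Type t) [Field Λ] [Linear Λ C] (Z : C) : Prop :=
  ∀ {ι : Type} [Fintype ι] (D : Subalgebra Λ (End Z)) (p : ι → (Z ⟶ Z)), IsKunneth R p →
    (∀ i, (p i : End Z) ∈ D) →
    (∃ π : ι → (Z ⟶ Z), IsLift R p π ∧ ∀ i, (π i : End Z) ∈ D) ∧
    ∀ π π' : ι → (Z ⟶ Z), IsLift R p π → (∀ i, (π i : End Z) ∈ D) → IsLift R p π' →
      (∀ i, (π' i : End Z) ∈ D) →
      ∃ u v : Z ⟶ Z, (u : End Z) ∈ D ∧ (v : End Z) ∈ D ∧ R.H.map u = 𝟙 _ ∧ u ≫ v = 𝟙 Z ∧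
        v ≫ u = 𝟙 Z ∧ ∀ i, π i ≫ u = u ≫ π' i

omit [MonoidalPreadditive C] [RightRigidCategory C] [CharZero Λ] [MonoidalLinear Λ C]
  [IsAlgClosed K] in
lemma kunnethLifts_of_nil {Z : C}
    (hnil : ∀ f : End Z, R.H.map (f : Z ⟶ Z) = 0 → IsNilpotent f) : KunnethLifts R Λ Z := by
  intro ι _ D p hp hpD
  let φ : D →+* End (R.H.obj Z) := (realHom R Z).comp D.val.toRingHom
  have hnil' : ∀ x : D, φ x = 0 → IsNilpotent x := by
    intro x hx
    obtain ⟨k, hk⟩ := hnil x.1 hx
    exact ⟨k, Subtype.ext hk⟩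
  let p' : ι → D := fun i => ⟨p i, hpD i⟩
  have hp' : CompleteOrthogonalIdempotents (φ ∘ p') := by
    refine ⟨⟨fun i => hp.idem i, fun i j hij => hp.ortho j i (Ne.symm hij)⟩, ?_⟩
    change ∑ i, realHom R Z (p i) = 1
    rw [← map_sum]
    exact hp.complete
  constructor
  · obtain ⟨π, h1, h2⟩ := CompleteOrthogonalIdempotents.lift_of_isNilpotent_ker φ
      (fun x hx => hnil' x hx) hp' (fun i => ⟨p' i, rfl⟩)
    refine ⟨fun i => (π i).1, ⟨fun i => congrArg Subtype.val (h1.idem i),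
      fun i j hij => congrArg Subtype.val (h1.ortho (Ne.symm hij)), ?_, fun i => congrFun h2 i⟩,
      fun i => (π i).2⟩
    have h4 := congrArg D.val h1.complete
    rw [map_sum] at h4
    exact h4
  · intro π π' hπ hπD hπ' hπD'
    have hlift : ∀ (π : ι → (Z ⟶ Z)) (_ : IsLift R p π) (hD : ∀ i, (π i : End Z) ∈ D),
        CompleteOrthogonalIdempotents (fun i => (⟨π i, hD i⟩ : D)) := by
      intro π hπ hD
      refine ⟨⟨fun i => Subtype.ext (hπ.idem i),
        fun i j hij => Subtype.ext (hπ.ortho j i (Ne.symm hij))⟩, ?_⟩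
      have h5 : D.val (∑ i, (⟨π i, hD i⟩ : D)) = ∑ i, (π i : End Z) := map_sum _ _ _
      exact Subtype.ext (h5.trans hπ.complete)
    obtain ⟨u, v, h1, h2, h3, h4⟩ := exists_conj φ hnil' (hlift π hπ hπD)
      (hlift π' hπ' hπD') (fun i => (hπ'.real i).trans (hπ.real i).symm)
    exact ⟨u.1, v.1, u.2, v.2, h1, congrArg Subtype.val h3, congrArg Subtype.val h2,
      fun i => congrArg Subtype.val (h4 i)⟩

/-- The two orders of the factors. -/
noncomputable def dpIso (T : C) : ∀ n : ℕ, Pool.Agent.N413.AFW.dp T n ≅ tp T n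
  | 0 => Iso.refl _
  | n + 1 => (β_ T (Pool.Agent.N413.AFW.dp T n)) ≪≫ whiskerRightIso (dpIso T n) T

/-- Smash nilpotence of the homologically trivial classes on `T^{2m}` implies nilpotence of the
homologically trivial endomorphisms of `T^m`. -/
lemma nil_of_smash_pow {T : C} [ExactPairing T T] {m : ℕ}
    (hs : ∀ α : 𝟙_ C ⟶ tp T (m + m), R.H.map α = 0 → SmashNil α) (f : End (tp T m))
    (hf : R.H.map (f : tp T m ⟶ tp T m) = 0) : IsNilpotent f := by
  let _ := Pool.Agent.N413.AFW.pairTp T T m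
  obtain ⟨i, -⟩ := exists_tp_iso T m m
  have j : tp T m ⊗ Pool.Agent.N413.AFW.dp T m ≅ tp T (m + m) :=
    whiskerLeftIso (tp T m) (dpIso T m) ≪≫ i
  apply nil_of_mate (L' := Pool.Agent.N413.AFW.dp T m) f
  have h0 : R.H.map (η_ (tp T m) (Pool.Agent.N413.AFW.dp T m) ≫
      ((f : tp T m ⟶ tp T m) ▷ Pool.Agent.N413.AFW.dp T m)) = 0 := by
    rw [R.H.map_comp, Functor.Monoidal.map_whiskerRight, hf]
    simp
  have h1 := hs ((η_ (tp T m) (Pool.Agent.N413.AFW.dp T m) ≫
      ((f : tp T m ⟶ tp T m) ▷ Pool.Agent.N413.AFW.dp T m)) ≫ j.hom) (by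
    rw [R.H.map_comp, h0, zero_comp])
  have h2 := h1.comp j.inv
  rwa [Category.assoc, Iso.hom_inv_id, Category.comp_id] at h2

/-- The dimension of the space of the homologically trivial classes on `T^n` modulo the smash nilpotent
ones. -/
noncomputable def hsDim (hR : IsReal Λ R) (T : C) (n : ℕ) : ℕ∞ :=
  dimE Λ (HomModSmash hR (tp T n))

/-- **Chow-Künneth decompositions**: the zero-infinity law and the criterion on one power. -/
theorem ck_law {T : C} [ExactPairing T T] (h : IsPow Λ R T) : ∃ N : ℕ∞, (N = 0 ∨ N = ⊤) ∧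
    RatioTo Λ T (hsDim h.real T) N ∧ (N = 0 → ∀ m, KunnethLifts R Λ (tp T m)) ∧
    ∀ m n : ℕ, 128 * (2 * m + 1) ^ 2 * bt R T ^ (4 * m + 6) ≤ n →
      2 * hsDim h.real T n < numRank Λ (tp T n) → KunnethLifts R Λ (tp T m) := by
  obtain ⟨N, h1, h2, h3, h4, -⟩ := smash_hom_law h
  refine ⟨N, h1, h2, fun h0 m => ?_, fun m n hn hlt => ?_⟩
  · exact kunnethLifts_of_nil fun f hf => nil_of_smash_pow (h3.1 h0 (m + m)) f hf
  · refine kunnethLifts_of_nil fun f hf => nil_of_smash_pow (h4 (m + m) n ?_ hlt) f hf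
    have e1 : m + m + 1 = 2 * m + 1 := by ring
    have e2 : 2 * (m + m) + 6 = 4 * m + 6 := by ring
    rw [e1, e2]
    exact hn

end Pool.Agent.N64.AF
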