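import Pool.Agent.N64.AF.X10
import Pool.Agent.N64.AF.K2

/-!
# Kimura finite-dimensionality from one inequality
-/

set_option autoImplicit false

open CategoryTheory Limits MonoidalCategory Module Filter Topology
open Pool.Agent.Y112.SR Pool.Agent.Y112.KD
open scoped ENNReal

namespace Pool.Agent.N64.AF

universe v u w t x

section

variable {C : Type u} [Category.{v} C] [Preadditive C] [MonoidalCategory C]
  [MonoidalPreadditive C] [SymmetricCategory C] [RightRigidCategory C]
  {Λ : Type t} [Field Λ] [CharZero Λ] [Linear Λ C] [MonoidalLinear Λ C]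
  {K : Type w} [Field K] [IsAlgClosed K] [Algebra Λ K] {R : SuperRealisation C K}

/-- One inequality implies that the homologically trivial endomorphisms of `T^m` are nilpotent. -/
theorem nil_of_one_pow {T : C} [ExactPairing T T] (h : IsPow Λ R T) {m a : ℕ}
    (hlt : hsDim h.real T (m * a + m + m) <
      (((a + 1) * numRank Λ (tp T (m * a)) : ℕ) : ℕ∞)) (f : End (tp T m))
    (hf : R.H.map (f : tp T m ⟶ tp T m) = 0) : IsNilpotent f := by
  have hR := h.real
  have hfin : Module.Finite Λ ((hmF hR).obj (tp T (m * a + m + m))) := by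
    by_contra hc
    have h1 := dimE_top hc
    have h2 : hsDim hR T (m * a + m + m) = ⊤ := h1
    rw [h2] at hlt
    exact not_top_lt hlt
  let _ := Pool.Agent.N413.AFW.pairTp T T m
  let G : C ⥤ ModuleCat.{v} Λ := tensorRight (Pool.Agent.N413.AFW.dp T m) ⋙ hmF hR
  have : G.Additive := inferInstance
  have : G.Linear Λ := inferInstance
  obtain ⟨i, -⟩ := exists_tp_iso T (m * a + m) m
  let j : tp T (m * a + m) ⊗ Pool.Agent.N413.AFW.dp T m ≅ tp T (m * a + m + m) :=
    whiskerLeftIso (tp T (m * a + m)) (dpIso T m) ≪≫ i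
  have e : G.obj (tp T (m * a + m)) ≃ₗ[Λ] (hmF hR).obj (tp T (m * a + m + m)) :=
    ((hmF hR).mapIso j).toLinearEquiv
  have hfN : NumTriv (f : tp T m ⟶ tp T m) := numTriv_of_map hR hf
  by_contra hnn
  have hn : ¬ IsNilpotent ((G.map (f : tp T m ⟶ tp T m)).hom : Module.End Λ (G.obj (tp T m))) := by
    intro hnil
    apply hnn
    exact nil_of_act (L' := Pool.Agent.N413.AFW.dp T m) hR f hf hnil
  have hfin' : Module.Finite Λ (G.obj (tp T (m * a + m))) := Module.Finite.equiv e.symm
  have h1 := Pool.Agent.N945.AFE3.phantom_low h G (m := m) (a := a) hfin' hfN hn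
  rw [e.finrank_eq] at h1
  have h2 : hsDim hR T (m * a + m + m) =
      (finrank Λ ((hmF hR).obj (tp T (m * a + m + m))) : ℕ∞) := by
    have : Module.Finite Λ (HomModSmash hR (tp T (m * a + m + m))) := hfin
    exact dimE_eq
  rw [h2] at hlt
  exact absurd h1 (not_le.2 (by exact_mod_cast hlt))

end

variable {C : Type u} [Category.{v} C] [Preadditive C] [MonoidalCategory C]
  [MonoidalPreadditive C] [SymmetricCategory C] [RightRigidCategory C]
  [Linear ℚ C] [MonoidalLinear ℚ C] [IsIdempotentComplete C]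
  {K : Type w} [Field K] [Algebra ℚ K] {R : SuperRealisation C K}

omit [MonoidalPreadditive C] [RightRigidCategory C] [Linear ℚ C] [MonoidalLinear ℚ C]
  [IsIdempotentComplete C] [Algebra ℚ K] in
lemma finrank_le_bt (R : SuperRealisation C K) {E T : C} (i : E ⟶ T) (r : T ⟶ E)
    (hir : i ≫ r = 𝟙 E) : finrank K (R.H.obj E) ≤ bt R T := by
  have hfin := R.finite T
  refine LinearMap.finrank_le_finrank_of_injective (f := (R.H.map i).hom) ?_
  intro a b hab
  have h2 : R.H.map i ≫ R.H.map r = 𝟙 _ := by rw [← R.H.map_comp, hir, R.H.map_id]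
  have h3 : ∀ a : R.H.obj E, (R.H.map r).hom ((R.H.map i).hom a) = a := fun a =>
    congrArg (fun g : R.H.obj E ⟶ R.H.obj E => g.hom a) h2
  rw [← h3 a, ← h3 b, hab]

open Pool.Agent.R905 Pool.Agent.N861.AF in
/-- Kimura finite-dimensionality from nilpotence on the powers up to `dim H(T) + 1`. -/
theorem kimura_of_nil' (hR : IsReal ℚ R) {T : C} (hT : R.CPlus T)
    (hn : ∀ n, n ≤ bt R T + 1 → HomNil R (tp T n)) :
    Pool.Agent.R905.IsKimuraFinite T := by
  have hc := R_charZero R
  have hU : UnitQ C := by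
    refine ⟨hR.unit, fun h => ?_⟩
    have h1 := bt_unit R
    have h2 : 𝟙 (R.H.obj (𝟙_ C)) = 0 := by
      rw [← CategoryTheory.Functor.map_id, h, Functor.map_zero]
    have h3 : IsZero (R.H.obj (𝟙_ C)) := (IsZero.iff_id_eq_zero _).2 h2
    have h4 : Subsingleton (R.H.obj (𝟙_ C)) := ModuleCat.subsingleton_of_isZero h3
    unfold bt at h1
    rw [finrank_zero_of_subsingleton] at h1
    exact zero_ne_one h1
  have hT1 : HomNil R T := (hn 1 (Nat.le_add_left _ _)).retract (λ_ T).inv (λ_ T).hom (by simp)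
  obtain ⟨E, O, i, r, i', r', h1, h2, h3, hE, hO⟩ := exists_parts R hT hT1
  have key : ∀ (P : C) (i : P ⟶ T) (r : T ⟶ P), i ≫ r = 𝟙 P → ∀ (d : ℚ), d * d = 1 →
      R.par P = (d : K) • 𝟙 _ → ∃ n, asym (-d) P n = 0 := by
    intro P i r hir d hd hP
    have hle := finrank_le_bt R i r hir
    have hnil : HomNil R (tp P (finrank K (R.H.obj P) + 1)) := by
      refine (hn (finrank K (R.H.obj P) + 1) (Nat.add_le_add_right hle 1)).retract (tpm i _)
        (tpm r _) ?_
      rw [tpm_comp, hir, tpm_id]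
    refine ⟨finrank K (R.H.obj P) + 1, ?_⟩
    have hη : (-d) * (-d) = 1 := by linear_combination hd
    obtain ⟨k, hk⟩ := hnil (en (asym (-d) P (finrank K (R.H.obj P) + 1)))
      (map_asym_zero R hU d hd hP)
    have h1 : IsIdempotentElem (en (asym (-d) P (finrank K (R.H.obj P) + 1))) := asym_idem hη P _
    have h2 := h1.pow_succ_eq k
    rw [pow_succ, hk, zero_mul] at h2
    exact h2.symm
  obtain ⟨n, hn1⟩ := key E i r h1 1 (by norm_num) (by rw [hE]; norm_num)
  obtain ⟨m, hm⟩ := key O i' r' h2 (-1) (by norm_num) (by rw [hO]; norm_num)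
  rw [neg_neg] at hm
  exact (isKimuraFinite_iff T).2 ⟨E, O, i, r, i', r', h1, h2, h3, ⟨n, hn1⟩, m, hm⟩

/-- **Kimura finite-dimensionality from one inequality on one power.** -/
theorem kimura_criteria [IsAlgClosed K] {T : C} [ExactPairing T T] (h : IsPow ℚ R T) {M : ℕ}
    (hM : M = bt R T + 1) :
    (∀ n : ℕ, 128 * (2 * M + 1) ^ 2 * bt R T ^ (4 * M + 6) ≤ n →
      2 * hsDim h.real T n < numRank ℚ (tp T n) → Pool.Agent.R905.IsKimuraFinite T) ∧
    ∀ a : ℕ, hsDim h.real T (M * (a + 2)) < (((a + 1) * numRank ℚ (tp T (M * a)) : ℕ) : ℕ∞) →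
      Pool.Agent.R905.IsKimuraFinite T := by
  have hfinal : (∀ f : End (tp T M), R.H.map (f : tp T M ⟶ tp T M) = 0 → IsNilpotent f) →
      Pool.Agent.R905.IsKimuraFinite T := by
    intro hnil
    refine kimura_of_nil' h.real h.cplus fun n hn => ?_
    obtain ⟨i, r, hir⟩ := Pool.Agent.N945.AFE3.exists_retract h n M (by rw [hM]; exact hn)
    exact Pool.Agent.R905.HomNil.retract (R := R) hnil i r hir
  refine ⟨fun n hn hlt => hfinal fun f hf => ?_, fun a hlt => hfinal fun f hf => ?_⟩
  · obtain ⟨N, -, -, -, h4, -⟩ := smash_hom_law h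
    refine nil_of_smash_pow (h4 (M + M) n ?_ hlt) f hf
    have e1 : M + M + 1 = 2 * M + 1 := by ring
    have e2 : 2 * (M + M) + 6 = 4 * M + 6 := by ring
    rw [e1, e2]
    exact hn
  · have e3 : M * (a + 2) = M * a + M + M := by ring
    rw [e3] at hlt
    exact nil_of_one_pow h hlt f hf

end Pool.Agent.N64.AF
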