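import Pool.Agent.N64.AF.X9
import Pool.Agent.N64.AF.X10
import Pool.Agent.N64.AF.M3

/-!
# Conservativity from one inequality
-/

set_option autoImplicit false

open CategoryTheory Limits MonoidalCategory Module Filter Topology
open Pool.Agent.Y112.SR Pool.Agent.Y112.KD
open scoped ENNReal

namespace Pool.Agent.N64.AF

universe v u w t x

variable {C : Type u} [Category.{v} C] [Preadditive C] [MonoidalCategory C]
  [MonoidalPreadditive C] [SymmetricCategory C] [RightRigidCategory C]
  {Λ : Type t} [Field Λ] [CharZero Λ] [Linear Λ C] [MonoidalLinear Λ C]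
  {K : Type w} [Field K] [IsAlgClosed K] [Algebra Λ K] {R : SuperRealisation C K}

/-- One inequality implies that the numerically trivial endomorphisms of `T^m` are nilpotent. -/
theorem nil_of_one_pow2 {T : C} [ExactPairing T T] (h : IsPow Λ R T) {m a : ℕ}
    (hlt : nsDim Λ T (m * a + m + m) <
      (((a + 1) * numRank Λ (tp T (m * a)) : ℕ) : ℕ∞)) (f : End (tp T m))
    (hf : NumTriv (f : tp T m ⟶ tp T m)) : IsNilpotent f := by
  have hR := h.real
  have hfin : Module.Finite Λ ((nmF hR).obj (tp T (m * a + m + m))) := by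
    by_contra hc
    have h1 := dimE_top hc
    have h2 : nsDim Λ T (m * a + m + m) = ⊤ := h1
    rw [h2] at hlt
    exact not_top_lt hlt
  let _ := Pool.Agent.N413.AFW.pairTp T T m
  let G : C ⥤ ModuleCat.{v} Λ := tensorRight (Pool.Agent.N413.AFW.dp T m) ⋙ nmF hR
  have : G.Additive := inferInstance
  have : G.Linear Λ := inferInstance
  obtain ⟨i, -⟩ := exists_tp_iso T (m * a + m) m
  let j : tp T (m * a + m) ⊗ Pool.Agent.N413.AFW.dp T m ≅ tp T (m * a + m + m) :=
    whiskerLeftIso (tp T (m * a + m)) (dpIso T m) ≪≫ i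
  have e : G.obj (tp T (m * a + m)) ≃ₗ[Λ] (nmF hR).obj (tp T (m * a + m + m)) :=
    ((nmF hR).mapIso j).toLinearEquiv
  by_contra hnn
  have hn : ¬ IsNilpotent ((G.map (f : tp T m ⟶ tp T m)).hom : Module.End Λ (G.obj (tp T m))) := by
    intro hnil
    apply hnn
    exact nil_of_act2 (L' := Pool.Agent.N413.AFW.dp T m) hR f hf hnil
  have hfin' : Module.Finite Λ (G.obj (tp T (m * a + m))) := Module.Finite.equiv e.symm
  have h1 := Pool.Agent.N945.AFE3.phantom_low h G (m := m) (a := a) hfin' hf hn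
  rw [e.finrank_eq] at h1
  have h2 : nsDim Λ T (m * a + m + m) =
      (finrank Λ ((nmF hR).obj (tp T (m * a + m + m))) : ℕ∞) := by
    have : Module.Finite Λ (NumModSmash Λ (tp T (m * a + m + m))) := hfin
    exact dimE_eq
  rw [h2] at hlt
  exact absurd h1 (not_le.2 (by exact_mod_cast hlt))

/-- If the numerically trivial endomorphisms are nilpotent then endomorphisms with invertible
realisation are invertible. -/
lemma isIso_of_nil (hR : IsReal Λ R) {W : C} (hW : R.CPlus W)
    (h : ∀ f : End W, NumTriv (f : W ⟶ W) → IsNilpotent f) {f : W ⟶ W}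
    (hf : IsIso (R.H.map f)) : IsIso f := by
  refine Pool.Agent.N814.AF.isIso_of hR hW ?_ hf
  intro x hx
  rw [Pool.Agent.N814.AF.mem_jac_iff]
  intro y
  have h1 : NumTriv (Y := W) (Z := W) (y * x : End W) := (N441G.idl hR W).mul_mem_left y hx
  have h3 : IsUnit (1 + y * x : End W) := (h _ h1).isUnit_one_add
  exact h3.exists_left_inv

/-- Voevodsky's conjecture for `T^{2m}` implies nilpotence of the numerically trivial endomorphisms
of `T^m`. -/
lemma nil_of_voev {T : C} [ExactPairing T T] (hR : IsReal Λ R) {m : ℕ}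
    (hs : VoevodskyAt (tp T (m + m))) (f : End (tp T m))
    (hf : NumTriv (f : tp T m ⟶ tp T m)) : IsNilpotent f := by
  let _ := Pool.Agent.N413.AFW.pairTp T T m
  obtain ⟨i, -⟩ := exists_tp_iso T m m
  have j : tp T m ⊗ Pool.Agent.N413.AFW.dp T m ≅ tp T (m + m) :=
    whiskerLeftIso (tp T m) (dpIso T m) ≪≫ i
  apply nil_of_mate (L' := Pool.Agent.N413.AFW.dp T m) f
  have h0 : NumTriv (η_ (tp T m) (Pool.Agent.N413.AFW.dp T m) ≫
      ((f : tp T m ⟶ tp T m) ▷ Pool.Agent.N413.AFW.dp T m)) := by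
    have h2 := NumTriv.comp hR (NumTriv.whiskerRight hR hf (Pool.Agent.N413.AFW.dp T m))
      (η_ (tp T m) (Pool.Agent.N413.AFW.dp T m)) (𝟙 _)
    rwa [Category.comp_id] at h2
  have h1 := hs ((η_ (tp T m) (Pool.Agent.N413.AFW.dp T m) ≫
      ((f : tp T m ⟶ tp T m) ▷ Pool.Agent.N413.AFW.dp T m)) ≫ j.hom) (by
    have h2 := NumTriv.comp hR h0 (𝟙 _) j.hom
    rwa [Category.id_comp] at h2)
  have h2 := h1.comp j.inv
  rwa [Category.assoc, Iso.hom_inv_id, Category.comp_id] at h2

/-- Every endomorphism of every direct factor of `W` with invertible realisation is invertible.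
(In particular a direct factor with realisation zero is zero: take the endomorphism zero.) -/
def Conservative (R : SuperRealisation C K) (W : C) : Prop :=
  ∀ (P : C) (i : P ⟶ W) (p : W ⟶ P), i ≫ p = 𝟙 P → ∀ f : P ⟶ P, IsIso (R.H.map f) → IsIso f

omit [MonoidalPreadditive C] [RightRigidCategory C] [IsAlgClosed K] in
lemma conservative_of (R : SuperRealisation C K) {W : C}
    (hc : ∀ f : W ⟶ W, IsIso (R.H.map f) → IsIso f) : Conservative R W := by
  intro P i p hip f hf
  have hg : IsIso (R.H.map (𝟙 W - p ≫ i + p ≫ f ≫ i)) := by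
    have hip' : R.H.map i ≫ R.H.map p = 𝟙 _ := by rw [← R.H.map_comp, hip, R.H.map_id]
    refine ⟨𝟙 _ - R.H.map p ≫ R.H.map i + R.H.map p ≫ inv (R.H.map f) ≫ R.H.map i, ?_, ?_⟩ <;>
    · simp only [Functor.map_add, Functor.map_sub, R.H.map_id, Functor.map_comp,
        Preadditive.add_comp, Preadditive.sub_comp, Preadditive.comp_add, Preadditive.comp_sub,
        Category.comp_id, Category.id_comp, Category.assoc, reassoc_of% hip',
        IsIso.hom_inv_id_assoc, IsIso.inv_hom_id_assoc]
      abel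
  have hg' := hc _ hg
  set g := 𝟙 W - p ≫ i + p ≫ f ≫ i with hgdef
  have h1 : i ≫ g = f ≫ i := by
    rw [hgdef]
    simp only [Preadditive.comp_add, Preadditive.comp_sub, Category.comp_id, reassoc_of% hip,
      sub_self, zero_add]
  have h2 : g ≫ p = p ≫ f := by
    rw [hgdef]
    simp only [Preadditive.add_comp, Preadditive.sub_comp, Category.id_comp, Category.assoc, hip,
      Category.comp_id, sub_self, zero_add]
  refine ⟨i ≫ inv g ≫ p, ?_, ?_⟩
  · rw [← Category.assoc, ← h1, Category.assoc, IsIso.hom_inv_id_assoc, hip]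
  · rw [Category.assoc, Category.assoc, ← h2, IsIso.inv_hom_id_assoc, hip]

/-- The conclusions: nilpotence and conservativity on `(M ⊗ Mᘁ)^m` and `M^m`. -/
structure ConservativePower (R : SuperRealisation C K) (M : C) (m : ℕ) : Prop where
  /-- numerically trivial endomorphisms are nilpotent -/
  nil : ∀ f : End (tp (M ⊗ Mᘁ) m), NumTriv (f : tp (M ⊗ Mᘁ) m ⟶ tp (M ⊗ Mᘁ) m) → IsNilpotent f
  /-- conservativity on the direct factors of `(M ⊗ Mᘁ)^m` -/
  big : Conservative R (tp (M ⊗ Mᘁ) m)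
  /-- conservativity on the direct factors of `M^m` -/
  small : Conservative R (tp M m)

/-- **Conservativity from one inequality**, for an arbitrary object with the sign conjecture. -/
theorem conservative_of_one (hR : IsReal Λ R) {M : C} (hM : R.CPlus M) (hb : 0 < bt R M) (m : ℕ) :
    (∀ n : ℕ, 128 * (2 * m + 1) ^ 2 * bt R M ^ (8 * m + 12) ≤ n →
      2 * nsDim Λ (M ⊗ Mᘁ) n < nr Λ (𝟙 (tp M n)) (𝟙 (tp M n)) → ConservativePower R M m) ∧
    ∀ a : ℕ, nsDim Λ (M ⊗ Mᘁ) (m * (a + 2)) <
      (((a + 1) * nr Λ (𝟙 (tp M (m * a))) (𝟙 (tp M (m * a))) : ℕ) : ℕ∞) →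
      ConservativePower R M m := by
  obtain ⟨inst, hS⟩ := isPow_tensor_dual hR hM hb
  have hfinal : (∀ f : End (tp (M ⊗ Mᘁ) m), NumTriv (f : tp (M ⊗ Mᘁ) m ⟶ _) → IsNilpotent f) →
      ConservativePower R M m := by
    intro hnil
    have h1 : ∀ f : tp (M ⊗ Mᘁ) m ⟶ tp (M ⊗ Mᘁ) m, IsIso (R.H.map f) → IsIso f :=
      fun f hf => isIso_of_nil hR (cplus_tp hR hS.cplus m) hnil hf
    exact ⟨hnil, conservative_of R h1, conservative_of R (isIso_power hS.retract m h1)⟩
  refine ⟨fun n hn hlt => hfinal fun f hf => ?_, fun a hlt => hfinal fun f hf => ?_⟩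
  · obtain ⟨N, -, -, -, h4⟩ := smash_num_law hS
    rw [← numRank_tensor_dual hR] at hlt
    refine nil_of_voev hR (h4.half (m + m) n ?_ hlt) f hf
    rw [bt_tensor, bt_dual, ← sq, ← pow_mul]
    have e1 : m + m + 1 = 2 * m + 1 := by ring
    have e2 : 2 * (2 * (m + m) + 6) = 8 * m + 12 := by ring
    rw [e1, e2]
    exact hn
  · have e1 : m * (a + 2) = m * a + m + m := by ring
    rw [e1, ← numRank_tensor_dual hR] at hlt
    exact nil_of_one_pow2 hS hlt f hf

end Pool.Agent.N64.AF
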