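import Pool.Agent.N64.AF.X11

/-!
# Phantoms and the growth of the homologically trivial classes modulo the smash nilpotent ones
-/

set_option autoImplicit false

open CategoryTheory Limits MonoidalCategory Module Filter Topology Finset
open Pool.Agent.Y112.SR Pool.Agent.Y112.KD
open scoped ENNReal

namespace Pool.Agent.N64.AF

universe v u w t x

section Powers

variable {C : Type u} [Category.{v} C] [MonoidalCategory C]

/-- The tensor powers of a morphism. -/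
def tpm {X Y : C} (f : X ⟶ Y) : ∀ n : ℕ, tp X n ⟶ tp Y n
  | 0 => 𝟙 _
  | n + 1 => tpm f n ⊗ₘ f

lemma tpm_comp {X Y Z : C} (f : X ⟶ Y) (g : Y ⟶ Z) (n : ℕ) :
    tpm (f ≫ g) n = tpm f n ≫ tpm g n := by
  induction n with
  | zero => exact (Category.comp_id _).symm
  | succ n ih =>
    change tpm (f ≫ g) n ⊗ₘ (f ≫ g) = (tpm f n ⊗ₘ f) ≫ (tpm g n ⊗ₘ g)
    rw [ih, MonoidalCategory.tensorHom_comp_tensorHom]

end Powers

section Dim

variable {C : Type u} [Category.{v} C] [Preadditive C] {Λ : Type t} [Field Λ] [Linear Λ C]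

omit [Preadditive C] [Linear Λ C] in
lemma dimE_inj {V W : Type x} [AddCommGroup V] [Module Λ V] [AddCommGroup W] [Module Λ W]
    (f : V →ₗ[Λ] W) (hf : Function.Injective f) : dimE Λ V ≤ dimE Λ W :=
  OrderHomClass.mono Cardinal.toENat (LinearMap.rank_le_of_injective f hf)

omit [Preadditive C] [Linear Λ C] in
lemma dimE_surj {V W : Type x} [AddCommGroup V] [Module Λ V] [AddCommGroup W] [Module Λ W]
    (f : V →ₗ[Λ] W) (hf : Function.Surjective f) : dimE Λ W ≤ dimE Λ V :=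
  OrderHomClass.mono Cardinal.toENat (LinearMap.rank_le_of_surjective f hf)

omit [Preadditive C] [Linear Λ C] in
lemma dimE_prod {V W : Type x} [AddCommGroup V] [Module Λ V] [AddCommGroup W] [Module Λ W] :
    dimE Λ (V × W) = dimE Λ V + dimE Λ W := by
  unfold dimE
  rw [rank_prod', map_add]

omit [Preadditive C] [Linear Λ C] in
lemma dimE_retr (F : C ⥤ ModuleCat.{x} Λ) {X Y : C} (i : X ⟶ Y) (r : Y ⟶ X) (h : i ≫ r = 𝟙 X) :
    dimE Λ (F.obj X) ≤ dimE Λ (F.obj Y) := by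
  refine dimE_inj (F.map i).hom ?_
  intro a b hab
  have h2 : F.map i ≫ F.map r = 𝟙 _ := by rw [← F.map_comp, h, F.map_id]
  have h3 : ∀ a : F.obj X, (F.map r).hom ((F.map i).hom a) = a := fun a =>
    congrArg (fun g : F.obj X ⟶ F.obj X => g.hom a) h2
  rw [← h3 a, ← h3 b, hab]

omit [Preadditive C] [Linear Λ C] in
lemma dimE_iso (F : C ⥤ ModuleCat.{x} Λ) {X Y : C} (e : X ≅ Y) :
    dimE Λ (F.obj X) = dimE Λ (F.obj Y) :=
  le_antisymm (dimE_retr F e.hom e.inv e.hom_inv_id) (dimE_retr F e.inv e.hom e.inv_hom_id)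

omit [Linear Λ C] in
lemma dimE_two (F : C ⥤ ModuleCat.{x} Λ) [F.Additive] {A B X : C} (a : A ⟶ X) (a' : X ⟶ A)
    (b : B ⟶ X) (b' : X ⟶ B) (h1 : a ≫ a' = 𝟙 A) (h2 : b ≫ b' = 𝟙 B) (h3 : a ≫ b' = 0)
    (h4 : b ≫ a' = 0) : dimE Λ (F.obj A) + dimE Λ (F.obj B) ≤ dimE Λ (F.obj X) := by
  rw [← dimE_prod]
  refine dimE_inj ((F.map a).hom.coprod (F.map b).hom) ?_
  have e1 : ∀ x, (F.map a').hom ((F.map a).hom x) = x := fun x =>
    congrArg (fun g : F.obj A ⟶ F.obj A => g.hom x)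
      (show F.map a ≫ F.map a' = 𝟙 _ by rw [← F.map_comp, h1, F.map_id])
  have e2 : ∀ x, (F.map b').hom ((F.map b).hom x) = x := fun x =>
    congrArg (fun g : F.obj B ⟶ F.obj B => g.hom x)
      (show F.map b ≫ F.map b' = 𝟙 _ by rw [← F.map_comp, h2, F.map_id])
  have e3 : ∀ x, (F.map b').hom ((F.map a).hom x) = 0 := fun x =>
    congrArg (fun g : F.obj A ⟶ F.obj B => g.hom x)
      (show F.map a ≫ F.map b' = 0 by rw [← F.map_comp, h3, F.map_zero])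
  have e4 : ∀ x, (F.map a').hom ((F.map b).hom x) = 0 := fun x =>
    congrArg (fun g : F.obj B ⟶ F.obj A => g.hom x)
      (show F.map b ≫ F.map a' = 0 by rw [← F.map_comp, h4, F.map_zero])
  rintro ⟨x, y⟩ ⟨x', y'⟩ h
  simp only [LinearMap.coprod_apply] at h
  have h5 := congrArg (F.map a').hom h
  have h6 := congrArg (F.map b').hom h
  rw [map_add, map_add, e1, e4, e1, e4, add_zero, add_zero] at h5
  rw [map_add, map_add, e2, e3, e2, e3, zero_add, zero_add] at h6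
  rw [h5, h6]

end Dim

section Count

variable {C : Type u} [Category.{v} C] [Preadditive C] [MonoidalCategory C]
  [MonoidalPreadditive C] [SymmetricCategory C] {Λ : Type t} [Field Λ]

/-- The decomposition of the values of an additive functor on the tensor powers of `T ⊇ T0 ⊕ P`. -/
lemma count (F : C ⥤ ModuleCat.{x} Λ) [F.Additive] {T0 P T : C} (j : T0 ⟶ T) (q : T ⟶ T0)
    (i : P ⟶ T) (p : T ⟶ P) (h1 : j ≫ q = 𝟙 T0) (h2 : i ≫ p = 𝟙 P) (h3 : j ≫ p = 0)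
    (h4 : i ≫ q = 0) (n : ℕ) : ∀ Z : C,
    ∑ ij ∈ antidiagonal n, (n.choose ij.1 : ℕ∞) *
      dimE Λ (F.obj ((tp T0 ij.2 ⊗ tp P ij.1) ⊗ Z)) ≤ dimE Λ (F.obj (tp T n ⊗ Z)) := by
  induction n with
  | zero =>
    intro Z
    rw [Finset.Nat.antidiagonal_zero, sum_singleton, Nat.choose_self, Nat.cast_one, one_mul]
    exact (dimE_iso F (whiskerRightIso (λ_ (𝟙_ C)) Z)).le
  | succ n ih =>
    intro Z
    have hs := Finset.sum_antidiagonal_choose_succ_mul (R := ℕ∞)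
      (fun t a => dimE Λ (F.obj ((tp T0 a ⊗ tp P t) ⊗ Z))) n
    rw [hs]
    have e1 : ∀ t a, dimE Λ (F.obj ((tp T0 (a + 1) ⊗ tp P t) ⊗ Z)) =
        dimE Λ (F.obj ((tp T0 a ⊗ tp P t) ⊗ (T0 ⊗ Z))) := by
      intro t a
      exact dimE_iso F (whiskerRightIso (α_ (tp T0 a) T0 (tp P t) ≪≫
        whiskerLeftIso (tp T0 a) (β_ T0 (tp P t)) ≪≫ (α_ (tp T0 a) (tp P t) T0).symm) Z ≪≫
        α_ (tp T0 a ⊗ tp P t) T0 Z)
    have e2 : ∀ t a, dimE Λ (F.obj ((tp T0 a ⊗ tp P (t + 1)) ⊗ Z)) =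
        dimE Λ (F.obj ((tp T0 a ⊗ tp P t) ⊗ (P ⊗ Z))) := by
      intro t a
      exact dimE_iso F (whiskerRightIso (α_ (tp T0 a) (tp P t) P).symm Z ≪≫
        α_ (tp T0 a ⊗ tp P t) P Z)
    have h5 := ih (T0 ⊗ Z)
    have h6 := ih (P ⊗ Z)
    have h7 : dimE Λ (F.obj (tp T n ⊗ (T0 ⊗ Z))) + dimE Λ (F.obj (tp T n ⊗ (P ⊗ Z))) ≤
        dimE Λ (F.obj (tp T n ⊗ (T ⊗ Z))) := by
      refine dimE_two F (tp T n ◁ (j ▷ Z)) (tp T n ◁ (q ▷ Z)) (tp T n ◁ (i ▷ Z))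
        (tp T n ◁ (p ▷ Z)) ?_ ?_ ?_ ?_
      · rw [← MonoidalCategory.whiskerLeft_comp, ← comp_whiskerRight, h1, id_whiskerRight,
          MonoidalCategory.whiskerLeft_id]
      · rw [← MonoidalCategory.whiskerLeft_comp, ← comp_whiskerRight, h2, id_whiskerRight,
          MonoidalCategory.whiskerLeft_id]
      · rw [← MonoidalCategory.whiskerLeft_comp, ← comp_whiskerRight, h3,
          MonoidalPreadditive.zero_whiskerRight, MonoidalPreadditive.whiskerLeft_zero]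
      · rw [← MonoidalCategory.whiskerLeft_comp, ← comp_whiskerRight, h4,
          MonoidalPreadditive.zero_whiskerRight, MonoidalPreadditive.whiskerLeft_zero]
    have h8 : dimE Λ (F.obj (tp T (n + 1) ⊗ Z)) = dimE Λ (F.obj (tp T n ⊗ (T ⊗ Z))) :=
      dimE_iso F (α_ (tp T n) T Z)
    rw [h8]
    refine le_trans (add_le_add ?_ ?_) h7
    · refine le_trans (le_of_eq ?_) h5
      refine sum_congr rfl fun ij _ => ?_
      rw [e1]
    · refine le_trans (le_of_eq ?_) h6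
      refine sum_congr rfl fun ij hij => ?_
      rw [e2]
      congr 2
      rw [HasAntidiagonal.mem_antidiagonal] at hij
      rw [← hij, Nat.choose_symm_add]

omit [Preadditive C] [MonoidalPreadditive C] [SymmetricCategory C] in
/-- For a self-dual `P` the power `P^{t+1}` is a retract of `P^{t+3}`. -/
lemma retr_two {P : C} [ExactPairing P P] (t : ℕ) :
    ∃ (s : tp P (t + 1) ⟶ tp P (t + 1 + 2)) (r : tp P (t + 1 + 2) ⟶ tp P (t + 1)), s ≫ r = 𝟙 _ := by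
  let e : tp P (t + 1 + 2) ≅ tp P t ⊗ ((P ⊗ P) ⊗ P) :=
    whiskerRightIso (α_ (tp P t) P P) P ≪≫ α_ (tp P t) (P ⊗ P) P
  refine ⟨(tp P t ◁ ((λ_ P).inv ≫ (η_ P P ▷ P))) ≫ e.inv, e.hom ≫ (tp P t ◁ (evL P P)), ?_⟩
  have h1 : ((λ_ P).inv ≫ (η_ P P ▷ P)) ≫ evL P P = 𝟙 P := by
    have h2 := mate_evL (L := P) (L' := P) (𝟙 P)
    rw [id_whiskerRight, Category.comp_id, Category.comp_id] at h2
    rw [Category.assoc, h2, Iso.inv_hom_id]
  rw [Category.assoc, e.inv_hom_id_assoc, ← MonoidalCategory.whiskerLeft_comp, h1,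
    MonoidalCategory.whiskerLeft_id]

end Count

variable {C : Type u} [Category.{v} C] [Preadditive C] [MonoidalCategory C]
  [MonoidalPreadditive C] [SymmetricCategory C] [RightRigidCategory C]
  {Λ : Type t} [Field Λ] [CharZero Λ] [Linear Λ C] [MonoidalLinear Λ C]
  {K : Type w} [Field K] [IsAlgClosed K] [Algebra Λ K] {R : SuperRealisation C K}

omit [MonoidalPreadditive C] [RightRigidCategory C] [IsAlgClosed K] [CharZero Λ]
  [MonoidalLinear Λ C] [Linear Λ C] [Algebra Λ K] [Field Λ] in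
lemma map_tpm (R : SuperRealisation C K) {X : C} (g : X ⟶ X) (hg : R.H.map g = 𝟙 _) (n : ℕ) :
    R.H.map (tpm g n) = 𝟙 _ := by
  induction n with
  | zero => exact R.H.map_id _
  | succ n ih =>
    change R.H.map (tpm g n ⊗ₘ g) = _
    rw [Functor.Monoidal.map_tensor, ih, hg]
    simp

omit [IsAlgClosed K] in
/-- The classes of the products with the diagonal of a phantom. -/
lemma low (hR : IsReal Λ R) {T T0 P : C} [ExactPairing P P] (j : T0 ⟶ T) (q : T ⟶ T0)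
    (hqj : R.H.map (q ≫ j) = 𝟙 _) (hP : R.H.map (𝟙 P) = 0) (hne : 𝟙 P ≠ 0) (a : ℕ) :
    (numRank Λ (tp T a) : ℕ∞) ≤ dimE Λ ((hmF hR).obj (tp T0 a ⊗ (P ⊗ P))) := by
  have hη : R.H.map (η_ P P) = 0 := by
    have h1 : η_ P P = η_ P P ≫ (𝟙 P ▷ P) := by rw [id_whiskerRight, Category.comp_id]
    rw [h1, R.H.map_comp, Functor.Monoidal.map_whiskerRight, hP]
    simp
  let m : tp T a ⟶ tp T0 a ⊗ (P ⊗ P) := tpm q a ≫ (ρ_ (tp T0 a)).inv ≫ (tp T0 a ◁ η_ P P)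
  have hm : R.H.map m = 0 := by
    change R.H.map (tpm q a ≫ (ρ_ (tp T0 a)).inv ≫ (tp T0 a ◁ η_ P P)) = 0
    rw [R.H.map_comp, R.H.map_comp, Functor.Monoidal.map_whiskerLeft, hη]
    simp
  let Φ : (𝟙_ C ⟶ tp T a) →ₗ[Λ] (hmF hR).obj (tp T0 a ⊗ (P ⊗ P)) :=
    Submodule.mkQ _ ∘ₗ LinearMap.codRestrict (homSub hR (𝟙_ C) (tp T0 a ⊗ (P ⊗ P)))
      (Linear.rightComp Λ (𝟙_ C) m) (fun α => by
        change R.H.map (α ≫ m) = 0
        rw [R.H.map_comp, hm, comp_zero])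
  have hker : LinearMap.ker Φ ≤ numIdeal Λ (𝟙_ C) (tp T a) := by
    intro α hα
    have h1 : SmashNil (α ≫ m) := (Submodule.Quotient.mk_eq_zero _).1 hα
    rw [mem_numIdeal, numTriv_unit_iff hR]
    intro β
    have h2 := h1.comp (((tpm j a ≫ β) ▷ (P ⊗ P)) ≫ (λ_ (P ⊗ P)).hom)
    have h3 : (α ≫ m) ≫ ((tpm j a ≫ β) ▷ (P ⊗ P)) ≫ (λ_ (P ⊗ P)).hom =
        (α ≫ tpm (q ≫ j) a ≫ β) ≫ η_ P P := by
      change (α ≫ tpm q a ≫ (ρ_ (tp T0 a)).inv ≫ (tp T0 a ◁ η_ P P)) ≫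
        ((tpm j a ≫ β) ▷ (P ⊗ P)) ≫ (λ_ (P ⊗ P)).hom = _
      rw [tpm_comp]
      simp only [Category.assoc]
      rw [whisker_exchange_assoc]
      simp only [comp_whiskerRight, Category.assoc]
      rw [leftUnitor_naturality, unitors_equal, rightUnitor_naturality_assoc,
        rightUnitor_naturality_assoc, Iso.inv_hom_id_assoc]
    rw [h3] at h2
    have h4 : α ≫ tpm (q ≫ j) a ≫ β = α ≫ β := by
      rw [← sub_eq_zero]
      have h5 : NumTriv (α ≫ tpm (q ≫ j) a ≫ β - α ≫ β) := by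
        apply numTriv_of_map hR
        rw [Functor.map_sub, R.H.map_comp, R.H.map_comp, R.H.map_comp, map_tpm R _ hqj,
          Category.id_comp, sub_self]
      have h6 := (numTriv_unit_iff hR _).1 h5 (𝟙 _)
      rwa [Category.comp_id] at h6
    rw [h4] at h2
    obtain ⟨x, hx⟩ := hR.unit (α ≫ β)
    rw [hx, Linear.smul_comp, Category.id_comp] at h2
    by_cases hx0 : x = 0
    · rw [hx, hx0, zero_smul]
    · exfalso
      have h7 : SmashNil (η_ P P) := by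
        have h8 := h2.smul x⁻¹
        rwa [smul_smul, inv_mul_cancel₀ hx0, one_smul] at h8
      have h9 : SmashNil (η_ P P ≫ ((𝟙 P : P ⟶ P) ▷ P)) := by
        rwa [id_whiskerRight, Category.comp_id]
      obtain ⟨k, hk⟩ := nil_of_mate (L' := P) (1 : End P) h9
      rw [one_pow] at hk
      exact hne hk
  have hfin := finite_num hR (𝟙_ C) (tp T a)
  have h1 : (numRank Λ (tp T a) : ℕ∞) = dimE Λ ((𝟙_ C ⟶ tp T a) ⧸ numIdeal Λ (𝟙_ C) (tp T a)) :=
    dimE_eq.symm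
  rw [h1]
  refine (dimE_surj (Submodule.factor hker) (Submodule.factor_surjective hker)).trans ?_
  exact dimE_inj ((LinearMap.ker Φ).liftQ Φ le_rfl) (LinearMap.ker_eq_bot.1
    (Submodule.ker_liftQ_eq_bot' _ _ rfl))

omit [IsAlgClosed K] in
/-- **Growth**: if `T` has a self-dual phantom direct factor `P ≠ 0`. -/
theorem phantom_growth (hR : IsReal Λ R) {T T0 P : C} [ExactPairing P P]
    (j : T0 ⟶ T) (q : T ⟶ T0) (i : P ⟶ T) (p : T ⟶ P) (h1 : j ≫ q = 𝟙 T0) (h2 : i ≫ p = 𝟙 P)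
    (h3 : j ≫ p = 0) (h4 : i ≫ q = 0) (h5 : q ≫ j + p ≫ i = 𝟙 T) (hP : R.H.map (𝟙 P) = 0)
    (hne : 𝟙 P ≠ 0) (n : ℕ) :
    ((∑ ij ∈ antidiagonal n with Even ij.1 ∧ 0 < ij.1, n.choose ij.1 * numRank Λ (tp T ij.2) : ℕ) :
      ℕ∞) ≤ hsDim hR T n := by
  have hqj : R.H.map (q ≫ j) = 𝟙 _ := by
    have h6 : R.H.map (p ≫ i) = 0 := by
      have h7 : p ≫ i = p ≫ 𝟙 P ≫ i := by rw [Category.id_comp]
      rw [h7, R.H.map_comp, R.H.map_comp, hP, zero_comp, comp_zero]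
    rw [← R.H.map_id, ← h5, R.H.map_add, h6, add_zero]
  have h6 := count (Λ := Λ) (hmF hR) j q i p h1 h2 h3 h4 n (𝟙_ C)
  have h7 : dimE Λ ((hmF hR).obj (tp T n ⊗ 𝟙_ C)) = hsDim hR T n :=
    dimE_iso (hmF hR) (ρ_ (tp T n))
  rw [h7] at h6
  refine le_trans ?_ h6
  rw [Nat.cast_sum]
  refine le_trans (sum_le_sum fun ij hij => ?_) (sum_le_sum_of_subset (filter_subset _ _))
  rw [mem_filter] at hij
  obtain ⟨-, ⟨k, hk⟩, h9⟩ := hij
  rw [Nat.cast_mul]
  refine mul_le_mul_right ?_ _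
  have h10 : ∀ u : ℕ, (numRank Λ (tp T ij.2) : ℕ∞) ≤
      dimE Λ ((hmF hR).obj (tp T0 ij.2 ⊗ tp P (2 * u + 2))) := by
    intro u
    induction u with
    | zero =>
      refine (low hR j q hqj hP hne ij.2).trans (le_of_eq ?_)
      exact dimE_iso (hmF hR) (whiskerLeftIso (tp T0 ij.2) (whiskerRightIso (λ_ P).symm P))
    | succ u ih =>
      refine ih.trans ?_
      obtain ⟨s, r, hsr⟩ := retr_two (P := P) (2 * u + 1)
      refine dimE_retr (hmF hR) (tp T0 ij.2 ◁ s) (tp T0 ij.2 ◁ r) ?_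
      rw [← MonoidalCategory.whiskerLeft_comp, hsr, MonoidalCategory.whiskerLeft_id]
  have h11 : ij.1 = 2 * (k - 1) + 2 := by omega
  rw [h11]
  exact (h10 (k - 1)).trans (dimE_iso (hmF hR) (ρ_ _).symm).le

end Pool.Agent.N64.AF
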