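import Pool.Agent.N64.AF.X13

/-!
# Objects whose cohomology is spanned by algebraic classes
-/

set_option autoImplicit false

open CategoryTheory Limits MonoidalCategory Module Filter Topology Finset
open Pool.Agent.Y112.SR Pool.Agent.Y112.KD
open Pool.Agent.Y116.MT (tr)
open scoped ENNReal

namespace Pool.Agent.N64.AF

universe v u w t x

section Pairing

variable {C : Type u} [Category.{v} C] [MonoidalCategory C]

/-- The pairing of a direct factor. -/
@[instance_reducible]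
def pairRetract {T P : C} [ExactPairing T T] (i : P ⟶ T) (p : T ⟶ P) (h : i ≫ p = 𝟙 P)
    (hs : ((p ≫ i) ▷ T) ≫ ε_ T T = (T ◁ (p ≫ i)) ≫ ε_ T T) : ExactPairing P P where
  coevaluation' := η_ T T ≫ (p ⊗ₘ p)
  evaluation' := (i ⊗ₘ i) ≫ ε_ T T
  coevaluation_evaluation' := by
    have e1 : (i ⊗ₘ (p ≫ i)) ≫ ε_ T T = (i ▷ T) ≫ ε_ T T := by
      rw [MonoidalCategory.tensorHom_def, Category.assoc, ← hs, ← comp_whiskerRight_assoc, reassoc_of% h]
    have e2 : (P ◁ (p ⊗ₘ p)) ≫ (α_ P P P).inv ≫ ((i ⊗ₘ i) ▷ P) =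
        (α_ P T T).inv ≫ ((i ⊗ₘ (p ≫ i)) ⊗ₘ p) := by
      have e3 : ((i ⊗ₘ i) ▷ P) = (i ⊗ₘ i) ⊗ₘ 𝟙 P := (tensorHom_id _ _).symm
      have e4 : (P ◁ (p ⊗ₘ p)) = 𝟙 P ⊗ₘ (p ⊗ₘ p) := (id_tensorHom _ _).symm
      rw [e3, e4, associator_inv_naturality_assoc, tensorHom_comp_tensorHom,
        tensorHom_comp_tensorHom, Category.id_comp, Category.comp_id]
    rw [MonoidalCategory.whiskerLeft_comp, comp_whiskerRight, Category.assoc,
      reassoc_of% e2]
    have e5 : ((i ⊗ₘ (p ≫ i)) ⊗ₘ p) ≫ (ε_ T T ▷ P) = ((i ▷ T) ▷ T) ≫ (ε_ T T ▷ T) ≫ (𝟙_ C ◁ p) := by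
      rw [← comp_whiskerRight_assoc, ← e1, MonoidalCategory.tensorHom_def, Category.assoc,
        whisker_exchange,
        ← comp_whiskerRight_assoc]
    rw [e5, ← associator_inv_naturality_left_assoc, whisker_exchange_assoc,
      ExactPairing.coevaluation_evaluation_assoc, rightUnitor_naturality_assoc,
      ← leftUnitor_inv_naturality, reassoc_of% h]
  evaluation_coevaluation' := by
    have e1 : ((p ≫ i) ⊗ₘ i) ≫ ε_ T T = (T ◁ i) ≫ ε_ T T := by
      rw [MonoidalCategory.tensorHom_def', Category.assoc, hs, ← MonoidalCategory.whiskerLeft_comp_assoc,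
        reassoc_of% h]
    have e2 : ((p ⊗ₘ p) ▷ P) ≫ (α_ P P P).hom ≫ (P ◁ (i ⊗ₘ i)) =
        (α_ T T P).hom ≫ (p ⊗ₘ ((p ≫ i) ⊗ₘ i)) := by
      have e3 : (P ◁ (i ⊗ₘ i)) = 𝟙 P ⊗ₘ (i ⊗ₘ i) := (id_tensorHom _ _).symm
      have e4 : ((p ⊗ₘ p) ▷ P) = (p ⊗ₘ p) ⊗ₘ 𝟙 P := (tensorHom_id _ _).symm
      rw [e3, e4, associator_naturality_assoc, tensorHom_comp_tensorHom,
        tensorHom_comp_tensorHom, Category.id_comp, Category.comp_id]
    rw [MonoidalCategory.whiskerLeft_comp, comp_whiskerRight, Category.assoc,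
      reassoc_of% e2]
    have e5 : (p ⊗ₘ ((p ≫ i) ⊗ₘ i)) ≫ (P ◁ ε_ T T) = (T ◁ (T ◁ i)) ≫ (T ◁ ε_ T T) ≫ (p ▷ 𝟙_ C) := by
      rw [← MonoidalCategory.whiskerLeft_comp_assoc, ← e1, MonoidalCategory.tensorHom_def',
        Category.assoc, ← whisker_exchange, ← MonoidalCategory.whiskerLeft_comp_assoc]
    rw [e5, ← associator_naturality_right_assoc, ← whisker_exchange_assoc,
      ExactPairing.evaluation_coevaluation_assoc, leftUnitor_naturality_assoc,
      ← rightUnitor_inv_naturality, reassoc_of% h]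


/-- The functional defined by a class, by means of the pairing. -/
def tps {T : C} [ExactPairing T T] (α : 𝟙_ C ⟶ T) : T ⟶ 𝟙_ C :=
  (ρ_ T).inv ≫ (T ◁ α) ≫ ε_ T T

/-- The same with the other order. -/
def tps' {T : C} [ExactPairing T T] (α : 𝟙_ C ⟶ T) : T ⟶ 𝟙_ C :=
  (λ_ T).inv ≫ (α ▷ T) ≫ ε_ T T

lemma comp_tps {T : C} [ExactPairing T T] (α α' : 𝟙_ C ⟶ T) : α ≫ tps α' = α' ≫ tps' α := by
  unfold tps tps'
  rw [rightUnitor_inv_naturality_assoc, leftUnitor_inv_naturality_assoc, unitors_inv_equal,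
    whisker_exchange_assoc]

lemma tps_eq [BraidedCategory C] {T : C} [ExactPairing T T]
    (hs : (β_ T T).hom ≫ ε_ T T = ε_ T T) (α : 𝟙_ C ⟶ T) : tps α = tps' α := by
  have h1 : tps α = (ρ_ T).inv ≫ (T ◁ α) ≫ (β_ T T).hom ≫ ε_ T T := by rw [hs]; rfl
  rw [h1, BraidedCategory.braiding_naturality_right_assoc]
  unfold tps'
  simp

lemma exists_tps {T : C} [ExactPairing T T] (β : T ⟶ 𝟙_ C) : ∃ α : 𝟙_ C ⟶ T, tps' α = β := by
  refine ⟨η_ T T ≫ (β ▷ T) ≫ (λ_ T).hom, ?_⟩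
  unfold tps'
  have h1 : ((β ▷ T) ≫ (λ_ T).hom) ▷ T ≫ ε_ T T = (α_ T T T).hom ≫ (T ◁ ε_ T T) ≫
      (ρ_ T).hom ≫ β := by
    rw [comp_whiskerRight, Category.assoc, leftUnitor_whiskerRight, Category.assoc,
      ← leftUnitor_naturality, associator_naturality_left_assoc, ← whisker_exchange_assoc,
      ← rightUnitor_naturality, unitors_equal]
  rw [comp_whiskerRight, Category.assoc, h1, ExactPairing.evaluation_coevaluation_assoc]
  simp

end Pairing

section Bil

variable {C : Type u} [Category.{v} C] [MonoidalCategory C]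

/-- the product of two functionals -/
def bil {T : C} (a b : T ⟶ 𝟙_ C) : T ⊗ T ⟶ 𝟙_ C := (a ⊗ₘ b) ≫ (λ_ (𝟙_ C)).hom

lemma bil_left {T : C} [ExactPairing T T] (a : T ⟶ 𝟙_ C) (β : 𝟙_ C ⟶ T) :
    ((a ≫ β) ▷ T) ≫ ε_ T T = bil a (tps' β) := by
  unfold bil tps'
  rw [comp_whiskerRight, Category.assoc, MonoidalCategory.tensorHom_def, Category.assoc,
    leftUnitor_naturality, Iso.hom_inv_id_assoc]

lemma bil_right {T : C} [ExactPairing T T] (a : T ⟶ 𝟙_ C) (β : 𝟙_ C ⟶ T) :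
    (T ◁ (a ≫ β)) ≫ ε_ T T = bil (tps β) a := by
  unfold bil tps
  rw [MonoidalCategory.whiskerLeft_comp, Category.assoc, MonoidalCategory.tensorHom_def',
    Category.assoc, unitors_equal, rightUnitor_naturality, Iso.hom_inv_id_assoc]

end Bil

variable {C : Type u} [Category.{v} C] [Preadditive C] [MonoidalCategory C]
  [MonoidalPreadditive C] [SymmetricCategory C] [RightRigidCategory C]
  {Λ : Type t} [Field Λ] [CharZero Λ] [Linear Λ C] [MonoidalLinear Λ C]
  {K : Type w} [Field K] [IsAlgClosed K] [Algebra Λ K] {R : SuperRealisation C K}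

omit [IsAlgClosed K] in
lemma hom_unit (hR : IsReal Λ R) {c : 𝟙_ C ⟶ 𝟙_ C} (hc : R.H.map c = 0) : c = 0 := by
  have h6 := (numTriv_unit_iff hR _).1 (numTriv_of_map hR hc) (𝟙 _)
  rwa [Category.comp_id] at h6

/-- Dual families of classes and functionals: the Gram matrix of a basis. -/
structure Gram (Λ : Type t) [Field Λ] [Linear Λ C] (T : C) [ExactPairing T T] (b : ℕ) where
  /-- the classes -/
  e : Fin b → (𝟙_ C ⟶ T)
  /-- the Gram matrix -/
  g : Matrix (Fin b) (Fin b) Λ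
  eq : ∀ i j, e i ≫ tps (e j) = g i j • 𝟙 (𝟙_ C)
  symm : ∀ i j, g i j = g j i
  det : g.det ≠ 0

/-- There is a basis of the classes modulo numerical equivalence with a symmetric non-degenerate Gram
matrix. -/
lemma exists_gram (hR : IsReal Λ R) (T : C) [ExactPairing T T]
    (hs : (β_ T T).hom ≫ ε_ T T = ε_ T T) : Nonempty (Gram Λ T (numRank Λ T)) := by
  have hfin := finite_num hR (𝟙_ C) T
  let B : Basis (Fin (numRank Λ T)) Λ ((𝟙_ C ⟶ T) ⧸ numIdeal Λ (𝟙_ C) T) :=
    Module.finBasis Λ _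
  choose e he using fun i => Submodule.Quotient.mk_surjective (numIdeal Λ (𝟙_ C) T) (B i)
  choose g hg using fun i j => hR.unit (e i ≫ tps (e j))
  have h1 : (𝟙 (𝟙_ C) : 𝟙_ C ⟶ 𝟙_ C) ≠ 0 := E1aux.id_ne_zero R
  have hsym : ∀ i j, g i j = g j i := by
    intro i j
    have h2 : e i ≫ tps (e j) = e j ≫ tps (e i) := by rw [comp_tps, tps_eq hs]
    rw [hg, hg] at h2
    exact smul_left_injective Λ h1 h2
  refine ⟨⟨e, g, hg, hsym, ?_⟩⟩
  intro hdet
  obtain ⟨x, hx, hx0⟩ := Matrix.exists_vecMul_eq_zero_iff.2 hdet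
  apply hx
  let α : 𝟙_ C ⟶ T := ∑ i, x i • e i
  have hα : ∀ j, α ≫ tps (e j) = 0 := by
    intro j
    change (∑ i, x i • e i) ≫ tps (e j) = 0
    rw [Preadditive.sum_comp]
    have h2 : ∀ i, (x i • e i) ≫ tps (e j) = (x i * g i j) • 𝟙 (𝟙_ C) := by
      intro i
      rw [Linear.smul_comp, hg, smul_smul]
    rw [Finset.sum_congr rfl fun i _ => h2 i, ← Finset.sum_smul]
    have h3 : ∑ i, x i * g i j = 0 := congrFun hx0 j
    rw [h3, zero_smul]
  have hnum : NumTriv α := by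
    rw [numTriv_unit_iff hR]
    intro β
    obtain ⟨γ, rfl⟩ := exists_tps β
    rw [← tps_eq hs γ, comp_tps, ← tps_eq hs α]
    let c := B.repr (Submodule.Quotient.mk γ)
    have h4 : γ - ∑ j, c j • e j ∈ numIdeal Λ (𝟙_ C) T := by
      rw [← Submodule.Quotient.mk_eq_zero, Submodule.Quotient.mk_sub, sub_eq_zero]
      conv_lhs => rw [← B.sum_repr (Submodule.Quotient.mk γ)]
      refine Eq.trans ?_ (map_sum (numIdeal Λ (𝟙_ C) T).mkQ _ _).symm
      refine Finset.sum_congr rfl fun j _ => ?_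
      rw [map_smul, Submodule.mkQ_apply, he]
    have h5 : (γ - ∑ j, c j • e j) ≫ tps α = 0 := (numTriv_unit_iff hR _).1 h4 _
    rw [Preadditive.sub_comp, sub_eq_zero] at h5
    rw [h5, Preadditive.sum_comp]
    refine Finset.sum_eq_zero fun j _ => ?_
    rw [Linear.smul_comp, comp_tps, ← tps_eq hs (e j), hα, smul_zero]
  have h6 : (Submodule.Quotient.mk α : (𝟙_ C ⟶ T) ⧸ numIdeal Λ (𝟙_ C) T) = 0 :=
    (Submodule.Quotient.mk_eq_zero _).2 hnum
  have h7 : ∑ i, x i • B i = 0 := by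
    rw [← h6]
    refine Eq.trans ?_ (map_sum (numIdeal Λ (𝟙_ C) T).mkQ _ _).symm
    refine Finset.sum_congr rfl fun i _ => ?_
    rw [map_smul, Submodule.mkQ_apply, he]
  funext i
  exact (Fintype.linearIndependent_iff.1 B.linearIndependent) x h7 i

namespace Gram

variable {T : C} [ExactPairing T T] {b : ℕ} (γ : Gram Λ T b)

/-- the dual functionals -/
noncomputable def f (i : Fin b) : T ⟶ 𝟙_ C := ∑ j, γ.g⁻¹ j i • tps (γ.e j)

/-- the projector -/
noncomputable def π : T ⟶ T := ∑ i, γ.f i ≫ γ.e i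

omit [MonoidalPreadditive C] [SymmetricCategory C] [RightRigidCategory C] [CharZero Λ]
  [MonoidalLinear Λ C] in
lemma e_f (k i : Fin b) : γ.e k ≫ γ.f i = if k = i then 𝟙 (𝟙_ C) else 0 := by
  unfold f
  rw [Preadditive.comp_sum]
  have h2 : ∀ j, γ.e k ≫ (γ.g⁻¹ j i • tps (γ.e j)) = (γ.g k j * γ.g⁻¹ j i) • 𝟙 (𝟙_ C) := by
    intro j
    rw [Linear.comp_smul, γ.eq, smul_smul, mul_comm]
  rw [Finset.sum_congr rfl fun j _ => h2 j, ← Finset.sum_smul, ← Matrix.mul_apply,
    Matrix.mul_nonsing_inv _ (isUnit_iff_ne_zero.2 γ.det), Matrix.one_apply]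
  split_ifs with h
  · rw [one_smul]
  · rw [zero_smul]

omit [MonoidalPreadditive C] [SymmetricCategory C] [RightRigidCategory C] [CharZero Λ]
  [MonoidalLinear Λ C] in
lemma e_π (k : Fin b) : γ.e k ≫ γ.π = γ.e k := by
  unfold π
  rw [Preadditive.comp_sum, Finset.sum_eq_single k]
  · rw [← Category.assoc, γ.e_f, if_pos rfl, Category.id_comp]
  · intro i _ hi
    rw [← Category.assoc, γ.e_f, if_neg (Ne.symm hi), zero_comp]
  · intro h
    exact absurd (Finset.mem_univ k) h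

omit [MonoidalPreadditive C] [SymmetricCategory C] [RightRigidCategory C] [CharZero Λ]
  [MonoidalLinear Λ C] in
lemma idem : γ.π ≫ γ.π = γ.π := by
  conv_lhs => arg 1; unfold π
  rw [Preadditive.sum_comp]
  conv_rhs => unfold π
  refine Finset.sum_congr rfl fun i _ => ?_
  rw [Category.assoc, γ.e_π]

omit [CharZero Λ] [RightRigidCategory C] in
lemma bil_sum_left {ι : Type*} (s : Finset ι) (c : ι → Λ)
    (a : ι → (T ⟶ 𝟙_ C)) (d : T ⟶ 𝟙_ C) :
    bil (∑ j ∈ s, c j • a j) d = ∑ j ∈ s, c j • bil (a j) d := by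
  unfold bil
  rw [sum_tensor, Preadditive.sum_comp]
  refine Finset.sum_congr rfl fun j _ => ?_
  rw [MonoidalCategory.tensorHom_def, MonoidalLinear.smul_whiskerRight, Linear.smul_comp,
    Linear.smul_comp, ← MonoidalCategory.tensorHom_def]

omit [CharZero Λ] [RightRigidCategory C] in
lemma bil_sum_right {ι : Type*} (s : Finset ι) (c : ι → Λ)
    (a : ι → (T ⟶ 𝟙_ C)) (d : T ⟶ 𝟙_ C) :
    bil d (∑ j ∈ s, c j • a j) = ∑ j ∈ s, c j • bil d (a j) := by
  unfold bil
  rw [tensor_sum, Preadditive.sum_comp]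
  refine Finset.sum_congr rfl fun j _ => ?_
  rw [MonoidalCategory.tensorHom_def, MonoidalLinear.whiskerLeft_smul, Linear.comp_smul,
    Linear.smul_comp, ← MonoidalCategory.tensorHom_def]

omit [RightRigidCategory C] [CharZero Λ] in
lemma adj (hs : (β_ T T).hom ≫ ε_ T T = ε_ T T) : (γ.π ▷ T) ≫ ε_ T T = (T ◁ γ.π) ≫ ε_ T T := by
  have hinv : ∀ i j, γ.g⁻¹ i j = γ.g⁻¹ j i := by
    intro i j
    have h1 : γ.g.transpose = γ.g := by
      ext i j
      exact γ.symm j i
    have h2 : γ.g⁻¹.transpose = γ.g⁻¹ := by rw [Matrix.transpose_nonsing_inv, h1]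
    exact congrFun (congrFun h2 j) i
  unfold π
  rw [sum_whiskerRight, whiskerLeft_sum, Preadditive.sum_comp, Preadditive.sum_comp]
  have h3 : ∀ i, ((γ.f i ≫ γ.e i) ▷ T) ≫ ε_ T T = ∑ j, γ.g⁻¹ j i • bil (tps (γ.e j))
      (tps (γ.e i)) := by
    intro i
    rw [bil_left, ← tps_eq hs, f, bil_sum_left]
  have h4 : ∀ i, (T ◁ (γ.f i ≫ γ.e i)) ≫ ε_ T T = ∑ j, γ.g⁻¹ j i • bil (tps (γ.e i))
      (tps (γ.e j)) := by
    intro i
    rw [bil_right, f, bil_sum_right]
  rw [Finset.sum_congr rfl fun i _ => h3 i, Finset.sum_congr rfl fun i _ => h4 i,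
    Finset.sum_comm]
  refine Finset.sum_congr rfl fun i _ => Finset.sum_congr rfl fun j _ => ?_
  rw [hinv]

omit [IsAlgClosed K] in
lemma kill (hR : IsReal Λ R) (α : 𝟙_ C ⟶ T) (hα : R.H.map α = 0) : α ≫ γ.π = 0 := by
  unfold π
  rw [Preadditive.comp_sum]
  refine Finset.sum_eq_zero fun i _ => ?_
  rw [← Category.assoc, hom_unit hR (c := α ≫ γ.f i) (by rw [R.H.map_comp, hα, zero_comp]),
    zero_comp]

omit [IsAlgClosed K] in
lemma real_π (hR : IsReal Λ R) (hb : b = bt R T) : R.H.map γ.π = 𝟙 _ := by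
  have hfin := R.finite T
  have hf1 := R.finite (𝟙_ C)
  have := Pool.Agent.N8.AFBb.charZero_K Λ K
  have htr : LinearMap.trace K (R.H.obj T) (R.H.map γ.π).hom = (b : K) := by
    unfold π
    rw [Functor.map_sum, ModuleCat.hom_sum, map_sum]
    have h1 : ∀ i, LinearMap.trace K (R.H.obj T) (R.H.map (γ.f i ≫ γ.e i)).hom = 1 := by
      intro i
      rw [R.H.map_comp, ModuleCat.hom_comp, LinearMap.trace_comp_comm', ← ModuleCat.hom_comp,
        ← R.H.map_comp, γ.e_f, if_pos rfl, R.H.map_id, ModuleCat.hom_id, LinearMap.trace_id]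
      have h4 : finrank K (R.H.obj (𝟙_ C)) = 1 := bt_unit R
      rw [h4, Nat.cast_one]
    rw [Finset.sum_congr rfl fun i _ => h1 i]
    simp
  have hidem : (R.H.map γ.π).hom * (R.H.map γ.π).hom = (R.H.map γ.π).hom := by
    have h1 : R.H.map γ.π ≫ R.H.map γ.π = R.H.map γ.π := by rw [← R.H.map_comp, γ.idem]
    exact congrArg ModuleCat.Hom.hom h1
  have h2 : (1 - (R.H.map γ.π).hom : Module.End K (R.H.obj T)) = 0 := by
    refine Pool.Agent.N833.AF.idem_trace _ ?_ ?_
    · rw [sub_mul, mul_sub, mul_sub, hidem, one_mul, mul_one, one_mul, sub_self, sub_zero]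
    · rw [map_sub, LinearMap.trace_one, htr, hb]
      exact sub_self _
  ext x
  have h3 := LinearMap.congr_fun h2 x
  exact (sub_eq_zero.1 h3).symm

include γ in
lemma numRank_ge (hR : IsReal Λ R) (a : ℕ) : b ^ a ≤ numRank Λ (tp T a) := by
  induction a with
  | zero =>
    have hfin := finite_num hR (𝟙_ C) (𝟙_ C)
    rw [pow_zero]
    change 0 < finrank Λ ((𝟙_ C ⟶ 𝟙_ C) ⧸ numIdeal Λ (𝟙_ C) (𝟙_ C))
    refine Module.finrank_pos_iff_exists_ne_zero.2 ⟨Submodule.Quotient.mk (𝟙 (𝟙_ C)), ?_⟩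
    intro h0
    have h1 := (numTriv_unit_iff hR _).1 ((Submodule.Quotient.mk_eq_zero _).1 h0) (𝟙 _)
    rw [Category.comp_id] at h1
    exact E1aux.id_ne_zero R h1
  | succ a ih =>
    let N : C ⥤ ModuleCat.{v} Λ := quoS (homF Λ (𝟙_ C)) (numS Λ) (num_stab hR)
    have hfin : ∀ Z, Module.Finite Λ (N.obj Z) := fun Z => finite_num hR (𝟙_ C) Z
    let s : Fin b → (tp T a ⟶ tp T (a + 1)) := fun i => (ρ_ (tp T a)).inv ≫ (tp T a ◁ γ.e i)
    let r : Fin b → (tp T (a + 1) ⟶ tp T a) := fun i => (tp T a ◁ γ.f i) ≫ (ρ_ (tp T a)).hom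
    have hsr : ∀ i k, s i ≫ r k = if i = k then 𝟙 _ else 0 := by
      intro i k
      change ((ρ_ (tp T a)).inv ≫ (tp T a ◁ γ.e i)) ≫ (tp T a ◁ γ.f k) ≫ (ρ_ (tp T a)).hom = _
      rw [Category.assoc, ← MonoidalCategory.whiskerLeft_comp_assoc, γ.e_f]
      split_ifs with h
      · rw [MonoidalCategory.whiskerLeft_id, Category.id_comp, Iso.inv_hom_id]
      · rw [MonoidalPreadditive.whiskerLeft_zero, zero_comp, comp_zero]
    let Φ : (Fin b → N.obj (tp T a)) →ₗ[Λ] N.obj (tp T (a + 1)) :=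
      ∑ i, (N.map (s i)).hom ∘ₗ LinearMap.proj i
    have hΦ : ∀ x k, (N.map (r k)).hom (Φ x) = x k := by
      intro x k
      change (N.map (r k)).hom ((∑ i, (N.map (s i)).hom ∘ₗ LinearMap.proj i) x) = _
      rw [LinearMap.sum_apply, map_sum, Finset.sum_eq_single k]
      · have h1 : N.map (s k) ≫ N.map (r k) = 𝟙 _ := by
          rw [← N.map_comp, hsr, if_pos rfl, N.map_id]
        exact congrArg (fun g : N.obj (tp T a) ⟶ N.obj (tp T a) => g.hom (x k)) h1
      · intro i _ hi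
        have h1 : N.map (s i) ≫ N.map (r k) = 0 := by
          rw [← N.map_comp, hsr, if_neg hi, N.map_zero]
        exact congrArg (fun g : N.obj (tp T a) ⟶ N.obj (tp T a) => g.hom (x i)) h1
      · intro h
        exact absurd (Finset.mem_univ k) h
    have hinj : Function.Injective Φ := by
      intro x y hxy
      funext k
      rw [← hΦ x k, ← hΦ y k, hxy]
    have h2 := LinearMap.finrank_le_finrank_of_injective hinj
    rw [Module.finrank_pi_fintype, Finset.sum_const, Finset.card_univ, Fintype.card_fin,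
      smul_eq_mul] at h2
    rw [pow_succ, mul_comm]
    exact (Nat.mul_le_mul_left b ih).trans h2

end Gram

/-- **Objects whose cohomology is spanned by algebraic classes**: the vanishing of all
homologically trivial classes on all powers is equivalent to one inequality on one power. -/
theorem algebraic_one [IsIdempotentComplete C] (hR : IsReal Λ R) {T : C} [ExactPairing T T]
    (hs : (β_ T T).hom ≫ ε_ T T = ε_ T T) (halg : numRank Λ T = bt R T) :
    (∃ n : ℕ, hsDim hR T n <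
      ((∑ ij ∈ antidiagonal n with Even ij.1 ∧ 0 < ij.1, n.choose ij.1 * bt R T ^ ij.2 : ℕ) :
        ℕ∞)) ↔
    ∀ (n : ℕ) (α : 𝟙_ C ⟶ tp T n), R.H.map α = 0 → α = 0 := by
  constructor
  · rintro ⟨n, hn⟩
    obtain ⟨γ⟩ := exists_gram hR T hs
    obtain ⟨T0, j, q, hjq, hqj⟩ := IsIdempotentComplete.idempotents_split T γ.π γ.idem
    have hid : (𝟙 T - γ.π) ≫ (𝟙 T - γ.π) = 𝟙 T - γ.π := by
      rw [Preadditive.sub_comp, Category.id_comp, Preadditive.comp_sub, Category.comp_id, γ.idem,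
        sub_self, sub_zero]
    obtain ⟨P, i, p, hip, hpi⟩ := IsIdempotentComplete.idempotents_split T (𝟙 T - γ.π) hid
    have hπ : R.H.map γ.π = 𝟙 _ := γ.real_π hR halg
    have hP : R.H.map (𝟙 P) = 0 := by
      have h1 : 𝟙 P = i ≫ (𝟙 T - γ.π) ≫ p := by
        rw [← hpi, Category.assoc, hip, Category.comp_id, hip]
      rw [h1, R.H.map_comp, R.H.map_comp, Functor.map_sub, hπ, R.H.map_id, sub_self, zero_comp,
        comp_zero]
    have hjp : j ≫ p = 0 := by
      have h1 : j ≫ p = j ≫ (γ.π ≫ (𝟙 T - γ.π)) ≫ p := by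
        rw [← hpi, ← hqj]
        simp only [Category.assoc]
        rw [reassoc_of% hjq, hip, Category.comp_id]
      rw [h1, Preadditive.comp_sub, Category.comp_id, γ.idem, sub_self, zero_comp, comp_zero]
    have hiq : i ≫ q = 0 := by
      have h1 : i ≫ q = i ≫ ((𝟙 T - γ.π) ≫ γ.π) ≫ q := by
        rw [← hpi, ← hqj]
        simp only [Category.assoc]
        rw [reassoc_of% hip, hjq, Category.comp_id]
      rw [h1, Preadditive.sub_comp, Category.id_comp, γ.idem, sub_self, zero_comp, comp_zero]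
    have hsum : q ≫ j + p ≫ i = 𝟙 T := by
      rw [hqj, hpi, add_sub_cancel]
    have hadj : ((p ≫ i) ▷ T) ≫ ε_ T T = (T ◁ (p ≫ i)) ≫ ε_ T T := by
      have e1 : (𝟙 T - γ.π) ▷ T = 𝟙 T ▷ T - γ.π ▷ T := (tensorRight T).map_sub
      have e2 : T ◁ (𝟙 T - γ.π) = T ◁ 𝟙 T - T ◁ γ.π := (tensorLeft T).map_sub
      rw [hpi, e1, e2, Preadditive.sub_comp, Preadditive.sub_comp,
        γ.adj hs, id_whiskerRight, MonoidalCategory.whiskerLeft_id]
    by_cases hne : 𝟙 P = 0
    · have hone : γ.π = 𝟙 T := by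
        have h1 : p ≫ i = 0 := by
          have h2 : p ≫ i = p ≫ 𝟙 P ≫ i := by rw [Category.id_comp]
          rw [h2, hne, zero_comp, comp_zero]
        rw [hpi] at h1
        exact (sub_eq_zero.1 h1).symm
      intro m
      induction m with
      | zero => exact fun α hα => hom_unit hR hα
      | succ m ih =>
        intro α hα
        have h1 : α = α ≫ (tp T m ◁ γ.π) := by
          rw [hone, MonoidalCategory.whiskerLeft_id]
          exact (Category.comp_id α).symm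
        rw [h1, Gram.π, whiskerLeft_sum, Preadditive.comp_sum]
        refine Finset.sum_eq_zero fun k _ => ?_
        have h2 : α ≫ (tp T m ◁ γ.f k) ≫ (ρ_ (tp T m)).hom = 0 := by
          apply ih
          rw [R.H.map_comp, hα, zero_comp]
        have h3 : α ≫ (tp T m ◁ γ.f k) = 0 := by
          rw [← cancel_mono (ρ_ (tp T m)).hom, Category.assoc, h2, zero_comp]
        rw [MonoidalCategory.whiskerLeft_comp, ← Category.assoc, h3, zero_comp]
    · exfalso
      let _ := pairRetract i p hip hadj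
      have h1 := phantom_growth hR j q i p hjq hip hjp hiq hsum hP hne n
      refine absurd (lt_of_le_of_lt h1 hn) (not_lt.2 ?_)
      refine Nat.cast_le.2 (Finset.sum_le_sum fun ij _ => Nat.mul_le_mul_left _ ?_)
      rw [← halg]
      exact γ.numRank_ge hR ij.2
  · intro h
    refine ⟨2, ?_⟩
    have h0 : Subsingleton (HomModSmash hR (tp T 2)) := by
      refine ⟨fun x y => ?_⟩
      have key : ∀ z : HomModSmash hR (tp T 2), z = 0 := by
        intro z
        obtain ⟨⟨α, hα⟩, rfl⟩ := Submodule.Quotient.mk_surjective _ z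
        have h1 : (⟨α, hα⟩ : homSub hR (𝟙_ C) (tp T 2)) = 0 := Subtype.ext (h 2 α hα)
        rw [h1, Submodule.Quotient.mk_zero]
      rw [key x, key y]
    have h1 : hsDim hR T 2 = 0 := by
      unfold hsDim
      rw [dimE_eq, finrank_zero_of_subsingleton, Nat.cast_zero]
    rw [h1, ← Nat.cast_zero, Nat.cast_lt]
    refine Finset.sum_pos' (fun _ _ => Nat.zero_le _) ⟨(2, 0), ?_, ?_⟩
    · simp
    · simp

/-- The sum of `C(n, t) ρ(n - t)` over the even numbers `t`, `0 < t ≤ n`. -/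
def evenSum (ρ : ℕ → ℕ) (n : ℕ) : ℕ :=
  ∑ ij ∈ antidiagonal n with Even ij.1 ∧ 0 < ij.1, n.choose ij.1 * ρ ij.2

/-- The closed form of the sum for `ρ(a) = b^a`. -/
lemma evenSum_pow (b n : ℕ) (hb : 0 < b) :
    2 * (evenSum (fun a => b ^ a) n + b ^ n) = (b + 1) ^ n + (b - 1) ^ n := by
  have h1 : ((b : ℤ) + 1) ^ n = ∑ m ∈ antidiagonal n, (n.choose m.1 : ℤ) * (b : ℤ) ^ m.2 := by
    rw [add_comm, (Commute.all (1 : ℤ) (b : ℤ)).add_pow']
    refine Finset.sum_congr rfl fun m _ => ?_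
    rw [nsmul_eq_mul, one_pow, one_mul]
  have h2 : ((b : ℤ) - 1) ^ n =
      ∑ m ∈ antidiagonal n, (n.choose m.1 : ℤ) * ((-1) ^ m.1 * (b : ℤ) ^ m.2) := by
    rw [sub_eq_neg_add, (Commute.all (-1 : ℤ) (b : ℤ)).add_pow']
    refine Finset.sum_congr rfl fun m _ => ?_
    rw [nsmul_eq_mul]
  have h3 : ((evenSum (fun a => b ^ a) n : ℕ) : ℤ) + (b : ℤ) ^ n =
      ∑ m ∈ antidiagonal n with Even m.1, (n.choose m.1 : ℤ) * (b : ℤ) ^ m.2 := by
    have h4 : (antidiagonal n).filter (fun m => Even m.1) =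
        insert (0, n) ((antidiagonal n).filter (fun m => Even m.1 ∧ 0 < m.1)) := by
      ext m
      simp only [Finset.mem_filter, Finset.mem_insert, HasAntidiagonal.mem_antidiagonal]
      constructor
      · rintro ⟨h5, h6⟩
        by_cases h7 : m.1 = 0
        · left
          exact Prod.ext h7 (by simp only; omega)
        · right
          exact ⟨h5, h6, by omega⟩
      · rintro (h5 | ⟨h5, h6, -⟩)
        · rw [h5]
          simp
        · exact ⟨h5, h6⟩
    rw [h4, Finset.sum_insert (by simp)]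
    unfold evenSum
    push_cast
    simp [add_comm]
  have h4 : (2 : ℤ) * (((evenSum (fun a => b ^ a) n : ℕ) : ℤ) + (b : ℤ) ^ n) =
      ((b : ℤ) + 1) ^ n + ((b : ℤ) - 1) ^ n := by
    rw [h3, h1, h2, ← Finset.sum_add_distrib, Finset.mul_sum, Finset.sum_filter]
    refine Finset.sum_congr rfl fun m _ => ?_
    split_ifs with h
    · rw [h.neg_one_pow]; ring
    · rw [(Nat.not_even_iff_odd.1 h).neg_one_pow]; ring
  have h5 : ((b - 1 : ℕ) : ℤ) = (b : ℤ) - 1 := by
    rw [Nat.cast_sub hb, Nat.cast_one]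
  zify
  rw [h5]
  exact_mod_cast h4

end Pool.Agent.N64.AF
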