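import Pool.Agent.N64.AF.X8

/-!
# Numerically trivial cycles modulo smash nilpotence: zero-infinity law, criteria on one power
-/

set_option autoImplicit false

open CategoryTheory Limits MonoidalCategory Module Filter Topology
open Pool.Agent.Y112.SR Pool.Agent.Y112.KD
open scoped ENNReal

namespace Pool.Agent.N64.AF

universe v u w t x

variable {C : Type u} [Category.{v} C] [Preadditive C] [MonoidalCategory C]
  [MonoidalPreadditive C] [SymmetricCategory C] [RightRigidCategory C]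
  {Λ : Type t} [Field Λ] [CharZero Λ] [Linear Λ C] [MonoidalLinear Λ C]
  {K : Type w} [Field K] [IsAlgClosed K] [Algebra Λ K] {R : SuperRealisation C K}

/-- The numerically trivial morphisms from the unit object to `Z` (the numerically trivial cycles)
modulo the smash nilpotent ones. -/
abbrev NumModSmash (Λ : Type t) [Field Λ] [Linear Λ C] [MonoidalLinear Λ C] (Z : C) : Type _ :=
  numIdeal Λ (𝟙_ C) Z ⧸ (smashSub Λ Z).comap (numIdeal Λ (𝟙_ C) Z).subtype

/-- Voevodsky's conjecture for `Z`: the numerically trivial classes are smash nilpotent. -/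
def VoevodskyAt (Z : C) : Prop := ∀ α : 𝟙_ C ⟶ Z, NumTriv α → SmashNil α

/-- The smash nilpotent ones among the numerically trivial classes. -/
def smashS2 (hR : IsReal Λ R) (Z : C) :
    Submodule Λ ((sub (homF Λ (𝟙_ C)) (numS Λ) (num_stab hR)).obj Z) :=
  (smashSub Λ Z).comap (numIdeal Λ (𝟙_ C) Z).subtype

omit [IsAlgClosed K] in
lemma smashS2_stab (hR : IsReal Λ R) :
    IsStab (sub (homF Λ (𝟙_ C)) (numS Λ) (num_stab hR)) (smashS2 hR) := by
  intro Y Z f a ha
  exact SmashNil.comp (show SmashNil a.1 from ha) f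

/-- The functor of the numerically trivial cycles modulo the smash nilpotent ones. -/
noncomputable def nmF (hR : IsReal Λ R) : C ⥤ ModuleCat.{v} Λ :=
  quoS (sub (homF Λ (𝟙_ C)) (numS Λ) (num_stab hR)) (smashS2 hR) (smashS2_stab hR)

noncomputable instance (hR : IsReal Λ R) : (nmF hR).Additive := by
  unfold nmF; infer_instance

noncomputable instance (hR : IsReal Λ R) : (nmF hR).Linear Λ := by
  unfold nmF; infer_instance

/-- the class -/
noncomputable def ncl (hR : IsReal Λ R) {Z : C} (α : 𝟙_ C ⟶ Z) (hα : NumTriv α) :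
    (nmF hR).obj Z := Submodule.Quotient.mk (⟨α, hα⟩ : numIdeal Λ (𝟙_ C) Z)

omit [IsAlgClosed K] in
lemma num_comp (hR : IsReal Λ R) {Y Z : C} {α : 𝟙_ C ⟶ Y} (hα : NumTriv α) (f : Y ⟶ Z) :
    NumTriv (α ≫ f) := by
  have := NumTriv.comp hR hα (𝟙 _) f
  rwa [Category.id_comp] at this

omit [IsAlgClosed K] in
lemma ncl_map (hR : IsReal Λ R) {Y Z : C} (α : 𝟙_ C ⟶ Y) (hα : NumTriv α) (f : Y ⟶ Z) :
    ((nmF hR).map f).hom (ncl hR α hα) = ncl hR (α ≫ f) (num_comp hR hα f) := rfl

omit [IsAlgClosed K] in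
lemma ncl_eq_zero (hR : IsReal Λ R) {Z : C} (α : 𝟙_ C ⟶ Z) (hα : NumTriv α) :
    ncl hR α hα = 0 ↔ SmashNil α :=
  (Submodule.Quotient.mk_eq_zero _).trans Iff.rfl

omit [IsAlgClosed K] in
lemma nmF_subsingleton (hR : IsReal Λ R) (Z : C) : Subsingleton ((nmF hR).obj Z) ↔
    VoevodskyAt Z := by
  constructor
  · intro hs α hα
    rw [← ncl_eq_zero hR α hα]
    exact @Subsingleton.elim _ hs _ _
  · intro h0
    refine ⟨fun x y => ?_⟩
    have key : ∀ z : (nmF hR).obj Z, z = 0 := by
      intro z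
      obtain ⟨⟨α, hα⟩, rfl⟩ := Submodule.Quotient.mk_surjective _ z
      exact (ncl_eq_zero hR α hα).2 (h0 α hα)
    rw [key x, key y]

omit [IsAlgClosed K] in
/-- If the action of a numerically trivial endomorphism of `T` on the classes is nilpotent then the
endomorphism is nilpotent. -/
lemma nil_of_act2 (hR : IsReal Λ R) {L L' : C} [ExactPairing L L'] (f : End L)
    (hf : NumTriv (f : L ⟶ L))
    (hn : IsNilpotent (((nmF hR).map ((f : L ⟶ L) ▷ L')).hom :
      Module.End Λ ((nmF hR).obj (L ⊗ L')))) : IsNilpotent f := by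
  obtain ⟨k, hk⟩ := hn
  have h0 : ∀ g : L ⟶ L, NumTriv g → NumTriv (η_ L L' ≫ (g ▷ L')) := by
    intro g hg
    have h5 := NumTriv.comp hR (NumTriv.whiskerRight hR hg L') (η_ L L') (𝟙 _)
    rwa [Category.comp_id] at h5
  have hpow : ∀ j : ℕ, NumTriv ((f ^ (j + 1) : End L) : L ⟶ L) := by
    intro j
    have hk : ((f ^ (j + 1) : End L) : L ⟶ L) = (f : L ⟶ L) ≫ ((f ^ j : End L) : L ⟶ L) := by
      rw [pow_succ]
      rfl
    rw [hk]
    have h5 := NumTriv.comp hR hf (𝟙 _) ((f ^ j : End L) : L ⟶ L)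
    rwa [Category.id_comp] at h5
  have h1 : ∀ j : ℕ, ((((nmF hR).map ((f : L ⟶ L) ▷ L')).hom :
      Module.End Λ ((nmF hR).obj (L ⊗ L'))) ^ j)
      (ncl hR (η_ L L' ≫ ((f : L ⟶ L) ▷ L')) (h0 _ hf)) =
      ncl hR (η_ L L' ≫ (((f ^ (j + 1) : End L) : L ⟶ L) ▷ L')) (h0 _ (hpow j)) := by
    intro j
    induction j with
    | zero =>
      rw [pow_zero, Module.End.one_apply]
      congr 3
      exact (pow_one f).symm
    | succ j ih =>
      rw [pow_succ', Module.End.mul_apply, ih, ncl_map]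
      congr 1
      rw [Category.assoc, ← comp_whiskerRight]
      congr 2
      exact (pow_succ' f (j + 1)).symm
  have h2 := h1 k
  rw [hk, LinearMap.zero_apply] at h2
  have h3 := (ncl_eq_zero hR _ (h0 _ (hpow k))).1 h2.symm
  obtain ⟨l, hl⟩ := nil_of_mate _ h3
  refine ⟨(k + 1) * l, ?_⟩
  rw [pow_mul]
  exact hl

/-- One inequality implies that the numerically trivial endomorphisms of `T` are nilpotent. -/
theorem nil_of_one2 {T : C} [ExactPairing T T] (h : IsPow Λ R T) {a : ℕ}
    (hlt : dimE Λ (NumModSmash Λ (tp T (a + 2))) <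
      (((a + 1) * numRank Λ (tp T a) : ℕ) : ℕ∞)) (f : End T)
    (hf : NumTriv (f : T ⟶ T)) : IsNilpotent f := by
  have hR := h.real
  have hfin : Module.Finite Λ ((nmF hR).obj (tp T (a + 2))) := by
    by_contra hc
    have h1 := dimE_top hc
    have h2 : dimE Λ (NumModSmash Λ (tp T (a + 2))) = ⊤ := h1
    rw [h2] at hlt
    exact not_top_lt hlt
  let G : C ⥤ ModuleCat.{v} Λ := tensorRight T ⋙ nmF hR
  have : G.Additive := inferInstance
  have : G.Linear Λ := inferInstance
  let y : tp T 1 ⟶ tp T 1 := (λ_ T).hom ≫ (f : T ⟶ T) ≫ (λ_ T).inv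
  have hfN : NumTriv (f : T ⟶ T) := hf
  have hyN : NumTriv y := NumTriv.comp hR hfN _ _
  by_contra hnn
  have hn : ¬ IsNilpotent ((G.map y).hom : Module.End Λ (G.obj (tp T 1))) := by
    intro hnil
    apply hnn
    apply nil_of_act2 (L' := T) hR f hf
    have h2 := nil_retract (C := C) (P := T) (U := tp T 1) (λ_ T).inv (λ_ T).hom
      (Iso.inv_hom_id _) G (f : T ⟶ T) hnil
    exact h2
  have hm : 1 * a + 1 = a + 1 := by ring
  have hfin' : Module.Finite Λ (G.obj (tp T (1 * a + 1))) := by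
    rw [hm]
    exact hfin
  have h1 := Pool.Agent.N945.AFE3.phantom_low h G (m := 1) (a := a) hfin' hyN hn
  rw [hm, one_mul] at h1
  have h2 : dimE Λ (NumModSmash Λ (tp T (a + 2))) = (finrank Λ (G.obj (tp T (a + 1))) : ℕ∞) := by
    have : Module.Finite Λ (NumModSmash Λ (tp T (a + 2))) := hfin
    exact dimE_eq
  rw [h2] at hlt
  exact absurd h1 (not_le.2 (by exact_mod_cast hlt))

/-- Voevodsky's conjecture for `T^m` from one inequality on one power. -/
def HalfCriterion (Λ : Type t) [Field Λ] [Linear Λ C] [MonoidalLinear Λ C]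
    (R : SuperRealisation C K) (T : C) (g : ℕ → ℕ∞) : Prop :=
  ∀ m n : ℕ, 128 * (m + 1) ^ 2 * bt R T ^ (2 * m + 6) ≤ n → 2 * g n < numRank Λ (tp T n) →
    VoevodskyAt (tp T m)

/-- Nilpotence of the numerically trivial endomorphisms of `T` from one inequality. -/
def NilCriterion (Λ : Type t) [Field Λ] [Linear Λ C] [MonoidalLinear Λ C] (T : C)
    (g : ℕ → ℕ∞) : Prop :=
  ∀ a : ℕ, g (a + 2) < (((a + 1) * numRank Λ (tp T a) : ℕ) : ℕ∞) →
    ∀ f : End T, NumTriv (f : T ⟶ T) → IsNilpotent f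

/-- Voevodsky's conjecture for a simple direct factor of `T^m` from one inequality on one power. -/
def SimpleCriterion (Λ : Type t) [Field Λ] [Linear Λ C] [MonoidalLinear Λ C]
    (R : SuperRealisation C K) (T : C) (g : ℕ → ℕ∞) : Prop :=
  ∀ (m : ℕ) (P : C) (i : P ⟶ tp T m) (p : tp T m ⟶ P), i ≫ p = 𝟙 P → NumSimple P →
    ∀ n : ℕ, m * bt R T ^ (3 * m) ≤ n → g n < ((nr Λ (𝟙 P) (𝟙 (tp T n)) : ℕ) : ℕ∞) →
      VoevodskyAt P

/-- The dimension of the space of the numerically trivial classes on `T^n` modulo the smash nilpotent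
ones. -/
noncomputable def nsDim (Λ : Type t) [Field Λ] [Linear Λ C] [MonoidalLinear Λ C] (T : C) (n : ℕ) :
    ℕ∞ := dimE Λ (NumModSmash Λ (tp T n))

/-- Three criteria, each with one inequality on one power. -/
structure OnePowerCriteria (Λ : Type t) [Field Λ] [Linear Λ C] [MonoidalLinear Λ C]
    (R : SuperRealisation C K) (T : C) (g : ℕ → ℕ∞) : Prop where
  /-- Voevodsky's conjecture for `T^m` -/
  half : HalfCriterion Λ R T g
  /-- nilpotence of the numerically trivial endomorphisms of `T` -/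
  nil : NilCriterion Λ T g
  /-- Voevodsky's conjecture for simple direct factors -/
  simple : SimpleCriterion Λ R T g

/-- **The zero-infinity law** for the numerically trivial classes modulo the smash nilpotent ones,
and three criteria on one power. -/
theorem smash_num_law {T : C} [ExactPairing T T] (h : IsPow Λ R T) : ∃ N : ℕ∞,
    (N = 0 ∨ N = ⊤) ∧ RatioTo Λ T (nsDim Λ T) N ∧
    (N = 0 ↔ ∀ n, VoevodskyAt (tp T n)) ∧
    OnePowerCriteria Λ R T (nsDim Λ T) := by
  have hR := h.real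
  obtain ⟨N, h1, h2, h3⟩ := law h (nmF hR)
  have h2' : N = 0 ↔ ∀ n, VoevodskyAt (tp T n) :=
    h2.trans (forall_congr' fun n => nmF_subsingleton hR _)
  refine ⟨N, ?_, h1, h2', ⟨fun m n hn hlt => ?_, fun a hlt f hf => nil_of_one2 h hlt f hf,
    fun m P i p hip hP n hn hlt => ?_⟩⟩
  · by_cases hN : N = ⊤
    · exact Or.inr hN
    · left
      obtain ⟨k, rfl⟩ := ENat.ne_top_iff_exists.1 hN
      rw [h2']
      intro m α hα
      obtain ⟨b, ⟨i⟩⟩ := N690V2.exists_iso T m (k + 1)
      obtain ⟨g, hg, hg'⟩ := exists_numPow hR hα k b i.hom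
      have h4 := (structure_thm h (nmF hR) (N := k) h1).2 m b g hg
      have h5 := ncl_map hR α hα g
      rw [h4] at h5
      have h6 : SmashNil (α ≫ g) := (ncl_eq_zero hR _ _).1 h5.symm
      rw [hg'] at h6
      have h7 : SmashNil (tpow α (k + 1)) := by
        have := h6.comp i.inv
        rwa [Category.assoc, Iso.hom_inv_id, Category.comp_id] at this
      obtain ⟨j, hj⟩ := h7
      obtain ⟨f, hf⟩ := N690V2.exists_mul α (k + 1) j
      exact ⟨(k + 1) * j, by rw [← hf, hj, zero_comp]⟩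
  · obtain ⟨h4, h5⟩ := dimE_lt hlt
    exact (nmF_subsingleton hR _).1 (explicit_criterion h (nmF hR) hn h4 h5)
  · by_contra hc
    have hne : ¬ Subsingleton ((nmF hR).obj P) := fun hs => hc ((nmF_subsingleton hR P).1 hs)
    exact absurd hlt (not_lt.2 (simple_lower h (nmF hR) i p hip hP hne hn))

end Pool.Agent.N64.AF
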