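import Pool.Agent.N64.AF.X14
import Pool.Agent.N64.AF.X9

/-!
# Numerically trivial classes which are not smash nilpotent: exponential growth
-/

set_option autoImplicit false

open CategoryTheory Limits MonoidalCategory Module Filter Topology Finset
open Pool.Agent.Y112.SR Pool.Agent.Y112.KD
open scoped ENNReal

namespace Pool.Agent.N64.AF

universe v u w t x

section Fam

variable {C : Type u} [Category.{v} C] [Preadditive C] {Λ : Type t} [Field Λ]

lemma dimE_fam (F : C ⥤ ModuleCat.{x} Λ) [F.Additive] {A X : C} {b : ℕ} (s : Fin b → (A ⟶ X))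
    (r : Fin b → (X ⟶ A)) (hsr : ∀ i k, s i ≫ r k = if i = k then 𝟙 _ else 0) :
    (b : ℕ∞) * dimE Λ (F.obj A) ≤ dimE Λ (F.obj X) := by
  let Φ : (Fin b → F.obj A) →ₗ[Λ] F.obj X := ∑ i, (F.map (s i)).hom ∘ₗ LinearMap.proj i
  have hΦ : ∀ x k, (F.map (r k)).hom (Φ x) = x k := by
    intro x k
    change (F.map (r k)).hom ((∑ i, (F.map (s i)).hom ∘ₗ LinearMap.proj i) x) = _
    rw [LinearMap.sum_apply, map_sum, Finset.sum_eq_single k]
    · have h1 : F.map (s k) ≫ F.map (r k) = 𝟙 _ := by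
        rw [← F.map_comp, hsr, if_pos rfl, F.map_id]
      exact congrArg (fun g : F.obj A ⟶ F.obj A => g.hom (x k)) h1
    · intro i _ hi
      have h1 : F.map (s i) ≫ F.map (r k) = 0 := by
        rw [← F.map_comp, hsr, if_neg hi, F.map_zero]
      exact congrArg (fun g : F.obj A ⟶ F.obj A => g.hom (x i)) h1
    · intro h
      exact absurd (Finset.mem_univ k) h
  have hinj : Function.Injective Φ := by
    intro x y hxy
    funext k
    rw [← hΦ x k, ← hΦ y k, hxy]
  have h1 : dimE Λ (Fin b → F.obj A) = (b : ℕ∞) * dimE Λ (F.obj A) := by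
    unfold dimE
    rw [rank_fun_eq_lift_mul, Cardinal.lift_uzero, map_mul, Fintype.card_fin]
    simp
  rw [← h1]
  exact dimE_inj Φ hinj

end Fam

variable {C : Type u} [Category.{v} C] [Preadditive C] [MonoidalCategory C]
  [MonoidalPreadditive C] [SymmetricCategory C] [RightRigidCategory C]
  {Λ : Type t} [Field Λ] [CharZero Λ] [Linear Λ C] [MonoidalLinear Λ C]
  {K : Type w} [Field K] [IsAlgClosed K] [Algebra Λ K] {R : SuperRealisation C K}

/-- Dual families of classes and functionals. -/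
lemma exists_dual (hR : IsReal Λ R) (T : C) : ∃ (e : Fin (numRank Λ T) → (𝟙_ C ⟶ T))
    (f : Fin (numRank Λ T) → (T ⟶ 𝟙_ C)), ∀ i k, e i ≫ f k = if i = k then 𝟙 _ else 0 := by
  have hfin := finite_num hR (𝟙_ C) T
  let V := (𝟙_ C ⟶ T) ⧸ numIdeal Λ (𝟙_ C) T
  let B : Basis (Fin (numRank Λ T)) Λ V := Module.finBasis Λ _
  have h1 : (𝟙 (𝟙_ C) : 𝟙_ C ⟶ 𝟙_ C) ≠ 0 := E1aux.id_ne_zero R
  let σ : Λ ≃ₗ[Λ] (𝟙_ C ⟶ 𝟙_ C) := LinearEquiv.ofBijective
    (LinearMap.toSpanSingleton Λ _ (𝟙 (𝟙_ C)))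
    ⟨smul_left_injective Λ h1, fun c => by
      obtain ⟨q, hq⟩ := hR.unit c
      exact ⟨q, hq.symm⟩⟩
  let b0 : (T ⟶ 𝟙_ C) →ₗ[Λ] (𝟙_ C ⟶ T) →ₗ[Λ] Λ :=
    LinearMap.mk₂ Λ (fun β α => σ.symm (α ≫ β))
      (fun β β' α => by rw [Preadditive.comp_add, map_add])
      (fun c β α => by rw [Linear.comp_smul, map_smul])
      (fun β α α' => by rw [Preadditive.add_comp, map_add])
      (fun c β α => by rw [Linear.smul_comp, map_smul])
  let B2 : V →ₗ[Λ] (T ⟶ 𝟙_ C) →ₗ[Λ] Λ := (numIdeal Λ (𝟙_ C) T).liftQ b0.flip (by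
    intro α hα
    ext β
    change σ.symm (α ≫ β) = 0
    rw [(numTriv_unit_iff hR α).1 hα β, map_zero])
  have hinj : Function.Injective B2 := by
    rw [← LinearMap.ker_eq_bot]
    refine (Submodule.eq_bot_iff _).2 fun x hx => ?_
    obtain ⟨α, rfl⟩ := Submodule.Quotient.mk_surjective _ x
    refine (Submodule.Quotient.mk_eq_zero _).2 ((numTriv_unit_iff hR α).2 fun β => ?_)
    have h2 : σ.symm (α ≫ β) = 0 := LinearMap.congr_fun hx β
    exact (LinearEquiv.map_eq_zero_iff σ.symm).1 h2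
  have hsurj : Function.Surjective B2.flip := LinearMap.flip_surjective_iff₁.2 hinj
  choose e he using fun i => Submodule.Quotient.mk_surjective (numIdeal Λ (𝟙_ C) T) (B i)
  choose f hf using fun k => hsurj (B.coord k)
  refine ⟨e, f, fun i k => ?_⟩
  have h2 : σ.symm (e i ≫ f k) = B.coord k (B i) := by
    rw [← hf k, ← he i]
    rfl
  rw [Basis.coord_apply, Basis.repr_self] at h2
  have h3 := congrArg σ h2
  rw [LinearEquiv.apply_symm_apply] at h3
  rw [h3, Finsupp.single_apply]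
  split_ifs with h
  · exact one_smul Λ _
  · exact zero_smul Λ _

omit [IsAlgClosed K] in
lemma numTriv_tpow (hR : IsReal Λ R) {Z : C} {α : 𝟙_ C ⟶ Z} (hα : NumTriv α) (k : ℕ) :
    NumTriv (tpow α (k + 1)) := by
  have h1 := NumTriv.comp hR (NumTriv.whiskerLeft hR hα (tp Z k))
    (tpow α k ≫ (ρ_ (tp Z k)).inv) (𝟙 _)
  rw [Category.comp_id, Category.assoc] at h1
  exact h1

omit [CharZero Λ] [RightRigidCategory C] [IsAlgClosed K] [Algebra Λ K] [Linear Λ C]
  [MonoidalLinear Λ C] [Field Λ] [Field K] in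
lemma smashNil_of_tpow {Z : C} {α : 𝟙_ C ⟶ Z} {k : ℕ} (h : SmashNil (tpow α k)) :
    SmashNil α := by
  obtain ⟨j, hj⟩ := h
  obtain ⟨f, hf⟩ := N690V2.exists_mul α k j
  exact ⟨k * j, by rw [← hf, hj, zero_comp]⟩

lemma sum_all (b n : ℕ) :
    (∑ ij ∈ antidiagonal n with 0 < ij.1, n.choose ij.1 * b ^ ij.2) + b ^ n = (b + 1) ^ n := by
  have h1 : (b + 1) ^ n = ∑ m ∈ antidiagonal n, n.choose m.1 * b ^ m.2 := by
    rw [add_comm, (Commute.all 1 b).add_pow']
    refine Finset.sum_congr rfl fun m _ => ?_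
    rw [nsmul_eq_mul, one_pow, one_mul, Nat.cast_id]
  have h4 : antidiagonal n = insert (0, n) ((antidiagonal n).filter (fun m => 0 < m.1)) := by
    ext m
    simp only [Finset.mem_filter, Finset.mem_insert, HasAntidiagonal.mem_antidiagonal]
    constructor
    · intro h5
      by_cases h7 : m.1 = 0
      · left
        exact Prod.ext h7 (by simp only; omega)
      · right
        exact ⟨h5, by omega⟩
    · rintro (h5 | ⟨h5, -⟩)
      · rw [h5]
        simp
      · exact h5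
  rw [h1]
  conv_rhs => rw [h4]
  rw [Finset.sum_insert (by simp)]
  simp [add_comm]

/-- **Exponential growth**: if some numerically trivial class on `T` is not smash nilpotent. -/
theorem voev_growth [IsIdempotentComplete C] (hR : IsReal Λ R) (T : C) (α : 𝟙_ C ⟶ T)
    (hα : NumTriv α) (hne : ¬ SmashNil α) (n : ℕ) :
    (((numRank Λ T + 1) ^ n : ℕ) : ℕ∞) ≤ nsDim Λ T n + ((numRank Λ T ^ n : ℕ) : ℕ∞) := by
  have h0 := exists_dual (Λ := Λ) hR T
  obtain ⟨b, hb⟩ : ∃ b, numRank Λ T = b := ⟨_, rfl⟩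
  rw [hb] at h0 ⊢
  obtain ⟨e, f, hef⟩ := h0
  let π : T ⟶ T := ∑ i, f i ≫ e i
  have he : ∀ k, e k ≫ π = e k := by
    intro k
    change e k ≫ (∑ i, f i ≫ e i) = e k
    rw [Preadditive.comp_sum, Finset.sum_eq_single k]
    · rw [← Category.assoc, hef, if_pos rfl, Category.id_comp]
    · intro i _ hi
      rw [← Category.assoc, hef, if_neg (Ne.symm hi), zero_comp]
    · intro h
      exact absurd (Finset.mem_univ k) h
  have hidem : π ≫ π = π := by
    change (∑ i, f i ≫ e i) ≫ π = ∑ i, f i ≫ e i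
    rw [Preadditive.sum_comp]
    refine Finset.sum_congr rfl fun i _ => ?_
    rw [Category.assoc, he]
  have hαπ : α ≫ π = 0 := by
    change α ≫ (∑ i, f i ≫ e i) = 0
    rw [Preadditive.comp_sum]
    refine Finset.sum_eq_zero fun i _ => ?_
    rw [← Category.assoc, (numTriv_unit_iff hR α).1 hα, zero_comp]
  obtain ⟨T0, j, q, hjq, hqj⟩ := IsIdempotentComplete.idempotents_split T π hidem
  have hid : (𝟙 T - π) ≫ (𝟙 T - π) = 𝟙 T - π := by
    rw [Preadditive.sub_comp, Category.id_comp, Preadditive.comp_sub, Category.comp_id, hidem,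
      sub_self, sub_zero]
  obtain ⟨P, i, p, hip, hpi⟩ := IsIdempotentComplete.idempotents_split T (𝟙 T - π) hid
  have hjp : j ≫ p = 0 := by
    have h1 : j ≫ p = j ≫ (π ≫ (𝟙 T - π)) ≫ p := by
      rw [← hpi, ← hqj]
      simp only [Category.assoc]
      rw [reassoc_of% hjq, hip, Category.comp_id]
    rw [h1, Preadditive.comp_sub, Category.comp_id, hidem, sub_self, zero_comp, comp_zero]
  have hiq : i ≫ q = 0 := by
    have h1 : i ≫ q = i ≫ ((𝟙 T - π) ≫ π) ≫ q := by
      rw [← hpi, ← hqj]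
      simp only [Category.assoc]
      rw [reassoc_of% hip, hjq, Category.comp_id]
    rw [h1, Preadditive.sub_comp, Category.id_comp, hidem, sub_self, zero_comp, comp_zero]
  have hαp : (α ≫ p) ≫ i = α := by
    rw [Category.assoc, hpi, Preadditive.comp_sub, hαπ, sub_zero, Category.comp_id]
  have hN : NumTriv (α ≫ p) := by
    have h1 := NumTriv.comp hR hα (𝟙 _) p
    rwa [Category.id_comp] at h1
  have hS : ¬ SmashNil (α ≫ p) := by
    intro h1
    apply hne
    rw [← hαp]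
    exact h1.comp i
  -- the power of the class
  have hone : ∀ t, 1 ≤ dimE Λ ((nmF hR).obj (tp P (t + 1))) := by
    intro t
    have hN' := numTriv_tpow hR hN t
    have h1 : ncl hR (tpow (α ≫ p) (t + 1)) hN' ≠ 0 := by
      intro h2
      exact hS (smashNil_of_tpow ((ncl_eq_zero hR _ hN').1 h2))
    by_contra h2
    have h3 : dimE Λ ((nmF hR).obj (tp P (t + 1))) = 0 := by
      rwa [not_le, ENat.lt_one_iff_eq_zero] at h2
    unfold dimE at h3
    rw [Cardinal.toENat_eq_zero] at h3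
    exact h1 (rank_zero_iff_forall_zero.1 h3 _)
  have hab : ∀ a t, ((b ^ a : ℕ) : ℕ∞) ≤ dimE Λ ((nmF hR).obj (tp T0 a ⊗ tp P (t + 1))) := by
    intro a t
    induction a with
    | zero =>
      rw [pow_zero, Nat.cast_one, dimE_iso (nmF hR) (λ_ (tp P (t + 1)))]
      exact hone t
    | succ a ih =>
      refine le_trans ?_ (dimE_fam (Λ := Λ) (nmF hR) (A := tp T0 a ⊗ tp P (t + 1))
        (X := tp T0 (a + 1) ⊗ tp P (t + 1)) (b := b)
        (fun k => ((ρ_ (tp T0 a)).inv ≫ (tp T0 a ◁ (e k ≫ q))) ▷ tp P (t + 1))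
        (fun k => ((tp T0 a ◁ (j ≫ f k)) ≫ (ρ_ (tp T0 a)).hom) ▷ tp P (t + 1)) ?_)
      · rw [pow_succ', Nat.cast_mul]
        exact mul_le_mul_right ih _
      · intro k l
        have h1 : (e k ≫ q) ≫ (j ≫ f l) = if k = l then 𝟙 _ else 0 := by
          rw [Category.assoc, ← Category.assoc q, hqj, ← Category.assoc, he, hef]
        rw [← comp_whiskerRight, Category.assoc, ← MonoidalCategory.whiskerLeft_comp_assoc, h1]
        split_ifs with h
        · rw [MonoidalCategory.whiskerLeft_id, Category.id_comp, Iso.inv_hom_id, id_whiskerRight]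
        · rw [MonoidalPreadditive.whiskerLeft_zero, zero_comp, comp_zero,
            MonoidalPreadditive.zero_whiskerRight]
  have h6 := count (Λ := Λ) (nmF hR) j q i p hjq hip hjp hiq n (𝟙_ C)
  have h7 : dimE Λ ((nmF hR).obj (tp T n ⊗ 𝟙_ C)) = nsDim Λ T n :=
    dimE_iso (nmF hR) (ρ_ (tp T n))
  rw [h7] at h6
  rw [← sum_all b n, Nat.cast_add]
  refine add_le_add (le_trans ?_ h6) le_rfl
  rw [Nat.cast_sum]
  refine le_trans (sum_le_sum fun ij hij => ?_) (sum_le_sum_of_subset (filter_subset _ _))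
  rw [mem_filter] at hij
  rw [Nat.cast_mul]
  refine mul_le_mul_right ?_ _
  have h11 : ij.1 = (ij.1 - 1) + 1 := by omega
  rw [h11]
  exact (hab ij.2 (ij.1 - 1)).trans (dimE_iso (nmF hR) (ρ_ _).symm).le

/-- **Voevodsky's conjecture** for `T` is equivalent to one inequality on one power of `T`. -/
theorem voev_iff [IsIdempotentComplete C] (hR : IsReal Λ R) (T : C) :
    VoevodskyAt T ↔ ∃ n : ℕ, nsDim Λ T n + ((numRank Λ T ^ n : ℕ) : ℕ∞) <
      (((numRank Λ T + 1) ^ n : ℕ) : ℕ∞) := by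
  constructor
  · intro h
    refine ⟨1, ?_⟩
    have h1 : VoevodskyAt (tp T 1) := by
      intro α hα
      have h2 : NumTriv (α ≫ (λ_ T).hom) := by
        have h3 := NumTriv.comp hR hα (𝟙 _) (λ_ T).hom
        rwa [Category.id_comp] at h3
      have h4 := (h _ h2).comp (λ_ T).inv
      rwa [Category.assoc, Iso.hom_inv_id, Category.comp_id] at h4
    have h2 : Subsingleton ((nmF hR).obj (tp T 1)) := (nmF_subsingleton hR _).2 h1
    have h3 : nsDim Λ T 1 = 0 := by
      have h4 : dimE Λ ((nmF hR).obj (tp T 1)) = 0 := by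
        rw [dimE_eq, finrank_zero_of_subsingleton, Nat.cast_zero]
      exact h4
    rw [h3, zero_add, pow_one, pow_one]
    exact Nat.cast_lt.2 (Nat.lt_succ_self _)
  · rintro ⟨n, hn⟩ α hα
    by_contra hne
    exact absurd hn (not_lt.2 (voev_growth hR T α hα hne n))

/-- Nilpotence of the numerically trivial endomorphisms of `T` from one inequality. -/
theorem nil_of_exp [IsIdempotentComplete C] (hR : IsReal Λ R) (T : C)
    (h : ∃ n : ℕ, nsDim Λ (T ⊗ Tᘁ) n + ((numRank Λ (T ⊗ Tᘁ) ^ n : ℕ) : ℕ∞) <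
      (((numRank Λ (T ⊗ Tᘁ) + 1) ^ n : ℕ) : ℕ∞)) (f : End T) (hf : NumTriv (f : T ⟶ T)) :
    IsNilpotent f := by
  have h1 := (voev_iff hR (T ⊗ Tᘁ)).2 h
  apply nil_of_mate (L' := Tᘁ) f
  apply h1
  have h5 := NumTriv.comp hR (NumTriv.whiskerRight hR hf (Tᘁ)) (η_ T (Tᘁ)) (𝟙 _)
  rwa [Category.comp_id] at h5

end Pool.Agent.N64.AF
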