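import Pool.Agent.N64.AF.X15
import Pool.Agent.N64.AF.X11

/-!
# A gap for the growth rate of the homologically trivial classes modulo the smash nilpotent ones
-/

set_option autoImplicit false

open CategoryTheory Limits MonoidalCategory Module Filter Topology Finset
open Pool.Agent.Y112.SR Pool.Agent.Y112.KD
open scoped ENNReal

namespace Pool.Agent.N64.AF

universe v u w t x

section Fit

open Polynomial

variable {K V : Type*} [Field K] [AddCommGroup V] [Module K V] [FiniteDimensional K V]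

/-- The Fitting projector of an operator is a polynomial multiple of the operator. -/
lemma exists_fit' (y : Module.End K V) : ∃ q : K[X],
    (aeval y q * y) * (aeval y q * y) = aeval y q * y ∧ ∃ k, y ^ k * (1 - aeval y q * y) = 0 := by
  have h0 : minpoly K y ≠ 0 := minpoly.ne_zero (Algebra.IsIntegral.isIntegral y)
  obtain ⟨f, hf, hnd⟩ := exists_eq_pow_rootMultiplicity_mul_and_not_dvd (minpoly K y) h0 0
  set m := (minpoly K y).rootMultiplicity 0
  rw [map_zero, sub_zero] at hf hnd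
  have hirr : Irreducible (X : K[X]) := irreducible_X
  have hc : IsCoprime ((X : K[X]) ^ (m + 1)) f :=
    ((hirr.coprime_iff_not_dvd).2 hnd).pow_left
  obtain ⟨a, b, hab⟩ := hc
  have hmin : aeval y (X ^ m * f) = 0 := by rw [← hf]; exact minpoly.aeval K y
  have hq : aeval y (a * X ^ m) * y = aeval y (a * X ^ (m + 1)) := by
    have : a * X ^ (m + 1) = (a * X ^ m) * X := by ring
    rw [this, map_mul (aeval y) (a * X ^ m) X, aeval_X]
  refine ⟨a * X ^ m, ?_, m + 1, ?_⟩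
  · rw [hq, ← map_mul]
    have h1 : a * X ^ (m + 1) * (a * X ^ (m + 1)) =
        a * X ^ (m + 1) - (a * b * X) * (X ^ m * f) := by
      have : a * X ^ (m + 1) = 1 - b * f := by rw [← hab]; ring
      calc a * X ^ (m + 1) * (a * X ^ (m + 1)) = a * X ^ (m + 1) * (1 - b * f) := by
            rw [← this]
        _ = _ := by ring
    rw [h1, map_sub, map_mul (aeval y) (a * b * X), hmin, mul_zero, sub_zero]
  · rw [hq]
    have h1 : (1 : Module.End K V) - aeval y (a * X ^ (m + 1)) = aeval y (b * f) := by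
      have h2 := congrArg (aeval y) hab
      rw [map_add, map_one] at h2
      rw [← h2, add_sub_cancel_left]
    have h3 : y ^ (m + 1) = aeval y ((X : K[X]) ^ (m + 1)) := by
      rw [map_pow, aeval_X]
    have h4 : (X : K[X]) ^ (m + 1) * (b * f) = (b * X) * (X ^ m * f) := by ring
    rw [h1, h3, ← map_mul, h4, map_mul (aeval y) (b * X), hmin, mul_zero]

end Fit

section Split

variable {Λ : Type t} [Field Λ] {V : Type x} [AddCommGroup V] [Module Λ V]

/-- The ranks of the two parts of an operator. -/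
lemma rank_split (Q E : Module.End Λ V) (hE : E * E = E) (hc : Q * E = E * Q) :
    dimE Λ (LinearMap.range (E * Q)) + dimE Λ (LinearMap.range ((1 - E) * Q)) ≤
      dimE Λ (LinearMap.range Q) := by
  rw [← dimE_prod]
  have h1 : LinearMap.range (E * Q) ≤ LinearMap.range Q := by
    rw [← hc]
    rintro _ ⟨a, rfl⟩
    exact ⟨E a, rfl⟩
  have h2 : LinearMap.range ((1 - E) * Q) ≤ LinearMap.range Q := by
    have h3 : (1 - E) * Q = Q * (1 - E) := by rw [sub_mul, mul_sub, hc, one_mul, mul_one]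
    rw [h3]
    rintro _ ⟨a, rfl⟩
    exact ⟨(1 - E) a, rfl⟩
  refine dimE_inj ((Submodule.inclusion h1).coprod (Submodule.inclusion h2)) ?_
  rw [← LinearMap.ker_eq_bot]
  refine (Submodule.eq_bot_iff _).2 fun z hz => ?_
  obtain ⟨⟨_, ⟨a, rfl⟩⟩, ⟨_, ⟨b, rfl⟩⟩⟩ := z
  have h3 : (E * Q) a + ((1 - E) * Q) b = 0 := congrArg Subtype.val hz
  have h4 : E ((E * Q) a) = (E * Q) a := LinearMap.congr_fun
    (show E * (E * Q) = E * Q by rw [← mul_assoc, hE]) a
  have h5 : E (((1 - E) * Q) b) = 0 := LinearMap.congr_fun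
    (show E * ((1 - E) * Q) = 0 by rw [← mul_assoc, mul_sub, hE, mul_one, sub_self, zero_mul]) b
  have h6 := congrArg E h3
  rw [map_add, h4, h5, add_zero, map_zero] at h6
  rw [h6, zero_add] at h3
  exact Prod.ext (Subtype.ext h6) (Subtype.ext h3)

end Split

section Rk

variable {C : Type u} [Category.{v} C] {Λ : Type t} [Field Λ]

/-- The rank of the operator defined by an endomorphism. -/
noncomputable def rkE (F : C ⥤ ModuleCat.{x} Λ) {W : C} (q : W ⟶ W) : ℕ∞ :=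
  dimE Λ (LinearMap.range (F.map q).hom)

lemma rkE_conj (F : C ⥤ ModuleCat.{x} Λ) {W W' : C} (φ : W ≅ W') (q : W ⟶ W) (q' : W' ⟶ W')
    (h : q ≫ φ.hom = φ.hom ≫ q') : rkE F q ≤ rkE F q' := by
  unfold rkE
  have hmap : ∀ y : F.obj W, (F.map φ.hom).hom ((F.map q).hom y) =
      (F.map q').hom ((F.map φ.hom).hom y) := by
    intro y
    have h1 : F.map q ≫ F.map φ.hom = F.map φ.hom ≫ F.map q' := by
      rw [← F.map_comp, ← F.map_comp, h]
    exact congrArg (fun g : F.obj W ⟶ F.obj W' => g.hom y) h1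
  have hinj : Function.Injective (F.map φ.hom).hom := by
    intro a b hab
    have h2 : F.map φ.hom ≫ F.map φ.inv = 𝟙 _ := by rw [← F.map_comp, φ.hom_inv_id, F.map_id]
    have h3 : ∀ a : F.obj W, (F.map φ.inv).hom ((F.map φ.hom).hom a) = a := fun a =>
      congrArg (fun g : F.obj W ⟶ F.obj W => g.hom a) h2
    rw [← h3 a, ← h3 b, hab]
  refine dimE_inj (((F.map φ.hom).hom.domRestrict (LinearMap.range (F.map q).hom)).codRestrict
    (LinearMap.range (F.map q').hom) ?_) ?_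
  · rintro ⟨_, ⟨y, rfl⟩⟩
    exact ⟨(F.map φ.hom).hom y, (hmap y).symm⟩
  · intro a b hab
    apply Subtype.ext
    apply hinj
    exact congrArg Subtype.val hab

lemma rkE_le_obj (F : C ⥤ ModuleCat.{x} Λ) {W : C} (q : W ⟶ W) : rkE F q ≤ dimE Λ (F.obj W) :=
  dimE_inj (LinearMap.range (F.map q).hom).subtype Subtype.val_injective

lemma rkE_split [Preadditive C] (F : C ⥤ ModuleCat.{x} Λ) [F.Additive] {W : C}
    (q e : W ⟶ W) (he : F.map (e ≫ e) = F.map e) (hc : q ≫ e = e ≫ q) :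
    rkE F (q ≫ e) + rkE F (q ≫ (𝟙 W - e)) ≤ rkE F q := by
  unfold rkE
  have h1 := rank_split (Λ := Λ) (V := F.obj W) (F.map q).hom (F.map e).hom
    (by
      have h2 : F.map e ≫ F.map e = F.map e := by rw [← F.map_comp, he]
      exact congrArg ModuleCat.Hom.hom h2)
    (by
      have h2 : F.map e ≫ F.map q = F.map q ≫ F.map e := by rw [← F.map_comp, ← F.map_comp, hc]
      exact congrArg ModuleCat.Hom.hom h2)
  have h2 : (F.map (q ≫ e)).hom = ((F.map e).hom * (F.map q).hom : Module.End Λ (F.obj W)) := by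
    rw [F.map_comp]
    rfl
  have h3 : (F.map (q ≫ (𝟙 W - e))).hom =
      ((1 - (F.map e).hom) * (F.map q).hom : Module.End Λ (F.obj W)) := by
    rw [F.map_comp, F.map_sub, F.map_id]
    rfl
  rw [h2, h3]
  exact h1

end Rk

section Count

variable {C : Type u} [Category.{v} C] [Preadditive C] [MonoidalCategory C]
  [MonoidalPreadditive C] [SymmetricCategory C] {Λ : Type t} [Field Λ]

omit [Preadditive C] [MonoidalPreadditive C] in
lemma nat1 {A X B W : C} (a : A ⟶ A) (b : X ⟶ X) (c : B ⟶ B) (q : W ⟶ W) :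
    (((a ⊗ₘ b) ⊗ₘ c) ⊗ₘ q) ≫ (whiskerRightIso (α_ A X B ≪≫
        whiskerLeftIso A (β_ X B) ≪≫ (α_ A B X).symm) W ≪≫ α_ (A ⊗ B) X W).hom =
      (whiskerRightIso (α_ A X B ≪≫
        whiskerLeftIso A (β_ X B) ≪≫ (α_ A B X).symm) W ≪≫ α_ (A ⊗ B) X W).hom ≫
        ((a ⊗ₘ c) ⊗ₘ (b ⊗ₘ q)) := by
  have h1 : ((a ⊗ₘ b) ⊗ₘ c) ≫ (α_ A X B).hom ≫ (A ◁ (β_ X B).hom) ≫ (α_ A B X).inv =
      ((α_ A X B).hom ≫ (A ◁ (β_ X B).hom) ≫ (α_ A B X).inv) ≫ ((a ⊗ₘ c) ⊗ₘ b) := by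
    rw [associator_naturality_assoc]
    have h2 : (a ⊗ₘ (b ⊗ₘ c)) ≫ (A ◁ (β_ X B).hom) = (A ◁ (β_ X B).hom) ≫ (a ⊗ₘ (c ⊗ₘ b)) := by
      rw [← id_tensorHom, tensorHom_comp_tensorHom, tensorHom_comp_tensorHom,
        BraidedCategory.braiding_naturality, Category.comp_id, Category.id_comp]
    rw [reassoc_of% h2, Category.assoc, Category.assoc, associator_inv_naturality]
  simp only [Iso.trans_hom, whiskerRightIso_hom, whiskerLeftIso_hom, Iso.symm_hom]
  rw [← Category.assoc, ← tensorHom_id, tensorHom_comp_tensorHom, h1, Category.comp_id,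
    ← Category.id_comp q, ← tensorHom_comp_tensorHom, Category.assoc, associator_naturality,
    Category.id_comp, Category.assoc]

omit [Preadditive C] [MonoidalPreadditive C] [SymmetricCategory C] in
lemma nat2 {A X B W : C} (a : A ⟶ A) (b : X ⟶ X) (c : B ⟶ B) (q : W ⟶ W) :
    ((a ⊗ₘ (c ⊗ₘ b)) ⊗ₘ q) ≫ (whiskerRightIso (α_ A B X).symm W ≪≫ α_ (A ⊗ B) X W).hom =
      (whiskerRightIso (α_ A B X).symm W ≪≫ α_ (A ⊗ B) X W).hom ≫
        ((a ⊗ₘ c) ⊗ₘ (b ⊗ₘ q)) := by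
  simp only [Iso.trans_hom, whiskerRightIso_hom, Iso.symm_hom]
  rw [← Category.assoc, ← tensorHom_id, tensorHom_comp_tensorHom, associator_inv_naturality,
    Category.comp_id, ← Category.id_comp q, ← tensorHom_comp_tensorHom, Category.assoc,
    associator_naturality, Category.id_comp, Category.assoc]

omit [Preadditive C] [MonoidalPreadditive C] in
lemma nat3 {A X W Z₀ : C} (ψ : A ⊗ W ≅ Z₀) : ∃ θ : A ⊗ (X ⊗ W) ≅ X ⊗ Z₀,
    ∀ x : X ⟶ X, (A ◁ (x ▷ W)) = θ.hom ≫ (x ▷ Z₀) ≫ θ.inv := by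
  refine ⟨(α_ A X W).symm ≪≫ whiskerRightIso (β_ A X) W ≪≫ α_ X A W ≪≫ whiskerLeftIso X ψ,
    fun x => ?_⟩
  rw [← cancel_mono ((α_ A X W).symm ≪≫ whiskerRightIso (β_ A X) W ≪≫ α_ X A W ≪≫
    whiskerLeftIso X ψ).hom, Category.assoc, Category.assoc, Iso.inv_hom_id, Category.comp_id]
  simp only [Iso.trans_hom, whiskerRightIso_hom, whiskerLeftIso_hom, Iso.symm_hom,
    Category.assoc]
  rw [associator_inv_naturality_middle_assoc, ← comp_whiskerRight_assoc,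
    BraidedCategory.braiding_naturality_right, comp_whiskerRight_assoc,
    associator_naturality_left_assoc, whisker_exchange]

/-- The decomposition by means of the commuting operators on the factors. -/
lemma count' (F : C ⥤ ModuleCat.{x} Λ) [F.Additive] {X Z₀ : C} (e : X ⟶ X)
    (he : F.map ((e ≫ e) ▷ Z₀) = F.map (e ▷ Z₀)) (n : ℕ) : ∀ (W : C) (q : W ⟶ W),
    (∀ k, n = k + 1 → Nonempty (tp X k ⊗ W ≅ Z₀)) →
    ∑ ij ∈ antidiagonal n, (n.choose ij.1 : ℕ∞) *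
      rkE F ((tpm (𝟙 X - e) ij.2 ⊗ₘ tpm e ij.1) ⊗ₘ q) ≤ rkE F (tp X n ◁ q) := by
  induction n with
  | zero =>
    intro W q _
    rw [Finset.Nat.antidiagonal_zero, sum_singleton, Nat.choose_self, Nat.cast_one, one_mul]
    refine rkE_conj F (whiskerRightIso (λ_ (𝟙_ C)) W) _ _ ?_
    change (((𝟙 (𝟙_ C)) ⊗ₘ (𝟙 (𝟙_ C))) ⊗ₘ q) ≫ ((λ_ (𝟙_ C)).hom ▷ W) =
      ((λ_ (𝟙_ C)).hom ▷ W) ≫ (𝟙_ C ◁ q)
    simp
  | succ n ih =>
    intro W q hW
    obtain ⟨ψ⟩ := hW n rfl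
    have hyp : ∀ k, n = k + 1 → Nonempty (tp X k ⊗ (X ⊗ W) ≅ Z₀) := by
      rintro k rfl
      exact ⟨(α_ (tp X k) X W).symm ≪≫ ψ⟩
    have hs := Finset.sum_antidiagonal_choose_succ_mul (R := ℕ∞)
      (fun t a => rkE F ((tpm (𝟙 X - e) a ⊗ₘ tpm e t) ⊗ₘ q)) n
    rw [hs]
    have e1 : ∀ t a, rkE F ((tpm (𝟙 X - e) (a + 1) ⊗ₘ tpm e t) ⊗ₘ q) ≤
        rkE F ((tpm (𝟙 X - e) a ⊗ₘ tpm e t) ⊗ₘ ((𝟙 X - e) ⊗ₘ q)) := by
      intro t a
      refine rkE_conj F (whiskerRightIso (α_ (tp X a) X (tp X t) ≪≫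
        whiskerLeftIso (tp X a) (β_ X (tp X t)) ≪≫ (α_ (tp X a) (tp X t) X).symm) W ≪≫
        α_ (tp X a ⊗ tp X t) X W) _ _ ?_
      exact nat1 _ _ _ _
    have e2 : ∀ t a, rkE F ((tpm (𝟙 X - e) a ⊗ₘ tpm e (t + 1)) ⊗ₘ q) ≤
        rkE F ((tpm (𝟙 X - e) a ⊗ₘ tpm e t) ⊗ₘ (e ⊗ₘ q)) := by
      intro t a
      refine rkE_conj F (whiskerRightIso (α_ (tp X a) (tp X t) X).symm W ≪≫
        α_ (tp X a ⊗ tp X t) X W) _ _ ?_
      exact nat2 _ _ _ _
    have h5 := ih (X ⊗ W) ((𝟙 X - e) ⊗ₘ q) hyp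
    have h6 := ih (X ⊗ W) (e ⊗ₘ q) hyp
    have h7 : rkE F (tp X n ◁ (e ⊗ₘ q)) + rkE F (tp X n ◁ ((𝟙 X - e) ⊗ₘ q)) ≤
        rkE F (tp X n ◁ (X ◁ q)) := by
      have h8 := rkE_split F (tp X n ◁ (X ◁ q)) (tp X n ◁ (e ▷ W)) ?_ ?_
      · have h9 : (tp X n ◁ (X ◁ q)) ≫ (tp X n ◁ (e ▷ W)) = tp X n ◁ (e ⊗ₘ q) := by
          rw [← MonoidalCategory.whiskerLeft_comp, ← MonoidalCategory.tensorHom_def']
        have h10 : (tp X n ◁ (X ◁ q)) ≫ (𝟙 _ - tp X n ◁ (e ▷ W)) =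
            tp X n ◁ ((𝟙 X - e) ⊗ₘ q) := by
          have h11 : (𝟙 (tp X n ⊗ (X ⊗ W)) - tp X n ◁ (e ▷ W)) =
              tp X n ◁ ((𝟙 X - e) ▷ W) := by
            have h12 : (𝟙 X - e) ▷ W = 𝟙 X ▷ W - e ▷ W := (tensorRight W).map_sub
            have h13 : tp X n ◁ (𝟙 X ▷ W - e ▷ W) =
              tp X n ◁ (𝟙 X ▷ W) - tp X n ◁ (e ▷ W) := (tensorLeft (tp X n)).map_sub
            rw [h12, h13, id_whiskerRight, MonoidalCategory.whiskerLeft_id]
          rw [h11, ← MonoidalCategory.whiskerLeft_comp, ← MonoidalCategory.tensorHom_def']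
        rw [h9, h10] at h8
        exact h8
      · obtain ⟨θ, hθ⟩ := nat3 (X := X) ψ
        rw [← MonoidalCategory.whiskerLeft_comp, ← comp_whiskerRight, hθ, hθ, F.map_comp,
          F.map_comp, he, ← F.map_comp, ← F.map_comp]
      · rw [← MonoidalCategory.whiskerLeft_comp, ← MonoidalCategory.whiskerLeft_comp,
          whisker_exchange]
    have h8 : rkE F (tp X n ◁ (X ◁ q)) ≤ rkE F (tp X (n + 1) ◁ q) := by
      refine rkE_conj F (α_ (tp X n) X W).symm _ _ ?_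
      change (tp X n ◁ (X ◁ q)) ≫ (α_ (tp X n) X W).inv = (α_ (tp X n) X W).inv ≫
        ((tp X n ⊗ X) ◁ q)
      rw [associator_inv_naturality_right]
    refine le_trans (add_le_add ?_ ?_) ((add_comm _ _).le.trans (h7.trans h8))
    · refine le_trans ?_ h5
      refine sum_le_sum fun ij _ => ?_
      exact mul_le_mul_right (e1 _ _) _
    · refine le_trans ?_ h6
      refine sum_le_sum fun ij hij => ?_
      rw [HasAntidiagonal.mem_antidiagonal] at hij
      rw [← hij, Nat.choose_symm_add]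
      exact mul_le_mul_right (e2 _ _) _

end Count

section Tpow

variable {C : Type u} [Category.{v} C] [Preadditive C] [MonoidalCategory C]

lemma tpow_tpm {X Y : C} (κ : 𝟙_ C ⟶ X) (e : X ⟶ Y) (k : ℕ) :
    tpow κ k ≫ tpm e k = tpow (κ ≫ e) k := by
  induction k with
  | zero => exact Category.comp_id _
  | succ k ih =>
    change (tpow κ k ≫ (ρ_ (tp X k)).inv ≫ (tp X k ◁ κ)) ≫ (tpm e k ⊗ₘ e) =
      tpow (κ ≫ e) k ≫ (ρ_ (tp Y k)).inv ≫ (tp Y k ◁ (κ ≫ e))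
    rw [← ih, MonoidalCategory.tensorHom_def, Category.assoc, Category.assoc,
      whisker_exchange_assoc, ← MonoidalCategory.whiskerLeft_comp, Category.assoc,
      ← rightUnitor_inv_naturality_assoc]

end Tpow

variable {C : Type u} [Category.{v} C] [Preadditive C] [MonoidalCategory C]
  [MonoidalPreadditive C] [SymmetricCategory C] [RightRigidCategory C]
  {Λ : Type t} [Field Λ] [CharZero Λ] [Linear Λ C] [MonoidalLinear Λ C]
  {K : Type w} [Field K] [IsAlgClosed K] [Algebra Λ K] {R : SuperRealisation C K}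

omit [MonoidalPreadditive C] [RightRigidCategory C] [IsAlgClosed K] [CharZero Λ]
  [MonoidalLinear Λ C] [Linear Λ C] [Algebra Λ K] [Field Λ] in
lemma map_tpow_zero (R : SuperRealisation C K) {X : C} {κ : 𝟙_ C ⟶ X} (hκ : R.H.map κ = 0)
    (k : ℕ) : R.H.map (tpow κ (k + 1)) = 0 := by
  change R.H.map (tpow κ k ≫ (ρ_ (tp X k)).inv ≫ (tp X k ◁ κ)) = 0
  rw [R.H.map_comp, R.H.map_comp, Functor.Monoidal.map_whiskerLeft, hκ]
  simp

/-- The lower bound for one term. -/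
lemma low_term (hR : IsReal Λ R) {X : C} {κ : 𝟙_ C ⟶ X} (hκ : R.H.map κ = 0) {e : X ⟶ X}
    (he : R.H.map e = 0) (hns : ¬ SmashNil (κ ≫ e)) (a t : ℕ) :
    (numRank Λ (tp X a) : ℕ∞) ≤
      rkE (hmF hR) ((tpm (𝟙 X - e) a ⊗ₘ tpm e (t + 1)) ⊗ₘ 𝟙 (𝟙_ C)) := by
  set Q := ((tpm (𝟙 X - e) a ⊗ₘ tpm e (t + 1)) ⊗ₘ 𝟙 (𝟙_ C)) with hQ
  let m : tp X a ⟶ (tp X a ⊗ tp X (t + 1)) ⊗ 𝟙_ C :=
    (ρ_ (tp X a)).inv ≫ (tp X a ◁ tpow κ (t + 1)) ≫ (ρ_ _).inv
  have hm : R.H.map m = 0 := by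
    change R.H.map ((ρ_ (tp X a)).inv ≫ (tp X a ◁ tpow κ (t + 1)) ≫ (ρ_ _).inv) = 0
    rw [R.H.map_comp, R.H.map_comp, Functor.Monoidal.map_whiskerLeft, map_tpow_zero R hκ]
    simp
  let Φ₀ : (𝟙_ C ⟶ tp X a) →ₗ[Λ] (hmF hR).obj ((tp X a ⊗ tp X (t + 1)) ⊗ 𝟙_ C) :=
    Submodule.mkQ _ ∘ₗ LinearMap.codRestrict
      (homSub hR (𝟙_ C) ((tp X a ⊗ tp X (t + 1)) ⊗ 𝟙_ C))
      (Linear.rightComp Λ (𝟙_ C) m) (fun α => by
        change R.H.map (α ≫ m) = 0
        rw [R.H.map_comp, hm, comp_zero])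
  let Φ : (𝟙_ C ⟶ tp X a) →ₗ[Λ] (hmF hR).obj ((tp X a ⊗ tp X (t + 1)) ⊗ 𝟙_ C) :=
    ((hmF hR).map Q).hom ∘ₗ Φ₀
  let Ψ : (𝟙_ C ⟶ tp X a) →ₗ[Λ] LinearMap.range ((hmF hR).map Q).hom :=
    LinearMap.codRestrict _ Φ (fun α => ⟨Φ₀ α, rfl⟩)
  have hker : LinearMap.ker Ψ ≤ numIdeal Λ (𝟙_ C) (tp X a) := by
    intro α hα
    have h0 : Φ α = 0 := congrArg Subtype.val hα
    have h1 : SmashNil ((α ≫ m) ≫ Q) := (Submodule.Quotient.mk_eq_zero _).1 h0
    rw [mem_numIdeal, numTriv_unit_iff hR]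
    intro β
    have h2 := h1.comp ((ρ_ _).hom ≫ (β ▷ tp X (t + 1)) ≫ (λ_ _).hom)
    have h3 : ((α ≫ m) ≫ Q) ≫ (ρ_ _).hom ≫ (β ▷ tp X (t + 1)) ≫ (λ_ _).hom =
        (α ≫ tpm (𝟙 X - e) a ≫ β) ≫ tpow (κ ≫ e) (t + 1) := by
      rw [← tpow_tpm]
      change ((α ≫ (ρ_ (tp X a)).inv ≫ (tp X a ◁ tpow κ (t + 1)) ≫ (ρ_ _).inv) ≫ Q) ≫
        (ρ_ _).hom ≫ (β ▷ tp X (t + 1)) ≫ (λ_ _).hom = _
      have h4 : (ρ_ (tp X a ⊗ tp X (t + 1))).inv ≫ Q ≫ (ρ_ _).hom =
          tpm (𝟙 X - e) a ⊗ₘ tpm e (t + 1) := by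
        rw [hQ, tensorHom_id, rightUnitor_naturality, Iso.inv_hom_id_assoc]
      simp only [Category.assoc]
      rw [reassoc_of% h4, MonoidalCategory.tensorHom_def', Category.assoc,
        ← comp_whiskerRight_assoc, ← MonoidalCategory.whiskerLeft_comp_assoc,
        whisker_exchange_assoc, ← rightUnitor_inv_naturality_assoc, leftUnitor_naturality,
        Category.assoc, unitors_equal, Iso.inv_hom_id_assoc]
    rw [h3] at h2
    have h4 : α ≫ tpm (𝟙 X - e) a ≫ β = α ≫ β := by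
      rw [← sub_eq_zero]
      apply hom_unit hR
      have h5 : R.H.map (𝟙 X - e) = 𝟙 _ := by
        rw [Functor.map_sub, he, sub_zero, R.H.map_id]
      rw [Functor.map_sub, R.H.map_comp, R.H.map_comp, R.H.map_comp, map_tpm R _ h5,
        Category.id_comp, sub_self]
    rw [h4] at h2
    obtain ⟨x, hx⟩ := hR.unit (α ≫ β)
    rw [hx, Linear.smul_comp, Category.id_comp] at h2
    by_cases hx0 : x = 0
    · rw [hx, hx0, zero_smul]
    · exfalso
      apply hns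
      have h8 := h2.smul x⁻¹
      rw [smul_smul, inv_mul_cancel₀ hx0, one_smul] at h8
      exact smashNil_of_tpow h8
  have hfin := finite_num hR (𝟙_ C) (tp X a)
  have h1 : (numRank Λ (tp X a) : ℕ∞) = dimE Λ ((𝟙_ C ⟶ tp X a) ⧸ numIdeal Λ (𝟙_ C) (tp X a)) :=
    dimE_eq.symm
  rw [h1]
  refine (dimE_surj (Submodule.factor hker) (Submodule.factor_surjective hker)).trans ?_
  exact dimE_inj ((LinearMap.ker Ψ).liftQ Ψ le_rfl) (LinearMap.ker_eq_bot.1
    (Submodule.ker_liftQ_eq_bot' _ _ rfl))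

/-- **The growth**: a homologically trivial endomorphism `g` of `X` and a homologically trivial class
`κ` such that no `κ g^k` is smash nilpotent. -/
theorem gap_gen (hR : IsReal Λ R) {X : C} {i₀ : 𝟙_ C ⟶ X} {r₀ : X ⟶ 𝟙_ C}
    (h₀ : i₀ ≫ r₀ = 𝟙 (𝟙_ C)) (g : End X) (hg : R.H.map (g : X ⟶ X) = 0) {κ : 𝟙_ C ⟶ X}
    (hκ : R.H.map κ = 0) (hns : ∀ k : ℕ, ¬ SmashNil (κ ≫ ((g ^ k : End X) : X ⟶ X))) (n : ℕ) :
    ((∑ ij ∈ antidiagonal n with 0 < ij.1, n.choose ij.1 * numRank Λ (tp X ij.2) : ℕ) : ℕ∞) ≤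
      hsDim hR X n := by
  cases n with
  | zero =>
    have h1 : (antidiagonal 0).filter (fun ij : ℕ × ℕ => 0 < ij.1) = ∅ := by
      rw [Finset.Nat.antidiagonal_zero]
      rfl
    rw [h1, Finset.sum_empty, Nat.cast_zero]
    exact zero_le
  | succ N =>
    have hGA' : ∀ Z : C, (tensorRight Z ⋙ hmF hR).Additive := fun Z => inferInstance
    have hGL' : ∀ Z : C, Functor.Linear Λ (tensorRight Z ⋙ hmF hR) := fun Z => inferInstance
    let Z₀ := tp X N
    let F := hmF hR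
    have hobj : dimE Λ (F.obj (X ⊗ Z₀)) = hsDim hR X (N + 1) :=
      dimE_iso F (β_ X (tp X N))
    by_cases hfin : Module.Finite Λ (F.obj (X ⊗ Z₀))
    swap
    · rw [← hobj, dimE_top hfin]
      exact le_top
    let G : C ⥤ ModuleCat.{v} Λ := tensorRight Z₀ ⋙ hmF hR
    have hGA : Functor.Additive G := hGA' Z₀
    have hGL : Functor.Linear Λ G := hGL' Z₀
    have hfin' : Module.Finite Λ (G.obj X) := hfin
    obtain ⟨q, hq1, k, hq2⟩ := exists_fit' (Pool.Agent.N712.AF.act G g)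
    let u : End X := Polynomial.aeval g q
    let eE : End X := u * g
    let e : X ⟶ X := eE
    have hGe : Pool.Agent.N712.AF.act G eE =
        Polynomial.aeval (Pool.Agent.N712.AF.act G g) q * Pool.Agent.N712.AF.act G g := by
      have h1 : eE = u * g := rfl
      rw [h1, map_mul]
      congr 1
      exact (Polynomial.aeval_algHom_apply (Pool.Agent.N712.AF.act G) g q).symm
    have hHe : R.H.map e = 0 := by
      change R.H.map ((g : X ⟶ X) ≫ (u : X ⟶ X)) = 0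
      rw [R.H.map_comp, hg, zero_comp]
    have he : F.map ((e ≫ e) ▷ Z₀) = F.map (e ▷ Z₀) := by
      have h1 : G.map (e ≫ e) = G.map e := by
        apply ModuleCat.hom_ext
        change Pool.Agent.N712.AF.act G (eE * eE) = Pool.Agent.N712.AF.act G eE
        rw [map_mul, hGe, hq1]
      exact h1
    obtain ⟨β, β', hβ⟩ := E1aux.retract_unit h₀ N
    have hne : ¬ SmashNil (κ ≫ e) := by
      intro hs
      let m : X ⟶ X ⊗ Z₀ := (ρ_ X).inv ≫ (X ◁ β)
      have hm : ∀ x : X ⟶ X, m ≫ (x ▷ Z₀) = x ≫ m := by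
        intro x
        change ((ρ_ X).inv ≫ (X ◁ β)) ≫ (x ▷ Z₀) = x ≫ (ρ_ X).inv ≫ (X ◁ β)
        rw [Category.assoc, whisker_exchange, rightUnitor_inv_naturality_assoc]
      have h0 : R.H.map (κ ≫ m) = 0 := by rw [R.H.map_comp, hκ, zero_comp]
      let w : G.obj X := hcl hR (κ ≫ m) h0
      have hact : ∀ x : End X, Pool.Agent.N712.AF.act G x w =
          hcl hR ((κ ≫ (x : X ⟶ X)) ≫ m) (by rw [R.H.map_comp, R.H.map_comp, hκ, zero_comp,
            zero_comp]) := by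
        intro x
        change ((hmF hR).map ((x : X ⟶ X) ▷ Z₀)).hom (hcl hR (κ ≫ m) h0) = _
        rw [hcl_map]
        congr 1
        rw [Category.assoc, hm, Category.assoc]
      have h1 : Pool.Agent.N712.AF.act G eE w = 0 := by
        rw [hact]
        exact (hcl_eq_zero hR _ _).2 (hs.comp m)
      rw [hGe] at h1
      have h2 : (Pool.Agent.N712.AF.act G g ^ k) w = 0 := by
        have h3 := LinearMap.congr_fun hq2 w
        rw [Module.End.mul_apply, LinearMap.sub_apply, Module.End.one_apply, h1, sub_zero,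
          LinearMap.zero_apply] at h3
        exact h3
      rw [← map_pow, hact] at h2
      have h3 := ((hcl_eq_zero hR _ _).1 h2).comp ((X ◁ β') ≫ (ρ_ X).hom)
      have h4 : ((κ ≫ ((g ^ k : End X) : X ⟶ X)) ≫ m) ≫ (X ◁ β') ≫ (ρ_ X).hom =
          κ ≫ ((g ^ k : End X) : X ⟶ X) := by
        have h5 : m ≫ (X ◁ β') ≫ (ρ_ X).hom = 𝟙 X := by
          change ((ρ_ X).inv ≫ (X ◁ β)) ≫ (X ◁ β') ≫ (ρ_ X).hom = 𝟙 X
          rw [Category.assoc, ← MonoidalCategory.whiskerLeft_comp_assoc, hβ,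
            MonoidalCategory.whiskerLeft_id, Category.id_comp, Iso.inv_hom_id]
        rw [Category.assoc, h5, Category.comp_id]
      rw [h4] at h3
      exact hns k h3
    have h6 := count' (Λ := Λ) F e he (N + 1) (𝟙_ C) (𝟙 _)
      (fun k hk => by
        have h7 : N = k := by omega
        rw [← h7]
        exact ⟨ρ_ (tp X N)⟩)
    have h7 : rkE F (tp X (N + 1) ◁ 𝟙 (𝟙_ C)) ≤ hsDim hR X (N + 1) := by
      refine (rkE_le_obj F _).trans (le_of_eq ?_)
      exact dimE_iso F (ρ_ (tp X (N + 1)))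
    refine le_trans ?_ (h6.trans h7)
    rw [Nat.cast_sum]
    refine le_trans (sum_le_sum fun ij hij => ?_) (sum_le_sum_of_subset (filter_subset _ _))
    rw [mem_filter] at hij
    rw [Nat.cast_mul]
    refine mul_le_mul_right ?_ _
    have h11 : ij.1 = (ij.1 - 1) + 1 := by omega
    rw [h11]
    exact low_term hR hκ hHe hne ij.2 (ij.1 - 1)

end Pool.Agent.N64.AF
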