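import Pool.Agent.N64.AF.X16

/-!
# The rate gap and Kimura finite-dimensionality
-/

set_option autoImplicit false

open CategoryTheory Limits MonoidalCategory Module Filter Topology Finset
open Pool.Agent.Y112.SR Pool.Agent.Y112.KD
open scoped ENNReal

namespace Pool.Agent.N64.AF

universe v u w t x

variable {C : Type u} [Category.{v} C] [Preadditive C] [MonoidalCategory C]
  [MonoidalPreadditive C] [SymmetricCategory C] [RightRigidCategory C]
  {Λ : Type t} [Field Λ] [CharZero Λ] [Linear Λ C] [MonoidalLinear Λ C]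
  {K : Type w} [Field K] [IsAlgClosed K] [Algebra Λ K] {R : SuperRealisation C K}

lemma numRank_iso (hR : IsReal Λ R) {S S' : C} (i : S ≅ S') :
    numRank Λ S = numRank Λ S' := by
  let N : C ⥤ ModuleCat.{v} Λ := quoS (homF Λ (𝟙_ C)) (numS Λ) (num_stab hR)
  exact LinearEquiv.finrank_eq (N.mapIso i).toLinearEquiv

omit [Preadditive C] [MonoidalPreadditive C] [SymmetricCategory C] [RightRigidCategory C]
  [Linear Λ C] [MonoidalLinear Λ C] [Field Λ] [CharZero Λ] [Algebra Λ K] [IsAlgClosed K] [Field K] in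
lemma tpm_id (X : C) (n : ℕ) : tpm (𝟙 X) n = 𝟙 (tp X n) := by
  induction n with
  | zero => rfl
  | succ n ih =>
    change tpm (𝟙 X) n ⊗ₘ 𝟙 X = 𝟙 (tp X n ⊗ X)
    rw [ih, id_tensorHom_id]

/-- The powers of an isomorphism. -/
def tpmIso {X Y : C} (j : X ≅ Y) (n : ℕ) : tp X n ≅ tp Y n where
  hom := tpm j.hom n
  inv := tpm j.inv n
  hom_inv_id := by rw [← tpm_comp, j.hom_inv_id, tpm_id]
  inv_hom_id := by rw [← tpm_comp, j.inv_hom_id, tpm_id]

/-- The powers of a power. -/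
lemma exists_pow_iso (T : C) (m a : ℕ) : Nonempty (tp (tp T m) a ≅ tp T (m * a)) := by
  refine Pool.Agent.N712.AF.tpIso T m (fun a => ?_) a
  obtain ⟨i, -⟩ := exists_tp_iso T (m * a) m
  exact ⟨i⟩

/-- **The growth** for a homologically trivial endomorphism which is not nilpotent. -/
theorem gap_endo (hR : IsReal Λ R) {L L' : C} [ExactPairing L L'] {i₀ : 𝟙_ C ⟶ L ⊗ L'}
    {r₀ : L ⊗ L' ⟶ 𝟙_ C} (h₀ : i₀ ≫ r₀ = 𝟙 (𝟙_ C)) (f : End L) (hf : R.H.map (f : L ⟶ L) = 0)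
    (hnn : ¬ IsNilpotent f) (n : ℕ) :
    ((∑ ij ∈ antidiagonal n with 0 < ij.1, n.choose ij.1 * numRank Λ (tp (L ⊗ L') ij.2) : ℕ) :
      ℕ∞) ≤ hsDim hR (L ⊗ L') n := by
  let g : End (L ⊗ L') := (f : L ⟶ L) ▷ L'
  have hg : R.H.map ((f : L ⟶ L) ▷ L') = 0 := by
    rw [Functor.Monoidal.map_whiskerRight, hf]
    simp
  have hκ : R.H.map (η_ L L' ≫ ((f : L ⟶ L) ▷ L')) = 0 := by
    rw [R.H.map_comp, hg, comp_zero]
  refine gap_gen hR h₀ g hg hκ (fun k hs => hnn ?_) n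
  have h1 : ∀ k : ℕ, (η_ L L' ≫ ((f : L ⟶ L) ▷ L')) ≫ ((g ^ k : End (L ⊗ L')) : L ⊗ L' ⟶ L ⊗ L') =
      η_ L L' ≫ (((f ^ (k + 1) : End L) : L ⟶ L) ▷ L') := by
    intro k
    induction k with
    | zero =>
      rw [pow_zero, zero_add, pow_one]
      exact Category.comp_id _
    | succ k ih =>
      have h2 : ((g ^ (k + 1) : End (L ⊗ L')) : L ⊗ L' ⟶ L ⊗ L') =
          ((g ^ k : End (L ⊗ L')) : L ⊗ L' ⟶ L ⊗ L') ≫ ((f : L ⟶ L) ▷ L') := by
        rw [pow_succ']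
        rfl
      have h3 : ((f ^ (k + 1 + 1) : End L) : L ⟶ L) =
          ((f ^ (k + 1) : End L) : L ⟶ L) ≫ (f : L ⟶ L) := by
        rw [pow_succ']
        rfl
      rw [h2, ← Category.assoc, ih, h3, comp_whiskerRight, Category.assoc]
  rw [h1] at hs
  obtain ⟨l, hl⟩ := nil_of_mate _ hs
  refine ⟨(k + 1) * l, ?_⟩
  rw [pow_mul]
  exact hl

/-- The same for an endomorphism of a power of a self-dual object. -/
theorem gap_pow {T : C} [ExactPairing T T] (h : IsPow Λ R T) {m : ℕ} (f : End (tp T m))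
    (hf : R.H.map (f : tp T m ⟶ tp T m) = 0) (hnn : ¬ IsNilpotent f) (n : ℕ) :
    ((∑ ij ∈ antidiagonal n with 0 < ij.1,
      n.choose ij.1 * numRank Λ (tp T (2 * m * ij.2)) : ℕ) : ℕ∞) ≤
      hsDim h.real T (2 * m * n) := by
  have hR := h.real
  let _ := Pool.Agent.N413.AFW.pairTp T T m
  obtain ⟨i, -⟩ := exists_tp_iso T m m
  let j : tp T m ⊗ Pool.Agent.N413.AFW.dp T m ≅ tp T (m + m) :=
    whiskerLeftIso (tp T m) (dpIso T m) ≪≫ i
  obtain ⟨i', r', hir'⟩ := h.retract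
  obtain ⟨i₁, r₁, h₁⟩ := E1aux.retract_unit hir' (m + m)
  have h₀ : (i₁ ≫ j.inv) ≫ (j.hom ≫ r₁) = 𝟙 (𝟙_ C) := by
    rw [Category.assoc, Iso.inv_hom_id_assoc, h₁]
  have h2 : m + m = 2 * m := by ring
  have hX : ∀ a, Nonempty (tp (tp T m ⊗ Pool.Agent.N413.AFW.dp T m) a ≅ tp T (2 * m * a)) := by
    intro a
    rw [← h2]
    obtain ⟨k⟩ := exists_pow_iso T (m + m) a
    exact ⟨tpmIso j a ≪≫ k⟩
  have key := gap_endo hR h₀ f hf hnn n
  obtain ⟨kn⟩ := hX n
  have h3 : hsDim hR (tp T m ⊗ Pool.Agent.N413.AFW.dp T m) n = hsDim hR T (2 * m * n) :=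
    dimE_iso (hmF hR) kn
  rw [← h3]
  refine le_trans (le_of_eq ?_) key
  congr 1
  refine Finset.sum_congr rfl fun ij _ => ?_
  obtain ⟨ka⟩ := hX ij.2
  rw [numRank_iso hR ka]

/-- A numerical consequence of the growth of the numerical ranks. -/
lemma closed_form {T : C} [ExactPairing T T] (h : IsPow Λ R T) (M n : ℕ) :
    (bt R T ^ (2 * M) + 1) ^ n ≤ (M * n + 1) ^ (bt R T ^ 2) *
      (∑ ij ∈ antidiagonal n with 0 < ij.1, n.choose ij.1 * numRank Λ (tp T (2 * M * ij.2))) +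
      bt R T ^ (2 * M * n) := by
  rw [← sum_all, ← pow_mul, Finset.mul_sum]
  refine Nat.add_le_add_right (Finset.sum_le_sum fun ij hij => ?_) _
  rw [mem_filter, HasAntidiagonal.mem_antidiagonal] at hij
  have h1 := growth h.real (Λ := Λ) h.cplus (M * ij.2)
  rw [nr_tp h.real] at h1
  have h2 : M * ij.2 + M * ij.2 = 2 * M * ij.2 := by ring
  have h3 : (bt R T ^ 2) ^ (M * ij.2) = (bt R T ^ (2 * M)) ^ ij.2 := by
    rw [← pow_mul, ← pow_mul]
    congr 1
    ring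
  rw [h2, h3] at h1
  have h4 : (M * ij.2 + 1) ^ (bt R T ^ 2) ≤ (M * n + 1) ^ (bt R T ^ 2) := by
    apply Nat.pow_le_pow_left
    have h5 : ij.2 ≤ n := by omega
    exact Nat.add_le_add_right (Nat.mul_le_mul_left M h5) 1
  calc n.choose ij.1 * (bt R T ^ (2 * M)) ^ ij.2
      ≤ n.choose ij.1 * ((M * n + 1) ^ (bt R T ^ 2) * numRank Λ (tp T (2 * M * ij.2))) :=
        Nat.mul_le_mul_left _ (h1.trans (Nat.mul_le_mul_right _ h4))
    _ = _ := by ring

section Kim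

variable {C : Type u} [Category.{v} C] [Preadditive C] [MonoidalCategory C]
  [MonoidalPreadditive C] [SymmetricCategory C] [RightRigidCategory C]
  [Linear ℚ C] [MonoidalLinear ℚ C] [IsIdempotentComplete C]
  {K : Type w} [Field K] [IsAlgClosed K] [Algebra ℚ K] {R : SuperRealisation C K}

/-- **The rate gap**: Kimura finite-dimensionality, or growth faster than that of the numerical
ranks by an exponential factor. -/
theorem kimura_gap {T : C} [ExactPairing T T] (h : IsPow ℚ R T) {M : ℕ} (hM : M = bt R T + 1) :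
    (∀ n : ℕ, hsDim h.real T (2 * M * n) <
      ((∑ ij ∈ antidiagonal n with 0 < ij.1,
        n.choose ij.1 * numRank ℚ (tp T (2 * M * ij.2)) : ℕ) : ℕ∞) →
      Pool.Agent.R905.IsKimuraFinite T) ∧
    ∀ n : ℕ, (((M * n + 1) ^ (bt R T ^ 2) : ℕ) : ℕ∞) * hsDim h.real T (2 * M * n) +
      ((bt R T ^ (2 * M * n) : ℕ) : ℕ∞) < (((bt R T ^ (2 * M) + 1) ^ n : ℕ) : ℕ∞) →
      Pool.Agent.R905.IsKimuraFinite T := by
  have hfinal : (∀ f : End (tp T M), R.H.map (f : tp T M ⟶ tp T M) = 0 → IsNilpotent f) →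
      Pool.Agent.R905.IsKimuraFinite T := by
    intro hnil
    refine kimura_of_nil' h.real h.cplus fun n hn => ?_
    obtain ⟨i, r, hir⟩ := Pool.Agent.N945.AFE3.exists_retract h n M (by rw [hM]; exact hn)
    exact Pool.Agent.R905.HomNil.retract (R := R) hnil i r hir
  have h1 : ∀ n : ℕ, hsDim h.real T (2 * M * n) <
      ((∑ ij ∈ antidiagonal n with 0 < ij.1,
        n.choose ij.1 * numRank ℚ (tp T (2 * M * ij.2)) : ℕ) : ℕ∞) →
      Pool.Agent.R905.IsKimuraFinite T := by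
    intro n hn
    refine hfinal fun f hf => ?_
    by_contra hnn
    exact absurd hn (not_lt.2 (gap_pow h f hf hnn n))
  refine ⟨h1, fun n hn => h1 n ?_⟩
  by_contra hc
  refine absurd hn (not_lt.2 ?_)
  refine (Nat.cast_le.2 (closed_form h M n)).trans ?_
  rw [Nat.cast_add, Nat.cast_mul]
  exact add_le_add (mul_le_mul_right (not_lt.1 hc) _) le_rfl

end Kim

end Pool.Agent.N64.AF
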