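import Pool.Agent.N64.AF.X17
import Pool.Agent.N64.AF.L2

/-!
# Kimura finite-dimensionality of objects which are not self-dual
-/

set_option autoImplicit false

open CategoryTheory Limits MonoidalCategory Module Filter Topology Finset
open Pool.Agent.Y112.SR Pool.Agent.Y112.KD
open scoped ENNReal

namespace Pool.Agent.N64.AF

universe v u w t x

variable {C : Type u} [Category.{v} C] [Preadditive C] [MonoidalCategory C]
  [MonoidalPreadditive C] [SymmetricCategory C] [RightRigidCategory C]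
  [Linear ℚ C] [MonoidalLinear ℚ C]
  {K : Type w} [Field K] [IsAlgClosed K] [Algebra ℚ K] {R : SuperRealisation C K}

open Pool.Agent.N878.AFL2 Pool.Agent.R905 in
omit [IsAlgClosed K] [Linear ℚ C] [MonoidalLinear ℚ C] [Algebra ℚ K] in
lemma homNil_of_dual (R : SuperRealisation C K) (M : C) (n : ℕ)
    (h : HomNil R (tp (M ⊗ Mᘁ) n)) : HomNil R (tp M n) := by
  intro f hf
  have h1 : R.H.map (Psi M n (f : tp M n ⟶ tp M n)) = 0 := by
    unfold Psi
    rw [R.H.map_comp, R.H.map_comp, Functor.Monoidal.map_whiskerRight, hf]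
    simp
  let F : End (tp (M ⊗ Mᘁ) n) := Psi M n (f : tp M n ⟶ tp M n)
  have hp : ∀ j : ℕ, Psi M n ((f ^ j : End (tp M n)) : tp M n ⟶ tp M n) =
      ((F ^ j : End (tp (M ⊗ Mᘁ) n)) : tp (M ⊗ Mᘁ) n ⟶ tp (M ⊗ Mᘁ) n) := by
    intro j
    induction j with
    | zero =>
      rw [pow_zero, pow_zero]
      change Psi M n (𝟙 (tp M n)) = 𝟙 _
      simp [Psi]
    | succ j ih =>
      have h2 : ((f ^ (j + 1) : End (tp M n)) : tp M n ⟶ tp M n) =
          ((f ^ j : End (tp M n)) : tp M n ⟶ tp M n) ≫ (f : tp M n ⟶ tp M n) := by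
        rw [pow_succ']
        rfl
      have h3 : ((F ^ (j + 1) : End (tp (M ⊗ Mᘁ) n)) : tp (M ⊗ Mᘁ) n ⟶ tp (M ⊗ Mᘁ) n) =
          ((F ^ j : End (tp (M ⊗ Mᘁ) n)) : tp (M ⊗ Mᘁ) n ⟶ tp (M ⊗ Mᘁ) n) ≫
            (F : tp (M ⊗ Mᘁ) n ⟶ tp (M ⊗ Mᘁ) n) := by
        rw [pow_succ']
        rfl
      rw [h2, h3, Psi_comp, ih]
  obtain ⟨k, hk⟩ := h F h1
  refine ⟨k, ?_⟩
  apply Psi_inj M n
  rw [hp, hk]

/-- **Kimura finite-dimensionality** of an arbitrary object `M` with the sign conjecture: a linear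
and an exponential criterion on one power. -/
theorem kimura_dual [IsIdempotentComplete C] (hR : IsReal ℚ R) {M : C} (hM : R.CPlus M)
    (hb : 0 < bt R M) {B : ℕ} (hB : B = bt R M + 1) :
    (∀ a : ℕ, hsDim hR (M ⊗ Mᘁ) (B * (a + 2)) <
      (((a + 1) * nr ℚ (𝟙 (tp M (B * a))) (𝟙 (tp M (B * a))) : ℕ) : ℕ∞) →
      Pool.Agent.R905.IsKimuraFinite M) ∧
    (∀ n : ℕ, hsDim hR (M ⊗ Mᘁ) (2 * B * n) <
      ((∑ ij ∈ antidiagonal n with 0 < ij.1,
        n.choose ij.1 * nr ℚ (𝟙 (tp M (2 * B * ij.2))) (𝟙 (tp M (2 * B * ij.2))) : ℕ) : ℕ∞) →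
      Pool.Agent.R905.IsKimuraFinite M) ∧
    ∀ n : ℕ, (((2 * B * n + 1) ^ (bt R M ^ 2) : ℕ) : ℕ∞) * hsDim hR (M ⊗ Mᘁ) (2 * B * n) +
      ((bt R M ^ (4 * B * n) : ℕ) : ℕ∞) < (((bt R M ^ (4 * B) + 1) ^ n : ℕ) : ℕ∞) →
      Pool.Agent.R905.IsKimuraFinite M := by
  obtain ⟨inst, hS⟩ := isPow_tensor_dual hR hM hb
  have hfinal : (∀ f : End (tp (M ⊗ Mᘁ) B),
      R.H.map (f : tp (M ⊗ Mᘁ) B ⟶ tp (M ⊗ Mᘁ) B) = 0 → IsNilpotent f) →
      Pool.Agent.R905.IsKimuraFinite M := by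
    intro hnil
    refine kimura_of_nil' hR hM fun n hn => homNil_of_dual R M n ?_
    obtain ⟨i, r, hir⟩ := Pool.Agent.N945.AFE3.exists_retract hS n B (by rw [hB]; exact hn)
    exact Pool.Agent.R905.HomNil.retract (R := R) hnil i r hir
  have h2 : ∀ n : ℕ, hsDim hR (M ⊗ Mᘁ) (2 * B * n) <
      ((∑ ij ∈ antidiagonal n with 0 < ij.1,
        n.choose ij.1 * nr ℚ (𝟙 (tp M (2 * B * ij.2))) (𝟙 (tp M (2 * B * ij.2))) : ℕ) : ℕ∞) →
      Pool.Agent.R905.IsKimuraFinite M := by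
    intro n hn
    refine hfinal fun f hf => ?_
    by_contra hnn
    refine absurd hn (not_lt.2 (le_trans (le_of_eq ?_) (gap_pow hS f hf hnn n)))
    congr 1
    refine Finset.sum_congr rfl fun ij _ => ?_
    rw [numRank_tensor_dual hR]
  refine ⟨fun a hlt => hfinal fun f hf => ?_, h2, fun n hn => h2 n ?_⟩
  · have e3 : B * (a + 2) = B * a + B + B := by ring
    rw [e3, ← numRank_tensor_dual hR] at hlt
    exact nil_of_one_pow hS hlt f hf
  · by_contra hc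
    refine absurd hn (not_lt.2 ?_)
    have h3 : (bt R M ^ (4 * B) + 1) ^ n ≤ (2 * B * n + 1) ^ (bt R M ^ 2) *
        (∑ ij ∈ antidiagonal n with 0 < ij.1,
          n.choose ij.1 * nr ℚ (𝟙 (tp M (2 * B * ij.2))) (𝟙 (tp M (2 * B * ij.2)))) +
        bt R M ^ (4 * B * n) := by
      rw [← sum_all, ← pow_mul, Finset.mul_sum]
      refine Nat.add_le_add_right (Finset.sum_le_sum fun ij hij => ?_) _
      rw [mem_filter, HasAntidiagonal.mem_antidiagonal] at hij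
      have h1 := growth hR (Λ := ℚ) hM (2 * B * ij.2)
      have h3 : (bt R M ^ 2) ^ (2 * B * ij.2) = (bt R M ^ (4 * B)) ^ ij.2 := by
        rw [← pow_mul, ← pow_mul]
        congr 1
        ring
      rw [h3] at h1
      have h4 : (2 * B * ij.2 + 1) ^ (bt R M ^ 2) ≤ (2 * B * n + 1) ^ (bt R M ^ 2) := by
        apply Nat.pow_le_pow_left
        have h5 : ij.2 ≤ n := by omega
        exact Nat.add_le_add_right (Nat.mul_le_mul_left (2 * B) h5) 1
      calc n.choose ij.1 * (bt R M ^ (4 * B)) ^ ij.2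
          ≤ n.choose ij.1 * ((2 * B * n + 1) ^ (bt R M ^ 2) *
              nr ℚ (𝟙 (tp M (2 * B * ij.2))) (𝟙 (tp M (2 * B * ij.2)))) :=
            Nat.mul_le_mul_left _ (h1.trans (Nat.mul_le_mul_right _ h4))
        _ = _ := by ring
    refine (Nat.cast_le.2 h3).trans ?_
    rw [Nat.cast_add, Nat.cast_mul]
    exact add_le_add (mul_le_mul_right (not_lt.1 hc) _) le_rfl

end Pool.Agent.N64.AF
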