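import Pool.Agent.N64.AF.X7

/-!
# Homologically trivial cycles modulo smash nilpotence: zero-infinity law, criteria on one power
-/

set_option autoImplicit false

open CategoryTheory Limits MonoidalCategory Module Filter Topology
open Pool.Agent.Y112.SR Pool.Agent.Y112.KD
open scoped ENNReal

namespace Pool.Agent.N64.AF

universe v u w t x

variable {C : Type u} [Category.{v} C] [Preadditive C] [MonoidalCategory C]
  [MonoidalPreadditive C] [SymmetricCategory C] [RightRigidCategory C]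
  {Λ : Type t} [Field Λ] [CharZero Λ] [Linear Λ C] [MonoidalLinear Λ C]
  {K : Type w} [Field K] [IsAlgClosed K] [Algebra Λ K] {R : SuperRealisation C K}

omit [IsAlgClosed K] in
lemma hmF_subsingleton (hR : IsReal Λ R) (Z : C) : Subsingleton ((hmF hR).obj Z) ↔
    ∀ α : 𝟙_ C ⟶ Z, R.H.map α = 0 → SmashNil α := by
  constructor
  · intro hs α hα
    rw [← hcl_eq_zero hR α hα]
    exact @Subsingleton.elim _ hs _ _
  · intro h0
    refine ⟨fun x y => ?_⟩
    have key : ∀ z : (hmF hR).obj Z, z = 0 := by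
      intro z
      obtain ⟨⟨α, hα⟩, rfl⟩ := Submodule.Quotient.mk_surjective _ z
      exact (hcl_eq_zero hR α hα).2 (h0 α hα)
    rw [key x, key y]

omit [IsAlgClosed K] in
/-- The powers of a homologically trivial class are obtained from it by morphisms in the powers of the
numerical ideal. -/
lemma exists_numPow {T : C} (hR : IsReal Λ R) {m : ℕ} {α : 𝟙_ C ⟶ tp T m} (hα : NumTriv α)
    (k : ℕ) : ∀ (b : ℕ) (j : tp (tp T m) (k + 1) ⟶ tp T b), ∃ g : tp T m ⟶ tp T b,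
      NumPow T k g ∧ α ≫ g = tpow α (k + 1) ≫ j := by
  induction k with
  | zero =>
    intro b j
    refine ⟨(λ_ (tp T m)).inv ≫ j, trivial, ?_⟩
    change α ≫ (λ_ (tp T m)).inv ≫ j = (𝟙 _ ≫ (ρ_ (𝟙_ C)).inv ≫ (𝟙_ C ◁ α)) ≫ j
    rw [Category.id_comp, Category.assoc, leftUnitor_inv_naturality_assoc, unitors_inv_equal]
  | succ k ih =>
    intro b j
    obtain ⟨b', ⟨i⟩⟩ := N690V2.exists_iso T m (k + 1)
    obtain ⟨g, hg, hg'⟩ := ih b' i.hom
    refine ⟨g ≫ ((i.inv ≫ (ρ_ (tp (tp T m) (k + 1))).inv) ≫ (tp (tp T m) (k + 1) ◁ α) ≫ j),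
      ⟨b', g, _, hg, NumTriv.comp hR (NumTriv.whiskerLeft hR hα _) _ _, rfl⟩, ?_⟩
    rw [← Category.assoc, hg']
    change _ = (tpow α (k + 1) ≫ (ρ_ (tp (tp T m) (k + 1))).inv ≫
      (tp (tp T m) (k + 1) ◁ α)) ≫ j
    simp only [Category.assoc, Iso.hom_inv_id_assoc]

/-- **The zero-infinity law** for the homologically trivial classes modulo the smash nilpotent ones,
and three criteria on one power. -/
theorem smash_hom_law {T : C} [ExactPairing T T] (h : IsPow Λ R T) : ∃ N : ℕ∞,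
    (N = 0 ∨ N = ⊤) ∧ RatioTo Λ T (fun n => dimE Λ (HomModSmash h.real (tp T n))) N ∧
    (N = 0 ↔ ∀ (n : ℕ) (α : 𝟙_ C ⟶ tp T n), R.H.map α = 0 → SmashNil α) ∧
    (∀ m n : ℕ, 128 * (m + 1) ^ 2 * bt R T ^ (2 * m + 6) ≤ n →
      2 * dimE Λ (HomModSmash h.real (tp T n)) < numRank Λ (tp T n) →
        ∀ α : 𝟙_ C ⟶ tp T m, R.H.map α = 0 → SmashNil α) ∧
    (∀ a : ℕ, dimE Λ (HomModSmash h.real (tp T (a + 2))) <
      (((a + 1) * numRank Λ (tp T a) : ℕ) : ℕ∞) →
        ∀ f : End T, R.H.map (f : T ⟶ T) = 0 → IsNilpotent f) ∧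
    ∀ (m : ℕ) (P : C) (i : P ⟶ tp T m) (p : tp T m ⟶ P), i ≫ p = 𝟙 P → NumSimple P →
      ∀ n : ℕ, m * bt R T ^ (3 * m) ≤ n →
        dimE Λ (HomModSmash h.real (tp T n)) < ((nr Λ (𝟙 P) (𝟙 (tp T n)) : ℕ) : ℕ∞) →
          ∀ α : 𝟙_ C ⟶ P, R.H.map α = 0 → SmashNil α := by
  have hR := h.real
  obtain ⟨N, h1, h2, h3⟩ := law h (hmF hR)
  have h2' : N = 0 ↔ ∀ (n : ℕ) (α : 𝟙_ C ⟶ tp T n), R.H.map α = 0 → SmashNil α :=
    h2.trans (forall_congr' fun n => hmF_subsingleton hR _)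
  refine ⟨N, ?_, h1, h2', fun m n hn hlt => ?_, fun a hlt f hf => nil_of_one h hlt f hf,
    fun m P i p hip hP n hn hlt => ?_⟩
  · by_cases hN : N = ⊤
    · exact Or.inr hN
    · left
      obtain ⟨k, rfl⟩ := ENat.ne_top_iff_exists.1 hN
      rw [h2']
      intro m α hα
      have hαN := numTriv_of_map hR hα
      obtain ⟨b, ⟨i⟩⟩ := N690V2.exists_iso T m (k + 1)
      obtain ⟨g, hg, hg'⟩ := exists_numPow hR hαN k b i.hom
      have h4 := (structure_thm h (hmF hR) (N := k) h1).2 m b g hg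
      have h5 := hcl_map hR α hα g
      rw [h4] at h5
      have h6 : SmashNil (α ≫ g) := (hcl_eq_zero hR _ _).1 h5.symm
      rw [hg'] at h6
      have h7 : SmashNil (tpow α (k + 1)) := by
        have := h6.comp i.inv
        rwa [Category.assoc, Iso.hom_inv_id, Category.comp_id] at this
      obtain ⟨j, hj⟩ := h7
      obtain ⟨f, hf⟩ := N690V2.exists_mul α (k + 1) j
      exact ⟨(k + 1) * j, by rw [← hf, hj, zero_comp]⟩
  · obtain ⟨h4, h5⟩ := dimE_lt hlt
    exact (hmF_subsingleton hR _).1 (explicit_criterion h (hmF hR) hn h4 h5)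
  · by_contra hc
    have hne : ¬ Subsingleton ((hmF hR).obj P) := fun hs => hc ((hmF_subsingleton hR P).1 hs)
    exact absurd hlt (not_lt.2 (simple_lower h (hmF hR) i p hip hP hne hn))

end Pool.Agent.N64.AF
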