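import Pool.Agent.N64.AF.X15
import Pool.Agent.N64.AF.X8

/-!
# The homologically trivial classes in a category of generated cycles
-/

set_option autoImplicit false

open CategoryTheory Limits MonoidalCategory Module Filter Topology Finset
open Pool.Agent.Y112.SR Pool.Agent.Y112.KD
open scoped ENNReal

namespace Pool.Agent.N64.AF

universe v u w t x

variable {C : Type u} [Category.{v} C] [Preadditive C] [MonoidalCategory C]
  [MonoidalPreadditive C] [SymmetricCategory C] [RightRigidCategory C]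
  {Λ : Type t} [Field Λ] [CharZero Λ] [Linear Λ C] [MonoidalLinear Λ C]
  {K : Type w} [Field K] [IsAlgClosed K] [Algebra Λ K] {R : SuperRealisation C K}

/-- The functor of the homologically trivial classes. -/
noncomputable def htF (hR : IsReal Λ R) : C ⥤ ModuleCat.{v} Λ :=
  sub (homF Λ (𝟙_ C)) (homS1 hR) (homS1_stab hR)

noncomputable instance (hR : IsReal Λ R) : (htF hR).Additive := by
  unfold htF; infer_instance

noncomputable instance (hR : IsReal Λ R) : (htF hR).Linear Λ := by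
  unfold htF; infer_instance

/-- The dimension of the space of the homologically trivial classes on `T^n`. -/
noncomputable def htDim (hR : IsReal Λ R) (T : C) (n : ℕ) : ℕ∞ :=
  dimE Λ (homSub hR (𝟙_ C) (tp T n))

/-- The realisation is injective on the classes on `Z`. -/
def ClInj (R : SuperRealisation C K) (Z : C) : Prop := ∀ α : 𝟙_ C ⟶ Z, R.H.map α = 0 → α = 0

omit [IsAlgClosed K] in
lemma htF_subsingleton (hR : IsReal Λ R) (Z : C) : Subsingleton ((htF hR).obj Z) ↔ ClInj R Z := by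
  constructor
  · intro hs α hα
    have h1 : (⟨α, hα⟩ : homSub hR (𝟙_ C) Z) = 0 := @Subsingleton.elim _ hs _ _
    exact congrArg Subtype.val h1
  · intro h0
    refine ⟨fun x y => ?_⟩
    have key : ∀ z : homSub hR (𝟙_ C) Z, z = 0 := fun z => Subtype.ext (h0 z.1 z.2)
    exact (key x).trans (key y).symm

/-- The linear lower bound. -/
theorem ht_linear [IsIdempotentComplete C] (hR : IsReal Λ R) (T : C) (n : ℕ) :
    (((n + 1) * numRank Λ T ^ n : ℕ) : ℕ∞) * htDim hR T 1 ≤ htDim hR T (n + 1) := by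
  have h0 := exists_dual (Λ := Λ) hR T
  obtain ⟨b, hb⟩ : ∃ b, numRank Λ T = b := ⟨_, rfl⟩
  rw [hb] at h0 ⊢
  obtain ⟨e, f, hef⟩ := h0
  let π : T ⟶ T := ∑ i, f i ≫ e i
  have he : ∀ k, e k ≫ π = e k := by
    intro k
    change e k ≫ (∑ i, f i ≫ e i) = e k
    rw [Preadditive.comp_sum, Finset.sum_eq_single k]
    · rw [← Category.assoc, hef, if_pos rfl, Category.id_comp]
    · intro i _ hi
      rw [← Category.assoc, hef, if_neg (Ne.symm hi), zero_comp]
    · intro h
      exact absurd (Finset.mem_univ k) h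
  have hidem : π ≫ π = π := by
    change (∑ i, f i ≫ e i) ≫ π = ∑ i, f i ≫ e i
    rw [Preadditive.sum_comp]
    refine Finset.sum_congr rfl fun i _ => ?_
    rw [Category.assoc, he]
  have hαπ : ∀ α : 𝟙_ C ⟶ T, R.H.map α = 0 → α ≫ π = 0 := by
    intro α hα
    change α ≫ (∑ i, f i ≫ e i) = 0
    rw [Preadditive.comp_sum]
    refine Finset.sum_eq_zero fun i _ => ?_
    rw [← Category.assoc, hom_unit hR (c := α ≫ f i) (by rw [R.H.map_comp, hα, zero_comp]),
      zero_comp]
  obtain ⟨T0, j, q, hjq, hqj⟩ := IsIdempotentComplete.idempotents_split T π hidem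
  have hid : (𝟙 T - π) ≫ (𝟙 T - π) = 𝟙 T - π := by
    rw [Preadditive.sub_comp, Category.id_comp, Preadditive.comp_sub, Category.comp_id, hidem,
      sub_self, sub_zero]
  obtain ⟨P, i, p, hip, hpi⟩ := IsIdempotentComplete.idempotents_split T (𝟙 T - π) hid
  have hjp : j ≫ p = 0 := by
    have h1 : j ≫ p = j ≫ (π ≫ (𝟙 T - π)) ≫ p := by
      rw [← hpi, ← hqj]
      simp only [Category.assoc]
      rw [reassoc_of% hjq, hip, Category.comp_id]
    rw [h1, Preadditive.comp_sub, Category.comp_id, hidem, sub_self, zero_comp, comp_zero]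
  have hiq : i ≫ q = 0 := by
    have h1 : i ≫ q = i ≫ ((𝟙 T - π) ≫ π) ≫ q := by
      rw [← hpi, ← hqj]
      simp only [Category.assoc]
      rw [reassoc_of% hip, hjq, Category.comp_id]
    rw [h1, Preadditive.sub_comp, Category.id_comp, hidem, sub_self, zero_comp, comp_zero]
  -- the homologically trivial classes come from `P`
  have key0 : ∀ (α : 𝟙_ C ⟶ tp T 1) (hα : α ∈ homSub hR (𝟙_ C) (tp T 1)),
      α ≫ tpm p 1 = 0 → (⟨α, hα⟩ : homSub hR (𝟙_ C) (tp T 1)) = 0 := by
    intro α hα h1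
    have h2 : α ≫ (λ_ T).hom = 0 := by
      have h3 : (α ≫ (λ_ T).hom) ≫ π = 0 := hαπ _ (by rw [R.H.map_comp,
        show R.H.map α = 0 from hα, zero_comp])
      have h4 : (α ≫ (λ_ T).hom) ≫ p = 0 := by
        have h5 : tpm p 1 ≫ (λ_ P).hom = (λ_ T).hom ≫ p := by
          change (𝟙 (𝟙_ C) ⊗ₘ p) ≫ (λ_ P).hom = (λ_ T).hom ≫ p
          rw [id_tensorHom, leftUnitor_naturality]
        rw [Category.assoc, ← h5, ← Category.assoc, h1, zero_comp]
      have h6 : (α ≫ (λ_ T).hom) = (α ≫ (λ_ T).hom) ≫ π + ((α ≫ (λ_ T).hom) ≫ p) ≫ i := by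
        rw [Category.assoc _ p i, hpi, Preadditive.comp_sub, Category.comp_id, add_sub_cancel]
      rw [h6, h3, h4, zero_comp, add_zero]
    apply Subtype.ext
    change α = 0
    rw [← cancel_mono (λ_ T).hom, h2, zero_comp]
  have hone' : dimE Λ ((htF hR).obj (tp T 1)) ≤ dimE Λ ((htF hR).obj (tp P 1)) := by
    refine dimE_inj ((htF hR).map (tpm p 1)).hom ?_
    rw [← LinearMap.ker_eq_bot]
    refine (Submodule.eq_bot_iff _).2 fun z hz => ?_
    have key : ∀ z : homSub hR (𝟙_ C) (tp T 1), (z.1 ≫ tpm p 1 = 0) → z = 0 := by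
      rintro ⟨α, hα⟩ h1
      exact key0 α hα h1
    exact key z (congrArg Subtype.val hz)
  have hone : htDim hR T 1 ≤ dimE Λ ((htF hR).obj (tp P 1)) := hone'
  have hab : ∀ a, ((b ^ a : ℕ) : ℕ∞) * dimE Λ ((htF hR).obj (tp P 1)) ≤
      dimE Λ ((htF hR).obj (tp T0 a ⊗ tp P 1)) := by
    intro a
    induction a with
    | zero =>
      rw [pow_zero, Nat.cast_one, one_mul]
      exact (dimE_iso (htF hR) (λ_ (tp P 1))).ge
    | succ a ih =>
      refine le_trans ?_ (dimE_fam (Λ := Λ) (htF hR) (A := tp T0 a ⊗ tp P 1)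
        (X := tp T0 (a + 1) ⊗ tp P 1) (b := b)
        (fun k => ((ρ_ (tp T0 a)).inv ≫ (tp T0 a ◁ (e k ≫ q))) ▷ tp P 1)
        (fun k => ((tp T0 a ◁ (j ≫ f k)) ≫ (ρ_ (tp T0 a)).hom) ▷ tp P 1) ?_)
      · rw [pow_succ', Nat.cast_mul, mul_assoc]
        exact mul_le_mul_right ih _
      · intro k l
        have h1 : (e k ≫ q) ≫ (j ≫ f l) = if k = l then 𝟙 _ else 0 := by
          rw [Category.assoc, ← Category.assoc q, hqj, ← Category.assoc, he, hef]
        rw [← comp_whiskerRight, Category.assoc, ← MonoidalCategory.whiskerLeft_comp_assoc, h1]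
        split_ifs with h
        · rw [MonoidalCategory.whiskerLeft_id, Category.id_comp, Iso.inv_hom_id, id_whiskerRight]
        · rw [MonoidalPreadditive.whiskerLeft_zero, zero_comp, comp_zero,
            MonoidalPreadditive.zero_whiskerRight]
  have h6 := count (Λ := Λ) (htF hR) j q i p hjq hip hjp hiq (n + 1) (𝟙_ C)
  have h7 : dimE Λ ((htF hR).obj (tp T (n + 1) ⊗ 𝟙_ C)) = htDim hR T (n + 1) :=
    dimE_iso (htF hR) (ρ_ (tp T (n + 1)))
  rw [h7] at h6
  refine le_trans ?_ h6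
  have hmem : ((1, n) : ℕ × ℕ) ∈ antidiagonal (n + 1) := by
    rw [HasAntidiagonal.mem_antidiagonal]
    exact add_comm 1 n
  refine le_trans ?_ (Finset.single_le_sum (f := fun ij : ℕ × ℕ => ((n + 1).choose ij.1 : ℕ∞) *
    dimE Λ ((htF hR).obj ((tp T0 ij.2 ⊗ tp P ij.1) ⊗ 𝟙_ C))) (fun _ _ => zero_le) hmem)
  change _ ≤ ((n + 1).choose 1 : ℕ∞) * dimE Λ ((htF hR).obj ((tp T0 n ⊗ tp P 1) ⊗ 𝟙_ C))
  rw [Nat.choose_one_right, Nat.cast_mul, mul_assoc, dimE_iso (htF hR) (ρ_ (tp T0 n ⊗ tp P 1))]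
  exact mul_le_mul_right ((mul_le_mul_right hone _).trans (hab n)) _

/-- **The law for the homologically trivial classes**, and the explicit criterion. -/
theorem ht_law {T : C} [ExactPairing T T] (h : IsPow Λ R T) : ∃ N : ℕ∞,
    RatioTo Λ T (htDim h.real T) N ∧ (N = 0 ↔ ∀ n, ClInj R (tp T n)) ∧
    ∀ m n : ℕ, 128 * (m + 1) ^ 2 * bt R T ^ (2 * m + 6) ≤ n →
      2 * htDim h.real T n < numRank Λ (tp T n) → ClInj R (tp T m) := by
  have hR := h.real
  obtain ⟨N, h1, h2, h3⟩ := law h (htF hR)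
  refine ⟨N, h1, h2.trans (forall_congr' fun n => htF_subsingleton hR _), fun m n hn hlt => ?_⟩
  obtain ⟨h4, h5⟩ := dimE_lt hlt
  exact (htF_subsingleton hR _).1 (explicit_criterion h (htF hR) hn h4 h5)

end Pool.Agent.N64.AF
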