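import Pool.Agent.N64.AF.X1
import Pool.Agent.N64.AF.L1

/-!
# The law for the numerically trivial morphisms, and simple direct summands
-/

set_option autoImplicit false

open CategoryTheory Limits MonoidalCategory Module Filter Topology
open Pool.Agent.Y112.SR Pool.Agent.Y112.KD
open Pool.Agent.Y116.MT (tr)
open scoped ENNReal

namespace Pool.Agent.N64.AF

universe v u w t x

variable {C : Type u} [Category.{v} C] [Preadditive C] [MonoidalCategory C]
  [MonoidalPreadditive C] [SymmetricCategory C] [RightRigidCategory C]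
  {Λ : Type t} [Field Λ] [CharZero Λ] [Linear Λ C] [MonoidalLinear Λ C]
  {K : Type w} [Field K] [IsAlgClosed K] [Algebra Λ K] {R : SuperRealisation C K}

/-- The multiplicity of `P` in the powers of `T`, asymptotically. -/
theorem simple_ratio {T : C} [ExactPairing T T] (h : IsPow Λ R T) {m : ℕ} {P : C}
    (i : P ⟶ tp T m) (p : tp T m ⟶ P) (hip : i ≫ p = 𝟙 P) :
    RatioTo Λ T (fun n => ((nr Λ (𝟙 P) (𝟙 (tp T n)) : ℕ) : ℕ∞)) (bt R P : ℕ∞) := by
  have hR := h.real
  have hβ : ∀ n, (0 : ℝ) < numRank Λ (tp T n) := fun n => by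
    exact_mod_cast (numRank_mono h n).1
  have hc : ∀ n, (0 : ℝ) < cmpSeq (fun n => numRank Λ (tp T n)) (bt R T) n := fun n => by
    exact_mod_cast (numRank_tendsto h).1 n
  have h1 : Tendsto (fun n => (nr Λ (𝟙 P) (𝟙 (tp T n)) : ℝ) /
      cmpSeq (fun n => numRank Λ (tp T n)) (bt R T) n) atTop (𝓝 (bt R P : ℝ)) := by
    rw [tendsto_order]
    constructor
    · intro a ha
      have hδ : (0 : ℝ) < ((bt R P : ℝ) - a) / 2 := by linarith
      filter_upwards [eventually_nr h (numIdem_retract i p hip) (isRk_retract R i p hip) hδ]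
        with n hn
      rw [nr_retract hR i p hip] at hn
      rw [lt_div_iff₀ (hc n)]
      refine lt_of_lt_of_le ?_ hn
      have := hc n
      nlinarith
    · intro a ha
      refine Eventually.of_forall fun n => ?_
      rw [div_lt_iff₀ (hc n)]
      have h2 := nr_le_cmpSeq h (numIdem_retract i p hip) (isRk_retract R i p hip) n
      rw [nr_retract hR i p hip] at h2
      have h3 : (nr Λ (𝟙 P) (𝟙 (tp T n)) : ℝ) ≤
          bt R P * cmpSeq (fun n => numRank Λ (tp T n)) (bt R T) n := by exact_mod_cast h2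
      have := hc n
      nlinarith
  have h2 := (numRank_tendsto h).2 0
  rw [pow_zero] at h2
  have h3 := h1.div h2 one_ne_zero
  rw [div_one] at h3
  have h4 : Tendsto (fun n => (nr Λ (𝟙 P) (𝟙 (tp T n)) : ℝ) / numRank Λ (tp T n)) atTop
      (𝓝 (bt R P : ℝ)) := by
    refine h3.congr fun n => ?_
    have := (hc n).ne'
    have := (hβ n).ne'
    simp only [Pi.div_apply, Nat.add_zero]
    field_simp
  have h5 := (ENNReal.continuous_ofReal.tendsto _).comp h4
  rw [ENNReal.ofReal_natCast] at h5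
  refine (h5.congr fun n => ?_)
  rw [Function.comp_apply, ENNReal.ofReal_div_of_pos (hβ n),
    ENNReal.ofReal_natCast, ENNReal.ofReal_natCast]
  rfl

/-- The numerically trivial morphisms from `L`, as a family of subspaces. -/
def numS (Λ : Type t) [Field Λ] [Linear Λ C] [MonoidalLinear Λ C] (L : C) :
    ∀ Z, Submodule Λ ((homF Λ L).obj Z) := fun Z => numIdeal Λ L Z

omit [IsAlgClosed K] in
lemma numIdeal_stab (hR : IsReal Λ R) (L : C) : IsStab (homF Λ L) (numS Λ L) := by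
  intro Y Z f a ha
  have := NumTriv.comp hR (show NumTriv a from ha) (𝟙 L) f
  rw [Category.id_comp] at this
  exact this

/-- The law for the numerically trivial morphisms from the object `L` to the powers of `T`, and its
consequences for a simple direct summand of a power. -/
theorem cycles_law {T : C} [ExactPairing T T] (h : IsPow Λ R T) (L : C) : ∃ N : ℕ∞,
    RatioTo Λ T (fun n => dimE Λ (numIdeal Λ L (tp T n))) N ∧
    (N = 0 ↔ ∀ (n : ℕ) (f : L ⟶ tp T n), NumTriv f → f = 0) ∧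
    (∀ k : ℕ, N = k → (∀ n, Module.Finite Λ (numIdeal Λ L (tp T n))) ∧
      ∀ (a b : ℕ) (g : tp T a ⟶ tp T b), NumPow T k g →
        ∀ f : L ⟶ tp T a, NumTriv f → f ≫ g = 0) ∧
    ∀ (m : ℕ) (P : C) (i : P ⟶ tp T m) (p : tp T m ⟶ P), i ≫ p = 𝟙 P → NumSimple P →
      RatioTo Λ T (fun n => ((nr Λ (𝟙 P) (𝟙 (tp T n)) : ℕ) : ℕ∞)) (bt R P : ℕ∞) ∧
      (bt R P : ℕ∞) * dimE Λ (numIdeal Λ L P) ≤ nr Λ (𝟙 P) (𝟙 P) * N ∧
      ((∃ f : L ⟶ P, NumTriv f ∧ f ≠ 0) → (bt R P : ℕ∞) ≤ N ∧
        ∀ n : ℕ, m * bt R T ^ (3 * m) ≤ n →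
          ((nr Λ (𝟙 P) (𝟙 (tp T n)) : ℕ) : ℕ∞) ≤ dimE Λ (numIdeal Λ L (tp T n))) := by
  have hst := numIdeal_stab (R := R) h.real L
  obtain ⟨N, h1, h2, h3⟩ := simple_law h (sub (homF Λ L) (numS Λ L) hst)
  refine ⟨N, h1, h2.trans ?_, fun k hk => ?_, fun m P i p hip hP => ?_⟩
  · refine forall_congr' fun n => ?_
    refine (Submodule.subsingleton_iff_eq_bot (p := numIdeal Λ L (tp T n))).trans ?_
    rw [Submodule.eq_bot_iff]
    rfl
  · have h1' : Tendsto (fun n => ((dimE Λ ((sub (homF Λ L) (numS Λ L) hst).obj (tp T n)) : ℕ∞) :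
        ℝ≥0∞) / numRank Λ (tp T n)) atTop (𝓝 ((k : ℕ) : ℝ≥0∞)) := by
      have := h1
      rw [hk] at this
      exact this
    obtain ⟨hfin, -⟩ := isFin_of_lim h (sub (homF Λ L) (numS Λ L) hst) h1'
    obtain ⟨-, h4⟩ := structure_thm h (sub (homF Λ L) (numS Λ L) hst) h1'
    refine ⟨fun n => hfin.fin n, fun a b g hg f hf => ?_⟩
    have h5 := h4 a b g hg
    have h6 := congrArg (fun q : (sub (homF Λ L) (numS Λ L) hst).obj (tp T a) ⟶
      (sub (homF Λ L) (numS Λ L) hst).obj (tp T b) => q.hom ⟨f, hf⟩) h5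
    exact congrArg Subtype.val h6
  · obtain ⟨h4, h5⟩ := h3 m P i p hip hP
    refine ⟨simple_ratio h i p hip, h4, ?_⟩
    rintro ⟨f, hf, hf0⟩
    have hne : ¬ Subsingleton ((sub (homF Λ L) (numS Λ L) hst).obj P) := by
      intro hs
      apply hf0
      have h6 : (⟨f, hf⟩ : numIdeal Λ L P) = 0 :=
        @Subsingleton.elim ((sub (homF Λ L) (numS Λ L) hst).obj P) hs ⟨f, hf⟩ 0
      exact congrArg Subtype.val h6
    exact ⟨h5 hne, fun n hn => simple_lower h (sub (homF Λ L) (numS Λ L) hst) i p hip hP hne hn⟩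

end Pool.Agent.N64.AF
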