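import Pool.Agent.N64.AF.X17
import Pool.Agent.N64.AF.X12

/-!
# No phantoms, without the sign conjecture
-/

set_option autoImplicit false

open CategoryTheory Limits MonoidalCategory Module Filter Topology Finset
open Pool.Agent.Y112.SR Pool.Agent.Y112.KD
open scoped ENNReal

namespace Pool.Agent.N64.AF

universe v u w t x

variable {C : Type u} [Category.{v} C] [Preadditive C] [MonoidalCategory C]
  [MonoidalPreadditive C] [SymmetricCategory C] [RightRigidCategory C]
  {Λ : Type t} [Field Λ] [CharZero Λ] [Linear Λ C] [MonoidalLinear Λ C]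
  {K : Type w} [Field K] [IsAlgClosed K] [Algebra Λ K] {R : SuperRealisation C K}

/-- Nilpotence of the homologically trivial endomorphisms implies that of the numerically trivial
ones, under the sign conjecture. -/
lemma numNil_of_homNil (hR : IsReal Λ R) {M : C} (hM : R.CPlus M)
    (h : ∀ f : End M, R.H.map (f : M ⟶ M) = 0 → IsNilpotent f) (f : End M)
    (hf : NumTriv (f : M ⟶ M)) : IsNilpotent f := by
  have : ∀ Y : C, Module.Finite K (R.H.obj Y) := R.finite
  have hc := Pool.Agent.N8.AFBb.charZero_K Λ K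
  have h1 := (mem_perp_iff hR hM (f : M ⟶ M)).2 hf
  have h2 := Pool.Agent.N8.AFBb.nil_of_perp (H := fun Y : C => R.H.obj Y) (isCat_CK R)
    (Pool.Agent.N8.AFBb.mem_CK R (f : M ⟶ M)) h1
  obtain ⟨k, hk⟩ := h2
  have h3 : ∀ j : ℕ, (R.H.map ((f ^ j : End M) : M ⟶ M)).hom =
      ((R.H.map (f : M ⟶ M)).hom : Module.End K (R.H.obj M)) ^ j := by
    intro j
    induction j with
    | zero =>
      rw [pow_zero, pow_zero]
      change (R.H.map (𝟙 M)).hom = _
      rw [R.H.map_id]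
      rfl
    | succ j ih =>
      have h4 : ((f ^ (j + 1) : End M) : M ⟶ M) = ((f ^ j : End M) : M ⟶ M) ≫ (f : M ⟶ M) := by
        rw [pow_succ']
        rfl
      rw [h4, R.H.map_comp, pow_succ', ← ih]
      rfl
  have h4 : R.H.map ((f ^ k : End M) : M ⟶ M) = 0 := by
    apply ModuleCat.hom_ext
    rw [h3]
    exact hk
  obtain ⟨l, hl⟩ := h _ h4
  refine ⟨k * l, ?_⟩
  rw [pow_mul]
  exact hl

/-- **No phantoms**: for an arbitrary object `M` such that the unit object is a direct factor of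
`M ⊗ Mᘁ`. -/
theorem phantom_free (hR : IsReal Λ R) {M : C} {i₀ : 𝟙_ C ⟶ M ⊗ Mᘁ} {r₀ : M ⊗ Mᘁ ⟶ 𝟙_ C}
    (h₀ : i₀ ≫ r₀ = 𝟙 (𝟙_ C)) (n : ℕ)
    (hlt : hsDim hR (M ⊗ Mᘁ) n <
      ((∑ ij ∈ antidiagonal n with 0 < ij.1,
        n.choose ij.1 * nr Λ (𝟙 (tp M ij.2)) (𝟙 (tp M ij.2)) : ℕ) : ℕ∞)) :
    (∀ f : End M, R.H.map (f : M ⟶ M) = 0 → IsNilpotent f) ∧
    (∀ (P : C) (i : P ⟶ M) (p : M ⟶ P), i ≫ p = 𝟙 P → R.H.map (𝟙 P) = 0 → 𝟙 P = 0) ∧
    (R.CPlus M → Conservative R M) := by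
  have hnil : ∀ f : End M, R.H.map (f : M ⟶ M) = 0 → IsNilpotent f := by
    intro f hf
    by_contra hnn
    refine absurd hlt (not_lt.2 (le_trans (le_of_eq ?_) (gap_endo (L' := Mᘁ) hR h₀ f hf hnn n)))
    congr 1
    refine Finset.sum_congr rfl fun ij _ => ?_
    rw [numRank_tensor_dual hR]
  refine ⟨hnil, fun P i p hip hP => ?_, fun hM => ?_⟩
  · let e : End M := p ≫ i
    have he : R.H.map (p ≫ i) = 0 := by
      have h1 : p ≫ i = p ≫ 𝟙 P ≫ i := by rw [Category.id_comp]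
      rw [h1, R.H.map_comp, R.H.map_comp, hP, zero_comp, comp_zero]
    obtain ⟨k, hk⟩ := hnil e he
    have h2 : IsIdempotentElem e := by
      change (p ≫ i) ≫ (p ≫ i) = p ≫ i
      rw [Category.assoc, reassoc_of% hip]
    have h3 : e = 0 := by
      have h4 := h2.pow_succ_eq k
      rw [pow_succ, hk, zero_mul] at h4
      exact h4.symm
    have h5 : i ≫ (p ≫ i) ≫ p = 𝟙 P := by
      rw [Category.assoc, hip, Category.comp_id, hip]
    have h6 : p ≫ i = 0 := h3
    rw [← h5, h6, zero_comp, comp_zero]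
  · exact conservative_of R fun f hf =>
      isIso_of_nil hR hM (fun g hg => numNil_of_homNil hR hM hnil g hg) hf

end Pool.Agent.N64.AF
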