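import Pool.Agent.N64.AF.X20

/-!
# Künneth projectors of the direct factors from one inequality
-/

set_option autoImplicit false

open CategoryTheory Limits MonoidalCategory Module Filter Topology Finset
open Pool.Agent.Y112.SR Pool.Agent.Y112.KD
open scoped ENNReal

namespace Pool.Agent.N64.AF

universe v u w t x

variable {C : Type u} [Category.{v} C] [Preadditive C] [MonoidalCategory C]
  [MonoidalPreadditive C] [SymmetricCategory C] [RightRigidCategory C]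
  {Λ : Type t} [Field Λ] [CharZero Λ] [Linear Λ C] [MonoidalLinear Λ C]
  {K : Type w} [Field K] [IsAlgClosed K] [Algebra Λ K] {R : SuperRealisation C K}

omit [MonoidalPreadditive C] [RightRigidCategory C] [IsAlgClosed K] in
/-- Nilpotence passes to direct factors. -/
lemma nil_factor {M P : C} (i : P ⟶ M) (p : M ⟶ P) (hip : i ≫ p = 𝟙 P)
    (hnil : ∀ f : End M, R.H.map (f : M ⟶ M) = 0 → IsNilpotent f)
    (f : End P) (hf : R.H.map (f : P ⟶ P) = 0) : IsNilpotent f := by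
  let g : End M := p ≫ (f : P ⟶ P) ≫ i
  have hg : R.H.map (g : M ⟶ M) = 0 := by
    change R.H.map (p ≫ (f : P ⟶ P) ≫ i) = 0
    rw [R.H.map_comp, R.H.map_comp, hf, zero_comp, comp_zero]
  obtain ⟨k, hk⟩ := hnil g hg
  have h1 : ∀ j : ℕ, i ≫ ((g ^ j : End M) : M ⟶ M) ≫ p = ((f ^ j : End P) : P ⟶ P) := by
    intro j
    induction j with
    | zero =>
      rw [pow_zero, pow_zero]
      change i ≫ 𝟙 M ≫ p = 𝟙 P
      rw [Category.id_comp, hip]
    | succ j ih =>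
      have h2 : ((g ^ (j + 1) : End M) : M ⟶ M) = (g : M ⟶ M) ≫ ((g ^ j : End M) : M ⟶ M) := by
        rw [pow_succ]
        rfl
      have h3 : ((f ^ (j + 1) : End P) : P ⟶ P) = (f : P ⟶ P) ≫ ((f ^ j : End P) : P ⟶ P) := by
        rw [pow_succ]
        rfl
      rw [h2, h3, ← ih]
      change i ≫ ((p ≫ (f : P ⟶ P) ≫ i) ≫ ((g ^ j : End M) : M ⟶ M)) ≫ p = _
      rw [Category.assoc, Category.assoc, Category.assoc, reassoc_of% hip]
  refine ⟨k, ?_⟩
  have h2 := h1 k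
  rw [hk] at h2
  rw [← h2]
  change i ≫ (0 : M ⟶ M) ≫ p = 0
  rw [zero_comp, comp_zero]

/-- **Künneth projectors of all the direct factors** of `M` from one inequality. -/
theorem kunneth_factors (hR : IsReal Λ R) {M : C} {i₀ : 𝟙_ C ⟶ M ⊗ Mᘁ} {r₀ : M ⊗ Mᘁ ⟶ 𝟙_ C}
    (h₀ : i₀ ≫ r₀ = 𝟙 (𝟙_ C)) (n : ℕ)
    (hlt : hsDim hR (M ⊗ Mᘁ) n <
      ((∑ ij ∈ antidiagonal n with 0 < ij.1,
        n.choose ij.1 * nr Λ (𝟙 (tp M ij.2)) (𝟙 (tp M ij.2)) : ℕ) : ℕ∞))
    (P : C) (i : P ⟶ M) (p : M ⟶ P) (hip : i ≫ p = 𝟙 P) :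
    (∀ f : End P, R.H.map (f : P ⟶ P) = 0 → IsNilpotent f) ∧ KunnethLifts R Λ P := by
  have h1 := (phantom_free hR h₀ n hlt).1
  have h2 := nil_factor i p hip h1
  exact ⟨h2, kunnethLifts_of_nil h2⟩

end Pool.Agent.N64.AF
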