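import Pool.Agent.N64.AF.X15
import Pool.Agent.N64.AF.X19
import Pool.Agent.N64.AF.M6

/-!
# The law for the numerically trivial classes on the powers of `T ⊗ Tᘁ`
-/

set_option autoImplicit false

open CategoryTheory Limits MonoidalCategory Module Filter Topology Finset
open Pool.Agent.Y112.SR Pool.Agent.Y112.KD
open scoped ENNReal

namespace Pool.Agent.N64.AF

universe v u w t x

variable {C : Type u} [Category.{v} C] [Preadditive C] [MonoidalCategory C]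
  [MonoidalPreadditive C] [SymmetricCategory C] [RightRigidCategory C]
  {Λ : Type t} [Field Λ] [CharZero Λ] [Linear Λ C] [MonoidalLinear Λ C]
  {K : Type w} [Field K] [IsAlgClosed K] [Algebra Λ K] {R : SuperRealisation C K}

/-- The functor of the numerically trivial classes. -/
noncomputable def ntF (hR : IsReal Λ R) : C ⥤ ModuleCat.{v} Λ :=
  sub (homF Λ (𝟙_ C)) (numS Λ) (num_stab hR)

noncomputable instance (hR : IsReal Λ R) : (ntF hR).Additive := by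
  unfold ntF; infer_instance

noncomputable instance (hR : IsReal Λ R) : (ntF hR).Linear Λ := by
  unfold ntF; infer_instance

/-- The dimension of the space of the numerically trivial classes on `T^n`. -/
noncomputable def ntDim (Λ : Type t) [Field Λ] [Linear Λ C] [MonoidalLinear Λ C] (T : C) (n : ℕ) :
    ℕ∞ := dimE Λ (numIdeal Λ (𝟙_ C) (tp T n))

/-- Numerically trivial classes on `Z` are zero. -/
def NumZero (Z : C) : Prop := ∀ α : 𝟙_ C ⟶ Z, NumTriv α → α = 0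

omit [IsAlgClosed K] in
lemma ntF_subsingleton (hR : IsReal Λ R) (Z : C) :
    Subsingleton ((ntF hR).obj Z) ↔ NumZero Z := by
  constructor
  · intro hs α hα
    have h1 : (⟨α, hα⟩ : numIdeal Λ (𝟙_ C) Z) = 0 := @Subsingleton.elim _ hs _ _
    exact congrArg Subtype.val h1
  · intro h0
    refine ⟨fun x y => ?_⟩
    have key : ∀ z : numIdeal Λ (𝟙_ C) Z, z = 0 := fun z => Subtype.ext (h0 z.1 z.2)
    exact (key x).trans (key y).symm

/-- The linear lower bound. -/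
theorem nt_linear [IsIdempotentComplete C] (hR : IsReal Λ R) (T : C) (n : ℕ) :
    (((n + 1) * numRank Λ T ^ n : ℕ) : ℕ∞) * ntDim Λ T 1 ≤ ntDim Λ T (n + 1) := by
  have h0 := exists_dual (Λ := Λ) hR T
  obtain ⟨b, hb⟩ : ∃ b, numRank Λ T = b := ⟨_, rfl⟩
  rw [hb] at h0 ⊢
  obtain ⟨e, f, hef⟩ := h0
  let π : T ⟶ T := ∑ i, f i ≫ e i
  have he : ∀ k, e k ≫ π = e k := by
    intro k
    change e k ≫ (∑ i, f i ≫ e i) = e k
    rw [Preadditive.comp_sum, Finset.sum_eq_single k]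
    · rw [← Category.assoc, hef, if_pos rfl, Category.id_comp]
    · intro i _ hi
      rw [← Category.assoc, hef, if_neg (Ne.symm hi), zero_comp]
    · intro h
      exact absurd (Finset.mem_univ k) h
  have hidem : π ≫ π = π := by
    change (∑ i, f i ≫ e i) ≫ π = ∑ i, f i ≫ e i
    rw [Preadditive.sum_comp]
    refine Finset.sum_congr rfl fun i _ => ?_
    rw [Category.assoc, he]
  have hαπ : ∀ α : 𝟙_ C ⟶ T, NumTriv α → α ≫ π = 0 := by
    intro α hα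
    change α ≫ (∑ i, f i ≫ e i) = 0
    rw [Preadditive.comp_sum]
    refine Finset.sum_eq_zero fun i _ => ?_
    rw [← Category.assoc, (numTriv_unit_iff hR α).1 hα, zero_comp]
  obtain ⟨T0, j, q, hjq, hqj⟩ := IsIdempotentComplete.idempotents_split T π hidem
  have hid : (𝟙 T - π) ≫ (𝟙 T - π) = 𝟙 T - π := by
    rw [Preadditive.sub_comp, Category.id_comp, Preadditive.comp_sub, Category.comp_id, hidem,
      sub_self, sub_zero]
  obtain ⟨P, i, p, hip, hpi⟩ := IsIdempotentComplete.idempotents_split T (𝟙 T - π) hid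
  have hjp : j ≫ p = 0 := by
    have h1 : j ≫ p = j ≫ (π ≫ (𝟙 T - π)) ≫ p := by
      rw [← hpi, ← hqj]
      simp only [Category.assoc]
      rw [reassoc_of% hjq, hip, Category.comp_id]
    rw [h1, Preadditive.comp_sub, Category.comp_id, hidem, sub_self, zero_comp, comp_zero]
  have hiq : i ≫ q = 0 := by
    have h1 : i ≫ q = i ≫ ((𝟙 T - π) ≫ π) ≫ q := by
      rw [← hpi, ← hqj]
      simp only [Category.assoc]
      rw [reassoc_of% hip, hjq, Category.comp_id]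
    rw [h1, Preadditive.sub_comp, Category.id_comp, hidem, sub_self, zero_comp, comp_zero]
  -- the numerically trivial classes come from `P`
  have key0 : ∀ (α : 𝟙_ C ⟶ tp T 1) (hα : α ∈ numIdeal Λ (𝟙_ C) (tp T 1)),
      α ≫ tpm p 1 = 0 → (⟨α, hα⟩ : numIdeal Λ (𝟙_ C) (tp T 1)) = 0 := by
    intro α hα h1
    have h2 : α ≫ (λ_ T).hom = 0 := by
      have h3 : (α ≫ (λ_ T).hom) ≫ π = 0 := by
        refine hαπ _ ?_
        have h7 := NumTriv.comp hR (show NumTriv α from hα) (𝟙 _) (λ_ T).hom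
        rwa [Category.id_comp] at h7
      have h4 : (α ≫ (λ_ T).hom) ≫ p = 0 := by
        have h5 : tpm p 1 ≫ (λ_ P).hom = (λ_ T).hom ≫ p := by
          change (𝟙 (𝟙_ C) ⊗ₘ p) ≫ (λ_ P).hom = (λ_ T).hom ≫ p
          rw [id_tensorHom, leftUnitor_naturality]
        rw [Category.assoc, ← h5, ← Category.assoc, h1, zero_comp]
      have h6 : (α ≫ (λ_ T).hom) = (α ≫ (λ_ T).hom) ≫ π + ((α ≫ (λ_ T).hom) ≫ p) ≫ i := by
        rw [Category.assoc _ p i, hpi, Preadditive.comp_sub, Category.comp_id, add_sub_cancel]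
      rw [h6, h3, h4, zero_comp, add_zero]
    apply Subtype.ext
    change α = 0
    rw [← cancel_mono (λ_ T).hom, h2, zero_comp]
  have hone' : dimE Λ ((ntF hR).obj (tp T 1)) ≤ dimE Λ ((ntF hR).obj (tp P 1)) := by
    refine dimE_inj ((ntF hR).map (tpm p 1)).hom ?_
    rw [← LinearMap.ker_eq_bot]
    refine (Submodule.eq_bot_iff _).2 fun z hz => ?_
    have key : ∀ z : numIdeal Λ (𝟙_ C) (tp T 1), (z.1 ≫ tpm p 1 = 0) → z = 0 := by
      rintro ⟨α, hα⟩ h1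
      exact key0 α hα h1
    exact key z (congrArg Subtype.val hz)
  have hone : ntDim Λ T 1 ≤ dimE Λ ((ntF hR).obj (tp P 1)) := hone'
  have hab : ∀ a, ((b ^ a : ℕ) : ℕ∞) * dimE Λ ((ntF hR).obj (tp P 1)) ≤
      dimE Λ ((ntF hR).obj (tp T0 a ⊗ tp P 1)) := by
    intro a
    induction a with
    | zero =>
      rw [pow_zero, Nat.cast_one, one_mul]
      exact (dimE_iso (ntF hR) (λ_ (tp P 1))).ge
    | succ a ih =>
      refine le_trans ?_ (dimE_fam (Λ := Λ) (ntF hR) (A := tp T0 a ⊗ tp P 1)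
        (X := tp T0 (a + 1) ⊗ tp P 1) (b := b)
        (fun k => ((ρ_ (tp T0 a)).inv ≫ (tp T0 a ◁ (e k ≫ q))) ▷ tp P 1)
        (fun k => ((tp T0 a ◁ (j ≫ f k)) ≫ (ρ_ (tp T0 a)).hom) ▷ tp P 1) ?_)
      · rw [pow_succ', Nat.cast_mul, mul_assoc]
        exact mul_le_mul_right ih _
      · intro k l
        have h1 : (e k ≫ q) ≫ (j ≫ f l) = if k = l then 𝟙 _ else 0 := by
          rw [Category.assoc, ← Category.assoc q, hqj, ← Category.assoc, he, hef]
        rw [← comp_whiskerRight, Category.assoc, ← MonoidalCategory.whiskerLeft_comp_assoc, h1]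
        split_ifs with h
        · rw [MonoidalCategory.whiskerLeft_id, Category.id_comp, Iso.inv_hom_id, id_whiskerRight]
        · rw [MonoidalPreadditive.whiskerLeft_zero, zero_comp, comp_zero,
            MonoidalPreadditive.zero_whiskerRight]
  have h6 := count (Λ := Λ) (ntF hR) j q i p hjq hip hjp hiq (n + 1) (𝟙_ C)
  have h7 : dimE Λ ((ntF hR).obj (tp T (n + 1) ⊗ 𝟙_ C)) = ntDim Λ T (n + 1) :=
    dimE_iso (ntF hR) (ρ_ (tp T (n + 1)))
  rw [h7] at h6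
  refine le_trans ?_ h6
  have hmem : ((1, n) : ℕ × ℕ) ∈ antidiagonal (n + 1) := by
    rw [HasAntidiagonal.mem_antidiagonal]
    exact add_comm 1 n
  refine le_trans ?_ (Finset.single_le_sum (f := fun ij : ℕ × ℕ => ((n + 1).choose ij.1 : ℕ∞) *
    dimE Λ ((ntF hR).obj ((tp T0 ij.2 ⊗ tp P ij.1) ⊗ 𝟙_ C))) (fun _ _ => zero_le) hmem)
  change _ ≤ ((n + 1).choose 1 : ℕ∞) * dimE Λ ((ntF hR).obj ((tp T0 n ⊗ tp P 1) ⊗ 𝟙_ C))
  rw [Nat.choose_one_right, Nat.cast_mul, mul_assoc, dimE_iso (ntF hR) (ρ_ (tp T0 n ⊗ tp P 1))]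
  exact mul_le_mul_right ((mul_le_mul_right hone _).trans (hab n)) _

/-- Numerical equivalence and equality on `T`: one inequality on one power. -/
theorem numZero_iff [IsIdempotentComplete C] (hR : IsReal Λ R) (T : C) :
    NumZero T ↔ ∃ n : ℕ, ntDim Λ T (n + 1) < (((n + 1) * numRank Λ T ^ n : ℕ) : ℕ∞) := by
  have hz : Subsingleton ((ntF hR).obj (tp T 1)) ↔ NumZero T := by
    rw [ntF_subsingleton]
    constructor
    · intro h α hα
      have h1 := h (α ≫ (λ_ T).inv) (by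
        have h7 := NumTriv.comp hR hα (𝟙 _) (λ_ T).inv
        rwa [Category.id_comp] at h7)
      rw [← cancel_mono (λ_ T).inv, h1, zero_comp]
    · intro h α hα
      have h1 := h (α ≫ (λ_ T).hom) (by
        have h7 := NumTriv.comp hR hα (𝟙 _) (λ_ T).hom
        rwa [Category.id_comp] at h7)
      rw [← cancel_mono (λ_ T).hom]
      exact h1.trans zero_comp.symm
  have hd : ntDim Λ T 1 = 0 ↔ NumZero T := by
    rw [← hz]
    change dimE Λ ((ntF hR).obj (tp T 1)) = 0 ↔ _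
    unfold dimE
    rw [Cardinal.toENat_eq_zero]
    exact rank_zero_iff
  constructor
  · intro h
    refine ⟨0, ?_⟩
    rw [zero_add, hd.2 h, pow_zero, mul_one]
    exact_mod_cast one_pos
  · rintro ⟨n, hn⟩
    by_contra hne
    have h1 : 1 ≤ ntDim Λ T 1 := by
      rw [ENat.one_le_iff_ne_zero]
      exact fun h => hne (hd.1 h)
    have h2 := nt_linear (Λ := Λ) hR T n
    refine absurd hn (not_lt.2 (le_trans ?_ h2))
    calc (((n + 1) * numRank Λ T ^ n : ℕ) : ℕ∞) = (((n + 1) * numRank Λ T ^ n : ℕ) : ℕ∞) * 1 :=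
          (mul_one _).symm
      _ ≤ _ := mul_le_mul_right h1 _

/-- **The law for the numerically trivial classes** on the powers of `T ⊗ Tᘁ`. -/
theorem nt_law (hR : IsReal Λ R) {T : C} (hT : R.CPlus T) (hb : 0 < bt R T) :
    (∃ N : ℕ∞, RatioTo Λ (T ⊗ Tᘁ) (ntDim Λ (T ⊗ Tᘁ)) N ∧
      (N = 0 ↔ ∀ n, NumZero (tp (T ⊗ Tᘁ) n)) ∧
      ∀ k : ℕ, N = k → (∀ n, Module.Finite Λ (numIdeal Λ (𝟙_ C) (tp (T ⊗ Tᘁ) n))) ∧
        ∀ (a c : ℕ) (g : tp (T ⊗ Tᘁ) a ⟶ tp (T ⊗ Tᘁ) c), NumPow (T ⊗ Tᘁ) k g →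
          ∀ f : 𝟙_ C ⟶ tp (T ⊗ Tᘁ) a, NumTriv f → f ≫ g = 0) ∧
    (∀ m n : ℕ, 128 * (m + 1) ^ 2 * bt R T ^ (4 * m + 12) ≤ n →
      2 * ntDim Λ (T ⊗ Tᘁ) n < numRank Λ (tp (T ⊗ Tᘁ) n) → NumZero (tp (T ⊗ Tᘁ) m)) ∧
    ∀ (i : 𝟙_ C ⟶ Tᘁ) (r : Tᘁ ⟶ 𝟙_ C), i ≫ r = 𝟙 _ → ∀ n, 512 * bt R T ^ 16 ≤ n →
      2 * ntDim Λ (T ⊗ Tᘁ) n < numRank Λ (tp (T ⊗ Tᘁ) n) → NumZero T := by
  obtain ⟨inst, hS⟩ := isPow_tensor_dual hR hT hb
  have e1 : bt R (T ⊗ Tᘁ) = bt R T ^ 2 := by rw [bt_tensor, bt_dual, sq]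
  have key : ∀ m n : ℕ, 128 * (m + 1) ^ 2 * bt R T ^ (4 * m + 12) ≤ n →
      2 * ntDim Λ (T ⊗ Tᘁ) n < numRank Λ (tp (T ⊗ Tᘁ) n) → NumZero (tp (T ⊗ Tᘁ) m) := by
    intro m n hn hlt
    obtain ⟨h4, h5⟩ := dimE_lt hlt
    refine (ntF_subsingleton hR _).1 (explicit_criterion hS (ntF hR) (m := m) (n := n) ?_ h4 h5)
    rw [e1, ← pow_mul]
    have e2 : 2 * (2 * m + 6) = 4 * m + 12 := by ring
    rwa [e2]
  refine ⟨?_, key, fun i r hir n hn hlt α hα => ?_⟩
  · obtain ⟨N, h1, h2, -⟩ := law hS (ntF hR)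
    refine ⟨N, h1, h2.trans (forall_congr' fun n => ntF_subsingleton hR _), fun k hk => ?_⟩
    have h1' : Tendsto (fun n => ((dimE Λ ((ntF hR).obj (tp (T ⊗ Tᘁ) n)) : ℕ∞) :
        ℝ≥0∞) / numRank Λ (tp (T ⊗ Tᘁ) n)) atTop (𝓝 ((k : ℕ) : ℝ≥0∞)) := by
      have := h1
      rw [hk] at this
      exact this
    obtain ⟨hfin, -⟩ := isFin_of_lim hS (ntF hR) h1'
    obtain ⟨-, h4⟩ := structure_thm hS (ntF hR) h1'
    refine ⟨fun n => hfin.fin n, fun a c g hg f hf => ?_⟩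
    have h5 := h4 a c g hg
    have h6 := congrArg (fun q : (ntF hR).obj (tp (T ⊗ Tᘁ) a) ⟶
      (ntF hR).obj (tp (T ⊗ Tᘁ) c) => q.hom ⟨f, hf⟩) h5
    exact congrArg Subtype.val h6
  · have h1 := key 1 n (by
      have e : 128 * (1 + 1) ^ 2 * bt R T ^ (4 * 1 + 12) = 512 * bt R T ^ 16 := by norm_num
      rw [e]
      exact hn) hlt
    have h3 := (hα.comp hR (𝟙 _) ((ρ_ T).inv ≫ (T ◁ i) ≫ (λ_ (T ⊗ Tᘁ)).inv))
    rw [Category.id_comp] at h3
    have h4 := h1 _ h3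
    have e1 : α = (α ≫ (ρ_ T).inv ≫ (T ◁ i) ≫ (λ_ (T ⊗ Tᘁ)).inv) ≫ (λ_ (T ⊗ Tᘁ)).hom ≫
        (T ◁ r) ≫ (ρ_ T).hom := by
      simp only [Category.assoc, Iso.inv_hom_id_assoc]
      rw [← MonoidalCategory.whiskerLeft_comp_assoc, hir]
      simp
    rw [e1, h4, zero_comp]

end Pool.Agent.N64.AF
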