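import Pool.Agent.N64.AF.X21

/-!
# Isomorphisms modulo homological equivalence, from one inequality
-/

set_option autoImplicit false

open CategoryTheory Limits MonoidalCategory Module Filter Topology Finset
open Pool.Agent.Y112.SR Pool.Agent.Y112.KD
open scoped ENNReal

namespace Pool.Agent.N64.AF

universe v u w t x

variable {C : Type u} [Category.{v} C] [Preadditive C] [MonoidalCategory C]
  [MonoidalPreadditive C] [SymmetricCategory C] [RightRigidCategory C]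
  {Λ : Type t} [Field Λ] [CharZero Λ] [Linear Λ C] [MonoidalLinear Λ C]
  {K : Type w} [Field K] [IsAlgClosed K] [Algebra Λ K] {R : SuperRealisation C K}

omit [MonoidalPreadditive C] [RightRigidCategory C] [IsAlgClosed K] [CharZero Λ]
  [MonoidalLinear Λ C] in
/-- Mutually inverse morphisms modulo homological equivalence are isomorphisms, if homologically
trivial endomorphisms are nilpotent. -/
lemma iso_of_hom {M M' : C}
    (hnil : ∀ f : End M, R.H.map (f : M ⟶ M) = 0 → IsNilpotent f)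
    (hnil' : ∀ f : End M', R.H.map (f : M' ⟶ M') = 0 → IsNilpotent f)
    (a : M ⟶ M') (c : M' ⟶ M) (h1 : R.H.map (a ≫ c) = 𝟙 _) (h2 : R.H.map (c ≫ a) = 𝟙 _) :
    ∃ y : End M, y ∈ Algebra.adjoin Λ {(show End M from a ≫ c)} ∧
      a ≫ (c ≫ (y : M ⟶ M)) = 𝟙 M ∧ (c ≫ (y : M ⟶ M)) ≫ a = 𝟙 M' := by
  let x : End M := a ≫ c
  have hx : R.H.map ((1 - x : End M) : M ⟶ M) = 0 := by
    change R.H.map (𝟙 M - a ≫ c) = 0
    rw [R.H.map_sub, h1, R.H.map_id, sub_self]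
  obtain ⟨k, hk⟩ := hnil _ hx
  let y : End M := ∑ i ∈ Finset.range k, (1 - x) ^ i
  have hy : y ∈ Algebra.adjoin Λ {x} := by
    refine sum_mem fun i _ => pow_mem (sub_mem (one_mem _) ?_) i
    exact Algebra.subset_adjoin rfl
  have h3 : y * x = 1 := by
    have h4 := geom_sum_mul_neg (1 - x) k
    rw [sub_sub_cancel, hk, sub_zero] at h4
    exact h4
  have h4 : (a ≫ c) ≫ (y : M ⟶ M) = 𝟙 M := h3
  refine ⟨y, hy, by rw [← Category.assoc, h4], ?_⟩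
  -- the complement is a homologically trivial idempotent
  have hHy : R.H.map (y : M ⟶ M) = 𝟙 _ := by
    have h5 := congrArg R.H.map h4
    rw [R.H.map_comp, h1, Category.id_comp, R.H.map_id] at h5
    exact h5
  let z : End M' := 𝟙 M' - (c ≫ (y : M ⟶ M)) ≫ a
  have hz : R.H.map (z : M' ⟶ M') = 0 := by
    change R.H.map (𝟙 M' - (c ≫ (y : M ⟶ M)) ≫ a) = 0
    rw [R.H.map_sub, R.H.map_comp, R.H.map_comp, hHy, Category.comp_id, ← R.H.map_comp, h2,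
      R.H.map_id, sub_self]
  obtain ⟨l, hl⟩ := hnil' _ hz
  have hidem : IsIdempotentElem z := by
    have h6 : ((c ≫ (y : M ⟶ M)) ≫ a) ≫ ((c ≫ (y : M ⟶ M)) ≫ a) = (c ≫ (y : M ⟶ M)) ≫ a := by
      simp only [Category.assoc]
      have h7 : a ≫ c ≫ (y : M ⟶ M) ≫ a = a := by
        rw [← Category.assoc a c, ← Category.assoc, h4, Category.id_comp]
      rw [h7]
    change (𝟙 M' - (c ≫ (y : M ⟶ M)) ≫ a) ≫ (𝟙 M' - (c ≫ (y : M ⟶ M)) ≫ a) =
      𝟙 M' - (c ≫ (y : M ⟶ M)) ≫ a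
    rw [Preadditive.sub_comp, Category.id_comp, Preadditive.comp_sub, Category.comp_id, h6,
      sub_self, sub_zero]
  have h8 : z = 0 := by
    have h9 := hidem.pow_succ_eq l
    rw [pow_succ, hl, zero_mul] at h9
    exact h9.symm
  have h10 : 𝟙 M' - (c ≫ (y : M ⟶ M)) ≫ a = 0 := h8
  exact (sub_eq_zero.1 h10).symm

/-- **Isomorphisms** from one inequality. -/
theorem iso_of_one (hR : IsReal Λ R) {M : C} {i₀ : 𝟙_ C ⟶ M ⊗ Mᘁ} {r₀ : M ⊗ Mᘁ ⟶ 𝟙_ C}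
    (h₀ : i₀ ≫ r₀ = 𝟙 (𝟙_ C)) (n : ℕ)
    (hlt : hsDim hR (M ⊗ Mᘁ) n <
      ((∑ ij ∈ antidiagonal n with 0 < ij.1,
        n.choose ij.1 * nr Λ (𝟙 (tp M ij.2)) (𝟙 (tp M ij.2)) : ℕ) : ℕ∞))
    (M' : C) (e : M ≅ M') (a : M ⟶ M') (c : M' ⟶ M) (h1 : R.H.map (a ≫ c) = 𝟙 _)
    (h2 : R.H.map (c ≫ a) = 𝟙 _) :
    ∃ y : End M, y ∈ Algebra.adjoin Λ {(show End M from a ≫ c)} ∧
      a ≫ (c ≫ (y : M ⟶ M)) = 𝟙 M ∧ (c ≫ (y : M ⟶ M)) ≫ a = 𝟙 M' :=
  iso_of_hom (phantom_free hR h₀ n hlt).1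
    (nil_factor e.inv e.hom e.inv_hom_id (phantom_free hR h₀ n hlt).1) a c h1 h2

end Pool.Agent.N64.AF
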