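import Pool.Agent.N64.AF.X2

/-!
# The law for the kernels of Abel-Jacobi maps
-/

set_option autoImplicit false

open CategoryTheory Limits MonoidalCategory Module Filter Topology
open Pool.Agent.Y112.SR Pool.Agent.Y112.KD
open Pool.Agent.Y116.MT (tr)
open scoped ENNReal

namespace Pool.Agent.N64.AF

universe v u w t x

/-- The formal properties of the kernels `J Z` of the Abel-Jacobi maps on the homologically trivial
elements of `CH(Z) = Hom(1, Z)`: these elements are homologically trivial; the subspaces are stable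
under correspondences; and homologically trivial correspondences map homologically trivial elements
to the kernel (because the Abel-Jacobi maps commute with correspondences, which act on their targets
through cohomology). -/
structure IsAJKernel {C : Type u} [Category.{v} C] [Preadditive C] [MonoidalCategory C]
    [SymmetricCategory C] {Λ : Type t} [Field Λ] [Linear Λ C] {K : Type w} [Field K]
    (R : SuperRealisation C K) (J : ∀ Z : C, Submodule Λ (𝟙_ C ⟶ Z)) : Prop where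
  hom : ∀ {Z : C} (α : 𝟙_ C ⟶ Z), α ∈ J Z → R.H.map α = 0
  stable : ∀ {Y Z : C} (f : Y ⟶ Z) (α : 𝟙_ C ⟶ Y), α ∈ J Y → α ≫ f ∈ J Z
  kills : ∀ {Y Z : C} (f : Y ⟶ Z) (α : 𝟙_ C ⟶ Y), R.H.map α = 0 → R.H.map f = 0 → α ≫ f ∈ J Z

variable {C : Type u} [Category.{v} C] [Preadditive C] [MonoidalCategory C]
  [MonoidalPreadditive C] [SymmetricCategory C] [RightRigidCategory C]

section

variable {Λ : Type t} [Field Λ] [CharZero Λ] [Linear Λ C] [MonoidalLinear Λ C]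
  {K : Type w} [Field K] [IsAlgClosed K] [Algebra Λ K] {R : SuperRealisation C K}

/-- The composition of two homologically trivial and `k` numerically trivial morphisms between the
powers of `T`. -/
def HP (R : SuperRealisation C K) (T : C) (k : ℕ) {Y Z : C} (f : Y ⟶ Z) : Prop :=
  ∃ (b c : ℕ) (f₁ : Y ⟶ tp T b) (f₂ : tp T b ⟶ tp T c) (g : tp T c ⟶ Z),
    R.H.map f₁ = 0 ∧ R.H.map f₂ = 0 ∧ NumPow T k g ∧ f = f₁ ≫ f₂ ≫ g

omit [MonoidalPreadditive C] [RightRigidCategory C] [IsAlgClosed K] in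
lemma map_whisker_zero (R : SuperRealisation C K) {Y Z : C} {f : Y ⟶ Z} (hf : R.H.map f = 0)
    (T : C) : R.H.map (f ▷ T) = 0 := by
  rw [Functor.Monoidal.map_whiskerRight, hf]
  simp

lemma HP_vanish (hR : IsReal Λ R) {T : C} [ExactPairing T T] {k : ℕ}
    (h0 : ∀ (b : ℕ) (f : tp T 0 ⟶ tp T b), HP R T k f → f = 0) (a : ℕ) :
    ∀ (b : ℕ) (f : tp T a ⟶ tp T b), HP R T k f → f = 0 := by
  induction a with
  | zero => exact h0
  | succ a ih =>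
    rintro b f ⟨b₁, c₁, f₁, f₂, g, h1, h2, h3, rfl⟩
    have h4 : Pool.Agent.N645.AFK1.cur Λ T (tp T a) (tp T b) (f₁ ≫ f₂ ≫ g) = 0 := by
      apply ih (b + 1)
      rw [Pool.Agent.N645.AFK1.cur_eq]
      refine ⟨b₁ + 1, c₁ + 1, ((ρ_ _).inv ≫ (_ ◁ η_ _ _) ≫ (α_ _ _ _).inv) ≫ f₁ ▷ T, f₂ ▷ T,
        g ▷ T, ?_, map_whisker_zero R h2 T, Pool.Agent.N645.AFK1.numPow_whisker hR k h3, ?_⟩
      · rw [R.H.map_comp, map_whisker_zero R h1 T, comp_zero]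
      · simp only [comp_whiskerRight, Category.assoc]
    exact (LinearEquiv.map_eq_zero_iff _).1 h4

/-- The kernel of the Abel-Jacobi map, as a family of subspaces. -/
def kerS (Λ : Type t) [Field Λ] [Linear Λ C] (J : ∀ Z : C, Submodule Λ (𝟙_ C ⟶ Z)) :
    ∀ Z, Submodule Λ ((homF Λ (𝟙_ C)).obj Z) := fun Z => J Z

/-- The law for the kernels of Abel-Jacobi maps. -/
theorem aj_law_gen {T : C} [ExactPairing T T] (h : IsPow Λ R T)
    (J : ∀ Z : C, Submodule Λ (𝟙_ C ⟶ Z)) (hJ : IsAJKernel R J) : ∃ N : ℕ∞,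
    RatioTo Λ T (fun n => dimE Λ (J (tp T n))) N ∧
    (N = 0 ↔ ∀ n, J (tp T n) = ⊥) ∧
    (∀ m n : ℕ, 128 * (m + 1) ^ 2 * bt R T ^ (2 * m + 6) ≤ n →
      2 * dimE Λ (J (tp T n)) < numRank Λ (tp T n) → J (tp T m) = ⊥) ∧
    (∀ k : ℕ, N = k → (∀ n, Module.Finite Λ (J (tp T n))) ∧
      ∀ (a b c d : ℕ) (f₁ : tp T a ⟶ tp T b) (f₂ : tp T b ⟶ tp T c) (g : tp T c ⟶ tp T d),
        R.H.map f₁ = 0 → R.H.map f₂ = 0 → NumPow T k g → f₁ ≫ f₂ ≫ g = 0) ∧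
    ∀ (m : ℕ) (P : C) (i : P ⟶ tp T m) (p : tp T m ⟶ P), i ≫ p = 𝟙 P → NumSimple P →
      (bt R P : ℕ∞) * dimE Λ (J P) ≤ nr Λ (𝟙 P) (𝟙 P) * N ∧
      (J P ≠ ⊥ → (bt R P : ℕ∞) ≤ N ∧ ∀ n : ℕ, m * bt R T ^ (3 * m) ≤ n →
          ((nr Λ (𝟙 P) (𝟙 (tp T n)) : ℕ) : ℕ∞) ≤ dimE Λ (J (tp T n))) := by
  have hR := h.real
  have hst : IsStab (homF Λ (𝟙_ C)) (kerS Λ J) := fun Y Z f α hα => hJ.stable f α hα
  obtain ⟨N, h1, h2, h3⟩ := simple_law h (sub (homF Λ (𝟙_ C)) (kerS Λ J) hst)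
  refine ⟨N, h1, h2.trans ?_, fun m n hn hlt => ?_, fun k hk => ?_, fun m P i p hip hP => ?_⟩
  · exact forall_congr' fun n => (Submodule.subsingleton_iff_eq_bot (p := J (tp T n)))
  · obtain ⟨h4, h5⟩ := dimE_lt hlt
    exact (Submodule.subsingleton_iff_eq_bot (p := J (tp T m))).1
      (explicit_criterion h (sub (homF Λ (𝟙_ C)) (kerS Λ J) hst) hn h4 h5)
  · have h1' : Tendsto (fun n => ((dimE Λ ((sub (homF Λ (𝟙_ C)) (kerS Λ J) hst).obj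
        (tp T n)) : ℕ∞) : ℝ≥0∞) / numRank Λ (tp T n)) atTop (𝓝 ((k : ℕ) : ℝ≥0∞)) := by
      have := h1
      rw [hk] at this
      exact this
    obtain ⟨hfin, -⟩ := isFin_of_lim h (sub (homF Λ (𝟙_ C)) (kerS Λ J) hst) h1'
    obtain ⟨-, h4⟩ := structure_thm h (sub (homF Λ (𝟙_ C)) (kerS Λ J) hst) h1'
    refine ⟨fun n => hfin.fin n, fun a b c d f₁ f₂ g hf₁ hf₂ hg => ?_⟩
    refine HP_vanish (R := R) (k := k) hR ?_ a d _ ⟨b, c, f₁, f₂, g, hf₁, hf₂, hg, rfl⟩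
    rintro b' f ⟨b₁, c₁, u₁, u₂, v, e1, e2, e3, rfl⟩
    have h5 := h4 c₁ b' v e3
    have hmem : u₁ ≫ u₂ ∈ J (tp T c₁) := hJ.kills u₂ u₁ e1 e2
    have h6 := congrArg (fun q : (sub (homF Λ (𝟙_ C)) (kerS Λ J) hst).obj (tp T c₁) ⟶
      (sub (homF Λ (𝟙_ C)) (kerS Λ J) hst).obj (tp T b') => q.hom ⟨u₁ ≫ u₂, hmem⟩) h5
    have h7 : (u₁ ≫ u₂) ≫ v = 0 := congrArg Subtype.val h6
    rwa [Category.assoc] at h7
  · obtain ⟨h4, h5⟩ := h3 m P i p hip hP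
    refine ⟨h4, fun hne => ?_⟩
    have hne' : ¬ Subsingleton ((sub (homF Λ (𝟙_ C)) (kerS Λ J) hst).obj P) := fun hs =>
      hne ((Submodule.subsingleton_iff_eq_bot (p := J P)).1 hs)
    exact ⟨h5 hne', fun n hn =>
      simple_lower h (sub (homF Λ (𝟙_ C)) (kerS Λ J) hst) i p hip hP hne' hn⟩

end

/-- The law for the kernels of Abel-Jacobi maps, rational coefficients. -/
theorem aj_law [Linear ℚ C] [MonoidalLinear ℚ C] [IsIdempotentComplete C]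
    {K : Type w} [Field K] [IsAlgClosed K] [Algebra ℚ K] {R : SuperRealisation C K}
    {T : C} [ExactPairing T T] (h : IsPow ℚ R T)
    (J : ∀ Z : C, Submodule ℚ (𝟙_ C ⟶ Z)) (hJ : IsAJKernel R J) : ∃ N : ℕ∞,
    RatioTo ℚ T (fun n => dimE ℚ (J (tp T n))) N ∧
    (N = 0 ↔ ∀ n, J (tp T n) = ⊥) ∧
    (∀ m n : ℕ, 128 * (m + 1) ^ 2 * bt R T ^ (2 * m + 6) ≤ n →
      2 * dimE ℚ (J (tp T n)) < numRank ℚ (tp T n) → J (tp T m) = ⊥) ∧
    (∀ k : ℕ, N = k → (∀ n, Module.Finite ℚ (J (tp T n))) ∧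
      (∀ (a b c d : ℕ) (f₁ : tp T a ⟶ tp T b) (f₂ : tp T b ⟶ tp T c) (g : tp T c ⟶ tp T d),
        R.H.map f₁ = 0 → R.H.map f₂ = 0 → NumPow T k g → f₁ ≫ f₂ ≫ g = 0) ∧
      Pool.Agent.R905.IsKimuraFinite T) ∧
    ∀ (m : ℕ) (P : C) (i : P ⟶ tp T m) (p : tp T m ⟶ P), i ≫ p = 𝟙 P → NumSimple P →
      (bt R P : ℕ∞) * dimE ℚ (J P) ≤ nr ℚ (𝟙 P) (𝟙 P) * N ∧
      (J P ≠ ⊥ → (bt R P : ℕ∞) ≤ N ∧ ∀ n : ℕ, m * bt R T ^ (3 * m) ≤ n →
          ((nr ℚ (𝟙 P) (𝟙 (tp T n)) : ℕ) : ℕ∞) ≤ dimE ℚ (J (tp T n))) := by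
  obtain ⟨N, h1, h2, h3, h4, h5⟩ := aj_law_gen h J hJ
  refine ⟨N, h1, h2, h3, fun k hk => ?_, h5⟩
  obtain ⟨h6, h7⟩ := h4 k hk
  refine ⟨h6, h7, kimura_of_nil h.real h.cplus fun n y hy => ⟨2 + k, ?_⟩⟩
  have h8 := h7 n n n n (y : tp T n ⟶ tp T n) (y : tp T n ⟶ tp T n) _ hy hy
    (numPow_pow y (numTriv_of_map h.real hy) k)
  have h9 : (y ^ (2 + k) : End (tp T n)) =
      (y : tp T n ⟶ tp T n) ≫ (y : tp T n ⟶ tp T n) ≫
        ((y ^ k : End (tp T n)) : tp T n ⟶ tp T n) := by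
    rw [add_comm, pow_add, pow_two, ← mul_assoc]
    rfl
  rw [h9]
  exact h8

end Pool.Agent.N64.AF
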