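import Pool.Agent.N64.AF.X2

/-!
# Numerically trivial endomorphisms of a direct factor and the size of one power
-/

set_option autoImplicit false

open CategoryTheory Limits MonoidalCategory Module Filter Topology
open Pool.Agent.Y112.SR Pool.Agent.Y112.KD
open Pool.Agent.Y116.MT (tr)
open scoped ENNReal

namespace Pool.Agent.N64.AF

universe v u w t x

variable {C : Type u} [Category.{v} C] [Preadditive C] [MonoidalCategory C]
  [MonoidalPreadditive C] [SymmetricCategory C] [RightRigidCategory C]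
  {Λ : Type t} [Field Λ] [CharZero Λ] [Linear Λ C] [MonoidalLinear Λ C]
  {K : Type w} [Field K] [IsAlgClosed K] [Algebra Λ K] {R : SuperRealisation C K}

omit [CharZero Λ] [IsAlgClosed K] in
lemma numPow_prod [CharZero Λ] (hR : IsReal Λ R) {T P : C} {m : ℕ} (i : P ⟶ tp T m)
    (p : tp T m ⟶ P) (hip : i ≫ p = 𝟙 P) (l : List (End P))
    (hl : ∀ y ∈ l, NumTriv (y : P ⟶ P)) :
    NumPow T l.length (p ≫ (l.prod : End P) ≫ i : tp T m ⟶ tp T m) := by
  induction l with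
  | nil => trivial
  | cons a l ih =>
    refine ⟨m, p ≫ (l.prod : End P) ≫ i, p ≫ (a : P ⟶ P) ≫ i,
      ih fun y hy => hl y (List.mem_cons_of_mem _ hy),
      NumTriv.comp hR (hl a List.mem_cons_self) p i, ?_⟩
    rw [List.prod_cons, End.mul_def]
    simp only [Category.assoc]
    rw [reassoc_of% hip]

/-- The numerically trivial endomorphisms of a direct factor `P` of a power of `T` are zero, if one
power of `T` has few numerically trivial morphisms from `P`. -/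
theorem endo_law {T : C} [ExactPairing T T] (h : IsPow Λ R T) {m : ℕ} {P : C} (i : P ⟶ tp T m)
    (p : tp T m ⟶ P) (hip : i ≫ p = 𝟙 P) : ∃ N : ℕ∞,
    RatioTo Λ T (fun n => dimE Λ (numIdeal Λ P (tp T n))) N ∧
    (N = 0 ↔ ∀ (n : ℕ) (f : P ⟶ tp T n), NumTriv f → f = 0) ∧
    (∀ n : ℕ, 128 * (m + 1) ^ 2 * bt R T ^ (2 * m + 6) ≤ n →
      2 * dimE Λ (numIdeal Λ P (tp T n)) < numRank Λ (tp T n) →
        ∀ f : P ⟶ P, NumTriv f → f = 0) ∧
    (∀ k : ℕ, N = k → ∀ l : List (End P), l.length = k → (∀ y ∈ l, NumTriv (y : P ⟶ P)) →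
      ∀ f : P ⟶ P, NumTriv f → f ≫ (l.prod : End P) = 0) ∧
    (NumSimple P →
      RatioTo Λ T (fun n => ((nr Λ (𝟙 P) (𝟙 (tp T n)) : ℕ) : ℕ∞)) (bt R P : ℕ∞) ∧
      (bt R P : ℕ∞) * dimE Λ (numIdeal Λ P P) ≤ nr Λ (𝟙 P) (𝟙 P) * N ∧
      ∀ n : ℕ, m * bt R T ^ (3 * m) ≤ n →
        dimE Λ (numIdeal Λ P (tp T n)) < (nr Λ (𝟙 P) (𝟙 (tp T n)) : ℕ) →
          ∀ f : P ⟶ P, NumTriv f → f = 0) := by
  obtain ⟨N, h1, h2, h3, h4⟩ := cycles_law h P
  refine ⟨N, h1, h2, fun n hn hlt f hf => ?_, fun k hk l hl hl' f hf => ?_, fun hP => ?_⟩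
  · have hst := numIdeal_stab (R := R) h.real P
    obtain ⟨h5, h6⟩ := dimE_lt hlt
    have h7 : Subsingleton ((sub (homF Λ P) (numS Λ P) hst).obj (tp T m)) :=
      explicit_criterion h (sub (homF Λ P) (numS Λ P) hst) hn h5 h6
    have h8 : NumTriv (f ≫ i) := by
      have := NumTriv.comp h.real hf (𝟙 P) i
      rwa [Category.id_comp] at this
    have h9 : (⟨f ≫ i, h8⟩ : numIdeal Λ P (tp T m)) = 0 :=
      @Subsingleton.elim ((sub (homF Λ P) (numS Λ P) hst).obj (tp T m)) h7 ⟨f ≫ i, h8⟩ 0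
    have h10 : f ≫ i = 0 := congrArg Subtype.val h9
    have h11 : f = (f ≫ i) ≫ p := by rw [Category.assoc, hip, Category.comp_id]
    rw [h11, h10, zero_comp]
  · obtain ⟨-, h5⟩ := h3 k hk
    have h6 := numPow_prod (R := R) h.real i p hip l hl'
    rw [hl] at h6
    have h8 : NumTriv (f ≫ i) := by
      have := NumTriv.comp h.real hf (𝟙 P) i
      rwa [Category.id_comp] at this
    have h7 := h5 m m _ h6 (f ≫ i) h8
    have h9 : f ≫ (l.prod : End P) = ((f ≫ i) ≫ (p ≫ (l.prod : End P) ≫ i)) ≫ p := by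
      simp only [Category.assoc]
      rw [hip, Category.comp_id, reassoc_of% hip]
    rw [h9, h7, zero_comp]
  · obtain ⟨h5, h6, h7⟩ := h4 m P i p hip hP
    refine ⟨h5, h6, fun n hn hlt f hf => ?_⟩
    by_contra hf0
    exact absurd ((h7 ⟨f, hf, hf0⟩).2 n hn) (not_le.2 hlt)

end Pool.Agent.N64.AF
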