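import Pool.Agent.N64.AF.X2

/-!
# Natural transformations and simple direct summands of the powers
-/

set_option autoImplicit false

open CategoryTheory Limits MonoidalCategory Module Filter Topology
open Pool.Agent.Y112.SR Pool.Agent.Y112.KD
open scoped ENNReal

namespace Pool.Agent.N64.AF

universe v u w t x

variable {C : Type u} [Category.{v} C] [Preadditive C] [MonoidalCategory C]
  [MonoidalPreadditive C] [SymmetricCategory C] [RightRigidCategory C]
  {Λ : Type t} [Field Λ] [CharZero Λ] [Linear Λ C] [MonoidalLinear Λ C]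
  {K : Type w} [Field K] [IsAlgClosed K] [Algebra Λ K] {R : SuperRealisation C K}

/-- The kernel and the cokernel of a natural transformation between two additive functors, at the
powers of `T` and at the simple direct summands of the powers. -/
theorem natural_simple {T : C} [ExactPairing T T] (h : IsPow Λ R T) (F G : C ⥤ ModuleCat.{x} Λ)
    [F.Additive] [F.Linear Λ] [G.Additive] [G.Linear Λ] (φ : F ⟶ G) : ∃ N₁ N₂ : ℕ∞,
      RatioTo Λ T (fun n => kerDim φ (tp T n)) N₁ ∧
      RatioTo Λ T (fun n => cokerDim φ (tp T n)) N₂ ∧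
      (N₁ = 0 ↔ ∀ n, Function.Injective (φ.app (tp T n)).hom) ∧
      (N₂ = 0 ↔ ∀ n, Function.Surjective (φ.app (tp T n)).hom) ∧
      ∀ (m : ℕ) (P : C) (i : P ⟶ tp T m) (p : tp T m ⟶ P), i ≫ p = 𝟙 P → NumSimple P →
        RatioTo Λ T (fun n => ((nr Λ (𝟙 P) (𝟙 (tp T n)) : ℕ) : ℕ∞)) (bt R P : ℕ∞) ∧
        (bt R P : ℕ∞) * kerDim φ P ≤ nr Λ (𝟙 P) (𝟙 P) * N₁ ∧
        (bt R P : ℕ∞) * cokerDim φ P ≤ nr Λ (𝟙 P) (𝟙 P) * N₂ ∧
        (N₁ < bt R P → Function.Injective (φ.app P).hom) ∧
        (N₂ < bt R P → Function.Surjective (φ.app P).hom) ∧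
        ∀ n : ℕ, m * bt R T ^ (3 * m) ≤ n →
          (kerDim φ (tp T n) < ((nr Λ (𝟙 P) (𝟙 (tp T n)) : ℕ) : ℕ∞) →
            Function.Injective (φ.app P).hom) ∧
          (cokerDim φ (tp T n) < ((nr Λ (𝟙 P) (𝟙 (tp T n)) : ℕ) : ℕ∞) →
            Function.Surjective (φ.app P).hom) := by
  have hinj : ∀ Z : C, (Subsingleton ((sub F _ (ker_stab φ)).obj Z) ↔
      Function.Injective (φ.app Z).hom) := by
    intro Z
    rw [← LinearMap.ker_eq_bot]
    exact Submodule.subsingleton_iff_eq_bot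
  have hsur : ∀ Z : C, (Subsingleton ((quoS G _ (range_stab φ)).obj Z) ↔
      Function.Surjective (φ.app Z).hom) := by
    intro Z
    rw [← LinearMap.range_eq_top]
    exact Submodule.Quotient.subsingleton_iff
  obtain ⟨N₁, a1, a2, a3⟩ := simple_law h (sub F _ (ker_stab φ))
  obtain ⟨N₂, b1, b2, b3⟩ := simple_law h (quoS G _ (range_stab φ))
  refine ⟨N₁, N₂, a1, b1, a2.trans (forall_congr' fun n => hinj _),
    b2.trans (forall_congr' fun n => hsur _), fun m P i p hip hP => ?_⟩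
  obtain ⟨a4, a5⟩ := a3 m P i p hip hP
  obtain ⟨b4, b5⟩ := b3 m P i p hip hP
  refine ⟨simple_ratio h i p hip, a4, b4, fun hN => ?_, fun hN => ?_, fun n hn => ⟨fun h1 => ?_,
    fun h1 => ?_⟩⟩
  · by_contra hc
    exact absurd hN (not_lt.2 (a5 fun hs => hc ((hinj P).1 hs)))
  · by_contra hc
    exact absurd hN (not_lt.2 (b5 fun hs => hc ((hsur P).1 hs)))
  · by_contra hc
    exact absurd h1 (not_lt.2 (simple_lower h (sub F _ (ker_stab φ)) i p hip hP
      (fun hs => hc ((hinj P).1 hs)) hn))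
  · by_contra hc
    exact absurd h1 (not_lt.2 (simple_lower h (quoS G _ (range_stab φ)) i p hip hP
      (fun hs => hc ((hsur P).1 hs)) hn))

end Pool.Agent.N64.AF
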