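import Mathlib

/-!
# Lifting of systems of idempotents which are compatible with an anti-involution
-/

set_option autoImplicit false

namespace Pool.Agent.N64.AF

open Polynomial

section

variable {Λ : Type*} [Field Λ] [CharZero Λ] {A : Type*} [Ring A] [Algebra Λ A]

omit [CharZero Λ] in
lemma adjoin_comm {n x y : A} (hx : x ∈ Algebra.adjoin Λ {n}) (hy : y ∈ Algebra.adjoin Λ {n}) :
    x * y = y * x := by
  have h1 : IsMulCommutative (Algebra.adjoin Λ {n}) :=
    Algebra.isMulCommutative_adjoin Λ (by rintro _ rfl _ rfl; rfl)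
  have h2 := h1.is_comm.comm (⟨x, hx⟩ : Algebra.adjoin Λ {n}) ⟨y, hy⟩
  exact congrArg Subtype.val h2

/-- The square root of a unipotent element, commutative case. -/
lemma exists_sqrt_comm {S : Type*} [CommRing S] (h2 : IsUnit (2 : S)) {n : S}
    (hn : IsNilpotent n) : ∃ v g : S, v = 1 + n * g ∧ v * v = 1 + n := by
  let P : S[X] := X ^ 2 - C (1 + n)
  have h3 : aeval (1 : S) P = -n := by
    simp [P]
  have h4 : aeval (1 : S) (derivative P) = 2 := by
    simp [P, one_add_one_eq_two]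
  obtain ⟨r, ⟨hr1, hr2⟩, -⟩ := Polynomial.existsUnique_nilpotent_sub_and_aeval_eq_zero
    (P := P) (x := (1 : S)) (by rw [h3]; exact hn.neg) (by rw [h4]; exact h2)
  have hr3 : r ^ 2 = 1 + n := by
    have : r ^ 2 - (1 + n) = 0 := by simpa [P] using hr2
    exact sub_eq_zero.1 this
  have hu : IsUnit (r + 1) := by
    have h5 : r + 1 = -(1 - r) + 2 := by ring
    rw [h5]
    exact IsNilpotent.isUnit_add_right_of_commute hr1.neg h2 (mul_comm _ _)
  obtain ⟨u, hu⟩ := hu
  refine ⟨r, (u⁻¹ : Sˣ).val, ?_, by rw [← pow_two, hr3]⟩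
  have h7 : n = (r - 1) * u := by
    rw [hu]
    have : n = r ^ 2 - 1 := by rw [hr3]; ring
    rw [this]; ring
  rw [h7, mul_assoc, Units.mul_inv, mul_one]
  ring

/-- The square root of a unipotent element. -/
lemma exists_sqrt {n : A} (hn : IsNilpotent n) : ∃ v ∈ Algebra.adjoin Λ {n},
    ∃ g ∈ Algebra.adjoin Λ {n}, v = 1 + n * g ∧ v * v = 1 + n := by
  let n' : Algebra.adjoin Λ {n} := ⟨n, Algebra.subset_adjoin rfl⟩
  have hn' : IsNilpotent n' := by
    obtain ⟨k, hk⟩ := hn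
    exact ⟨k, Subtype.ext hk⟩
  have h2 : IsUnit (2 : Algebra.adjoin Λ {n}) := by
    have h3 : IsUnit (algebraMap Λ (Algebra.adjoin Λ {n}) 2) :=
      (IsUnit.mk0 (2 : Λ) two_ne_zero).map _
    rwa [map_ofNat] at h3
  let inst : CommRing (Algebra.adjoin Λ {n}) :=
    { (inferInstance : Ring (Algebra.adjoin Λ {n})) with
      mul_comm := fun x y => Subtype.ext (adjoin_comm x.2 y.2) }
  obtain ⟨v, g, h3, h4⟩ := @exists_sqrt_comm _ inst h2 n' hn'
  exact ⟨v.1, v.2, g.1, g.2, congrArg Subtype.val h3, congrArg Subtype.val h4⟩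

variable (τ : A →ₗ[Λ] A)

/-- `τ` is an anti-involution. -/
structure IsAntiInvolution : Prop where
  mul : ∀ a b, τ (a * b) = τ b * τ a
  inv : ∀ a, τ (τ a) = a

variable {τ}

omit [CharZero Λ] in
lemma IsAntiInvolution.one (h : IsAntiInvolution τ) : τ 1 = 1 := by
  have h1 := h.mul (τ 1) 1
  rw [mul_one, h.inv, mul_one] at h1
  exact h1.symm

lemma IsAntiInvolution.fix (h : IsAntiInvolution τ) {n : A} (hn : τ n = n) {v : A}
    (hv : v ∈ Algebra.adjoin Λ {n}) : τ v = v := by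
  induction hv using Algebra.adjoin_induction with
  | mem x hx => rw [Set.mem_singleton_iff.1 hx, hn]
  | algebraMap r => rw [Algebra.algebraMap_eq_smul_one, map_smul, h.one]
  | add x y _ _ hx hy => rw [map_add, hx, hy]
  | mul x y hx' hy' hx hy => rw [h.mul, hx, hy, adjoin_comm hy' hx']

omit [CharZero Λ] in
lemma commute_adjoin {n a : A} (hn : n * a = a * n) {v : A} (hv : v ∈ Algebra.adjoin Λ {n}) :
    v * a = a * v := by
  induction hv using Algebra.adjoin_induction with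
  | mem x hx => rw [Set.mem_singleton_iff.1 hx, hn]
  | algebraMap r => exact Algebra.commutes r a
  | add x y _ _ hx hy => rw [add_mul, mul_add, hx, hy]
  | mul x y _ _ hx hy => rw [mul_assoc, hy, ← mul_assoc, hx, mul_assoc]

variable {B : Type*} [Ring B] (φ : A →+* B) {ι : Type*} [Fintype ι]

lemma isUnit_of {x : A} (hnil : ∀ x, φ x = 0 → IsNilpotent x) (hx : φ x = 1) : IsUnit x := by
  have h1 : IsNilpotent (x - 1) := hnil _ (by rw [map_sub, hx, map_one, sub_self])
  have h2 := h1.isUnit_add_one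
  rwa [sub_add_cancel] at h2

lemma inv_one {x y : A} (hx : φ x = 1) (h : x * y = 1) : φ y = 1 := by
  have := congrArg φ h
  rwa [map_mul, hx, one_mul, map_one] at this

section

variable {π π' : ι → A}

/-- The comparison of two systems. -/
lemma comp_left (h : CompleteOrthogonalIdempotents π) (i : ι) :
    (∑ j, π' j * π j) * π i = π' i * π i := by
  rw [Finset.sum_mul, Finset.sum_eq_single i]
  · rw [mul_assoc, (h.idem i).eq]
  · intro j _ hj
    rw [mul_assoc, h.ortho hj, mul_zero]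
  · intro hi
    exact absurd (Finset.mem_univ i) hi

lemma comp_right (h : CompleteOrthogonalIdempotents π') (i : ι) :
    π' i * (∑ j, π' j * π j) = π' i * π i := by
  rw [Finset.mul_sum, Finset.sum_eq_single i]
  · rw [← mul_assoc, (h.idem i).eq]
  · intro j _ hj
    rw [← mul_assoc, h.ortho hj.symm, zero_mul]
  · intro hi
    exact absurd (Finset.mem_univ i) hi

lemma comp_one (h : CompleteOrthogonalIdempotents π) (hφ : ∀ i, φ (π' i) = φ (π i)) :
    φ (∑ j, π' j * π j) = 1 := by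
  have h1 : φ (∑ j, π' j * π j) = φ (∑ j, π j) := by
    rw [map_sum, map_sum]
    refine Finset.sum_congr rfl fun j _ => ?_
    rw [map_mul, hφ, ← map_mul, (h.idem j).eq]
  rw [h1, h.complete, map_one]

end

/-- Systems of idempotents modulo a nil ideal, compatible with an anti-involution, lift to compatible
systems. -/
theorem exists_selfdual (hnil : ∀ x, φ x = 0 → IsNilpotent x) (h : IsAntiInvolution τ)
    (hτφ : ∀ x, φ x = 0 → φ (τ x) = 0) (s : ι → ι) (hs : ∀ i, s (s i) = i) (p : ι → A)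
    (hp : CompleteOrthogonalIdempotents (φ ∘ p)) (hps : ∀ i, φ (τ (p i)) = φ (p (s i))) :
    ∃ π : ι → A, CompleteOrthogonalIdempotents π ∧ (∀ i, φ (π i) = φ (p i)) ∧
      ∀ i, τ (π i) = π (s i) := by
  obtain ⟨e, he, hφe⟩ := CompleteOrthogonalIdempotents.lift_of_isNilpotent_ker φ
    (fun x hx => hnil x hx) hp (fun i => ⟨p i, rfl⟩)
  have hφe' : ∀ i, φ (e i) = φ (p i) := fun i => congrFun hφe i
  have hτ' : ∀ x y : A, φ x = φ y → φ (τ x) = φ (τ y) := by
    intro x y hxy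
    have := hτφ (x - y) (by rw [map_sub, hxy, sub_self])
    rwa [map_sub, map_sub, sub_eq_zero] at this
  let f : ι → A := fun i => τ (e (s i))
  have hinj : Function.Injective s := fun i j hij => by rw [← hs i, hij, hs]
  have hf : CompleteOrthogonalIdempotents f := by
    refine ⟨⟨fun i => ?_, fun i j hij => ?_⟩, ?_⟩
    · change τ (e (s i)) * τ (e (s i)) = τ (e (s i))
      rw [← h.mul, (he.idem _).eq]
    · change τ (e (s i)) * τ (e (s j)) = 0
      rw [← h.mul, he.ortho (fun hh => hij (hinj hh.symm)), map_zero]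
    · change ∑ i, τ (e (s i)) = 1
      rw [← map_sum]
      have h1 : ∑ i, e (s i) = ∑ i, e i :=
        (Equiv.sum_comp (⟨s, s, hs, hs⟩ : ι ≃ ι) e)
      rw [h1, he.complete, h.one]
  have hφf : ∀ i, φ (f i) = φ (e i) := by
    intro i
    change φ (τ (e (s i))) = φ (e i)
    rw [hτ' _ _ (hφe' (s i)), hps, hs, hφe']
  set u : A := ∑ j, f j * e j with hu
  have hφu : φ u = 1 := comp_one φ he hφf
  have hunil : IsNilpotent (u - 1) := hnil _ (by rw [map_sub, hφu, map_one, sub_self])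
  have hτu : τ u = u := by
    rw [hu, map_sum]
    have h1 : ∀ j, τ (f j * e j) = f (s j) * e (s j) := by
      intro j
      rw [h.mul]
      change τ (e j) * τ (τ (e (s j))) = τ (e (s (s j))) * e (s j)
      rw [h.inv, hs]
    rw [Finset.sum_congr rfl fun j _ => h1 j]
    exact (Equiv.sum_comp (⟨s, s, hs, hs⟩ : ι ≃ ι) fun j => f j * e j)
  obtain ⟨v, hv, g, hg, hvg, hvv⟩ := exists_sqrt (Λ := Λ) hunil
  have hτn : τ (u - 1) = u - 1 := by rw [map_sub, hτu, h.one]
  have hτv : τ v = v := h.fix hτn hv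
  have hvv' : v * v = u := by rw [hvv]; abel
  have hφv : φ v = 1 := by
    rw [hvg, map_add, map_mul, map_sub, hφu, map_one, sub_self, zero_mul, add_zero]
  obtain ⟨V, hV⟩ := isUnit_of φ hnil hφv
  have hVτ : τ (V⁻¹ : Aˣ).val = (V⁻¹ : Aˣ).val := by
    have h1 : v * τ (V⁻¹ : Aˣ).val = 1 := by
      have := h.mul (V⁻¹ : Aˣ).val V
      rw [Units.inv_mul, h.one, hV, hτv] at this
      exact this.symm
    calc τ (V⁻¹ : Aˣ).val = (V⁻¹ : Aˣ).val * (v * τ (V⁻¹ : Aˣ).val) := by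
          rw [← hV, ← mul_assoc, Units.inv_mul, one_mul]
      _ = (V⁻¹ : Aˣ).val := by rw [h1, mul_one]
  have hφV : φ (V⁻¹ : Aˣ).val = 1 := by
    refine inv_one φ (x := v) hφv ?_
    rw [← hV, Units.mul_inv]
  refine ⟨fun i => V * e i * (V⁻¹ : Aˣ).val, ⟨⟨fun i => ?_, fun i j hij => ?_⟩, ?_⟩, fun i => ?_,
    fun i => ?_⟩
  · change V * e i * (V⁻¹ : Aˣ).val * (V * e i * (V⁻¹ : Aˣ).val) = V * e i * (V⁻¹ : Aˣ).val
    calc V * e i * (V⁻¹ : Aˣ).val * (V * e i * (V⁻¹ : Aˣ).val) =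
        V * e i * ((V⁻¹ : Aˣ).val * V) * e i * (V⁻¹ : Aˣ).val := by simp only [mul_assoc]
      _ = V * (e i * e i) * (V⁻¹ : Aˣ).val := by rw [Units.inv_mul, mul_one]; simp only [mul_assoc]
      _ = _ := by rw [(he.idem i).eq]
  · change V * e i * (V⁻¹ : Aˣ).val * (V * e j * (V⁻¹ : Aˣ).val) = 0
    calc V * e i * (V⁻¹ : Aˣ).val * (V * e j * (V⁻¹ : Aˣ).val) =
        V * e i * ((V⁻¹ : Aˣ).val * V) * e j * (V⁻¹ : Aˣ).val := by simp only [mul_assoc]
      _ = V * (e i * e j) * (V⁻¹ : Aˣ).val := by rw [Units.inv_mul, mul_one]; simp only [mul_assoc]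
      _ = 0 := by rw [he.ortho hij, mul_zero, zero_mul]
  · change ∑ i, V * e i * (V⁻¹ : Aˣ).val = 1
    rw [← Finset.sum_mul, ← Finset.mul_sum, he.complete, mul_one, Units.mul_inv]
  · change φ (V * e i * (V⁻¹ : Aˣ).val) = φ (p i)
    rw [map_mul, map_mul, hφV, hV, hφv, one_mul, mul_one, hφe']
  · change τ (V * e i * (V⁻¹ : Aˣ).val) = V * e (s i) * (V⁻¹ : Aˣ).val
    rw [h.mul, h.mul, hVτ, hV, hτv]
    have h1 : τ (e i) = f (s i) := by
      change _ = τ (e (s (s i)))
      rw [hs]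
    have h2 : f (s i) * u = u * e (s i) := by
      rw [hu, comp_right hf, comp_left he]
    rw [h1]
    have h3 : (V⁻¹ : Aˣ).val * (f (s i) * v) = v * e (s i) * (V⁻¹ : Aˣ).val := by
      have h4 : f (s i) * v * v = v * v * e (s i) := by rw [mul_assoc, hvv', h2]
      calc (V⁻¹ : Aˣ).val * (f (s i) * v) = (V⁻¹ : Aˣ).val * (f (s i) * v * v) * (V⁻¹ : Aˣ).val := by
            rw [← hV]
            simp only [mul_assoc, Units.mul_inv, mul_one]
        _ = (V⁻¹ : Aˣ).val * (v * v * e (s i)) * (V⁻¹ : Aˣ).val := by rw [h4]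
        _ = v * e (s i) * (V⁻¹ : Aˣ).val := by
            rw [← hV]
            simp only [← mul_assoc, Units.inv_mul, one_mul]
    exact h3

/-- Two compatible lifts are conjugate by an isometry which is trivial modulo the ideal. -/
theorem exists_isometry (hnil : ∀ x, φ x = 0 → IsNilpotent x) (h : IsAntiInvolution τ)
    (s : ι → ι) (hs : ∀ i, s (s i) = i) {π π' : ι → A}
    (hπ : CompleteOrthogonalIdempotents π) (hπ' : CompleteOrthogonalIdempotents π')
    (hφ : ∀ i, φ (π' i) = φ (π i)) (hd : ∀ i, τ (π i) = π (s i)) (hd' : ∀ i, τ (π' i) = π' (s i)) :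
    ∃ u : A, φ u = 1 ∧ τ u * u = 1 ∧ u * τ u = 1 ∧ ∀ i, u * π i = π' i * u := by
  set w : A := ∑ j, π' j * π j with hw
  set w' : A := ∑ j, π j * π' j with hw'
  have hφw : φ w = 1 := comp_one φ hπ hφ
  have hφw' : φ w' = 1 := comp_one φ hπ' fun i => (hφ i).symm
  have hτw : τ w = w' := by
    rw [hw, map_sum]
    have h1 : ∀ j, τ (π' j * π j) = π (s j) * π' (s j) := by
      intro j
      rw [h.mul, hd, hd']
    rw [Finset.sum_congr rfl fun j _ => h1 j]
    exact (Equiv.sum_comp (⟨s, s, hs, hs⟩ : ι ≃ ι) fun j => π j * π' j)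
  have hτw' : τ w' = w := by rw [← hτw, h.inv]
  have hφy : φ (w' * w - 1) = 0 := by rw [map_sub, map_mul, hφw, hφw', mul_one, map_one, sub_self]
  have hy := hnil _ hφy
  have hτy : τ (w' * w - 1) = w' * w - 1 := by rw [map_sub, h.mul, hτw, hτw', h.one]
  obtain ⟨r, hr, g, hg, hrg, hrr⟩ := exists_sqrt (Λ := Λ) hy
  have hrr' : r * r = w' * w := by rw [hrr]; abel
  have hτr : τ r = r := h.fix hτy hr
  have hφr : φ r = 1 := by
    rw [hrg, map_add, map_mul, hφy, zero_mul, map_one, add_zero]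
  have hcomm : ∀ i, (w' * w) * π i = π i * (w' * w) := by
    intro i
    have e1 : w * π i = π' i * w := by rw [hw, comp_left hπ, comp_right hπ']
    have e2 : w' * π' i = π i * w' := by rw [hw', comp_left hπ', comp_right hπ]
    rw [mul_assoc, e1, ← mul_assoc, e2, mul_assoc]
  have hrπ : ∀ i, r * π i = π i * r := by
    intro i
    refine commute_adjoin ?_ hr
    rw [sub_mul, mul_sub, hcomm, one_mul, mul_one]
  obtain ⟨V, hV⟩ := isUnit_of φ hnil hφr
  obtain ⟨W, hW⟩ := isUnit_of φ hnil hφw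
  have hVτ : τ (V⁻¹ : Aˣ).val = (V⁻¹ : Aˣ).val := by
    have h1 : r * τ (V⁻¹ : Aˣ).val = 1 := by
      have := h.mul (V⁻¹ : Aˣ).val V
      rw [Units.inv_mul, h.one, hV, hτr] at this
      exact this.symm
    calc τ (V⁻¹ : Aˣ).val = (V⁻¹ : Aˣ).val * (r * τ (V⁻¹ : Aˣ).val) := by
          rw [← hV, ← mul_assoc, Units.inv_mul, one_mul]
      _ = (V⁻¹ : Aˣ).val := by rw [h1, mul_one]
  have hφV : φ (V⁻¹ : Aˣ).val = 1 := by
    refine inv_one φ (x := r) hφr ?_
    rw [← hV, Units.mul_inv]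
  have key : τ (w * (V⁻¹ : Aˣ).val) * (w * (V⁻¹ : Aˣ).val) = 1 := by
    rw [h.mul, hVτ, hτw]
    calc (V⁻¹ : Aˣ).val * w' * (w * (V⁻¹ : Aˣ).val) =
        (V⁻¹ : Aˣ).val * (w' * w) * (V⁻¹ : Aˣ).val := by simp only [mul_assoc]
      _ = (V⁻¹ : Aˣ).val * (r * r) * (V⁻¹ : Aˣ).val := by rw [hrr']
      _ = 1 := by
          rw [← hV]
          simp only [mul_assoc, Units.mul_inv, mul_one, Units.inv_mul]
  refine ⟨w * (V⁻¹ : Aˣ).val, by rw [map_mul, hφw, hφV, mul_one], key, ?_, fun i => ?_⟩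
  · have e1 : w * (V⁻¹ : Aˣ).val = ((W * V⁻¹ : Aˣ) : A) := by rw [Units.val_mul, hW]
    have e2 : τ (w * (V⁻¹ : Aˣ).val) = ((W * V⁻¹ : Aˣ)⁻¹ : Aˣ).val := by
      rw [e1] at key ⊢
      exact Units.eq_inv_of_mul_eq_one_right key
    rw [e2, e1, Units.mul_inv]
  · have e1 : w * π i = π' i * w := by rw [hw, comp_left hπ, comp_right hπ']
    have e3 : (V⁻¹ : Aˣ).val * π i = π i * (V⁻¹ : Aˣ).val := by
      have e4 := hrπ i
      rw [← hV] at e4
      calc (V⁻¹ : Aˣ).val * π i = (V⁻¹ : Aˣ).val * (π i * V) * (V⁻¹ : Aˣ).val := by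
            simp only [mul_assoc, Units.mul_inv, mul_one]
        _ = (V⁻¹ : Aˣ).val * (V * π i) * (V⁻¹ : Aˣ).val := by rw [e4]
        _ = π i * (V⁻¹ : Aˣ).val := by rw [← mul_assoc, Units.inv_mul, one_mul]
    rw [mul_assoc, e3, ← mul_assoc, e1, mul_assoc]

end

end Pool.Agent.N64.AF
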