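import Pool.Agent.N64.AF.M6
import Pool.Agent.N64.AF.X1
import Pool.Agent.N64.AF.L1
import Pool.Agent.N64.AF.X6

/-!
# Homologically trivial morphisms modulo the smash nilpotent ones
-/

set_option autoImplicit false

open CategoryTheory Limits MonoidalCategory Module Filter Topology
open Pool.Agent.Y112.SR Pool.Agent.Y112.KD
open scoped ENNReal

namespace Pool.Agent.N64.AF

universe v u w t x

section Mate

variable {C : Type u} [Category.{v} C] [Preadditive C] [MonoidalCategory C]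
  [MonoidalPreadditive C] [SymmetricCategory C]

/-- The contraction. -/
def evL (L L' : C) [ExactPairing L L'] : (L ⊗ L') ⊗ L ⟶ L :=
  (α_ L L' L).hom ≫ (L ◁ ε_ L L') ≫ (ρ_ L).hom

omit [Preadditive C] [MonoidalPreadditive C] [SymmetricCategory C] in
lemma mate_evL {L L' : C} [ExactPairing L L'] (f : L ⟶ L) :
    ((η_ L L' ≫ (f ▷ L')) ▷ L) ≫ evL L L' = (λ_ L).hom ≫ f := by
  rw [evL, comp_whiskerRight, Category.assoc, associator_naturality_left_assoc,
    ← whisker_exchange_assoc, rightUnitor_naturality, ExactPairing.evaluation_coevaluation_assoc,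
    Iso.inv_hom_id_assoc]

omit [MonoidalPreadditive C] [SymmetricCategory C] in
lemma pow_mate {L L' : C} [ExactPairing L L'] (f : End L) (k : ℕ) :
    ∃ c : tp (L ⊗ L') k ⊗ L ⟶ L, ((f ^ k : End L) : L ⟶ L) =
      (λ_ L).inv ≫ (tpow (η_ L L' ≫ ((f : L ⟶ L) ▷ L')) k ▷ L) ≫ c := by
  induction k with
  | zero =>
    refine ⟨(λ_ L).hom, ?_⟩
    rw [pow_zero]
    change 𝟙 L = (λ_ L).inv ≫ (𝟙 (𝟙_ C) ▷ L) ≫ (λ_ L).hom
    rw [id_whiskerRight, Category.id_comp, Iso.inv_hom_id]
  | succ k ih =>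
    obtain ⟨c, hc⟩ := ih
    refine ⟨(α_ _ _ _).hom ≫ (tp (L ⊗ L') k ◁ evL L L') ≫ c, ?_⟩
    have hk : ((f ^ (k + 1) : End L) : L ⟶ L) = (f : L ⟶ L) ≫ ((f ^ k : End L) : L ⟶ L) := by
      rw [pow_succ]
      rfl
    rw [hk, hc]
    clear hk hc
    have h1 : (tpow (η_ L L' ≫ (f ▷ L')) (k + 1) ▷ L) ≫ (α_ _ _ _).hom ≫
        (tp (L ⊗ L') k ◁ evL L L') =
        (tpow (η_ L L' ≫ (f ▷ L')) k ▷ L) ≫ (tp (L ⊗ L') k ◁ f) := by
      change ((tpow (η_ L L' ≫ (f ▷ L')) k ≫ (ρ_ (tp (L ⊗ L') k)).inv ≫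
        (tp (L ⊗ L') k ◁ (η_ L L' ≫ (f ▷ L')))) ▷ L) ≫ (α_ _ _ _).hom ≫
        (tp (L ⊗ L') k ◁ evL L L') = _
      rw [comp_whiskerRight, comp_whiskerRight, Category.assoc, Category.assoc,
        associator_naturality_middle_assoc, ← MonoidalCategory.whiskerLeft_comp, mate_evL,
        MonoidalCategory.whiskerLeft_comp, triangle_assoc, inv_hom_whiskerRight_assoc]
    have h2 : (λ_ L).inv ≫ (tpow (η_ L L' ≫ (f ▷ L')) (k + 1) ▷ L) ≫ (α_ _ _ _).hom ≫
        (tp (L ⊗ L') k ◁ evL L L') ≫ c =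
        (λ_ L).inv ≫ ((tpow (η_ L L' ≫ (f ▷ L')) k ▷ L) ≫ (tp (L ⊗ L') k ◁ f)) ≫ c := by
      rw [← h1]
      simp only [Category.assoc]
    rw [h2, ← whisker_exchange]
    simp only [Category.assoc]
    rw [← leftUnitor_inv_naturality_assoc]

/-- An endomorphism whose class is smash nilpotent is nilpotent. -/
lemma nil_of_mate {L L' : C} [ExactPairing L L'] (f : End L)
    (h : SmashNil (η_ L L' ≫ ((f : L ⟶ L) ▷ L'))) : IsNilpotent f := by
  obtain ⟨k, hk⟩ := h
  obtain ⟨c, hc⟩ := pow_mate (L' := L') f k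
  refine ⟨k, ?_⟩
  rw [hk, MonoidalPreadditive.zero_whiskerRight, zero_comp, comp_zero] at hc
  exact hc

end Mate

variable {C : Type u} [Category.{v} C] [Preadditive C] [MonoidalCategory C]
  [MonoidalPreadditive C] [SymmetricCategory C] [RightRigidCategory C]
  {Λ : Type t} [Field Λ] [CharZero Λ] [Linear Λ C] [MonoidalLinear Λ C]
  {K : Type w} [Field K] [IsAlgClosed K] [Algebra Λ K] {R : SuperRealisation C K}

/-- The homologically trivial morphisms from the unit object to `Z` (the homologically trivial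
cycles) modulo the smash nilpotent ones. -/
abbrev HomModSmash (hR : IsReal Λ R) (Z : C) : Type _ :=
  homSub hR (𝟙_ C) Z ⧸ (smashSub Λ Z).comap (homSub hR (𝟙_ C) Z).subtype

/-- The homologically trivial morphisms, a family of subspaces. -/
def homS1 (hR : IsReal Λ R) (Z : C) : Submodule Λ ((homF Λ (𝟙_ C)).obj Z) := homSub hR (𝟙_ C) Z

omit [IsAlgClosed K] [CharZero Λ] [MonoidalPreadditive C] [RightRigidCategory C] in
lemma homS1_stab [MonoidalPreadditive C] [RightRigidCategory C] [CharZero Λ] (hR : IsReal Λ R) :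
    IsStab (homF Λ (𝟙_ C)) (homS1 hR) := by
  intro Y Z f a ha
  have h1 := R.H.map_comp (show 𝟙_ C ⟶ Y from a) f
  rw [show R.H.map (show 𝟙_ C ⟶ Y from a) = 0 from ha, zero_comp] at h1
  exact h1

/-- The smash nilpotent ones among them. -/
def smashS1 (hR : IsReal Λ R) (Z : C) :
    Submodule Λ ((sub (homF Λ (𝟙_ C)) (homS1 hR) (homS1_stab hR)).obj Z) :=
  (smashSub Λ Z).comap (homSub hR (𝟙_ C) Z).subtype

omit [IsAlgClosed K] in
lemma smashS1_stab (hR : IsReal Λ R) :
    IsStab (sub (homF Λ (𝟙_ C)) (homS1 hR) (homS1_stab hR)) (smashS1 hR) := by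
  intro Y Z f a ha
  exact SmashNil.comp (show SmashNil a.1 from ha) f

/-- The functor of the homologically trivial cycles modulo the smash nilpotent ones. -/
noncomputable def hmF (hR : IsReal Λ R) : C ⥤ ModuleCat.{v} Λ :=
  quoS (sub (homF Λ (𝟙_ C)) (homS1 hR) (homS1_stab hR)) (smashS1 hR) (smashS1_stab hR)

noncomputable instance (hR : IsReal Λ R) : (hmF hR).Additive := by
  unfold hmF; infer_instance

noncomputable instance (hR : IsReal Λ R) : (hmF hR).Linear Λ := by
  unfold hmF; infer_instance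

/-- the class -/
noncomputable def hcl (hR : IsReal Λ R) {Z : C} (α : 𝟙_ C ⟶ Z) (hα : R.H.map α = 0) :
    (hmF hR).obj Z := Submodule.Quotient.mk (⟨α, hα⟩ : homSub hR (𝟙_ C) Z)

omit [IsAlgClosed K] in
lemma hcl_map (hR : IsReal Λ R) {Y Z : C} (α : 𝟙_ C ⟶ Y) (hα : R.H.map α = 0) (f : Y ⟶ Z) :
    ((hmF hR).map f).hom (hcl hR α hα) =
      hcl hR (α ≫ f) (by rw [R.H.map_comp, hα, zero_comp]) := rfl

omit [IsAlgClosed K] in
lemma hcl_eq_zero (hR : IsReal Λ R) {Z : C} (α : 𝟙_ C ⟶ Z) (hα : R.H.map α = 0) :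
    hcl hR α hα = 0 ↔ SmashNil α :=
  (Submodule.Quotient.mk_eq_zero _).trans Iff.rfl

omit [IsAlgClosed K] in
/-- If the action of a homologically trivial endomorphism of `T` on the classes is nilpotent then the
endomorphism is nilpotent. -/
lemma nil_of_act (hR : IsReal Λ R) {L L' : C} [ExactPairing L L'] (f : End L)
    (hf : R.H.map (f : L ⟶ L) = 0)
    (hn : IsNilpotent (((hmF hR).map ((f : L ⟶ L) ▷ L')).hom :
      Module.End Λ ((hmF hR).obj (L ⊗ L')))) : IsNilpotent f := by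
  obtain ⟨k, hk⟩ := hn
  have h0 : ∀ g : L ⟶ L, R.H.map g = 0 → R.H.map (η_ L L' ≫ (g ▷ L')) = 0 := by
    intro g hg
    rw [R.H.map_comp, Functor.Monoidal.map_whiskerRight, hg]
    simp
  have hpow : ∀ j : ℕ, R.H.map ((f ^ (j + 1) : End L) : L ⟶ L) = 0 := by
    intro j
    have hk : ((f ^ (j + 1) : End L) : L ⟶ L) = (f : L ⟶ L) ≫ ((f ^ j : End L) : L ⟶ L) := by
      rw [pow_succ]
      rfl
    rw [hk, R.H.map_comp, hf, zero_comp]
  have h1 : ∀ j : ℕ, ((((hmF hR).map ((f : L ⟶ L) ▷ L')).hom :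
      Module.End Λ ((hmF hR).obj (L ⊗ L'))) ^ j)
      (hcl hR (η_ L L' ≫ ((f : L ⟶ L) ▷ L')) (h0 _ hf)) =
      hcl hR (η_ L L' ≫ (((f ^ (j + 1) : End L) : L ⟶ L) ▷ L')) (h0 _ (hpow j)) := by
    intro j
    induction j with
    | zero =>
      rw [pow_zero, Module.End.one_apply]
      congr 3
      exact (pow_one f).symm
    | succ j ih =>
      rw [pow_succ', Module.End.mul_apply, ih, hcl_map]
      congr 1
      rw [Category.assoc, ← comp_whiskerRight]
      congr 2
      exact (pow_succ' f (j + 1)).symm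
  have h2 := h1 k
  rw [hk, LinearMap.zero_apply] at h2
  have h3 := (hcl_eq_zero hR _ (h0 _ (hpow k))).1 h2.symm
  obtain ⟨l, hl⟩ := nil_of_mate _ h3
  refine ⟨(k + 1) * l, ?_⟩
  rw [pow_mul]
  exact hl

/-- One inequality implies that the homologically trivial endomorphisms of `T` are nilpotent. -/
theorem nil_of_one {T : C} [ExactPairing T T] (h : IsPow Λ R T) {a : ℕ}
    (hlt : dimE Λ (HomModSmash h.real (tp T (a + 2))) <
      (((a + 1) * numRank Λ (tp T a) : ℕ) : ℕ∞)) (f : End T)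
    (hf : R.H.map (f : T ⟶ T) = 0) : IsNilpotent f := by
  have hR := h.real
  have hfin : Module.Finite Λ ((hmF hR).obj (tp T (a + 2))) := by
    by_contra hc
    have h1 := dimE_top hc
    have h2 : dimE Λ (HomModSmash hR (tp T (a + 2))) = ⊤ := h1
    rw [h2] at hlt
    exact not_top_lt hlt
  let G : C ⥤ ModuleCat.{v} Λ := tensorRight T ⋙ hmF hR
  have : G.Additive := inferInstance
  have : G.Linear Λ := inferInstance
  let y : tp T 1 ⟶ tp T 1 := (λ_ T).hom ≫ (f : T ⟶ T) ≫ (λ_ T).inv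
  have hfN : NumTriv (f : T ⟶ T) := numTriv_of_map hR hf
  have hyN : NumTriv y := NumTriv.comp hR hfN _ _
  by_contra hnn
  have hn : ¬ IsNilpotent ((G.map y).hom : Module.End Λ (G.obj (tp T 1))) := by
    intro hnil
    apply hnn
    apply nil_of_act (L' := T) hR f hf
    have h2 := nil_retract (C := C) (P := T) (U := tp T 1) (λ_ T).inv (λ_ T).hom
      (Iso.inv_hom_id _) G (f : T ⟶ T) hnil
    exact h2
  have hm : 1 * a + 1 = a + 1 := by ring
  have hfin' : Module.Finite Λ (G.obj (tp T (1 * a + 1))) := by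
    rw [hm]
    exact hfin
  have h1 := Pool.Agent.N945.AFE3.phantom_low h G (m := 1) (a := a) hfin' hyN hn
  rw [hm, one_mul] at h1
  have h2 : dimE Λ (HomModSmash hR (tp T (a + 2))) = (finrank Λ (G.obj (tp T (a + 1))) : ℕ∞) := by
    have : Module.Finite Λ (HomModSmash hR (tp T (a + 2))) := hfin
    exact dimE_eq
  rw [h2] at hlt
  exact absurd h1 (not_le.2 (by exact_mod_cast hlt))

/-- The formal properties of the transposition of correspondences: a linear anti-involution of the ring of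
the endomorphisms of `T`, compatible with homological equivalence. -/
structure IsTransposition (R : SuperRealisation C K) (Λ : Type t) [Field Λ] [Linear Λ C] {T : C}
    (τ : End T →ₗ[Λ] End T) : Prop where
  /-- the transpose of a composition -/
  comp : ∀ f g : T ⟶ T, τ (f ≫ g) = (τ g : T ⟶ T) ≫ (τ f : T ⟶ T)
  /-- the transpose of the transpose -/
  invol : ∀ f : T ⟶ T, τ (τ f) = f
  /-- homologically trivial endomorphisms -/
  hom : ∀ f : T ⟶ T, R.H.map f = 0 → R.H.map (τ f : T ⟶ T) = 0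

/-- The realisation as a homomorphism of rings. -/
noncomputable def realHom (R : SuperRealisation C K) (T : C) : End T →+* End (R.H.obj T) where
  toFun f := R.H.map (f : T ⟶ T)
  map_one' := R.H.map_id T
  map_mul' f g := R.H.map_comp (g : T ⟶ T) (f : T ⟶ T)
  map_zero' := R.H.map_zero T T
  map_add' f g := Functor.map_add (F := R.H) (f := (f : T ⟶ T)) (g := (g : T ⟶ T))

/-- The endomorphisms `p i` are, modulo homological equivalence, a complete system of orthogonal
idempotents. -/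
structure IsKunneth (R : SuperRealisation C K) {T : C} {ι : Type*} [Fintype ι] (p : ι → (T ⟶ T)) :
    Prop where
  idem : ∀ i, R.H.map (p i) ≫ R.H.map (p i) = R.H.map (p i)
  ortho : ∀ i j, i ≠ j → R.H.map (p i) ≫ R.H.map (p j) = 0
  complete : R.H.map (∑ i, p i) = 𝟙 _

/-- The endomorphisms `π i` are a complete system of orthogonal idempotents with the same realisations
as the `p i`. -/
structure IsLift (R : SuperRealisation C K) {T : C} {ι : Type*} [Fintype ι] (p π : ι → (T ⟶ T)) :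
    Prop where
  idem : ∀ i, π i ≫ π i = π i
  ortho : ∀ i j, i ≠ j → π i ≫ π j = 0
  complete : ∑ i, π i = 𝟙 T
  real : ∀ i, R.H.map (π i) = R.H.map (p i)

/-- **One inequality** implies the existence of self-dual Chow-Künneth decompositions, and their
uniqueness up to isometries which are trivial on cohomology. -/
theorem selfdual_of_one {T : C} [ExactPairing T T] (h : IsPow Λ R T) {a : ℕ}
    (hlt : dimE Λ (HomModSmash h.real (tp T (a + 2))) <
      (((a + 1) * numRank Λ (tp T a) : ℕ) : ℕ∞)) :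
    (∀ f : End T, R.H.map (f : T ⟶ T) = 0 → IsNilpotent f) ∧
    ∀ {ι : Type} [Fintype ι] (s : ι → ι) (_ : ∀ i, s (s i) = i) (D : Subalgebra Λ (End T))
      (τ : End T →ₗ[Λ] End T) (_ : IsTransposition R Λ τ) (_ : ∀ f ∈ D, τ f ∈ D)
      (p : ι → (T ⟶ T)) (_ : IsKunneth R p) (_ : ∀ i, (p i : End T) ∈ D)
      (_ : ∀ i, R.H.map (τ (p i) : T ⟶ T) = R.H.map (p (s i))),
      (∃ π : ι → (T ⟶ T), IsLift R p π ∧ (∀ i, (π i : End T) ∈ D) ∧ ∀ i, τ (π i) = π (s i)) ∧
      ∀ π π' : ι → (T ⟶ T), IsLift R p π → (∀ i, (π i : End T) ∈ D) → (∀ i, τ (π i) = π (s i)) →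
        IsLift R p π' → (∀ i, (π' i : End T) ∈ D) → (∀ i, τ (π' i) = π' (s i)) →
        ∃ u : T ⟶ T, (u : End T) ∈ D ∧ R.H.map u = 𝟙 _ ∧ u ≫ (τ u : T ⟶ T) = 𝟙 T ∧
          (τ u : T ⟶ T) ≫ u = 𝟙 T ∧ ∀ i, π i ≫ u = u ≫ π' i := by
  have hnil := nil_of_one h hlt
  refine ⟨hnil, ?_⟩
  intro ι _ s hs D τ hτ hτD p hp hpD hps
  let τ' : D →ₗ[Λ] D := τ.restrict (p := Subalgebra.toSubmodule D)
    (q := Subalgebra.toSubmodule D) hτD
  let φ : D →+* End (R.H.obj T) := (realHom R T).comp D.val.toRingHom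
  have hnil' : ∀ x : D, φ x = 0 → IsNilpotent x := by
    intro x hx
    obtain ⟨k, hk⟩ := hnil x.1 hx
    exact ⟨k, Subtype.ext hk⟩
  have hanti : IsAntiInvolution τ' :=
    ⟨fun a b => Subtype.ext (hτ.comp b.1 a.1), fun a => Subtype.ext (hτ.invol a.1)⟩
  let p' : ι → D := fun i => ⟨p i, hpD i⟩
  have hp' : CompleteOrthogonalIdempotents (φ ∘ p') := by
    refine ⟨⟨fun i => hp.idem i, fun i j hij => hp.ortho j i (Ne.symm hij)⟩, ?_⟩
    change ∑ i, realHom R T (p i) = 1
    rw [← map_sum]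
    exact hp.complete
  constructor
  · obtain ⟨π, h1, h2, h3⟩ := exists_selfdual φ hnil' hanti (fun x hx => hτ.hom x.1 hx) s hs p'
      hp' hps
    refine ⟨fun i => (π i).1, ⟨fun i => congrArg Subtype.val (h1.idem i),
      fun i j hij => congrArg Subtype.val (h1.ortho (Ne.symm hij)), ?_, h2⟩, fun i => (π i).2,
      fun i => congrArg Subtype.val (h3 i)⟩
    have h4 := congrArg D.val h1.complete
    rw [map_sum] at h4
    exact h4
  · intro π π' hπ hπD hd hπ' hπD' hd'
    have hlift : ∀ (π : ι → (T ⟶ T)) (_ : IsLift R p π) (hD : ∀ i, (π i : End T) ∈ D),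
        CompleteOrthogonalIdempotents (fun i => (⟨π i, hD i⟩ : D)) := by
      intro π hπ hD
      refine ⟨⟨fun i => Subtype.ext (hπ.idem i),
        fun i j hij => Subtype.ext (hπ.ortho j i (Ne.symm hij))⟩, ?_⟩
      have h5 : D.val (∑ i, (⟨π i, hD i⟩ : D)) = ∑ i, (π i : End T) := map_sum _ _ _
      exact Subtype.ext (h5.trans hπ.complete)
    obtain ⟨u, h1, h2, h3, h4⟩ := exists_isometry φ hnil' hanti s hs (hlift π hπ hπD)
      (hlift π' hπ' hπD') (fun i => (hπ'.real i).trans (hπ.real i).symm)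
      (fun i => Subtype.ext (hd i)) (fun i => Subtype.ext (hd' i))
    exact ⟨u.1, u.2, h1, congrArg Subtype.val h2, congrArg Subtype.val h3,
      fun i => congrArg Subtype.val (h4 i)⟩

end Pool.Agent.N64.AF
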